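import Pool.Agent.Helper1.FG.Defs

/-! FG-3: identities for `alp r x y = det (x, y, r_1, .., r_k)`.
`cram3`: expand along the last column the determinant of size `k + 3` with rows `(x, c·x)`, `(y, c·y)`, `(z, c·z)`, `(r_l, 0)`: it is
zero because the last column is a combination of the others.  `cram2` is Cramer's rule (`Matrix.cramer`,
`Matrix.mulVec_cramer`). -/

set_option autoImplicit false

namespace Pool.Agent.Helper1.FG

open MvPolynomial
open scoped BigOperators
open Pool.Agent.Helper71.FL

section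
variable {S : Type} [CommRing S] {k N : ℕ} (r : Fin k → Fin (k + 2) → S)

/-- the coefficients of the expansion along the first row -/
private noncomputable def cf (y : Fin (k + 2) → S) (j : Fin (k + 2)) : S :=
  (-1) ^ (j : ℕ) * Matrix.det (Matrix.of (fun a b : Fin (k + 1) =>
    (Fin.cons y r : Fin (k + 1) → Fin (k + 2) → S) a (j.succAbove b)))

private theorem alp_cf (x y : Fin (k + 2) → S) : alp r x y = ∑ j, x j * cf r y j := by
  unfold alp
  rw [Matrix.det_succ_row_zero]
  refine Finset.sum_congr rfl fun j _ => ?_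
  unfold cf
  have h1 : (Matrix.of (Fin.cons x (Fin.cons y r) : Fin (k + 2) → Fin (k + 2) → S)).submatrix
      Fin.succ j.succAbove = Matrix.of (fun a b : Fin (k + 1) =>
        (Fin.cons y r : Fin (k + 1) → Fin (k + 2) → S) a (j.succAbove b)) := by
    ext a b
    simp [Matrix.submatrix_apply]
  rw [h1]
  have h2 : (Matrix.of (Fin.cons x (Fin.cons y r) : Fin (k + 2) → Fin (k + 2) → S)) 0 j = x j := rfl
  rw [h2]
  ring

theorem alp_self (x : Fin (k + 2) → S) : alp r x x = 0 := by
  refine Matrix.det_zero_of_row_eq (i := 0) (j := 1) ?_ ?_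
  · exact Fin.zero_ne_one
  · rfl

theorem alp_swap (x y : Fin (k + 2) → S) : alp r x y = - alp r y x := by
  have h1 : (Fin.cons x (Fin.cons y r) : Fin (k + 2) → Fin (k + 2) → S) =
      (Fin.cons y (Fin.cons x r) : Fin (k + 2) → Fin (k + 2) → S) ∘ Equiv.swap 0 1 := by
    funext a
    refine Fin.cases ?_ (fun a => ?_) a
    · simp only [Function.comp_apply, Equiv.swap_apply_left]
      rfl
    · refine Fin.cases ?_ (fun a => ?_) a
      · have : (Fin.succ 0 : Fin (k + 2)) = 1 := rfl
        simp only [Function.comp_apply, this, Equiv.swap_apply_right]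
        rfl
      · have h2 : Equiv.swap (0 : Fin (k + 2)) 1 a.succ.succ = a.succ.succ := by
          refine Equiv.swap_apply_of_ne_of_ne (Fin.succ_ne_zero _) ?_
          intro h
          exact Fin.succ_ne_zero a (Fin.succ_injective _ h)
        simp only [Function.comp_apply, h2]
        rfl
  unfold alp
  rw [h1]
  exact (Matrix.detRowAlternating (n := Fin (k + 2)) (R := S)).map_swap
    (Fin.cons y (Fin.cons x r) : Fin (k + 2) → Fin (k + 2) → S) Fin.zero_ne_one

theorem alp_comb {κ : Type} [Fintype κ] (u : κ → S) (x : κ → Fin (k + 2) → S) (y : Fin (k + 2) → S) :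
    alp r (fun i => ∑ a, u a * x a i) y = ∑ a, u a * alp r (x a) y := by
  rw [alp_cf]
  simp only [alp_cf, Finset.sum_mul, Finset.mul_sum]
  rw [Finset.sum_comm]
  refine Finset.sum_congr rfl fun a _ => Finset.sum_congr rfl fun j _ => ?_
  ring

theorem alp_add (x x' y : Fin (k + 2) → S) :
    alp r (fun i => x i + x' i) y = alp r x y + alp r x' y := by
  simp only [alp_cf]
  rw [← Finset.sum_add_distrib]
  refine Finset.sum_congr rfl fun j _ => ?_
  ring

theorem alp_smul (u : S) (x y : Fin (k + 2) → S) : alp r (fun i => u * x i) y = u * alp r x y := by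
  simp only [alp_cf]
  rw [Finset.mul_sum]
  refine Finset.sum_congr rfl fun j _ => ?_
  ring

theorem alp_r (l : Fin k) (y : Fin (k + 2) → S) : alp r (r l) y = 0 := by
  refine Matrix.det_zero_of_row_eq (i := 0) (j := l.succ.succ) ?_ ?_
  · exact (Fin.succ_ne_zero _).symm
  · rfl

theorem alp_std (x e : Fin (k + 2) → S) :
    alp r x e = ∑ j, x j * alp r (Pi.single j 1) e := by
  rw [alp_cf]
  refine Finset.sum_congr rfl fun j _ => ?_
  congr 1
  rw [alp_cf, Finset.sum_eq_single j]
  · rw [Pi.single_eq_same, one_mul]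
  · intro i _ hi
    rw [Pi.single_eq_of_ne hi, zero_mul]
  · intro h
    exact absurd (Finset.mem_univ _) h

theorem alp_mem (x y : Fin (k + 2) → S) : alp r x y ∈ MinI r := by
  rw [alp_std]
  refine Ideal.sum_mem _ fun j _ => Ideal.mul_mem_left _ _ ?_
  rw [alp_swap, alp_std]
  refine Ideal.neg_mem_iff _ |>.2 ?_
  refine Ideal.sum_mem _ fun i _ => Ideal.mul_mem_left _ _ ?_
  exact Ideal.subset_span ⟨(i, j), rfl⟩

theorem alp_map {S' : Type} [CommRing S'] (φ : S →+* S') (x y : Fin (k + 2) → S) :
    alp (fun l i => φ (r l i)) (fun i => φ (x i)) (fun i => φ (y i)) = φ (alp r x y) := by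
  unfold alp
  rw [RingHom.map_det]
  congr 1
  ext a b
  simp only [RingHom.mapMatrix_apply, Matrix.map_apply, Matrix.of_apply]
  refine Fin.cases ?_ (fun a => ?_) a
  · rfl
  · refine Fin.cases ?_ (fun a => ?_) a
    · rfl
    · rfl

/-- the matrix with rows `(c·x, x)`, `(c·y, y)`, `(c·z, z)`, `(0, r_l)` -/
private def ev3 (c x y z : Fin (k + 2) → S) : Matrix (Fin (k + 3)) (Fin (k + 3)) S :=
  Matrix.of (Fin.cons (Fin.cons (∑ i, c i * x i) x) (Fin.cons (Fin.cons (∑ i, c i * y i) y)
    (Fin.cons (Fin.cons (∑ i, c i * z i) z) (fun l => Fin.cons 0 (r l)))) :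
      Fin (k + 3) → Fin (k + 3) → S)

private theorem ev3_det (c x y z : Fin (k + 2) → S) : (ev3 r c x y z).det =
    alp r y z * (∑ i, c i * x i) - alp r x z * (∑ i, c i * y i) + alp r x y * (∑ i, c i * z i) := by
  rw [Matrix.det_succ_column_zero, Fin.sum_univ_succ, Fin.sum_univ_succ, Fin.sum_univ_succ]
  have h4 : ∑ i : Fin k, (-1) ^ ((i.succ.succ.succ : Fin (k + 3)) : ℕ) *
      ev3 r c x y z i.succ.succ.succ 0 *
      ((ev3 r c x y z).submatrix i.succ.succ.succ.succAbove Fin.succ).det = 0 := by
    refine Finset.sum_eq_zero fun i _ => ?_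
    have : ev3 r c x y z i.succ.succ.succ 0 = 0 := rfl
    rw [this]
    ring
  rw [h4]
  have h1 : ((ev3 r c x y z).submatrix (Fin.succAbove 0) Fin.succ).det = alp r y z := by
    unfold alp
    congr 1
    ext a b
    rw [Matrix.submatrix_apply, Fin.succAbove_zero]
    refine Fin.cases ?_ (fun a => ?_) a
    · rfl
    · refine Fin.cases ?_ (fun a => ?_) a
      · rfl
      · rfl
  have h2 : ((ev3 r c x y z).submatrix (Fin.succAbove (Fin.succ 0)) Fin.succ).det = alp r x z := by
    unfold alp
    congr 1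
    ext a b
    rw [Matrix.submatrix_apply]
    refine Fin.cases ?_ (fun a => ?_) a
    · rfl
    · refine Fin.cases ?_ (fun a => ?_) a
      · rw [Fin.succ_succAbove_succ, Fin.succAbove_zero]
        rfl
      · rw [Fin.succ_succAbove_succ, Fin.succAbove_zero]
        rfl
  have h3 : ((ev3 r c x y z).submatrix (Fin.succAbove (Fin.succ (Fin.succ 0))) Fin.succ).det =
      alp r x y := by
    unfold alp
    congr 1
    ext a b
    rw [Matrix.submatrix_apply]
    refine Fin.cases ?_ (fun a => ?_) a
    · rfl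
    · refine Fin.cases ?_ (fun a => ?_) a
      · rw [Fin.succ_succAbove_succ]
        rfl
      · rw [Fin.succ_succAbove_succ, Fin.succ_succAbove_succ, Fin.succAbove_zero]
        rfl
  rw [h1, h2, h3]
  have e0 : ev3 r c x y z 0 0 = ∑ i, c i * x i := rfl
  have e1 : ev3 r c x y z (Fin.succ 0) 0 = ∑ i, c i * y i := rfl
  have e2 : ev3 r c x y z (Fin.succ (Fin.succ 0)) 0 = ∑ i, c i * z i := rfl
  rw [e0, e1, e2]
  simp only [Fin.val_zero, Fin.val_succ]
  ring

theorem cram3 (c : Fin (k + 2) → S) (hc : ∀ l, ∑ i, c i * r l i = 0) (x y z : Fin (k + 2) → S) :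
    alp r y z * (∑ i, c i * x i) - alp r x z * (∑ i, c i * y i) + alp r x y * (∑ i, c i * z i) = 0 := by
  have h1 := ev3_det r c x y z
  have h2 : (ev3 r c x y z).det = 0 := by
    have h3 : ev3 r c x y z = (ev3 r c x y z).updateCol 0
        (fun a => ∑ i, (Fin.cons 0 c : Fin (k + 3) → S) i • (ev3 r c x y z) a i) := by
      ext a b
      refine Fin.cases ?_ (fun b => ?_) b
      · rw [Matrix.updateCol_self, Fin.sum_univ_succ]
        simp only [Fin.cons_zero, Fin.cons_succ, smul_eq_mul, zero_mul, zero_add]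
        refine Fin.cases ?_ (fun a => ?_) a
        · rfl
        · refine Fin.cases ?_ (fun a => ?_) a
          · rfl
          · refine Fin.cases ?_ (fun a => ?_) a
            · rfl
            · exact (hc a).symm
      · rw [Matrix.updateCol_ne (Fin.succ_ne_zero b)]
    rw [h3, Matrix.det_updateCol_sum]
    simp
  rw [← h1, h2]

theorem alp_pf (x y z u : Fin (k + 2) → S) :
    alp r x y * alp r z u - alp r x z * alp r y u + alp r x u * alp r y z = 0 := by
  have h1 : ∀ v : Fin (k + 2) → S, ∑ i, alp r (Pi.single i 1) u * v i = alp r v u := by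
    intro v
    rw [alp_std r v u]
    exact Finset.sum_congr rfl fun j _ => mul_comm _ _
  have h2 := cram3 r (fun i => alp r (Pi.single i 1) u) (fun l => by rw [h1, alp_r]) x y z
  rw [h1, h1, h1] at h2
  linear_combination h2

/-- Cramer's rule for the basis `x, y, r_1, .., r_k` -/
theorem cram2 (x y : Fin (k + 2) → S) : ∃ adj : (Fin (k + 2) → S) →ₗ[S] (Fin k → S),
    (∀ e i, alp r x y * e i = alp r e y * x i + alp r x e * y i + ∑ l, adj e l * r l i) ∧
    ∀ f : Fin k → S, adj (fun i => ∑ l, f l * r l i) = alp r x y • f := by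
  refine ⟨(LinearMap.funLeft S S (fun l : Fin k => l.succ.succ)).comp (Matrix.cramer
    (Matrix.of (Fin.cons x (Fin.cons y r) : Fin (k + 2) → Fin (k + 2) → S)).transpose), ?_, ?_⟩
  · intro e i
    have h1 := congrFun (Matrix.mulVec_cramer
      (Matrix.of (Fin.cons x (Fin.cons y r) : Fin (k + 2) → Fin (k + 2) → S)).transpose e) i
    rw [Matrix.det_transpose] at h1
    rw [Matrix.mulVec, dotProduct, Fin.sum_univ_succ, Fin.sum_univ_succ] at h1
    have e1 : (Matrix.cramer (Matrix.of (Fin.cons x (Fin.cons y r) :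
        Fin (k + 2) → Fin (k + 2) → S)).transpose e) 0 = alp r e y := by
      rw [Matrix.cramer_transpose_apply]
      unfold alp
      congr 1
      ext a b
      refine Fin.cases ?_ (fun a => ?_) a
      · rw [Matrix.updateRow_self]
        rfl
      · rw [Matrix.updateRow_ne (Fin.succ_ne_zero a)]
        rfl
    have e2 : (Matrix.cramer (Matrix.of (Fin.cons x (Fin.cons y r) :
        Fin (k + 2) → Fin (k + 2) → S)).transpose e) (Fin.succ 0) = alp r x e := by
      rw [Matrix.cramer_transpose_apply]
      unfold alp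
      congr 1
      ext a b
      refine Fin.cases ?_ (fun a => ?_) a
      · rw [Matrix.updateRow_ne (Fin.succ_ne_zero 0).symm]
        rfl
      · refine Fin.cases ?_ (fun a => ?_) a
        · rw [Matrix.updateRow_self]
          rfl
        · rw [Matrix.updateRow_ne (fun h => Fin.succ_ne_zero a (Fin.succ_injective _ h))]
          rfl
    rw [e1, e2] at h1
    have h2 : alp r x y * e i = ((Matrix.of (Fin.cons x (Fin.cons y r) :
        Fin (k + 2) → Fin (k + 2) → S)).det • e) i := rfl
    rw [h2, ← h1]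
    have h3 : ∀ l : Fin k, (Matrix.of (Fin.cons x (Fin.cons y r) :
        Fin (k + 2) → Fin (k + 2) → S)).transpose i l.succ.succ = r l i := fun l => rfl
    have h4 : (Matrix.of (Fin.cons x (Fin.cons y r) :
        Fin (k + 2) → Fin (k + 2) → S)).transpose i 0 = x i := rfl
    have h5 : (Matrix.of (Fin.cons x (Fin.cons y r) :
        Fin (k + 2) → Fin (k + 2) → S)).transpose i (Fin.succ 0) = y i := rfl
    rw [h4, h5]
    simp only [h3, LinearMap.comp_apply, LinearMap.funLeft_apply]
    have h6 : ∀ f g : Fin k → S, ∑ l, f l * g l = ∑ l, g l * f l := fun f g =>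
      Finset.sum_congr rfl fun l _ => mul_comm _ _
    rw [h6]
    ring
  · intro f
    have h1 : (fun i => ∑ l, f l * r l i) = (Matrix.of (Fin.cons x (Fin.cons y r) :
        Fin (k + 2) → Fin (k + 2) → S)).transpose.mulVec
        (Fin.cons 0 (Fin.cons 0 f) : Fin (k + 2) → S) := by
      funext i
      rw [Matrix.mulVec, dotProduct, Fin.sum_univ_succ, Fin.sum_univ_succ]
      have h3 : ∀ l : Fin k, (Matrix.of (Fin.cons x (Fin.cons y r) :
          Fin (k + 2) → Fin (k + 2) → S)).transpose i l.succ.succ = r l i := fun l => rfl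
      simp only [h3, Fin.cons_zero, Fin.cons_succ, mul_zero, zero_add]
      exact Finset.sum_congr rfl fun l _ => mul_comm _ _
    rw [LinearMap.comp_apply, h1, Matrix.cramer_eq_adjugate_mulVec, Matrix.mulVec_mulVec,
      Matrix.adjugate_mul, Matrix.smul_mulVec, Matrix.one_mulVec, Matrix.det_transpose]
    funext l
    rfl

theorem alp_dec (T : Fin N → Fin (k + 2) → S) : Dec (fun a b => alp r (T a) (T b)) := by
  exact ⟨fun i => alp_self r _, fun i j => alp_swap r _ _, fun i j a b => alp_pf r _ _ _ _⟩

theorem LiftI.apply {r : Fin k → Fin (k + 2) → S} {T : Fin N → Fin (k + 2) → S} {g : S}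
    (h : LiftI T r g) (e : Fin (k + 2) → S) : ∃ (w : Fin N → S) (f : Fin k → S), ∀ i,
    g * e i = ∑ a, w a * T a i + ∑ l, f l * r l i := by
  choose w f hwf using h
  refine ⟨fun a => ∑ j, e j * w j a, fun l => ∑ j, e j * f j l, fun i => ?_⟩
  have h1 : g * e i = ∑ j, e j * (g * (Pi.single j 1 : Fin (k + 2) → S) i) := by
    rw [Finset.sum_eq_single i]
    · rw [Pi.single_eq_same]
      ring
    · intro j _ hj
      rw [Pi.single_eq_of_ne (Ne.symm hj)]
      ring
    · intro h
      exact absurd (Finset.mem_univ _) h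
  rw [h1]
  have h2 : ∀ j, e j * (g * (Pi.single j 1 : Fin (k + 2) → S) i) =
      ∑ a, e j * w j a * T a i + ∑ l, e j * f j l * r l i := by
    intro j
    rw [hwf j i, mul_add, Finset.mul_sum, Finset.mul_sum]
    congr 1
    · exact Finset.sum_congr rfl fun a _ => by ring
    · exact Finset.sum_congr rfl fun a _ => by ring
  rw [Finset.sum_congr rfl fun j _ => h2 j, Finset.sum_add_distrib]
  congr 1
  · rw [Finset.sum_comm]
    exact Finset.sum_congr rfl fun a _ => (Finset.sum_mul _ _ _).symm
  · rw [Finset.sum_comm]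
    exact Finset.sum_congr rfl fun a _ => (Finset.sum_mul _ _ _).symm

theorem LiftI.zero (T : Fin N → Fin (k + 2) → S) : LiftI T r 0 := by
  intro j
  refine ⟨0, 0, fun i => ?_⟩
  simp

theorem LiftI.add {r : Fin k → Fin (k + 2) → S} {T : Fin N → Fin (k + 2) → S} {g g' : S}
    (h : LiftI T r g) (h' : LiftI T r g') : LiftI T r (g + g') := by
  intro j
  obtain ⟨w, f, h1⟩ := h j
  obtain ⟨w', f', h2⟩ := h' j
  refine ⟨fun a => w a + w' a, fun l => f l + f' l, fun i => ?_⟩
  rw [add_mul, h1, h2]
  simp only [add_mul, Finset.sum_add_distrib]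
  ring

theorem LiftI.mul {r : Fin k → Fin (k + 2) → S} {T : Fin N → Fin (k + 2) → S} {g : S}
    (h : LiftI T r g) (a : S) : LiftI T r (a * g) := by
  intro j
  obtain ⟨w, f, h1⟩ := h j
  refine ⟨fun b => a * w b, fun l => a * f l, fun i => ?_⟩
  rw [mul_assoc, h1, mul_add, Finset.mul_sum, Finset.mul_sum]
  simp only [mul_assoc]

theorem LiftI.pow {r : Fin k → Fin (k + 2) → S} {T : Fin N → Fin (k + 2) → S} {g : S}
    (h : LiftI T r g) {m : ℕ} (hm : 0 < m) : LiftI T r (g ^ m) := by
  obtain ⟨n, rfl⟩ : ∃ n, m = n + 1 := ⟨m - 1, by omega⟩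
  rw [pow_succ]
  exact h.mul _

theorem LiftI.map {S' : Type} [CommRing S'] (φ : S →+* S') {r : Fin k → Fin (k + 2) → S}
    {T : Fin N → Fin (k + 2) → S} {g : S} (h : LiftI T r g) :
    LiftI (fun a i => φ (T a i)) (fun l i => φ (r l i)) (φ g) := by
  intro j
  obtain ⟨w, f, h1⟩ := h j
  refine ⟨fun a => φ (w a), fun l => φ (f l), fun i => ?_⟩
  have h2 : (Pi.single j 1 : Fin (k + 2) → S') i = φ ((Pi.single j 1 : Fin (k + 2) → S) i) := by
    by_cases hij : i = j
    · subst hij
      rw [Pi.single_eq_same, Pi.single_eq_same, map_one]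
    · rw [Pi.single_eq_of_ne hij, Pi.single_eq_of_ne hij, map_zero]
  rw [h2, ← map_mul, h1, map_add, map_sum, map_sum]
  simp only [map_mul]

theorem LiftI_mnr (T : Fin N → Fin (k + 2) → S) (J : Fin (k + 2) → Fin N ⊕ Fin k) :
    LiftI T r (mnr T r J) := by
  intro j
  have h1 := Matrix.mulVec_cramer
    (Matrix.of (fun a => Sum.elim T r (J a)) : Matrix (Fin (k + 2)) (Fin (k + 2)) S).transpose
    (Pi.single j 1)
  rw [Matrix.det_transpose] at h1
  obtain ⟨c, hc⟩ : ∃ c : Fin (k + 2) → S, ∀ i,
      mnr T r J * (Pi.single j 1 : Fin (k + 2) → S) i = ∑ a, Sum.elim T r (J a) i * c a := by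
    refine ⟨Matrix.cramer (Matrix.of (fun a => Sum.elim T r (J a)) :
      Matrix (Fin (k + 2)) (Fin (k + 2)) S).transpose (Pi.single j 1), fun i => ?_⟩
    exact (congrFun h1 i).symm
  refine ⟨fun b => ∑ a, if J a = Sum.inl b then c a else 0,
    fun l => ∑ a, if J a = Sum.inr l then c a else 0, fun i => ?_⟩
  rw [hc i]
  simp only [Finset.sum_mul]
  rw [Finset.sum_comm, Finset.sum_comm (s := (Finset.univ : Finset (Fin k))),
    ← Finset.sum_add_distrib]
  refine Finset.sum_congr rfl fun a _ => ?_
  rcases hJ : J a with b | l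
  · rw [Finset.sum_eq_single b, Finset.sum_eq_zero]
    · simp only [if_true, Sum.elim_inl]
      ring
    · intro l _
      rw [if_neg (by simp), zero_mul]
    · intro b' _ hb
      rw [if_neg (by simpa using hb.symm), zero_mul]
    · intro h
      exact absurd (Finset.mem_univ _) h
  · rw [Finset.sum_eq_zero, Finset.sum_eq_single l]
    · simp only [if_true, Sum.elim_inr]
      ring
    · intro b' _ hb
      rw [if_neg (by simpa using hb.symm), zero_mul]
    · intro h
      exact absurd (Finset.mem_univ _) h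
    · intro l _
      rw [if_neg (by simp), zero_mul]

end

/-- minors of a matrix with homogeneous entries are homogeneous -/
theorem mnr_hom {R : Type} [CommRing R] {n N k : ℕ} (w : Fin (k + 2) → ℕ) (hw : ∀ i, 0 < w i)
    (s : Fin k → ℕ) (T : Fin N → Fin (k + 2) → MvPolynomial (Fin n) R)
    (r : Fin k → Fin (k + 2) → MvPolynomial (Fin n) R)
    (hT : ∀ a i, (T a i).IsHomogeneous (w i - 1)) (hr : ∀ l i, (r l i).IsHomogeneous (w i + s l))
    (J : Fin (k + 2) → Fin N ⊕ Fin k) : (mnr T r J).IsHomogeneous (dg w s J) := by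
  unfold mnr
  rw [Matrix.det_apply]
  refine IsHomogeneous.sum _ _ _ fun σ _ => ?_
  have h1 : (∏ i, (Matrix.of (fun a => Sum.elim T r (J a)) :
      Matrix (Fin (k + 2)) (Fin (k + 2)) (MvPolynomial (Fin n) R)) (σ i) i).IsHomogeneous
      (∑ i, ((w i - 1) + Sum.elim (fun _ => 0) (fun l => s l + 1) (J (σ i)))) := by
    refine IsHomogeneous.prod _ _ _ fun i _ => ?_
    rw [Matrix.of_apply]
    rcases J (σ i) with b | l
    · exact hT b i
    · have h2 := hr l i
      have h3 : w i + s l = w i - 1 + (s l + 1) := by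
        have := hw i
        omega
      rw [h3] at h2
      exact h2
  rw [Finset.sum_add_distrib, Equiv.sum_comp σ (fun a => Sum.elim (fun _ => 0)
    (fun l => s l + 1) (J a))] at h1
  rcases Int.units_eq_one_or (Equiv.Perm.sign σ) with h | h
  · rw [h, one_smul]
    exact h1
  · rw [h, Units.neg_smul, one_smul]
    exact h1.neg

/-- the entries of `mins` are homogeneous -/
theorem mins_hom {R : Type} [CommRing R] {n k : ℕ} (w : Fin (k + 2) → ℕ)
    (s : Fin k → ℕ) (r : Fin k → Fin (k + 2) → MvPolynomial (Fin n) R)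
    (hr : ∀ l i, (r l i).IsHomogeneous (w i + s l)) (p : Fin (k + 2) × Fin (k + 2)) :
    (mins r p).IsHomogeneous (∑ i, w i + ∑ l, s l - w p.1 - w p.2) := by
  unfold mins
  by_cases hp : p.1 = p.2
  · rw [hp, alp_self]
    exact isHomogeneous_zero _ _ _
  unfold alp
  rw [Matrix.det_apply]
  refine IsHomogeneous.sum _ _ _ fun σ _ => ?_
  have h1 : (∏ i, (Matrix.of (Fin.cons (Pi.single p.1 1) (Fin.cons (Pi.single p.2 1) r) :
      Fin (k + 2) → Fin (k + 2) → MvPolynomial (Fin n) R)) (σ i) i).IsHomogeneous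
      (∑ i, w i + ∑ l, s l - w p.1 - w p.2) := by
    by_cases h1 : σ p.1 = 0
    · by_cases h2 : σ p.2 = Fin.succ 0
      · have h3 : ∑ i, w i + ∑ l, s l - w p.1 - w p.2 =
            ∑ i, (if i = p.1 then 0 else if i = p.2 then 0 else
              w i + (Fin.cons 0 (Fin.cons 0 s) : Fin (k + 2) → ℕ) (σ i)) := by
          have h4 : ∑ i, (if i = p.1 then 0 else if i = p.2 then 0 else
              w i + (Fin.cons 0 (Fin.cons 0 s) : Fin (k + 2) → ℕ) (σ i)) + w p.1 + w p.2 =
              ∑ i, w i + ∑ l, s l := by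
            have h5 : w p.1 = ∑ i, if i = p.1 then w i else 0 := by simp
            have h6 : w p.2 = ∑ i, if i = p.2 then w i else 0 := by simp
            have h7 : ∑ l, s l = ∑ i, (Fin.cons 0 (Fin.cons 0 s) : Fin (k + 2) → ℕ) (σ i) := by
              rw [Equiv.sum_comp σ, Fin.sum_univ_succ, Fin.sum_univ_succ]
              simp
            rw [h5, h6, h7, ← Finset.sum_add_distrib, ← Finset.sum_add_distrib,
              ← Finset.sum_add_distrib]
            refine Finset.sum_congr rfl fun i _ => ?_
            by_cases hi : i = p.1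
            · have hi2 : ¬ i = p.2 := fun h => hp (hi.symm.trans h)
              rw [if_pos hi, if_pos hi, if_neg hi2, hi, h1]
              simp
            · by_cases hi2 : i = p.2
              · rw [if_neg hi, if_neg hi, if_pos hi2, if_pos hi2, hi2, h2]
                simp
              · rw [if_neg hi, if_neg hi, if_neg hi2, if_neg hi2]
                simp
          omega
        rw [h3]
        refine IsHomogeneous.prod _ _ _ fun i _ => ?_
        rw [Matrix.of_apply]
        by_cases hi : i = p.1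
        · rw [if_pos hi, hi, h1, Fin.cons_zero, Pi.single_eq_same]
          exact isHomogeneous_one _ _
        · by_cases hi2 : i = p.2
          · rw [if_neg hi, if_pos hi2, hi2, h2, Fin.cons_succ, Fin.cons_zero, Pi.single_eq_same]
            exact isHomogeneous_one _ _
          · rw [if_neg hi, if_neg hi2]
            have h8 : σ i ≠ 0 := fun h => hi (σ.injective (h.trans h1.symm))
            have h9 : σ i ≠ Fin.succ 0 := fun h => hi2 (σ.injective (h.trans h2.symm))
            obtain ⟨a, ha⟩ := Fin.exists_succ_eq.2 h8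
            have h10 : a ≠ 0 := fun h => h9 (by rw [← ha, h])
            obtain ⟨b, hb⟩ := Fin.exists_succ_eq.2 h10
            rw [← ha, ← hb, Fin.cons_succ, Fin.cons_succ, Fin.cons_succ, Fin.cons_succ]
            exact hr b i
      · have h3 : (∏ i, (Matrix.of (Fin.cons (Pi.single p.1 1) (Fin.cons (Pi.single p.2 1) r) :
            Fin (k + 2) → Fin (k + 2) → MvPolynomial (Fin n) R)) (σ i) i) = 0 := by
          refine Finset.prod_eq_zero (Finset.mem_univ (σ.symm (Fin.succ 0))) ?_
          rw [Equiv.apply_symm_apply, Matrix.of_apply, Fin.cons_succ, Fin.cons_zero,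
            Pi.single_eq_of_ne]
          intro h
          exact h2 (by rw [← h, Equiv.apply_symm_apply])
        rw [h3]
        exact isHomogeneous_zero _ _ _
    · have h3 : (∏ i, (Matrix.of (Fin.cons (Pi.single p.1 1) (Fin.cons (Pi.single p.2 1) r) :
          Fin (k + 2) → Fin (k + 2) → MvPolynomial (Fin n) R)) (σ i) i) = 0 := by
        refine Finset.prod_eq_zero (Finset.mem_univ (σ.symm 0)) ?_
        rw [Equiv.apply_symm_apply, Matrix.of_apply, Fin.cons_zero, Pi.single_eq_of_ne]
        intro h
        exact h1 (by rw [← h, Equiv.apply_symm_apply])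
      rw [h3]
      exact isHomogeneous_zero _ _ _
  rcases Int.units_eq_one_or (Equiv.Perm.sign σ) with h | h
  · rw [h, one_smul]
    exact h1
  · rw [h, Units.neg_smul, one_smul]
    exact h1.neg

end Pool.Agent.Helper1.FG
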