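import Pool.Agent.Helper1.FG.Defs
import Pool.Agent.Helper28.FolReg.Open

/-! FG-1: homogeneous systems of parameters of a polynomial ring are regular sequences, in every order.
Proof: if `A, l` is a regular sequence and `A, g` has no common zero except the origin, then a power of `l` lies in `(A, g)`
by the Nullstellensatz, so `A, g` is a regular sequence as well.  The sequence of the variables is joined to the given one by
steps of this kind, through general members of the pencils spanned by the two (after taking powers of the same degree). -/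

set_option autoImplicit false

namespace Pool.Agent.Helper1.FG

open MvPolynomial
open Pool.Agent.Helper28.FolReg (NZD RegSeq spanL HomI PH sp open_mem hom_mem_of_radical
  RegSeq_append RegSeq_X)

section helpers

variable {N : ℕ} {κ : Type}

private theorem rad_of_triv {f : κ → MvPolynomial (Fin N) ℂ} (h : Triv f)
    {p : MvPolynomial (Fin N) ℂ} (hp : eval (0 : Fin N → ℂ) p = 0) :
    p ∈ (Ideal.span (Set.range f)).radical := by
  rw [← vanishingIdeal_zeroLocus_eq_radical (K := ℂ), mem_vanishingIdeal_iff]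
  intro x hx
  have h0 : x = 0 := h x (fun k => by
    have := (mem_zeroLocus_iff.mp hx) (f k) (Ideal.subset_span ⟨k, rfl⟩)
    rw [← AlgHom.coe_toRingHom, ← AlgHom.toRingHom_eq_coe] at this
    rw [← coe_aeval_eq_eval]
    exact this)
  subst h0
  rw [← coe_aeval_eq_eval] at hp
  exact hp

private theorem ph_eval {p : MvPolynomial (Fin N) ℂ} (hp : PH p) :
    eval (0 : Fin N → ℂ) p = 0 := by
  obtain ⟨e, he, hp⟩ := hp
  rw [eval_zero, constantCoeff_eq]
  exact hp.coeff_eq_zero (by simpa using he.ne)

private theorem triv_of_hom {f : κ → MvPolynomial (Fin N) ℂ} (K : ℕ)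
    (h : ∀ u : MvPolynomial (Fin N) ℂ, u.IsHomogeneous K → u ∈ Ideal.span (Set.range f)) :
    Triv f := by
  intro x hx
  have hle : Ideal.span (Set.range f) ≤ RingHom.ker (eval x) := by
    rw [Ideal.span_le]
    rintro _ ⟨k, rfl⟩
    exact hx k
  ext i
  have h1 := hle (h (X i ^ K) (by simpa using (isHomogeneous_X ℂ i).pow K))
  rw [RingHom.mem_ker, map_pow, eval_X] at h1
  rcases Nat.eq_zero_or_pos K with h0 | h0
  · rw [h0, pow_zero] at h1
    exact absurd h1 one_ne_zero
  · exact (pow_eq_zero_iff h0.ne').mp h1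

private theorem open_triv {r : ℕ} [Fintype κ]
    (F : κ → MvPolynomial (Fin N) (MvPolynomial (Fin r) ℂ)) (d : κ → ℕ)
    (hF : ∀ i, (F i).IsHomogeneous (d i)) (p0 : Fin r → ℂ)
    (h : Triv (fun i => sp p0 (F i))) :
    ∃ hh : MvPolynomial (Fin r) ℂ, eval p0 hh ≠ 0 ∧ ∀ p : Fin r → ℂ, eval p hh ≠ 0 →
      Triv (fun i => sp p (F i)) := by
  obtain ⟨K, hK⟩ := hom_mem_of_radical (fun i => rad_of_triv h (p := X i) (by simp))
  obtain ⟨hh, h0, hp⟩ := open_mem F d hF K p0 hK
  exact ⟨hh, h0, fun p hpp => triv_of_hom K (hp p hpp)⟩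

/-- regular sequence for every enumeration -/
private def RF (f : κ → MvPolynomial (Fin N) ℂ) : Prop :=
  ∀ l : List κ, l.Nodup → (∀ i, i ∈ l) → RegSeq ⊥ (l.map f)

private theorem rf_exch {f g : κ → MvPolynomial (Fin N) ℂ} (k : κ)
    (hne : ∀ i, i ≠ k → f i = g i) (hf : ∀ i, PH (f i)) (hgh : ∀ i, PH (g i)) (hg : Triv g)
    (h : RF f) : RF g := by
  classical
  intro l hl hall
  have hp : (l.erase k ++ [k]).Perm l :=
    (List.perm_append_singleton _ _).trans (List.perm_cons_erase (hall k)).symm
  have h1 : RegSeq ⊥ ((l.erase k ++ [k]).map f) :=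
    h _ (hp.nodup_iff.mpr hl) (fun i => hp.mem_iff.mpr (hall i))
  have hmap : (l.erase k).map f = (l.erase k).map g := by
    apply List.map_congr_left
    intro i hi
    exact hne i (fun hik => (hl.not_mem_erase : k ∉ l.erase k) (hik ▸ hi))
  have h2 : RegSeq ⊥ ((l.erase k ++ [k]).map g) := by
    rw [List.map_append, RegSeq_append, hmap] at h1
    rw [List.map_append, RegSeq_append]
    refine ⟨h1.1, ?_, trivial⟩
    have hlast : NZD (⊥ ⊔ spanL ((l.erase k).map g)) (f k) := h1.2.1
    obtain ⟨n, hn⟩ := rad_of_triv hg (ph_eval (hf k))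
    refine hlast.exchange (n := n) ?_
    refine (Ideal.span_le.mpr ?_ : Ideal.span (Set.range g) ≤ _) hn
    rintro _ ⟨i, rfl⟩
    by_cases hik : i = k
    · subst hik
      exact Ideal.mem_sup_right (Ideal.mem_span_singleton_self _)
    · apply Ideal.mem_sup_left
      apply Ideal.mem_sup_right
      apply Ideal.subset_span
      exact List.mem_map_of_mem ((List.mem_erase_of_ne hik).mpr (hall i))
  refine RegSeq.perm (hp.map g) ⊥ HomI.bot ?_ h2
  intro q hq
  rw [List.mem_map] at hq
  obtain ⟨i, _, rfl⟩ := hq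
  exact hgh i

private theorem rf_mix [Fintype κ] [DecidableEq κ] {u v : κ → MvPolynomial (Fin N) ℂ}
    (hu : ∀ i, PH (u i)) (hv : ∀ i, PH (v i))
    (hT : ∀ T : Finset κ, Triv (fun i => if i ∈ T then v i else u i)) (h : RF u) : RF v := by
  have key : ∀ T : Finset κ, RF (fun i => if i ∈ T then v i else u i) := by
    intro T
    induction T using Finset.induction_on with
    | empty => simpa using h
    | insert a T ha ih =>
      refine rf_exch a ?_ ?_ ?_ (hT _) ih
      · intro i hi
        simp [Finset.mem_insert, hi]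
      · intro i
        by_cases hi : i ∈ T
        · simp only [if_pos hi]; exact hv i
        · simp only [if_neg hi]; exact hu i
      · intro i
        by_cases hi : i ∈ insert a T
        · simp only [if_pos hi]; exact hv i
        · simp only [if_neg hi]; exact hu i
  simpa using key Finset.univ

private theorem rseq_of_rf [Fintype κ] {f : κ → MvPolynomial (Fin N) ℂ} (h : RF f) :
    RSeq f := by
  classical
  intro T k hk a ha
  set A := (Finset.univ.filter (fun i => i ∈ T)).toList with hA
  set B := (Finset.univ.filter (fun i => i ∉ T ∧ i ≠ k)).toList with hB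
  have h1 := h (A ++ k :: B) (by
      rw [List.nodup_append]
      refine ⟨Finset.nodup_toList _, ?_, ?_⟩
      · rw [List.nodup_cons]
        refine ⟨?_, Finset.nodup_toList _⟩
        simp [hB]
      · intro x hx y hy hxy
        subst hxy
        rw [hA, Finset.mem_toList, Finset.mem_filter] at hx
        rw [List.mem_cons, hB, Finset.mem_toList, Finset.mem_filter] at hy
        rcases hy with hy | hy
        · exact hk (hy ▸ hx.2)
        · exact hy.2.1 hx.2)
    (by
      intro i
      rw [List.mem_append, List.mem_cons, hA, hB, Finset.mem_toList, Finset.mem_toList,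
        Finset.mem_filter, Finset.mem_filter]
      by_cases h1 : i ∈ T
      · exact Or.inl ⟨Finset.mem_univ _, h1⟩
      · by_cases h2 : i = k
        · exact Or.inr (Or.inl h2)
        · exact Or.inr (Or.inr ⟨Finset.mem_univ _, h1, h2⟩))
  rw [List.map_append, RegSeq_append] at h1
  have h2 : (⊥ : Ideal (MvPolynomial (Fin N) ℂ)) ⊔ spanL (A.map f) = Ideal.span (f '' T) := by
    rw [bot_sup_eq]
    unfold spanL
    congr 1
    ext y
    simp [hA]
  have h3 := h1.2.1
  rw [h2] at h3
  exact h3 a ha

end helpers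

theorem Triv.pow {N : ℕ} {κ : Type} {f : κ → MvPolynomial (Fin N) ℂ} (h : Triv f) (m : κ → ℕ)
    (hm : ∀ i, 0 < m i) : Triv (fun i => f i ^ m i) := by
  intro x hx
  apply h
  intro k
  have := hx k
  rw [map_pow] at this
  exact (pow_eq_zero_iff (hm k).ne').mp this

theorem rseq_of_triv {N : ℕ} {κ : Type} [Fintype κ] (hκ : Fintype.card κ = N)
    (f : κ → MvPolynomial (Fin N) ℂ) (e : κ → ℕ) (he : ∀ i, 0 < e i)
    (hf : ∀ i, (f i).IsHomogeneous (e i)) (h : Triv f) : RSeq f := by
  classical
  apply rseq_of_rf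
  obtain ⟨ε⟩ : Nonempty (κ ≃ Fin N) := ⟨Fintype.equivFinOfCardEq hκ⟩
  set D : ℕ := ∏ i, e i with hD
  have hDpos : 0 < D := Finset.prod_pos (fun i _ => he i)
  have hdvd : ∀ i, e i ∣ D := fun i => Finset.dvd_prod_of_mem e (Finset.mem_univ i)
  set m : κ → ℕ := fun i => D / e i with hm
  have hmpos : ∀ i, 0 < m i := fun i => Nat.div_pos (Nat.le_of_dvd hDpos (hdvd i)) (he i)
  have hme : ∀ i, e i * m i = D := fun i => Nat.mul_div_cancel' (hdvd i)
  set F : κ → MvPolynomial (Fin N) ℂ := fun i => f i ^ m i with hFd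
  set x : κ → MvPolynomial (Fin N) ℂ := fun i => X (ε i) with hx
  set Y : κ → MvPolynomial (Fin N) ℂ := fun i => X (ε i) ^ D with hY
  have hFh : ∀ i, (F i).IsHomogeneous D := fun i => by
    have := (hf i).pow (m i)
    rwa [hme] at this
  have hYh : ∀ i, (Y i).IsHomogeneous D := fun i => by
    simpa using (isHomogeneous_X ℂ (ε i)).pow D
  have hxT : Triv x := by
    intro y hy
    ext j
    have := hy (ε.symm j)
    simpa [hx] using this
  have hYT : Triv Y := hxT.pow (fun _ => D) (fun _ => hDpos)
  have hFT : Triv F := h.pow m hmpos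
  have hxR : RF x := by
    intro l hl hall
    have h0 := RegSeq_X (k := ℂ) (l.map ε) (∅ : Set (Fin N)) (hl.map ε.injective) (by simp)
    rw [Set.image_empty, Ideal.span_empty, List.map_map] at h0
    exact h0
  have hYR : RF Y := by
    refine rf_mix (u := x) (fun i => ⟨1, one_pos, isHomogeneous_X _ _⟩)
      (fun i => ⟨D, hDpos, hYh i⟩) ?_ hxR
    intro T y hy
    apply hxT
    intro k
    have := hy k
    by_cases hk : k ∈ T
    · simp only [if_pos hk, hY, map_pow] at this
      exact (pow_eq_zero_iff hDpos.ne').mp this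
    · simpa only [if_neg hk] using this
  -- the pencil
  set G : κ → MvPolynomial (Fin N) (MvPolynomial (Fin 2) ℂ) := fun i =>
    C (X 0) * MvPolynomial.map C (F i) + C (X 1) * MvPolynomial.map C (Y i) with hG
  have hGh : ∀ i, (G i).IsHomogeneous D := by
    intro i
    apply IsHomogeneous.add
    · have := (isHomogeneous_C (Fin N) (X 0 : MvPolynomial (Fin 2) ℂ)).mul
        ((hFh i).map (C : ℂ →+* MvPolynomial (Fin 2) ℂ))
      simpa using this
    · have := (isHomogeneous_C (Fin N) (X 1 : MvPolynomial (Fin 2) ℂ)).mul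
        ((hYh i).map (C : ℂ →+* MvPolynomial (Fin 2) ℂ))
      simpa using this
  have hGs : ∀ (p : Fin 2 → ℂ) (i : κ), sp p (G i) = C (p 0) * F i + C (p 1) * Y i := by
    intro p i
    simp only [hG, map_add, map_mul, Pool.Agent.Helper28.FolReg.sp_lift]
    simp [sp]
  have open1 : ∀ (U : κ → MvPolynomial (Fin N) ℂ) (p0 : Fin 2 → ℂ),
      (∀ i, (U i).IsHomogeneous D) → (∀ i, sp p0 (G i) = U i) → Triv U → ∀ T : Finset κ,
      ∃ hh : MvPolynomial (Fin 2) ℂ, hh ≠ 0 ∧ ∀ p : Fin 2 → ℂ, eval p hh ≠ 0 →
        Triv (fun i => if i ∈ T then sp p (G i) else U i) := by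
    intro U p0 hU hGU hUT T
    obtain ⟨hh, h0, hp⟩ := open_triv
      (fun i => if i ∈ T then G i else MvPolynomial.map (C : ℂ →+* MvPolynomial (Fin 2) ℂ) (U i))
      (fun _ => D) (by
        intro i
        by_cases hi : i ∈ T
        · simp only [if_pos hi]; exact hGh i
        · simp only [if_neg hi]; exact (hU i).map _) p0 (by
        have : (fun i => sp p0 (if i ∈ T then G i else
            MvPolynomial.map (C : ℂ →+* MvPolynomial (Fin 2) ℂ) (U i))) = U := by
          funext i
          by_cases hi : i ∈ T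
          · simp only [if_pos hi]; exact hGU i
          · simp only [if_neg hi]; exact Pool.Agent.Helper28.FolReg.sp_lift p0 (U i)
        rw [this]
        exact hUT)
    refine ⟨hh, fun hz => h0 (by rw [hz]; simp), fun p hpp => ?_⟩
    have h2 := hp p hpp
    have : (fun i => sp p (if i ∈ T then G i else
        MvPolynomial.map (C : ℂ →+* MvPolynomial (Fin 2) ℂ) (U i)))
        = (fun i => if i ∈ T then sp p (G i) else U i) := by
      funext i
      by_cases hi : i ∈ T
      · simp only [if_pos hi]
      · simp only [if_neg hi]; exact Pool.Agent.Helper28.FolReg.sp_lift p (U i)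
    rwa [this] at h2
  have hA := open1 F ![1, 0] hFh (fun i => by rw [hGs]; simp) hFT
  have hB := open1 Y ![0, 1] hYh (fun i => by rw [hGs]; simp) hYT
  choose a ha0 ha using hA
  choose b hb0 hb using hB
  obtain ⟨p, hp⟩ : ∃ p : Fin 2 → ℂ, eval p ((∏ T, a T) * ∏ T, b T) ≠ 0 := by
    by_contra hcon
    push Not at hcon
    have hz : ((∏ T, a T) * ∏ T, b T) = 0 := MvPolynomial.funext (fun p => by
      rw [hcon p, map_zero])
    rcases mul_eq_zero.mp hz with h1 | h1
    · obtain ⟨T, _, hT⟩ := Finset.prod_eq_zero_iff.mp h1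
      exact ha0 T hT
    · obtain ⟨T, _, hT⟩ := Finset.prod_eq_zero_iff.mp h1
      exact hb0 T hT
  rw [map_mul, map_prod, map_prod] at hp
  have hpa : ∀ T, eval p (a T) ≠ 0 := fun T =>
    Finset.prod_ne_zero_iff.mp (left_ne_zero_of_mul hp) T (Finset.mem_univ _)
  have hpb : ∀ T, eval p (b T) ≠ 0 := fun T =>
    Finset.prod_ne_zero_iff.mp (right_ne_zero_of_mul hp) T (Finset.mem_univ _)
  set g : κ → MvPolynomial (Fin N) ℂ := fun i => sp p (G i) with hg
  have hgh : ∀ i, (g i).IsHomogeneous D := fun i =>
    Pool.Agent.Helper28.FolReg.sp_hom p (hGh i)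
  have hgR : RF g := rf_mix (u := Y) (fun i => ⟨D, hDpos, hYh i⟩) (fun i => ⟨D, hDpos, hgh i⟩)
    (fun T => hb T p (hpb T)) hYR
  have hFR : RF F := by
    refine rf_mix (u := g) (fun i => ⟨D, hDpos, hgh i⟩) (fun i => ⟨D, hDpos, hFh i⟩) ?_ hgR
    intro T
    have h1 := ha Tᶜ p (hpa Tᶜ)
    have : (fun i => if i ∈ Tᶜ then sp p (G i) else F i)
        = (fun i => if i ∈ T then F i else g i) := by
      funext i
      by_cases hi : i ∈ T
      · rw [if_pos hi, if_neg (by simpa using hi)]
      · rw [if_neg hi, if_pos (by simpa using hi)]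
    rwa [this] at h1
  refine rf_mix (u := F) (fun i => ⟨D, hDpos, hFh i⟩) (fun i => ⟨e i, he i, hf i⟩) ?_ hFR
  intro T y hy
  apply h
  intro k
  have := hy k
  by_cases hk : k ∈ T
  · simpa only [if_pos hk] using this
  · simp only [if_neg hk, hFd, map_pow] at this
    exact (pow_eq_zero_iff (hmpos k).ne').mp this

theorem card_PI {N j : ℕ} (h : j ≤ N) : Fintype.card (PI N j) = N - j := by
  have e : PI N j ≃ Fin (N - j) :=
    { toFun := fun i => ⟨i.1.1 - j, by have := i.1.2; have := i.2; omega⟩
      invFun := fun i => ⟨⟨i.1 + j, by have := i.2; omega⟩, by simp⟩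
      left_inv := by
        intro i
        have := i.2
        ext
        simp
        omega
      right_inv := by
        intro i
        ext
        simp }
  rw [Fintype.card_congr e, Fintype.card_fin]

end Pool.Agent.Helper1.FG
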