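import Pool.Agent.Helper1.FG.AlpL
import Pool.Agent.Helper1.FG.Reg

/-! FG-4: exactness of the complex `0 → S^k → S^(k+2) → S^(k+2) → S^k` attached to `r` (Hilbert-Burch, Buchsbaum-Rim).
`inj_of`, `ker_of`: for `ρ ∈ MinI r`, `cram2` gives `ρ f = 0` whenever `∑ f_l r_l = 0`, and `ρ e ∈ span(r)` whenever `alp r · e = 0`;
with two members `ρ_0, ρ_1` of a regular sequence: `ρ_0 e = M f_0`, `ρ_1 e = M f_1`, `ρ_1 f_0 = ρ_0 f_1`, `f_0 = ρ_0 f`, `e = M f`.
`br_of`: for `ρ = alp r x y`, `cram3` gives `ρ c_j = alp r e_j ((c·x) y - (c·y) x)`, so `ρ_i c = ι (e_i)` (i = 0, 1, 2);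
`ρ_j e_i - ρ_i e_j = M f_ij`, `ρ_2 f_01 - ρ_1 f_02 + ρ_0 f_12 = 0`, so `f_ij = ρ_j k_i - ρ_i k_j` (regular sequence), `e_i - M k_i = ρ_i e`,
`c = ι e`. -/

set_option autoImplicit false

namespace Pool.Agent.Helper1.FG

open MvPolynomial
open scoped BigOperators

section
variable {S : Type} [CommRing S] {k : ℕ} {r : Fin k → Fin (k + 2) → S}

private theorem alp_zero2 (x : Fin (k + 2) → S) : alp r x 0 = 0 := by
  rw [alp_swap]
  have h := alp_smul r (0 : S) (0 : Fin (k + 2) → S) x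
  have h2 : (fun i => (0 : S) * (0 : Fin (k + 2) → S) i) = 0 := by funext i; simp
  rw [h2, zero_mul] at h
  rw [h, neg_zero]

private theorem alp_add2 (x y y' : Fin (k + 2) → S) :
    alp r x (fun i => y i + y' i) = alp r x y + alp r x y' := by
  rw [alp_swap, alp_add, alp_swap r x y, alp_swap r x y']; ring

private theorem alp_smul2 (u : S) (x y : Fin (k + 2) → S) :
    alp r x (fun i => u * y i) = u * alp r x y := by
  rw [alp_swap, alp_smul, alp_swap r x y]; ring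

private theorem alp_r2 (x : Fin (k + 2) → S) (f : Fin k → S) :
    alp r x (fun i => ∑ l, f l * r l i) = 0 := by
  rw [alp_swap, alp_comb]
  simp [alp_r]

private theorem rs0 {ρ : Fin 3 → S} (h : RSeq ρ) (i : Fin 3) (a : S) (ha : ρ i * a = 0) : a = 0 := by
  have h1 := h ∅ i (Set.notMem_empty i) a (by simp [ha])
  simpa using h1

private theorem rs0' {ρ : Fin 3 → S} (h : RSeq ρ) (i : Fin 3) (a b : S) (ha : ρ i * a = ρ i * b) :
    a = b := by
  have := rs0 h i (a - b) (by rw [mul_sub, ha, sub_self])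
  exact sub_eq_zero.mp this

private theorem rs1 {ρ : Fin 3 → S} (h : RSeq ρ) (i j : Fin 3) (hij : j ≠ i) (a b : S)
    (ha : ρ j * a = ρ i * b) : ∃ g, a = ρ i * g := by
  have h1 := h {i} j (by simpa using hij) a (by
    rw [ha, Set.image_singleton]
    exact Ideal.mem_span_singleton'.mpr ⟨b, by ring⟩)
  rw [Set.image_singleton] at h1
  obtain ⟨g, hg⟩ := Ideal.mem_span_singleton'.mp h1
  exact ⟨g, by rw [← hg]; ring⟩

private theorem rs2 {ρ : Fin 3 → S} (h : RSeq ρ) (a b c : S)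
    (ha : ρ 2 * a = ρ 0 * b + ρ 1 * c) : ∃ g g', a = ρ 1 * g - ρ 0 * g' := by
  have h1 := h {0, 1} 2 (by simp) a (by
    rw [ha, Set.image_pair]
    exact Ideal.mem_span_pair.mpr ⟨b, c, by ring⟩)
  rw [Set.image_pair] at h1
  obtain ⟨g, g', hg⟩ := Ideal.mem_span_pair.mp h1
  exact ⟨g', -g, by rw [← hg]; ring⟩

theorem inj_of {ρ : Fin 3 → S} (h : RSeq ρ) (hρ : ∀ i, ρ i ∈ MinI r) : MInj r := by
  intro f hf
  have key : ∀ g ∈ MinI r, ∀ l, g * f l = 0 := by
    intro g hg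
    refine Submodule.span_induction (p := fun g _ => ∀ l, g * f l = 0) ?_ ?_ ?_ ?_ hg
    · rintro _ ⟨p, rfl⟩ l
      obtain ⟨adj, -, h2⟩ := cram2 r (Pi.single p.1 1) (Pi.single p.2 1)
      have h3 := h2 f
      have h4 : (fun i => ∑ l, f l * r l i) = 0 := by funext i; exact hf i
      rw [h4, map_zero] at h3
      have h5 := congrFun h3 l
      simp only [Pi.zero_apply, Pi.smul_apply, smul_eq_mul] at h5
      exact h5.symm
    · intro l; exact zero_mul _
    · intro x y _ _ hx hy l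
      rw [add_mul, hx l, hy l, add_zero]
    · intro a x _ hx l
      rw [smul_eq_mul, mul_assoc, hx l, mul_zero]
  funext l
  exact rs0 h 0 (f l) (key _ (hρ 0) l)

theorem ker_of {ρ : Fin 3 → S} (h : RSeq ρ) (hρ : ∀ i, ρ i ∈ MinI r) : KerI r := by
  intro e he
  have hinj := inj_of h hρ
  have key : ∀ g ∈ MinI r, ∃ f : Fin k → S, ∀ i, g * e i = ∑ l, f l * r l i := by
    intro g hg
    refine Submodule.span_induction
      (p := fun g _ => ∃ f : Fin k → S, ∀ i, g * e i = ∑ l, f l * r l i) ?_ ?_ ?_ ?_ hg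
    · rintro _ ⟨p, rfl⟩
      obtain ⟨adj, h1, -⟩ := cram2 r (Pi.single p.1 1) (Pi.single p.2 1)
      refine ⟨adj e, fun i => ?_⟩
      have h2 := h1 e i
      rw [alp_swap r e, he, he, neg_zero, zero_mul, zero_mul, zero_add, zero_add] at h2
      exact h2
    · exact ⟨0, fun i => by simp⟩
    · rintro x y _ _ ⟨f, hf⟩ ⟨f', hf'⟩
      refine ⟨fun l => f l + f' l, fun i => ?_⟩
      rw [add_mul, hf i, hf' i, ← Finset.sum_add_distrib]
      exact Finset.sum_congr rfl fun l _ => by ring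
    · rintro a x _ ⟨f, hf⟩
      refine ⟨fun l => a * f l, fun i => ?_⟩
      rw [smul_eq_mul, mul_assoc, hf i, Finset.mul_sum]
      exact Finset.sum_congr rfl fun l _ => by ring
  obtain ⟨f0, h0⟩ := key _ (hρ 0)
  obtain ⟨f1, h1⟩ := key _ (hρ 1)
  have h2 := hinj (fun l => ρ 1 * f0 l - ρ 0 * f1 l) (fun i => by
    have : ∑ l, (ρ 1 * f0 l - ρ 0 * f1 l) * r l i
        = ρ 1 * ∑ l, f0 l * r l i - ρ 0 * ∑ l, f1 l * r l i := by
      rw [Finset.mul_sum, Finset.mul_sum, ← Finset.sum_sub_distrib]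
      exact Finset.sum_congr rfl fun l _ => by ring
    rw [this, ← h0 i, ← h1 i]; ring)
  have h3 : ∀ l, ∃ g, f0 l = ρ 0 * g := by
    intro l
    have h4 := congrFun h2 l
    simp only [Pi.zero_apply] at h4
    exact rs1 h 0 1 (by decide) (f0 l) (f1 l) (sub_eq_zero.mp h4)
  choose g hg using h3
  refine ⟨g, fun i => ?_⟩
  apply rs0' h 0
  rw [h0 i, Finset.mul_sum]
  exact Finset.sum_congr rfl fun l _ => by rw [hg l]; ring

theorem br_of {ρ : Fin 3 → S} (h : RSeq ρ) (hρ : ∀ i, ρ i ∈ MinI r) : BR r := by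
  intro c hc
  have hinj := inj_of h hρ
  have hker := ker_of h hρ
  have key : ∀ g ∈ MinI r, ∃ e : Fin (k + 2) → S, ∀ j, g * c j = alp r (Pi.single j 1) e := by
    intro g hg
    refine Submodule.span_induction
      (p := fun g _ => ∃ e : Fin (k + 2) → S, ∀ j, g * c j = alp r (Pi.single j 1) e)
      ?_ ?_ ?_ ?_ hg
    · rintro _ ⟨p, rfl⟩
      refine ⟨fun i => (∑ m, c m * (Pi.single p.1 1 : Fin (k + 2) → S) m) *
          (Pi.single p.2 1 : Fin (k + 2) → S) i +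
        (-(∑ m, c m * (Pi.single p.2 1 : Fin (k + 2) → S) m)) *
          (Pi.single p.1 1 : Fin (k + 2) → S) i, fun j => ?_⟩
      rw [alp_add2, alp_smul2, alp_smul2]
      have h1 := cram3 r c hc (Pi.single p.1 1) (Pi.single p.2 1) (Pi.single j 1)
      have h2 : ∑ i, c i * (Pi.single j 1 : Fin (k + 2) → S) i = c j := by
        simp [Pi.single_apply]
      rw [h2] at h1
      rw [alp_swap r (Pi.single j 1) (Pi.single p.2 1), alp_swap r (Pi.single j 1) (Pi.single p.1 1)]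
      unfold mins
      linear_combination h1
    · exact ⟨0, fun j => by rw [zero_mul, alp_zero2]⟩
    · rintro x y _ _ ⟨e, he⟩ ⟨e', he'⟩
      refine ⟨fun i => e i + e' i, fun j => ?_⟩
      rw [alp_add2, add_mul, he j, he' j]
    · rintro a x _ ⟨e, he⟩
      refine ⟨fun i => a * e i, fun j => ?_⟩
      rw [alp_smul2, smul_eq_mul, mul_assoc, he j]
  obtain ⟨e0, h0⟩ := key _ (hρ 0)
  obtain ⟨e1, h1⟩ := key _ (hρ 1)
  obtain ⟨e2, h2⟩ := key _ (hρ 2)
  have kk : ∀ (a b : S) (u v : Fin (k + 2) → S) (_ : ∀ j, a * c j = alp r (Pi.single j 1) u)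
      (_ : ∀ j, b * c j = alp r (Pi.single j 1) v),
      ∃ f : Fin k → S, ∀ i, b * u i + (-a) * v i = ∑ l, f l * r l i := by
    intro a b u v hu hv
    refine hker (fun i => b * u i + (-a) * v i) (fun j => ?_)
    rw [alp_add2, alp_smul2, alp_smul2, ← hu j, ← hv j]; ring
  obtain ⟨f01, hf01⟩ := kk _ _ e0 e1 h0 h1
  obtain ⟨f02, hf02⟩ := kk _ _ e0 e2 h0 h2
  obtain ⟨f12, hf12⟩ := kk _ _ e1 e2 h1 h2
  have h3 := hinj (fun l => ρ 2 * f01 l - ρ 1 * f02 l + ρ 0 * f12 l) (fun i => by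
    have : ∑ l, (ρ 2 * f01 l - ρ 1 * f02 l + ρ 0 * f12 l) * r l i
        = ρ 2 * ∑ l, f01 l * r l i - ρ 1 * ∑ l, f02 l * r l i + ρ 0 * ∑ l, f12 l * r l i := by
      rw [Finset.mul_sum, Finset.mul_sum, Finset.mul_sum, ← Finset.sum_sub_distrib,
        ← Finset.sum_add_distrib]
      exact Finset.sum_congr rfl fun l _ => by ring
    rw [this, ← hf01 i, ← hf02 i, ← hf12 i]; ring)
  have h4 : ∀ l, ∃ g g', f01 l = ρ 1 * g - ρ 0 * g' := by
    intro l
    have h5 := congrFun h3 l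
    simp only [Pi.zero_apply] at h5
    exact rs2 h (f01 l) (-(f12 l)) (f02 l) (by linear_combination h5)
  choose k0 k1 hk using h4
  have h6 : ∀ i, ∃ g, e0 i - ∑ l, k0 l * r l i = ρ 0 * g := by
    intro i
    apply rs1 h 0 1 (by decide) _ (e1 i - ∑ l, k1 l * r l i)
    have h7 := hf01 i
    have h8 : ∑ l, f01 l * r l i = ρ 1 * ∑ l, k0 l * r l i - ρ 0 * ∑ l, k1 l * r l i := by
      rw [Finset.mul_sum, Finset.mul_sum, ← Finset.sum_sub_distrib]
      exact Finset.sum_congr rfl fun l _ => by rw [hk l]; ring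
    rw [h8] at h7
    linear_combination h7
  choose e he using h6
  refine ⟨e, fun j => ?_⟩
  apply rs0' h 0
  rw [h0 j]
  have h9 : e0 = fun i => (∑ l, k0 l * r l i) + ρ 0 * e i := by
    funext i
    rw [← he i]; ring
  rw [h9, alp_add2, alp_smul2, alp_r2, zero_add]

end
end Pool.Agent.Helper1.FG
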