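import Pool.Agent.Helper1.FG.Defs

/-! FG-12: general linear sections of coprime 1-forms are coprime.
Proof.  The pullback by the generic matrix `φ` has the coefficients `b_l = ∑_k φ_kl B_k(φ x)` in `P[x]`, `P = ℂ[φ]`.  The substitution
`x_l = x_i x_l'`, `φ_ki = u_k - ∑_(l ≠ i) φ_kl x_l'` makes `φ x = x_i u`, so `b_l` becomes `x_i^(d+1) ∑_k φ_kl B_k(u)` for `l ≠ i`; for two
different `l` (here `N ≥ 3`) the forms `∑_k φ_kl B_k(u)` are coprime, so a common factor of the `b_l` becomes a constant times a power of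
`x_i`.  Using two different `i` the common factor is a constant.  So the matrix of `LL` is injective over `P`; it has a left inverse up to
a denominator `D ∈ P` and its specialisations with `D ≠ 0` are injective: `cop_of_LL_inj` applies. -/

set_option autoImplicit false

namespace Pool.Agent.Helper1.FG

open MvPolynomial
open scoped BigOperators
open Pool.Agent.Helper93 (TT OF RE HomS IntS FolS Cop Comp PreIrr pb lsub mkB LL mkB_hom coeff_mkB
  LL_apply cop_of_LL_inj cop_open mkB_coeff)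
open Pool.Agent.Helper71.FL

/-! ### generalities -/

private theorem cr_dvd {S : Type} [CommRing S] [IsDomain S] [UniqueFactorizationMonoid S]
    {ι : Type} [Fintype ι] {A : ι → S} (hc : ∀ p, (∀ i, p ∣ A i) → IsUnit p) {a b : S}
    (h : ∀ j, a ∣ A j * b) : a ∣ b := by
  classical
  let _ : NormalizationMonoid S :=
    (UniqueFactorizationMonoid.strongNormalizationMonoid).toNormalizationMonoid
  let _ : NormalizedGCDMonoid S := UniqueFactorizationMonoid.toNormalizedGCDMonoid _
  have h1 : a ∣ Finset.univ.gcd (fun j => A j * b) := Finset.dvd_gcd (fun j _ => h j)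
  have h2 := Finset.gcd_mul_right' (Finset.univ : Finset ι) A b
  have h3 : IsUnit (Finset.univ.gcd A) := hc _ (fun i => Finset.gcd_dvd (Finset.mem_univ i))
  have h4 : a ∣ Finset.univ.gcd A * b := h1.trans h2.dvd
  exact (h3.dvd_mul_left).mp h4

private theorem cr_lin {P : Type} [CommRing P] [IsDomain P] {R K : Type} [Fintype R] [Fintype K]
    [DecidableEq K] [DecidableEq R] (M : Matrix R K P)
    (hM : ∀ v : K → P, M.mulVec v = 0 → v = 0) :
    ∃ (G : Matrix K R P) (D : P), D ≠ 0 ∧ G * M = D • (1 : Matrix K K P) := by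
  classical
  let F := FractionRing P
  let f : P →+* F := algebraMap P F
  have hf : Function.Injective f := IsFractionRing.injective P F
  let MF : Matrix R K F := M.map f
  have hinj : ∀ v : K → F, MF.mulVec v = 0 → v = 0 := by
    intro v hv
    obtain ⟨b, hb⟩ := IsLocalization.exist_integer_multiples_of_finite (nonZeroDivisors P) v
    choose w hw using hb
    have hb0 : (b : P) ≠ 0 := nonZeroDivisors.coe_ne_zero b
    have h1 : M.mulVec w = 0 := by
      funext r
      apply hf
      rw [Pi.zero_apply, map_zero]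
      have h2 := congrFun hv r
      simp only [Matrix.mulVec, dotProduct, Pi.zero_apply] at h2 ⊢
      rw [map_sum]
      have h3 : ∀ k, f (M r k * w k) = f b * (MF r k * v k) := by
        intro k
        have h4 := hw k
        rw [Algebra.smul_def] at h4
        rw [map_mul]
        show f (M r k) * f (w k) = _
        rw [show f (w k) = f b * v k from h4]
        show _ = f b * (f (M r k) * v k)
        ring
      simp only [h3, ← Finset.mul_sum]
      rw [h2, mul_zero]
    have h5 := hM w h1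
    funext k
    have h4 := hw k
    rw [h5, Algebra.smul_def, Pi.zero_apply, map_zero] at h4
    rcases mul_eq_zero.mp h4.symm with h6 | h6
    · exact absurd ((map_eq_zero_iff f hf).mp h6) hb0
    · exact h6
  obtain ⟨g, hg⟩ := MF.mulVecLin.exists_leftInverse_of_injective
    (LinearMap.ker_eq_bot'.mpr (fun v hv => hinj v hv))
  let GF : Matrix K R F := LinearMap.toMatrix' g
  have hGF : GF * MF = 1 := by
    have h1 : LinearMap.toMatrix' (g.comp MF.mulVecLin) = GF * MF := by
      rw [LinearMap.toMatrix'_comp, ← Matrix.toLin'_apply', LinearMap.toMatrix'_toLin']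
    rw [← h1, hg, LinearMap.toMatrix'_id]
  obtain ⟨b, hb⟩ := IsLocalization.exist_integer_multiples_of_finite (nonZeroDivisors P)
    (fun q : K × R => GF q.1 q.2)
  choose w hw using hb
  have hb0 : (b : P) ≠ 0 := nonZeroDivisors.coe_ne_zero b
  refine ⟨Matrix.of (fun k r => w (k, r)), b, hb0, ?_⟩
  ext k k'
  apply hf
  rw [Matrix.mul_apply, map_sum]
  simp only [Matrix.of_apply]
  have h3 : ∀ r, f (w (k, r) * M r k') = f b * (GF k r * MF r k') := by
    intro r
    have h4 := hw (k, r)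
    rw [Algebra.smul_def] at h4
    rw [map_mul, show f (w (k, r)) = f b * GF k r from h4]
    show _ = f b * (GF k r * f (M r k'))
    ring
  simp only [h3, ← Finset.mul_sum]
  rw [← Matrix.mul_apply, hGF]
  simp only [Matrix.smul_apply, Matrix.one_apply, smul_eq_mul]
  split_ifs <;> simp

private theorem cr_inj {P : Type} [CommRing P] [IsDomain P] {R K : Type} [Fintype R] [Fintype K]
    (L : (K → P) →ₗ[P] (R → P)) (hL : ∀ v, L v = 0 → v = 0) :
    ∃ D : P, D ≠ 0 ∧ ∀ (f : P →+* ℂ) (L' : (K → ℂ) →ₗ[ℂ] (R → ℂ)),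
      (∀ v ρ, f (L v ρ) = L' (fun t => f (v t)) ρ) → f D ≠ 0 → ∀ c, L' c = 0 → c = 0 := by
  classical
  obtain ⟨G, D, hD, hG⟩ := cr_lin (LinearMap.toMatrix' L) (by
    intro v hv
    rw [LinearMap.toMatrix'_mulVec] at hv
    exact hL v hv)
  refine ⟨D, hD, ?_⟩
  intro f L' hLL hfD c hc
  have h3 : (LinearMap.toMatrix' L).map f = LinearMap.toMatrix' L' := by
    ext ρ t
    rw [Matrix.map_apply, LinearMap.toMatrix'_apply, LinearMap.toMatrix'_apply, hLL]
    have h1 : (fun t' => f ((Pi.single t 1 : K → P) t')) = (Pi.single t 1 : K → ℂ) := by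
      funext t'
      by_cases h : t' = t
      · subst h; simp
      · simp [h]
    rw [h1]
  have h4 : (LinearMap.toMatrix' L').mulVec c = 0 := by
    rw [LinearMap.toMatrix'_mulVec, hc]
  have h5 : G.map f * (LinearMap.toMatrix' L).map f = f D • 1 := by
    rw [← Matrix.map_mul, hG]
    ext a b
    simp only [Matrix.map_apply, Matrix.smul_apply, Matrix.one_apply, smul_eq_mul, map_mul]
    split_ifs <;> simp
  have h6 : (f D) • c = 0 := by
    have h7 := congrArg (fun M => Matrix.mulVec M c) h5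
    rw [← Matrix.mulVec_mulVec, h3, h4, Matrix.mulVec_zero, Matrix.smul_mulVec,
      Matrix.one_mulVec] at h7
    exact h7.symm
  exact (smul_eq_zero.mp h6).resolve_left hfD

private theorem cr_scale {A σ : Type} [CommRing A] [Algebra ℂ A] {p : MvPolynomial σ ℂ} {n : ℕ}
    (hp : p.IsHomogeneous n) (x : A) (y : σ → A) :
    aeval (fun k => x * y k) p = x ^ n * aeval y p := by
  rw [aeval_def, eval₂_eq, aeval_def, eval₂_eq, Finset.mul_sum]
  apply Finset.sum_congr rfl
  intro ν hν
  have h1 : ∑ i ∈ ν.support, ν i = n := (hp.degree_eq_sum_deg_support hν).symm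
  simp only [mul_pow, Finset.prod_mul_distrib]
  rw [Finset.prod_pow_eq_pow_sum, h1]
  ring

/-! ### the generic pullback -/

section gen
variable {N : ℕ}

/-- polynomials in the entries of the matrix -/
private abbrev PP (N : ℕ) : Type := MvPolynomial (Fin (N + 1) × Fin N) ℂ

private noncomputable def cev (φ : Fin (N + 1) → Fin N → ℂ) : PP N →+* ℂ :=
  eval (fun q => φ q.1 q.2)

private noncomputable def gsub :
    MvPolynomial (Fin (N + 1)) ℂ →+* MvPolynomial (Fin N) (PP N) :=
  eval₂Hom (C.comp C) (fun k => ∑ l, C (X (k, l)) * X l)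

private noncomputable def gpb (B : OF (N + 1)) : Fin N → MvPolynomial (Fin N) (PP N) :=
  fun i => ∑ j, C (X (j, i)) * gsub (B j)

private theorem map_gsub (φ : Fin (N + 1) → Fin N → ℂ) (p : MvPolynomial (Fin (N + 1)) ℂ) :
    MvPolynomial.map (cev φ) (gsub p) = lsub φ p := by
  have h : (MvPolynomial.map (cev φ)).comp gsub = (lsub φ).toRingHom := by
    apply MvPolynomial.ringHom_ext
    · intro c
      simp [gsub, cev, lsub]
    · intro k
      simp [gsub, cev, lsub]
  exact RingHom.congr_fun h p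

private theorem map_gpb (φ : Fin (N + 1) → Fin N → ℂ) (B : OF (N + 1)) (i : Fin N) :
    MvPolynomial.map (cev φ) (gpb B i) = pb φ B i := by
  unfold gpb pb
  rw [map_sum]
  apply Finset.sum_congr rfl
  intro j _
  rw [map_mul, map_gsub, map_C]
  congr 2
  simp [cev]

private theorem gsub_hom {p : MvPolynomial (Fin (N + 1)) ℂ} {n : ℕ} (hp : p.IsHomogeneous n) :
    (gsub p).IsHomogeneous n := by
  have h := hp.eval₂ (C.comp C : ℂ →+* MvPolynomial (Fin N) (PP N))
    (fun k => ∑ l, C (X (k, l)) * X l) (n := 1)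
    (fun r => isHomogeneous_C _ _)
    (fun k => IsHomogeneous.sum _ _ _ (fun l _ => isHomogeneous_C_mul_X _ _))
  rw [one_mul] at h
  exact h

private theorem gpb_hom {d : ℕ} {B : OF (N + 1)} (hB : B ∈ HomS (N + 1) d) (i : Fin N) :
    (gpb B i).IsHomogeneous (d + 1) := by
  unfold gpb
  apply IsHomogeneous.sum
  intro j _
  exact (gsub_hom (hB j)).C_mul _

/-! ### the substitution -/

private abbrev VV (N : ℕ) : Type := Fin (N + 1) ⊕ ((Fin (N + 1) × Fin N) ⊕ Fin N)

private noncomputable def vu (k : Fin (N + 1)) : MvPolynomial (VV N) ℂ := X (Sum.inl k)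
private noncomputable def vp (q : Fin (N + 1) × Fin N) : MvPolynomial (VV N) ℂ :=
  X (Sum.inr (Sum.inl q))
private noncomputable def vx (l : Fin N) : MvPolynomial (VV N) ℂ := X (Sum.inr (Sum.inr l))

private noncomputable def D0 (i : Fin N) : PP N →+* MvPolynomial (VV N) ℂ :=
  eval₂Hom C (fun q => if q.2 = i then vu q.1 - ∑ l ∈ Finset.univ.erase i, vp (q.1, l) * vx l
    else vp q)

private noncomputable def DD (i : Fin N) :
    MvPolynomial (Fin N) (PP N) →+* MvPolynomial (VV N) ℂ :=
  eval₂Hom (D0 i) (fun l => if l = i then vx i else vx i * vx l)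

private theorem DD_lin (i : Fin N) (k : Fin (N + 1)) :
    DD i (∑ l, C (X (k, l)) * X l) = vx i * vu k := by
  rw [map_sum, ← Finset.add_sum_erase _ _ (Finset.mem_univ i)]
  have h1 : DD i (C (X (k, i)) * X i) =
      (vu k - ∑ l ∈ Finset.univ.erase i, vp (k, l) * vx l) * vx i := by
    simp [DD, D0]
  have h2 : ∀ l ∈ Finset.univ.erase i, DD i (C (X (k, l)) * X l) = vx i * (vp (k, l) * vx l) := by
    intro l hl
    have hl' : l ≠ i := Finset.ne_of_mem_erase hl
    simp only [DD, D0, map_mul, coe_eval₂Hom, eval₂_C, eval₂_X, if_neg hl']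
    ring
  rw [h1, Finset.sum_congr rfl h2, ← Finset.mul_sum]
  ring

private theorem DD_gsub (i : Fin N) {p : MvPolynomial (Fin (N + 1)) ℂ} {n : ℕ}
    (hp : p.IsHomogeneous n) : DD i (gsub p) = vx i ^ n * rename Sum.inl p := by
  have h : (DD i).comp gsub = (aeval (fun k => vx i * vu k) :
      MvPolynomial (Fin (N + 1)) ℂ →ₐ[ℂ] MvPolynomial (VV N) ℂ).toRingHom := by
    apply MvPolynomial.ringHom_ext
    · intro c
      simp [gsub, DD, D0]
    · intro k
      have h1 : gsub (X k) = (∑ l, C (X (k, l)) * X l : MvPolynomial (Fin N) (PP N)) := by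
        simp [gsub]
      rw [RingHom.comp_apply, h1, DD_lin]
      simp
  have h2 := RingHom.congr_fun h p
  rw [RingHom.comp_apply] at h2
  rw [h2]
  show aeval (fun k => vx i * vu k) p = _
  rw [cr_scale hp, rename_eq_aeval]
  rfl

/-- `∑_k φ_kl B_k(u)` -/
private noncomputable def AA (B : OF (N + 1)) (l : Fin N) : MvPolynomial (VV N) ℂ :=
  ∑ k, vp (k, l) * rename Sum.inl (B k)

private theorem DD_gpb {d : ℕ} {B : OF (N + 1)} (hB : B ∈ HomS (N + 1) d) {i l : Fin N}
    (hl : l ≠ i) : DD i (gpb B l) = vx i ^ (d + 1) * AA B l := by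
  unfold gpb AA
  rw [map_sum, Finset.mul_sum]
  apply Finset.sum_congr rfl
  intro k _
  rw [map_mul, DD_gsub i (hB k)]
  have h1 : DD i (C (X (k, l))) = vp (k, l) := by
    simp only [DD, D0, coe_eval₂Hom, eval₂_C, eval₂_X, if_neg hl]
  rw [h1]
  ring

/-- the point over `(φ, x)` -/
private noncomputable def yy (i : Fin N) (φ : Fin (N + 1) → Fin N → ℂ) (x : Fin N → ℂ) :
    VV N → ℂ :=
  Sum.elim (fun k => (∑ l, φ k l * x l) / x i)
    (Sum.elim (fun q => φ q.1 q.2) (fun l => if l = i then x i else x l / x i))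

private theorem eval_D0 (i : Fin N) (φ : Fin (N + 1) → Fin N → ℂ) {x : Fin N → ℂ}
    (hx : x i ≠ 0) (c : PP N) : eval (yy i φ x) (D0 i c) = cev φ c := by
  have h : (eval (yy i φ x)).comp (D0 i) = cev φ := by
    apply MvPolynomial.ringHom_ext
    · intro c
      simp [D0, cev]
    · intro q
      obtain ⟨k, l⟩ := q
      rw [RingHom.comp_apply]
      by_cases hl : l = i
      · subst hl
        simp only [D0, coe_eval₂Hom, eval₂_X, if_true, cev, eval_X, map_sub, map_sum, map_mul]
        have h1 : ∀ l' ∈ Finset.univ.erase l, eval (yy l φ x) (vp (k, l')) *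
            eval (yy l φ x) (vx l') = φ k l' * x l' / x l := by
          intro l' hl'
          have h2 : l' ≠ l := Finset.ne_of_mem_erase hl'
          simp only [vp, vx, eval_X, yy, Sum.elim_inr, Sum.elim_inl, if_neg h2]
          ring
        rw [Finset.sum_congr rfl h1]
        simp only [vu, eval_X, yy, Sum.elim_inl]
        rw [← Finset.add_sum_erase _ _ (Finset.mem_univ l), add_div, Finset.sum_div,
          add_sub_cancel_right, mul_div_assoc, div_self hx, mul_one]
      · simp only [D0, coe_eval₂Hom, eval₂_X, if_neg hl, cev, eval_X, vp, yy, Sum.elim_inr,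
          Sum.elim_inl]
  exact RingHom.congr_fun h c

private theorem eval_DD (i : Fin N) (φ : Fin (N + 1) → Fin N → ℂ) {x : Fin N → ℂ}
    (hx : x i ≠ 0) (G : MvPolynomial (Fin N) (PP N)) :
    eval (yy i φ x) (DD i G) = eval x (MvPolynomial.map (cev φ) G) := by
  have h : (eval (yy i φ x)).comp (DD i) = (eval x).comp (MvPolynomial.map (cev φ)) := by
    apply MvPolynomial.ringHom_ext
    · intro c
      simp only [RingHom.comp_apply, DD, coe_eval₂Hom, eval₂_C, eval_D0 i φ hx, map_C, eval_C]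
    · intro l
      simp only [RingHom.comp_apply, DD, coe_eval₂Hom, eval₂_X, map_X, eval_X]
      by_cases hl : l = i
      · subst hl
        simp [vx, yy]
      · simp only [if_neg hl, vx, yy, map_mul, eval_X, Sum.elim_inr, if_true]
        field_simp
  exact RingHom.congr_fun h G

private theorem cr_unit {σ : Type} {w : MvPolynomial σ ℂ} (h : IsUnit w) :
    ∃ r : ℂ, r ≠ 0 ∧ w = C r := by
  obtain ⟨r, hr, h⟩ := isUnit_iff_eq_C_of_isReduced.mp h
  exact ⟨r, hr.ne_zero, h⟩

private theorem AA_ne {B : OF (N + 1)} (hc : Cop B) (l : Fin N) : AA B l ≠ 0 := by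
  classical
  intro h0
  have hB : ∀ k, B k = 0 := by
    intro k
    have h1 := congrArg (aeval (Sum.elim X (Sum.elim
      (fun q => if q.1 = k then 1 else 0) (fun _ => 0)) :
      VV N → MvPolynomial (Fin (N + 1)) ℂ)) h0
    rw [map_zero] at h1
    unfold AA at h1
    rw [map_sum, Finset.sum_eq_single k] at h1
    · rw [map_mul, aeval_rename] at h1
      simpa [vp] using h1
    · intro k' _ hk'
      simp [vp, hk']
    · intro h; exact absurd (Finset.mem_univ _) h
  have h2 := hc 0 (fun k => by rw [hB k])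
  exact not_isUnit_zero h2

private theorem AA_vars {B : OF (N + 1)} (l : Fin N) (v : VV N)
    (hv : v ∈ (AA B l).vars) : (∃ k, v = Sum.inl k) ∨ ∃ k, v = Sum.inr (Sum.inl (k, l)) := by
  classical
  unfold AA at hv
  have h1 := (vars_sum_subset _ _) hv
  rw [Finset.mem_biUnion] at h1
  obtain ⟨k, _, hk⟩ := h1
  have h2 := (vars_mul _ _) hk
  rw [Finset.mem_union] at h2
  rcases h2 with h2 | h2
  · right
    unfold vp at h2
    rw [vars_X, Finset.mem_singleton] at h2
    exact ⟨k, h2⟩
  · left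
    have h3 := (vars_rename _ _) h2
    rw [Finset.mem_image] at h3
    obtain ⟨k', _, h4⟩ := h3
    exact ⟨k', h4.symm⟩

private theorem vars_of_dvd {σ : Type} {w p : MvPolynomial σ ℂ} (hp : p ≠ 0) (h : w ∣ p) :
    w.vars ⊆ p.vars := by
  classical
  obtain ⟨q, rfl⟩ := h
  have hw : w ≠ 0 := left_ne_zero_of_mul hp
  have hq : q ≠ 0 := right_ne_zero_of_mul hp
  intro v hv
  rw [mem_vars_iff_degreeOf_ne_zero] at hv ⊢
  rw [degreeOf_mul_eq hw hq]
  omega

private theorem AA_cop {B : OF (N + 1)} (hc : Cop B) {l l' : Fin N} (hl : l ≠ l')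
    {w : MvPolynomial (VV N) ℂ} (h : w ∣ AA B l) (h' : w ∣ AA B l') : IsUnit w := by
  classical
  have hv : (w.vars : Set (VV N)) ⊆ Set.range (Sum.inl : Fin (N + 1) → VV N) := by
    intro v hv
    have h1 := AA_vars l v (vars_of_dvd (AA_ne hc l) h hv)
    have h2 := AA_vars l' v (vars_of_dvd (AA_ne hc l') h' hv)
    rcases h1 with ⟨k, h1⟩ | ⟨k, h1⟩
    · exact ⟨k, h1.symm⟩
    · rcases h2 with ⟨k', h2⟩ | ⟨k', h2⟩
      · exact ⟨k', h2.symm⟩
      · exfalso
        rw [h1] at h2
        have h3 := Sum.inl_injective (Sum.inr_injective h2)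
        exact hl (congrArg Prod.snd h3)
  obtain ⟨w', rfl⟩ := exists_rename_eq_of_vars_subset_range w Sum.inl Sum.inl_injective hv
  have h3 : IsUnit w' := by
    apply hc
    intro k
    have h1 := map_dvd (aeval (Sum.elim X (Sum.elim
      (fun q => if q.1 = k then 1 else 0) (fun _ => 0)) :
      VV N → MvPolynomial (Fin (N + 1)) ℂ)) h
    rw [aeval_rename] at h1
    unfold AA at h1
    rw [map_sum, Finset.sum_eq_single k] at h1
    · rw [map_mul, aeval_rename] at h1
      simpa [vp] using h1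
    · intro k' _ hk'
      simp [vp, hk']
    · intro h; exact absurd (Finset.mem_univ _) h
  exact h3.map (rename Sum.inl)

/-- values of a common factor -/
private theorem fac_eval (hN : 3 ≤ N) {d : ℕ} {B : OF (N + 1)} (hB : B ∈ HomS (N + 1) d)
    (hc : Cop B) {g : MvPolynomial (Fin N) (PP N)} (hg : ∀ l, g ∣ gpb B l) (i : Fin N) :
    ∃ (r : ℂ) (e : ℕ), r ≠ 0 ∧ ∀ (φ : Fin (N + 1) → Fin N → ℂ) (x : Fin N → ℂ), x i ≠ 0 →
      eval x (MvPolynomial.map (cev φ) g) = r * x i ^ e := by
  classical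
  obtain ⟨l, l', hl, hl', hll⟩ : ∃ l l' : Fin N, l ≠ i ∧ l' ≠ i ∧ l ≠ l' := by
    have h1 : 1 < (Finset.univ.erase i).card := by
      rw [Finset.card_erase_of_mem (Finset.mem_univ i), Finset.card_univ, Fintype.card_fin]
      omega
    obtain ⟨a, ha, b, hb, hab⟩ := Finset.one_lt_card.mp h1
    exact ⟨a, b, Finset.ne_of_mem_erase ha, Finset.ne_of_mem_erase hb, hab⟩
  have h1 : DD i g ∣ vx i ^ (d + 1) := by
    have hcop : ∀ p, (∀ j : Fin 2, p ∣ (![AA B l, AA B l'] : Fin 2 → _) j) → IsUnit p := by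
      intro p hp
      exact AA_cop hc hll (hp 0) (hp 1)
    apply cr_dvd hcop
    intro j
    fin_cases j
    · have h2 := map_dvd (DD i) (hg l)
      rw [DD_gpb hB hl, mul_comm] at h2
      exact h2
    · have h2 := map_dvd (DD i) (hg l')
      rw [DD_gpb hB hl', mul_comm] at h2
      exact h2
  have hpr : Prime (vx i : MvPolynomial (VV N) ℂ) := by
    unfold vx
    exact MvPolynomial.X_prime
  obtain ⟨e, _, he⟩ := (dvd_prime_pow hpr _).mp h1
  obtain ⟨u, hu⟩ := he.symm
  obtain ⟨r, hr, hur⟩ := cr_unit u.isUnit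
  refine ⟨r, e, hr, ?_⟩
  intro φ x hx
  rw [← eval_DD i φ hx, ← hu, hur, map_mul, map_pow, eval_C]
  simp only [vx, eval_X, yy, Sum.elim_inr, if_true]
  ring

private theorem gpb_cop (hN : 3 ≤ N) {d : ℕ} {B : OF (N + 1)} (hB : B ∈ HomS (N + 1) d)
    (hc : Cop B) (g : MvPolynomial (Fin N) (PP N)) (hg : ∀ l, g ∣ gpb B l) : IsUnit g := by
  classical
  let i0 : Fin N := ⟨0, by omega⟩
  let i1 : Fin N := ⟨1, by omega⟩
  have hi : i1 ≠ i0 := by
    intro h
    have := congrArg Fin.val h
    simp [i0, i1] at this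
  obtain ⟨r, e, hr, h⟩ := fac_eval hN hB hc hg i0
  obtain ⟨r', e', hr', h'⟩ := fac_eval hN hB hc hg i1
  have e1 : r = r' := by
    have h1 := h 0 (fun _ => 1) one_ne_zero
    have h2 := h' 0 (fun _ => 1) one_ne_zero
    rw [h1, one_pow, one_pow, mul_one, mul_one] at h2
    exact h2
  have e2 : e = 0 := by
    have h1 := h 0 (fun l => if l = i0 then 2 else 1) (by simp)
    have h2 := h' 0 (fun l => if l = i0 then 2 else 1) (by simp [hi])
    rw [h1] at h2
    simp only [if_true, if_neg hi, one_pow, mul_one, ← e1] at h2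
    have h3 : (2 : ℂ) ^ e = 1 := mul_left_cancel₀ hr (by rw [h2, mul_one])
    by_contra h0
    have h4 : ((2 ^ e : ℕ) : ℂ) = ((1 : ℕ) : ℂ) := by
      push_cast
      exact h3
    have h5 : 2 ^ e = 1 := by exact_mod_cast h4
    have h6 : 1 < 2 ^ e := Nat.one_lt_two_pow h0
    omega
  subst e2
  have key : (g - C (C r)) * X i0 = 0 := by
    ext1 μ
    rw [coeff_zero]
    apply MvPolynomial.funext
    intro y
    let φ : Fin (N + 1) → Fin N → ℂ := fun k l => y (k, l)
    have hy : eval y = cev φ := rfl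
    rw [hy, map_zero, ← coeff_map]
    have h1 : MvPolynomial.map (cev φ) ((g - C (C r)) * X i0) = 0 := by
      apply MvPolynomial.funext
      intro x
      rw [map_mul, map_mul, map_sub, map_sub, map_zero, map_X, eval_X, map_C, eval_C]
      by_cases hx : x i0 = 0
      · rw [hx, mul_zero]
      · rw [h φ x hx]
        simp [cev]
    rw [h1, coeff_zero]
  have h1 : g = C (C r) := by
    rcases mul_eq_zero.mp key with h2 | h2
    · exact sub_eq_zero.mp h2
    · exact absurd h2 (X_ne_zero i0)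
  rw [h1]
  exact ((isUnit_iff_ne_zero.mpr hr).map C).map C

/-! ### the linear system -/

private abbrev RR (N d : ℕ) : Type :=
  (Fin N × Fin N) ×
    {ν : Fin N →₀ ℕ // ν ∈ Finset.finsuppAntidiag (Finset.univ : Finset (Fin N)) (d + 1 + d)}

private noncomputable def mkQ {A : Type} [CommRing A] {N d : ℕ} (v : TT N d → A) (i : Fin N) :
    MvPolynomial (Fin N) A :=
  ∑ μ : {μ : Fin N →₀ ℕ // μ ∈ Finset.finsuppAntidiag (Finset.univ : Finset (Fin N)) d},
    monomial μ.1 (v (i, μ))

private noncomputable def LQ {A : Type} [CommRing A] {N d : ℕ}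
    (b : Fin N → MvPolynomial (Fin N) A) : (TT N d → A) →ₗ[A] (RR N d → A) where
  toFun v := fun ρ => coeff ρ.2.1 (b ρ.1.1 * mkQ v ρ.1.2 - b ρ.1.2 * mkQ v ρ.1.1)
  map_add' := by
    intro v v'
    funext ρ
    have h : ∀ i, mkQ (v + v') i = mkQ v i + mkQ v' i := by
      intro i
      unfold mkQ
      simp only [Pi.add_apply, map_add, Finset.sum_add_distrib]
    simp only [h, Pi.add_apply, mul_add, coeff_sub, coeff_add]
    ring
  map_smul' := by
    intro r v
    funext ρ
    have h : ∀ i, mkQ (r • v) i = C r * mkQ v i := by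
      intro i
      unfold mkQ
      rw [Finset.mul_sum]
      apply Finset.sum_congr rfl
      intro μ _
      rw [Pi.smul_apply, smul_eq_mul, C_mul_monomial]
    simp only [h, Pi.smul_apply, RingHom.id_apply, smul_eq_mul]
    rw [show b ρ.1.1 * (C r * mkQ v ρ.1.2) - b ρ.1.2 * (C r * mkQ v ρ.1.1) =
      C r * (b ρ.1.1 * mkQ v ρ.1.2 - b ρ.1.2 * mkQ v ρ.1.1) by ring, coeff_C_mul]

private theorem LQ_apply {A : Type} [CommRing A] {N d : ℕ} (b : Fin N → MvPolynomial (Fin N) A)
    (v : TT N d → A) (ρ : RR N d) :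
    LQ b v ρ = coeff ρ.2.1 (b ρ.1.1 * mkQ v ρ.1.2 - b ρ.1.2 * mkQ v ρ.1.1) := rfl

private theorem LQ_map {A A' : Type} [CommRing A] [CommRing A'] (f : A →+* A') {N d : ℕ}
    (b : Fin N → MvPolynomial (Fin N) A) (b' : Fin N → MvPolynomial (Fin N) A')
    (hb : ∀ i, MvPolynomial.map f (b i) = b' i) (v : TT N d → A) (ρ : RR N d) :
    f (LQ b v ρ) = LQ b' (fun t => f (v t)) ρ := by
  have h : ∀ i, MvPolynomial.map f (mkQ v i) = mkQ (fun t => f (v t)) i := by
    intro i
    unfold mkQ
    rw [map_sum]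
    apply Finset.sum_congr rfl
    intro μ _
    rw [map_monomial]
  rw [LQ_apply, LQ_apply, ← coeff_map, map_sub, map_mul, map_mul, h, h, hb, hb]

private theorem mkQ_coeff {A : Type} [CommRing A] {N d : ℕ} (v : TT N d → A) (i : Fin N)
    (μ : {μ : Fin N →₀ ℕ // μ ∈ Finset.finsuppAntidiag (Finset.univ : Finset (Fin N)) d}) :
    coeff μ.1 (mkQ v i) = v (i, μ) := by
  classical
  unfold mkQ
  rw [coeff_sum, Finset.sum_eq_single μ]
  · simp
  · intro ν _ hν
    rw [coeff_monomial, if_neg]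
    intro h
    exact hν (Subtype.ext h)
  · intro h; exact absurd (Finset.mem_univ _) h

private theorem mkQ_hom {A : Type} [CommRing A] {N d : ℕ} (v : TT N d → A) (i : Fin N) :
    (mkQ v i).IsHomogeneous d := by
  unfold mkQ
  apply IsHomogeneous.sum
  intro μ _
  apply isHomogeneous_monomial
  have := (Finset.mem_finsuppAntidiag.mp μ.2).1
  rw [Finsupp.degree_eq_sum]
  exact this

private theorem mkQ_eq {N d : ℕ} (c : TT N d → ℂ) (i : Fin N) : mkQ c i = mkB c i := by
  unfold mkQ mkB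
  apply Finset.sum_congr rfl
  intro μ _
  rw [smul_monomial, smul_eq_mul, mul_one]

private theorem LQ_inj (hN : 3 ≤ N) {d : ℕ} {B : OF (N + 1)} (hB : B ∈ HomS (N + 1) d)
    (hc : Cop B) (v : TT N d → PP N) (hv : LQ (gpb B) v = 0) : v = 0 := by
  classical
  have hcop := gpb_cop hN hB hc
  have hrel : ∀ i j, gpb B i * mkQ v j = gpb B j * mkQ v i := by
    intro i j
    rw [← sub_eq_zero]
    ext1 ν
    rw [coeff_zero]
    have hh : (gpb B i * mkQ v j - gpb B j * mkQ v i).IsHomogeneous (d + 1 + d) :=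
      ((gpb_hom hB i).mul (mkQ_hom v j)).sub ((gpb_hom hB j).mul (mkQ_hom v i))
    by_cases hν : ν.degree = d + 1 + d
    · have hm : ν ∈ Finset.finsuppAntidiag (Finset.univ : Finset (Fin N)) (d + 1 + d) := by
        rw [Finset.mem_finsuppAntidiag]
        refine ⟨?_, Finset.subset_univ _⟩
        rw [← hν, Finsupp.degree_eq_sum]
      exact congrFun hv ((i, j), ⟨ν, hm⟩)
    · exact hh.coeff_eq_zero hν
  obtain ⟨j0, hj0⟩ : ∃ j, gpb B j ≠ 0 := by
    by_contra hcon
    push Not at hcon
    exact not_isUnit_zero (hcop 0 (fun l => by rw [hcon l]))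
  have h0 : ∀ i, mkQ v i = 0 := by
    intro i
    by_cases hi : gpb B i = 0
    · have h1 := hrel i j0
      rw [hi, zero_mul] at h1
      rcases mul_eq_zero.mp h1.symm with h2 | h2
      · exact absurd h2 hj0
      · exact h2
    · have hdvd : gpb B i ∣ mkQ v i := by
        apply cr_dvd hcop
        intro j
        exact ⟨mkQ v j, by rw [hrel i j]⟩
      by_contra hne
      have h1 := totalDegree_le_of_dvd_of_isDomain hdvd hne
      rw [(mkQ_hom v i).totalDegree hne, (gpb_hom hB i).totalDegree hi] at h1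
      omega
  funext t
  have h1 := mkQ_coeff v t.1 t.2
  rw [h0 t.1, coeff_zero] at h1
  exact h1.symm

private theorem cop_one (hN : 3 ≤ N) {d : ℕ} {B : OF (N + 1)} (hB : B ∈ HomS (N + 1) d)
    (hc : Cop B) : ∃ φ : Fin (N + 1) → Fin N → ℂ, Cop (pb φ B) := by
  classical
  obtain ⟨D, hD, hG⟩ := cr_inj (LQ (d := d) (gpb B)) (LQ_inj hN hB hc)
  obtain ⟨y, hy⟩ : ∃ y, eval y D ≠ 0 := by
    by_contra hcon
    push Not at hcon
    apply hD
    apply MvPolynomial.funext
    intro y
    rw [hcon y, map_zero]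
  let φ : Fin (N + 1) → Fin N → ℂ := fun k l => y (k, l)
  have hy' : cev φ D ≠ 0 := hy
  have hhom : ∀ i, (pb φ B i).IsHomogeneous (d + 1) := by
    intro i
    rw [← map_gpb]
    exact (gpb_hom hB i).map _
  refine ⟨φ, cop_of_LL_inj (by omega) hhom ?_⟩
  rw [injective_iff_map_eq_zero]
  intro c hc0
  apply hG (cev φ) (LQ (d := d) (pb φ B)) (LQ_map _ _ _ (map_gpb φ B)) hy'
  funext ρ
  have h2 := congrFun hc0 (ρ.1.1, ρ.1.2)
  rw [LL_apply] at h2
  rw [LQ_apply, mkQ_eq, mkQ_eq]
  have h3 : pb φ B ρ.1.1 * mkB c ρ.1.2 - pb φ B ρ.1.2 * mkB c ρ.1.1 = 0 := h2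
  rw [h3]
  exact coeff_zero _

private theorem RE_poly (B : OF (N + 1)) {f : OF N → ℂ} (hf : f ∈ RE N) :
    ∃ h : PP N, ∀ φ, cev φ h = f (pb φ B) := by
  unfold RE at hf
  induction hf using Algebra.adjoin_induction with
  | mem f hf =>
    obtain ⟨i, μ, rfl⟩ := hf
    refine ⟨coeff μ (gpb B i), fun φ => ?_⟩
    rw [← coeff_map, map_gpb]
  | algebraMap c =>
    exact ⟨C c, fun φ => by simp [cev]⟩
  | add f g _ _ hf hg =>
    obtain ⟨p, hp⟩ := hf
    obtain ⟨q, hq⟩ := hg
    exact ⟨p + q, fun φ => by rw [map_add, hp, hq]; rfl⟩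
  | mul f g _ _ hf hg =>
    obtain ⟨p, hp⟩ := hf
    obtain ⟨q, hq⟩ := hg
    exact ⟨p * q, fun φ => by rw [map_mul, hp, hq]; rfl⟩

end gen

theorem cop_restrict {N d : ℕ} (hN : 3 ≤ N) {B : OF (N + 1)} (hB : B ∈ HomS (N + 1) d)
    (hR : ∑ i, X i * B i = 0) (hc : Cop B) :
    ∃ h : MvPolynomial (Fin (N + 1) × Fin N) ℂ, h ≠ 0 ∧
      ∀ φ : Fin (N + 1) → Fin N → ℂ, eval (fun q => φ q.1 q.2) h ≠ 0 → Cop (pb φ B) := by
  have hhom : ∀ φ : Fin (N + 1) → Fin N → ℂ, pb φ B ∈ HomS N d := by
    intro φ i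
    rw [← map_gpb]
    exact (gpb_hom hB i).map _
  obtain ⟨φ0, h0⟩ := cop_one hN hB hc
  obtain ⟨f, hf, hf0, hf1⟩ := cop_open (by omega) (hhom φ0) h0
  obtain ⟨h, hh⟩ := RE_poly B hf
  refine ⟨h, ?_, ?_⟩
  · rintro rfl
    apply hf0
    rw [← hh φ0, map_zero]
  · intro φ hφ
    apply hf1 _ (hhom φ)
    rw [← hh φ]
    exact hφ

end Pool.Agent.Helper1.FG
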