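import Pool.Agent.Helper71.FL.MainL

/-!
Block G of the project on MP_45a28a (frozen statement S00166): the forms of the classification
satisfy `Good` after a general deformation.  Definitions.
-/

set_option autoImplicit false

namespace Pool.Agent.Helper1.FG

open MvPolynomial
open scoped BigOperators
open Pool.Agent.Helper93 (TT OF RE HomS IntS FolS Cop Comp PreIrr pb)
open Pool.Agent.Helper71.FL

/-- no common zero except the origin -/
def Triv {N : ℕ} {κ : Type} (f : κ → MvPolynomial (Fin N) ℂ) : Prop :=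
  ∀ x : Fin N → ℂ, (∀ k, eval x (f k) = 0) → x = 0

/-- regular sequence in every order (without the condition on the last quotient) -/
def RSeq {S : Type} [CommRing S] {κ : Type} (f : κ → S) : Prop :=
  ∀ (T : Set κ) (k : κ), k ∉ T → ∀ a, f k * a ∈ Ideal.span (f '' T) → a ∈ Ideal.span (f '' T)

/-- specialisation of the parameter -/
noncomputable def ev (t : ℂ) (σ : Type) : MvPolynomial σ (Polynomial ℂ) →+* MvPolynomial σ ℂ :=
  MvPolynomial.map (Polynomial.evalRingHom t)

/-- polynomials not depending on the parameter -/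
noncomputable def cn (σ : Type) : MvPolynomial σ ℂ →+* MvPolynomial σ (Polynomial ℂ) :=
  MvPolynomial.map (Polynomial.C : ℂ →+* Polynomial ℂ)

/-- indices at least `j` -/
abbrev PI (N j : ℕ) : Type := {i : Fin N // j ≤ i.val}

/-- the variables with index at least `j` -/
noncomputable def pads (N j : ℕ) : PI N j → MvPolynomial (Fin N) ℂ := fun i => X i.1

section alg
variable {S : Type} [CommRing S] {k N : ℕ}

/-- the alternating form `det (x, y, r_1, .., r_k)` on `S^(k+2)` -/
noncomputable def alp (r : Fin k → Fin (k + 2) → S) (x y : Fin (k + 2) → S) : S :=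
  Matrix.det (Matrix.of (Fin.cons x (Fin.cons y r) : Fin (k + 2) → Fin (k + 2) → S))

/-- values of `alp` on the standard basis -/
noncomputable def mins (r : Fin k → Fin (k + 2) → S) : Fin (k + 2) × Fin (k + 2) → S :=
  fun p => alp r (Pi.single p.1 1) (Pi.single p.2 1)

/-- the ideal of maximal minors of `r` -/
noncomputable def MinI (r : Fin k → Fin (k + 2) → S) : Ideal S := Ideal.span (Set.range (mins r))

/-- multiplication by `g` maps the standard basis into the span of the `T a` and the `r l` -/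
def LiftI (T : Fin N → Fin (k + 2) → S) (r : Fin k → Fin (k + 2) → S) (g : S) : Prop :=
  ∀ j : Fin (k + 2), ∃ (w : Fin N → S) (f : Fin k → S), ∀ i : Fin (k + 2),
    g * (Pi.single j 1 : Fin (k + 2) → S) i = ∑ a, w a * T a i + ∑ l, f l * r l i

/-- exactness at the dual: functionals vanishing on the `r l` are contractions of `alp r` -/
def BR (r : Fin k → Fin (k + 2) → S) : Prop :=
  ∀ c : Fin (k + 2) → S, (∀ l, ∑ i, c i * r l i = 0) →
    ∃ e : Fin (k + 2) → S, ∀ j, c j = alp r (Pi.single j 1) e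

/-- the kernel of `alp r` is spanned by the `r l` -/
def KerI (r : Fin k → Fin (k + 2) → S) : Prop :=
  ∀ e : Fin (k + 2) → S, (∀ j, alp r (Pi.single j 1) e = 0) →
    ∃ f : Fin k → S, ∀ i, e i = ∑ l, f l * r l i

/-- the `r l` are independent -/
def MInj (r : Fin k → Fin (k + 2) → S) : Prop :=
  ∀ f : Fin k → S, (∀ i, ∑ l, f l * r l i = 0) → f = 0

/-- maximal minors of the matrix with rows `T a` and `r l` -/
noncomputable def mnr (T : Fin N → Fin (k + 2) → S) (r : Fin k → Fin (k + 2) → S)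
    (J : Fin (k + 2) → Fin N ⊕ Fin k) : S :=
  Matrix.det (Matrix.of (fun a => Sum.elim T r (J a)) : Matrix (Fin (k + 2)) (Fin (k + 2)) S)

/-- the degree of a minor -/
def dg (w : Fin (k + 2) → ℕ) (s : Fin k → ℕ) (J : Fin (k + 2) → Fin N ⊕ Fin k) : ℕ :=
  ∑ i, (w i - 1) + ∑ a, Sum.elim (fun _ => 0) (fun l => s l + 1) (J a)

end alg

section std
variable {R : Type} [CommRing R] {k n : ℕ}

/-- the pullback by `Φ` of the form `i_(v_1) .. i_(v_k) vol` on the space of dimension `k + 2` -/
noncomputable def stdF (Φ : Fin (k + 2) → MvPolynomial (Fin n) R)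
    (v : Fin k → Fin (k + 2) → MvPolynomial (Fin (k + 2)) R) (a b : Fin n) :
    MvPolynomial (Fin n) R :=
  alp (fun l i => aeval Φ (v l i)) (fun i => pderiv a (Φ i)) (fun i => pderiv b (Φ i))

/-- the form `i_(v_1) .. i_(v_k) vol` is closed -/
def ClV (v : Fin k → Fin (k + 2) → MvPolynomial (Fin (k + 2)) R) : Prop :=
  Closed (fun i j => mins v (i, j))

/-- data of weights: `Φ i` has degree `w i`, `v l i` has weighted degree `w i + s l` -/
structure WH (w : Fin (k + 2) → ℕ) (s : Fin k → ℕ) (Φ : Fin (k + 2) → MvPolynomial (Fin n) R)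
    (v : Fin k → Fin (k + 2) → MvPolynomial (Fin (k + 2)) R) : Prop where
  hΦ : ∀ i, (Φ i).IsHomogeneous (w i)
  hv : ∀ l i, IsWeightedHomogeneous w (v l i) (w i + s l)

end std

/-- the radial contraction divided by `d + 2` -/
noncomputable def radC (d : ℕ) {n : ℕ} (θ : Fin n → Fin n → MvPolynomial (Fin n) ℂ) : OF n :=
  fun j => C (((d : ℂ) + 2)⁻¹) * ∑ i, X i * θ i j

/-- `A'` lies on the component `S` only -/
def Only {N : ℕ} (d : ℕ) (S : Set (OF N)) (A' : OF N) : Prop :=
  A' ∈ S ∧ ∀ S2 ∈ Comp (RE N) (FolS N d), A' ∈ S2 → S2 = S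

/-- the second alternative of `CL` -/
def Alt2 (N d : ℕ) (S : Set (OF (N + 1))) : Prop :=
  ∃ A' ∈ S, (∀ S2 ∈ Comp (RE (N + 1)) (FolS (N + 1) d), A' ∈ S2 → S2 = S) ∧
    Cop (res A') ∧ Good (dd (res A'))

/-- the certificate: conditions on zeros for a map `Φ` and fields `v`, with the recipe `c` for the
three minors and the auxiliary form `ℓ` -/
structure Cert {N k : ℕ} (w : Fin (k + 2) → ℕ) (s : Fin k → ℕ)
    (Φ : Fin (k + 2) → MvPolynomial (Fin N) ℂ)
    (v : Fin k → Fin (k + 2) → MvPolynomial (Fin (k + 2)) ℂ)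
    (c : Fin 3 → (Fin (k + 2) → Fin N ⊕ Fin k) → MvPolynomial (Fin N) ℂ)
    (eg : Fin 3 → ℕ) (ℓ : MvPolynomial (Fin N) ℂ) (el : ℕ) : Prop where
  wh : WH w s Φ v
  heg : ∀ i, 0 < eg i
  hc : ∀ i J, c i J = 0 ∨ ∃ a, (c i J).IsHomogeneous a ∧ a + dg w s J = eg i
  hel : 0 < el
  hℓ : ℓ.IsHomogeneous el
  t1 : Triv (Sum.elim (Sum.elim (fun i => ∑ J, c i J *
      mnr (fun a i => pderiv a (Φ i)) (fun l i => aeval Φ (v l i)) J) (fun _ : Fin 1 => ℓ))
      (pads N 4))
  t2 : Triv (Sum.elim (Sum.elim (fun i => ∑ J, c i J *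
      mnr (fun a i => pderiv a (Φ i)) (fun l i => aeval Φ (v l i)) J)
      (mins (fun l i => aeval Φ (v l i)))) (pads N 4))
  t3 : Triv (Sum.elim (mins (fun l i => aeval Φ (v l i))) (pads N 3))
  cop : Cop (radC 3 (stdF Φ v))

end Pool.Agent.Helper1.FG
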