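import Pool.Agent.Helper1.FG.Defs
import Pool.Agent.Helper28.FolReg.Open
import Mathlib.RingTheory.Nullstellensatz

/-! FG-2: having no common zero except the origin is an open condition.
Proof: at `t1` some power `m^K` (`K ≥ e k` for all `k`) of the ideal of the variables lies in `(f)` (Nullstellensatz), that is, the
linear map `⊕_k S_(K - e k) → S_K`, `(a_k) ↦ ∑ a_k f_k`, is onto (finite-dimensional spaces of homogeneous polynomials; its matrix
has entries in `ℂ[t]`); a maximal minor does not vanish at `t1`, hence it vanishes for finitely many `t` only. -/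

set_option autoImplicit false

namespace Pool.Agent.Helper1.FG

open MvPolynomial

/-- consequence of the Nullstellensatz -/
theorem Triv.pow_mem {N : ℕ} {κ : Type} {f : κ → MvPolynomial (Fin N) ℂ} (h : Triv f)
    (p : MvPolynomial (Fin N) ℂ) (e : ℕ) (he : 0 < e)
    (hp : p.IsHomogeneous e) : ∃ K, p ^ K ∈ Ideal.span (Set.range f) := by
  have h1 : p ∈ (Ideal.span (Set.range f)).radical := by
    rw [← vanishingIdeal_zeroLocus_eq_radical (K := ℂ), mem_vanishingIdeal_iff]
    intro x hx
    have h2 : x = 0 := by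
      refine h x fun k => ?_
      have h3 := hx (f k) (Ideal.subset_span ⟨k, rfl⟩)
      rwa [aeval_eq_eval] at h3
    rw [h2, aeval_eq_eval]
    change eval (0 : Fin N → ℂ) p = 0
    rw [eval_zero]
    exact hp.coeff_eq_zero (by simp [he.ne])
  exact h1

theorem triv_open {N : ℕ} {κ : Type} [Finite κ] (f : κ → MvPolynomial (Fin N) (Polynomial ℂ))
    (e : κ → ℕ) (hf : ∀ k, (f k).IsHomogeneous (e k)) (t1 : ℂ)
    (h : Triv (fun k => ev t1 (Fin N) (f k))) : {t | ¬ Triv (fun k => ev t (Fin N) (f k))}.Finite := by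
  classical
  cases nonempty_fintype κ
  set φ : Polynomial ℂ →+* MvPolynomial (Fin 1) ℂ :=
    Polynomial.eval₂RingHom (C : ℂ →+* MvPolynomial (Fin 1) ℂ) (X 0) with hφ
  have hcomp : ∀ t : ℂ, (MvPolynomial.eval (fun _ : Fin 1 => t)).comp φ =
      Polynomial.evalRingHom t := by
    intro t
    ext x
    · simp [hφ]
    · simp [hφ]
  set F : κ → MvPolynomial (Fin N) (MvPolynomial (Fin 1) ℂ) := fun k => MvPolynomial.map φ (f k)
    with hF
  have hsp : ∀ (t : ℂ) (k : κ), Pool.Agent.Helper28.FolReg.sp (fun _ : Fin 1 => t) (F k) =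
      ev t (Fin N) (f k) := by
    intro t k
    unfold Pool.Agent.Helper28.FolReg.sp ev
    rw [hF]
    dsimp only
    rw [map_map, hcomp]
  have hFe : ∀ k, (F k).IsHomogeneous (e k) := fun k => (hf k).map _
  have hrad : ∀ i : Fin N, (X i : MvPolynomial (Fin N) ℂ) ∈
      (Ideal.span (Set.range fun k => ev t1 (Fin N) (f k))).radical := by
    intro i
    obtain ⟨K, hK⟩ := Triv.pow_mem h (X i) 1 one_pos (isHomogeneous_X _ _)
    exact ⟨K, hK⟩
  obtain ⟨K, hK⟩ := Pool.Agent.Helper28.FolReg.hom_mem_of_radical hrad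
  have hK' : ∀ u : MvPolynomial (Fin N) ℂ, u.IsHomogeneous K →
      u ∈ Ideal.span (Set.range
        (fun k => Pool.Agent.Helper28.FolReg.sp (fun _ : Fin 1 => t1) (F k))) := by
    intro u hu
    simp only [hsp]
    exact hK u hu
  obtain ⟨hh, hh0, hh1⟩ := Pool.Agent.Helper28.FolReg.open_mem F e hFe K (fun _ => t1) hK'
  set q : Polynomial ℂ := aeval (fun _ : Fin 1 => (Polynomial.X : Polynomial ℂ)) hh with hq
  have hqe : ∀ t : ℂ, Polynomial.eval t q = eval (fun _ : Fin 1 => t) hh := by
    intro t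
    have h3 : (Polynomial.evalRingHom t).comp
        ((aeval (fun _ : Fin 1 => (Polynomial.X : Polynomial ℂ)) :
          MvPolynomial (Fin 1) ℂ →ₐ[ℂ] Polynomial ℂ) : MvPolynomial (Fin 1) ℂ →+* Polynomial ℂ) =
        MvPolynomial.eval (fun _ : Fin 1 => t) := by
      ext x
      · simp
      · simp
    have h4 := RingHom.congr_fun h3 hh
    simpa [hq] using h4
  have hq0 : q ≠ 0 := by
    intro h0
    apply hh0
    rw [← hqe, h0, Polynomial.eval_zero]
  refine (Polynomial.finite_setOfPred_isRoot hq0).subset ?_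
  intro t ht
  by_contra hne
  apply ht
  have hne' : eval (fun _ : Fin 1 => t) hh ≠ 0 := by
    intro h0
    apply hne
    change Polynomial.eval t q = 0
    rw [hqe, h0]
  intro x hx
  funext i
  have h5 := hh1 (fun _ => t) hne' (X i ^ K) (by
    simpa using (isHomogeneous_X ℂ i).pow K)
  simp only [hsp] at h5
  have h6 : Ideal.span (Set.range fun k => ev t (Fin N) (f k)) ≤
      RingHom.ker (eval x) := by
    rw [Ideal.span_le]
    rintro _ ⟨k, rfl⟩
    exact hx k
  have h7 := h6 h5
  rw [RingHom.mem_ker, map_pow, eval_X] at h7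
  exact eq_zero_of_pow_eq_zero h7

end Pool.Agent.Helper1.FG
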