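import Pool.Agent.Helper1.FG.Reg
import Pool.Agent.Helper1.FG.Open

/-! FG-6: the minors are not zero divisors modulo the regular sequence.
Proof (n = 1, in general replace `g i` by `g i ^ n`).  `R = S/(g)`, `H = {a ∈ R : δ_j a = 0}`, claim `H = 0`.  By `rseq_of_triv`
`g 0, g 1, g 2, ℓ` and the variables `X_i`, `i ≥ 4`, form a regular sequence in any order.  Modulo `g` and all these variables some power
of every variable lies in the ideal of the `δ_j` (second hypothesis), in particular a power of `ℓ`, which is a nonzerodivisor: `H = 0` there.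
Remove the variables one at a time: if `a ∈ H` then `a ∈ X_i R'`, `a = X_i a'`, `a' ∈ H` (`X_i` is regular), so by degrees `a = 0`
(homogeneous components).  If some `δ_j` is a non-zero constant everything is trivial. -/

set_option autoImplicit false

namespace Pool.Agent.Helper1.FG

open MvPolynomial

private theorem delta_comp_mem {N : ℕ} (s : Set (MvPolynomial (Fin N) ℂ))
    (hs : ∀ p ∈ s, ∃ d, p.IsHomogeneous d)
    (b : MvPolynomial (Fin N) ℂ) (hb : b ∈ Ideal.span s) (d : ℕ) :
    homogeneousComponent d b ∈ Ideal.span s := by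
  let _ : GradedAlgebra (homogeneousSubmodule (Fin N) ℂ) := MvPolynomial.gradedAlgebra
  have h : (Ideal.span s).IsHomogeneous (homogeneousSubmodule (Fin N) ℂ) :=
    Ideal.homogeneous_span (homogeneousSubmodule (Fin N) ℂ) s (fun p hp => by
      obtain ⟨d, hd⟩ := hs p hp
      exact ⟨d, hd⟩)
  have := h d hb
  rwa [← decomposition.decompose'_apply b d]

private theorem delta_comp_zero {N : ℕ} (i : Fin N) (m d : ℕ) (hd : d < m)
    (c : MvPolynomial (Fin N) ℂ) : homogeneousComponent d (X i ^ m * c) = 0 := by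
  classical
  ext e
  rw [coeff_homogeneousComponent, coeff_zero]
  split_ifs with he
  · rw [X_pow_eq_monomial, coeff_monomial_mul']
    rw [if_neg]
    intro hle
    have h1 : m ≤ e i := by
      have := hle i
      simpa using this
    have h2 : e i ≤ e.degree := Finsupp.le_degree i e
    omega
  · rfl

private theorem delta_nak {N : ℕ} (s : Set (MvPolynomial (Fin N) ℂ))
    (hs : ∀ p ∈ s, ∃ d, p.IsHomogeneous d)
    (i : Fin N) (a : MvPolynomial (Fin N) ℂ)
    (h : ∀ m : ℕ, ∃ b ∈ Ideal.span s, ∃ c, a = b + X i ^ m * c) : a ∈ Ideal.span s := by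
  obtain ⟨b, hb, c, hc⟩ := h (a.totalDegree + 1)
  rw [← sum_homogeneousComponent a]
  refine Ideal.sum_mem _ (fun d hd => ?_)
  have h1 : homogeneousComponent d a = homogeneousComponent d b := by
    conv_lhs => rw [hc]
    rw [map_add, delta_comp_zero i _ d (Finset.mem_range.1 hd), add_zero]
  rw [h1]
  exact delta_comp_mem s hs b hb d

private theorem RSeq.comp {S : Type} [CommRing S] {κ κ' : Type} {f : κ → S} (h : RSeq f)
    (e : κ' → κ) (he : Function.Injective e) : RSeq (fun i => f (e i)) := by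
  intro T k hk a ha
  have h1 : (fun i => f (e i)) '' T = f '' (e '' T) := by
    rw [Set.image_image]
  rw [h1] at ha ⊢
  exact h (e '' T) (e k) (fun h2 => by
    obtain ⟨k', hk', h3⟩ := h2
    exact hk (he h3 ▸ hk')) a ha

private theorem delta_rseq {N : ℕ} (hN : 4 ≤ N) (g : Fin 3 → MvPolynomial (Fin N) ℂ)
    (eg : Fin 3 → ℕ) (heg : ∀ i, 0 < eg i) (hg : ∀ i, (g i).IsHomogeneous (eg i))
    (ℓ : MvPolynomial (Fin N) ℂ) (el : ℕ) (hel : 0 < el) (hℓ : ℓ.IsHomogeneous el)
    (h1 : Triv (Sum.elim (Sum.elim g (fun _ : Fin 1 => ℓ)) (pads N 4))) (n : ℕ) (hn : 0 < n) :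
    RSeq (Sum.elim (Sum.elim (fun i => g i ^ n) (fun _ : Fin 1 => ℓ)) (pads N 4)) := by
  refine rseq_of_triv ?_ _ (Sum.elim (Sum.elim (fun i => eg i * n) (fun _ => el)) (fun _ => 1))
    ?_ ?_ ?_
  · rw [Fintype.card_sum, Fintype.card_sum, card_PI hN]
    simp
    omega
  · rintro ((i | i) | i)
    · exact Nat.mul_pos (heg i) hn
    · exact hel
    · exact one_pos
  · rintro ((i | i) | i)
    · exact (hg i).pow n
    · exact hℓ
    · exact isHomogeneous_X _ _
  · intro x hx
    refine h1 x ?_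
    rintro ((i | i) | i)
    · have := hx (Sum.inl (Sum.inl i))
      simp only [Sum.elim_inl, map_pow] at this ⊢
      exact eq_zero_of_pow_eq_zero this
    · exact hx (Sum.inl (Sum.inr i))
    · exact hx (Sum.inr i)

theorem delta {N : ℕ} (hN : 4 ≤ N) {κ : Type} [Finite κ] (g : Fin 3 → MvPolynomial (Fin N) ℂ)
    (eg : Fin 3 → ℕ) (heg : ∀ i, 0 < eg i) (hg : ∀ i, (g i).IsHomogeneous (eg i))
    (ℓ : MvPolynomial (Fin N) ℂ) (el : ℕ) (hel : 0 < el) (hℓ : ℓ.IsHomogeneous el)
    (δ : κ → MvPolynomial (Fin N) ℂ) (eδ : κ → ℕ) (hδ : ∀ j, (δ j).IsHomogeneous (eδ j))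
    (h1 : Triv (Sum.elim (Sum.elim g (fun _ : Fin 1 => ℓ)) (pads N 4)))
    (h2 : Triv (Sum.elim (Sum.elim g δ) (pads N 4))) (n : ℕ) (hn : 0 < n)
    (a : MvPolynomial (Fin N) ℂ)
    (ha : ∀ j, δ j * a ∈ Ideal.span (Set.range (fun i => g i ^ n))) :
    a ∈ Ideal.span (Set.range (fun i => g i ^ n)) := by
  classical
  have hR := delta_rseq hN g eg heg hg ℓ el hel hℓ h1 n hn
  -- the sets of indices
  let U : Set (PI N 4) → Set ((Fin 3 ⊕ Fin 1) ⊕ PI N 4) := fun W =>
    Set.range (fun i : Fin 3 => (Sum.inl (Sum.inl i) : (Fin 3 ⊕ Fin 1) ⊕ PI N 4)) ∪ Sum.inr '' W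
  let F : (Fin 3 ⊕ Fin 1) ⊕ PI N 4 → MvPolynomial (Fin N) ℂ :=
    Sum.elim (Sum.elim (fun i => g i ^ n) (fun _ : Fin 1 => ℓ)) (pads N 4)
  have hU : ∀ W, F '' (U W) = Set.range (fun i => g i ^ n) ∪ pads N 4 '' W := by
    intro W
    rw [Set.image_union, ← Set.range_comp, Set.image_image]
    rfl
  -- homogeneous generators
  have hhom : ∀ W, ∀ p ∈ F '' (U W), ∃ d, p.IsHomogeneous d := by
    intro W p hp
    rw [hU] at hp
    rcases hp with ⟨i, rfl⟩ | ⟨i, _, rfl⟩
    · exact ⟨_, (hg i).pow n⟩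
    · exact ⟨_, isHomogeneous_X _ _⟩
  -- all the variables
  have h0 : ∀ a, (∀ j, δ j * a ∈ Ideal.span (F '' (U Set.univ))) →
      a ∈ Ideal.span (F '' (U Set.univ)) := by
    intro a ha
    have h3 : Triv (Sum.elim (Sum.elim (fun i => g i ^ n) δ) (pads N 4)) := by
      intro x hx
      refine h2 x ?_
      rintro ((i | i) | i)
      · have := hx (Sum.inl (Sum.inl i))
        simp only [Sum.elim_inl, map_pow] at this ⊢
        exact eq_zero_of_pow_eq_zero this
      · exact hx (Sum.inl (Sum.inr i))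
      · exact hx (Sum.inr i)
    obtain ⟨K, hK⟩ := Triv.pow_mem h3 ℓ el hel hℓ
    have h4 : ℓ ^ K * a ∈ Ideal.span (F '' (U Set.univ)) := by
      have h5 : ∀ p ∈ Ideal.span (Set.range (Sum.elim (Sum.elim (fun i => g i ^ n) δ) (pads N 4))),
          p * a ∈ Ideal.span (F '' (U Set.univ)) := by
        intro p hp
        induction hp using Submodule.span_induction with
        | mem p hp =>
          obtain ⟨((i | i) | i), rfl⟩ := hp
          · refine Ideal.mul_mem_right _ _ (Ideal.subset_span ?_)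
            rw [hU]
            exact Or.inl ⟨i, rfl⟩
          · exact ha i
          · refine Ideal.mul_mem_right _ _ (Ideal.subset_span ?_)
            rw [hU]
            exact Or.inr ⟨i, Set.mem_univ _, rfl⟩
        | zero => rw [zero_mul]; exact Ideal.zero_mem _
        | add p q _ _ hp hq => rw [add_mul]; exact Ideal.add_mem _ hp hq
        | smul c p _ hp => rw [smul_eq_mul, mul_assoc]; exact Ideal.mul_mem_left _ _ hp
      exact h5 _ hK
    clear hK
    induction K with
    | zero => simpa using h4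
    | succ K ih =>
      apply ih
      have h6 : F (Sum.inl (Sum.inr 0)) * (ℓ ^ K * a) ∈ Ideal.span (F '' (U Set.univ)) := by
        have : F (Sum.inl (Sum.inr 0)) * (ℓ ^ K * a) = ℓ ^ (K + 1) * a := by
          change ℓ * (ℓ ^ K * a) = _
          ring
        rw [this]; exact h4
      refine hR (U Set.univ) (Sum.inl (Sum.inr 0)) ?_ _ h6
      rintro (⟨i, hi⟩ | ⟨i, _, hi⟩)
      · simp at hi
      · simp at hi
  -- remove the variables
  have key : ∀ T : Finset (PI N 4), ∀ a, (∀ j, δ j * a ∈ Ideal.span (F '' (U (↑T)ᶜ))) →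
      a ∈ Ideal.span (F '' (U (↑T)ᶜ)) := by
    intro T
    induction T using Finset.induction_on with
    | empty => simpa using h0
    | insert i T hi ih =>
      -- division by `X_i`
      have hdiv : ∀ c, (X i.1 : MvPolynomial (Fin N) ℂ) * c ∈
          Ideal.span (F '' (U (↑(insert i T))ᶜ)) → c ∈ Ideal.span (F '' (U (↑(insert i T))ᶜ)) := by
        intro c hc
        refine hR (U (↑(insert i T))ᶜ) (Sum.inr i) ?_ c hc
        rintro (⟨k, hk⟩ | ⟨k, hk, hk'⟩)
        · simp at hk
        · have : k = i := by simpa using hk'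
          subst this
          simp at hk
      have hsplit : ∀ a, a ∈ Ideal.span (F '' (U (↑T)ᶜ)) →
          ∃ b ∈ Ideal.span (F '' (U (↑(insert i T))ᶜ)), ∃ c, a = b + X i.1 * c := by
        intro a ha
        have h7 : F '' (U (↑T)ᶜ) ⊆ insert (X i.1) (F '' (U (↑(insert i T))ᶜ)) := by
          rw [hU, hU]
          rintro p (hp | ⟨k, hk, rfl⟩)
          · exact Or.inr (Or.inl hp)
          · by_cases hki : k = i
            · subst hki
              exact Or.inl rfl
            · refine Or.inr (Or.inr ⟨k, ?_, rfl⟩)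
              simp only [Set.mem_compl_iff, Finset.mem_coe] at hk ⊢
              simp [hki, hk]
        have h8 := Ideal.span_mono h7 ha
        rw [Ideal.mem_span_insert] at h8
        obtain ⟨c, b, hb, h9⟩ := h8
        exact ⟨b, hb, c, by rw [h9]; ring⟩
      have hle : Ideal.span (F '' (U (↑(insert i T))ᶜ)) ≤ Ideal.span (F '' (U (↑T)ᶜ)) := by
        refine Ideal.span_mono (Set.image_mono ?_)
        refine Set.union_subset_union_right _ (Set.image_mono ?_)
        rw [Set.compl_subset_compl]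
        simp
      -- one step
      have hstep : ∀ a, (∀ j, δ j * a ∈ Ideal.span (F '' (U (↑(insert i T))ᶜ))) →
          ∃ b ∈ Ideal.span (F '' (U (↑(insert i T))ᶜ)), ∃ c, a = b + X i.1 * c ∧
            ∀ j, δ j * c ∈ Ideal.span (F '' (U (↑(insert i T))ᶜ)) := by
        intro a ha
        obtain ⟨b, hb, c, hc⟩ := hsplit a (ih a (fun j => hle (ha j)))
        refine ⟨b, hb, c, hc, fun j => hdiv _ ?_⟩
        have : (X i.1 : MvPolynomial (Fin N) ℂ) * (δ j * c) = δ j * a - δ j * b := by
          rw [hc]; ring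
        rw [this]
        exact Ideal.sub_mem _ (ha j) (Ideal.mul_mem_left _ _ hb)
      intro a ha
      refine delta_nak _ (hhom _) i.1 a (fun m => ?_)
      have hm : ∃ b ∈ Ideal.span (F '' (U (↑(insert i T))ᶜ)), ∃ c, a = b + X i.1 ^ m * c ∧
            ∀ j, δ j * c ∈ Ideal.span (F '' (U (↑(insert i T))ᶜ)) := by
        induction m with
        | zero => exact ⟨0, Ideal.zero_mem _, a, by simp, ha⟩
        | succ m ihm =>
          obtain ⟨b, hb, c, hc, hc'⟩ := ihm
          obtain ⟨b', hb', c', hc1, hc2⟩ := hstep c hc'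
          refine ⟨b + X i.1 ^ m * b', Ideal.add_mem _ hb (Ideal.mul_mem_left _ _ hb'), c', ?_, hc2⟩
          rw [hc, hc1]; ring
      obtain ⟨b, hb, c, hc, _⟩ := hm
      exact ⟨b, hb, c, hc⟩
  have hfin := key Finset.univ a (by
    intro j
    rw [hU]
    simpa using ha j)
  rw [hU] at hfin
  simpa using hfin

theorem rseq_three {N : ℕ} (hN : 4 ≤ N) (g : Fin 3 → MvPolynomial (Fin N) ℂ)
    (eg : Fin 3 → ℕ) (heg : ∀ i, 0 < eg i) (hg : ∀ i, (g i).IsHomogeneous (eg i))
    (ℓ : MvPolynomial (Fin N) ℂ) (el : ℕ) (hel : 0 < el) (hℓ : ℓ.IsHomogeneous el)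
    (h1 : Triv (Sum.elim (Sum.elim g (fun _ : Fin 1 => ℓ)) (pads N 4))) (n : ℕ) (hn : 0 < n) :
    RSeq (fun i => g i ^ n) := by
  have h := delta_rseq hN g eg heg hg ℓ el hel hℓ h1 n hn
  exact RSeq.comp h (fun i => Sum.inl (Sum.inl i)) (fun i j hij => by simpa using hij)

end Pool.Agent.Helper1.FG
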