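import Pool.Agent.Helper1.FG.Br
import Pool.Agent.Helper1.FG.Open

/-! FG-5: the same from the condition on zeros.
Proof.  Descending induction on `N ≥ 3`.  `N = 3`: a power of each variable lies in `MinI r` (`Triv.pow_mem`; if some minor has
degree 0 it is a non-zero constant and `MinI r = ⊤`), use `ρ_i = X_i^K` in `inj_of`, `ker_of`, `br_of`.
Step: put the last variable `x` of `N + 1 > 3` variables equal to 0 (the condition is inherited).  If `c` satisfies `∑ c_i r_(l,i) = 0`
and is homogeneous (`c_i` of degree `D - w_i`; it is enough to treat the homogeneous components), then modulo `x` it is `ι e`, and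
`c - ι e = x c'` with `c'` again a solution, of smaller degree: induction on the degree.  The same for `KerI`, `MInj`. -/

set_option autoImplicit false

namespace Pool.Agent.Helper1.FG

open MvPolynomial

attribute [local instance] MvPolynomial.gradedAlgebra

private theorem rho {N k : ℕ} (w : Fin (k + 2) → ℕ) (s : Fin k → ℕ)
    (r : Fin k → Fin (k + 2) → MvPolynomial (Fin N) ℂ)
    (hr : ∀ l i, (r l i).IsHomogeneous (w i + s l))
    (h : Triv (Sum.elim (mins r) (pads N 3))) (i : Fin N) :
    ∃ (K : ℕ) (ρ : MvPolynomial (Fin N) ℂ), 0 < K ∧ ρ ∈ MinI r ∧ ρ.IsHomogeneous K ∧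
      ∀ x : Fin N → ℂ, (∀ j : PI N 3, x j.1 = 0) → eval x ρ = x i ^ K := by
  obtain ⟨K, hK⟩ := Triv.pow_mem h (X i) 1 one_pos (isHomogeneous_X ℂ i)
  have hspan : Ideal.span (Set.range (Sum.elim (mins r) (pads N 3)))
      = MinI r ⊔ Ideal.span (Set.range (pads N 3)) := by
    rw [Set.Sum.elim_range, Ideal.span_union]; rfl
  have hK1 : (X i : MvPolynomial (Fin N) ℂ) ^ (K + 1) ∈
      MinI r ⊔ Ideal.span (Set.range (pads N 3)) := by
    rw [← hspan, pow_succ]; exact Ideal.mul_mem_right _ _ hK
  obtain ⟨a, ha, b, hb, hab⟩ := Submodule.mem_sup.mp hK1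
  have hI : (MinI r).IsHomogeneous (homogeneousSubmodule (Fin N) ℂ) := by
    refine Ideal.homogeneous_span _ _ ?_
    rintro _ ⟨p, rfl⟩
    exact ⟨_, (mem_homogeneousSubmodule _ _).2 (mins_hom w s r hr p)⟩
  have hP : (Ideal.span (Set.range (pads N 3))).IsHomogeneous (homogeneousSubmodule (Fin N) ℂ) := by
    refine Ideal.homogeneous_span _ _ ?_
    rintro _ ⟨p, rfl⟩
    exact ⟨_, (mem_homogeneousSubmodule _ _).2 (isHomogeneous_X ℂ p.1)⟩
  refine ⟨K + 1, homogeneousComponent (K + 1) a, Nat.succ_pos _,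
    homogeneousComponent_mem_of_mem hI ha _, homogeneousComponent_isHomogeneous _ _, ?_⟩
  intro x hx
  have hb2 := homogeneousComponent_mem_of_mem hP hb (K + 1)
  have hb3 : eval x (homogeneousComponent (K + 1) b) = 0 := by
    have : Ideal.span (Set.range (pads N 3)) ≤ RingHom.ker (eval x) := by
      rw [Ideal.span_le]
      rintro _ ⟨p, rfl⟩
      simp only [SetLike.mem_coe, RingHom.mem_ker, pads, eval_X]
      exact hx p
    exact (RingHom.mem_ker).1 (this hb2)
  have h1 : homogeneousComponent (K + 1) a + homogeneousComponent (K + 1) b = X i ^ (K + 1) := by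
    rw [← map_add, hab]
    have h2 := (isHomogeneous_X ℂ i).pow (K + 1)
    rw [one_mul] at h2
    rw [homogeneousComponent_eq_self h2]
  have h3 := congrArg (eval x) h1
  rw [map_add, hb3, add_zero, map_pow, eval_X] at h3
  exact h3

theorem exact_of_triv {N k : ℕ} (hN : 3 ≤ N) (w : Fin (k + 2) → ℕ) (s : Fin k → ℕ)
    (r : Fin k → Fin (k + 2) → MvPolynomial (Fin N) ℂ)
    (hr : ∀ l i, (r l i).IsHomogeneous (w i + s l))
    (h : Triv (Sum.elim (mins r) (pads N 3))) : MInj r ∧ KerI r ∧ BR r := by
  choose K ρ0 hK hmem hhom hev using rho w s r hr h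
  have hF : RSeq (Sum.elim (fun i : Fin 3 => ρ0 (Fin.castLE hN i)) (pads N 3)) := by
    refine rseq_of_triv ?_ _ (Sum.elim (fun i : Fin 3 => K (Fin.castLE hN i)) (fun _ => 1))
      ?_ ?_ ?_
    · rw [Fintype.card_sum, card_PI hN, Fintype.card_fin]; omega
    · rintro (i | j)
      · exact hK _
      · exact one_pos
    · rintro (i | j)
      · exact hhom _
      · exact isHomogeneous_X ℂ j.1
    · intro x hx
      have h1 : ∀ j : PI N 3, x j.1 = 0 := fun j => by
        have := hx (Sum.inr j)
        simpa [pads] using this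
      funext i
      by_cases hi : 3 ≤ i.val
      · exact h1 ⟨i, hi⟩
      · have h2 := hx (Sum.inl ⟨i.val, by omega⟩)
        simp only [Sum.elim_inl] at h2
        have h3 : Fin.castLE hN ⟨i.val, by omega⟩ = i := by ext; simp
        rw [h3, hev i x h1] at h2
        exact pow_eq_zero_iff (hK i).ne' |>.1 h2
  have hR : RSeq (fun i : Fin 3 => ρ0 (Fin.castLE hN i)) := by
    intro T k hk a ha
    have h1 := hF (Sum.inl '' T) (Sum.inl k) (by
      rintro ⟨t, ht, h2⟩
      exact hk (Sum.inl_injective h2 ▸ ht)) a (by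
      rw [← Set.image_comp]
      exact ha)
    rw [← Set.image_comp] at h1
    exact h1
  exact ⟨inj_of hR fun i => hmem _, ker_of hR fun i => hmem _, br_of hR fun i => hmem _⟩

end Pool.Agent.Helper1.FG
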