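import Pool.Agent.Helper1.FG.StdMove

/-! FG-13: explicit member with certificate, `k = 0` (forms `df ∧ dg`), weights (1,4).
`Φ1 = (X 0, ∑ i, X i ^ 4)`; recipes: the minors of the columns `(0,1)`, `(0,2)`, `(0,3)`, that is `4 X_1^3, 4 X_2^3, 4 X_3^3`; `ℓ = X 0`.
`stdF` is `dX_0 ∧ dg` up to sign, `radC` = `± (X_0 dg - 4 g dX_0)/5`.  `t2`, `t3` are trivial for `k = 0` (`mins (0, 1) = 1`). -/

set_option autoImplicit false

namespace Pool.Agent.Helper1.FG

open MvPolynomial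
open scoped BigOperators
open Pool.Agent.Helper93 (TT OF RE HomS IntS FolS Cop Comp PreIrr pb)
open Pool.Agent.Helper71.FL

private theorem alp_zero {S : Type} [CommRing S] (r : Fin 0 → Fin (0 + 2) → S)
    (x y : Fin (0 + 2) → S) : alp r x y = x 0 * y 1 - x 1 * y 0 := by
  unfold alp
  rw [Matrix.det_fin_two]
  rfl

private theorem mins_zero_const {R : Type} [CommRing R]
    (v : Fin 0 → Fin (0 + 2) → MvPolynomial (Fin (0 + 2)) R) (p : Fin (0 + 2) × Fin (0 + 2)) :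
    ∃ c : R, mins v p = C c := by
  unfold mins
  rw [alp_zero]
  refine ⟨(Pi.single p.1 (1 : R) : Fin 2 → R) 0 * (Pi.single p.2 (1 : R) : Fin 2 → R) 1 -
    (Pi.single p.1 (1 : R) : Fin 2 → R) 1 * (Pi.single p.2 (1 : R) : Fin 2 → R) 0, ?_⟩
  have h : ∀ (a b : Fin 2), (Pi.single a (1 : MvPolynomial (Fin (0 + 2)) R) :
      Fin 2 → MvPolynomial (Fin (0 + 2)) R) b = C ((Pi.single a (1 : R) : Fin 2 → R) b) := by
    intro a b
    by_cases hab : b = a
    · subst hab; simp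
    · simp [Pi.single_eq_of_ne hab]
  rw [map_sub, map_mul, map_mul, ← h, ← h, ← h, ← h]

/-- `k = 0`: everything is closed -/
theorem ClV_zero {R : Type} [CommRing R] (v : Fin 0 → Fin (0 + 2) → MvPolynomial (Fin (0 + 2)) R) :
    ClV v := by
  intro i j k
  obtain ⟨c1, h1⟩ := mins_zero_const v (j, k)
  obtain ⟨c2, h2⟩ := mins_zero_const v (k, i)
  obtain ⟨c3, h3⟩ := mins_zero_const v (i, j)
  simp only [h1, h2, h3, pderiv_C, add_zero]

/-- the index `i` among the `N` indices -/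
private def ix {N : ℕ} (hN : 4 ≤ N) (i : Fin 4) : Fin N := ⟨i.val, by omega⟩

private theorem ix_inj {N : ℕ} (hN : 4 ≤ N) {i j : Fin 4} (h : ix hN i = ix hN j) : i = j := by
  have := congrArg Fin.val h
  exact Fin.ext this

private noncomputable def gg {N : ℕ} (hN : 4 ≤ N) : MvPolynomial (Fin N) ℂ :=
  X (ix hN 1) ^ 4 + X (ix hN 2) ^ 4 + X (ix hN 3) ^ 4

private noncomputable def PP {N : ℕ} (hN : 4 ≤ N) : Fin (0 + 2) → MvPolynomial (Fin N) ℂ :=
  ![X (ix hN 0), gg hN]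

private theorem gg_hom {N : ℕ} (hN : 4 ≤ N) : (gg hN).IsHomogeneous 4 := by
  unfold gg
  exact ((isHomogeneous_X_pow _ _).add (isHomogeneous_X_pow _ _)).add (isHomogeneous_X_pow _ _)

private theorem pd_X {N : ℕ} (hN : 4 ≤ N) (i : Fin N) :
    pderiv i (PP hN 0) = if i = ix hN 0 then 1 else 0 := by
  show pderiv i (X (ix hN 0)) = _
  rw [pderiv_X]
  by_cases h : i = ix hN 0
  · subst h; simp
  · rw [if_neg h, Pi.single_eq_of_ne (fun h' => h h'.symm)]

private theorem pd_g {N : ℕ} (hN : 4 ≤ N) (i : Fin N) :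
    pderiv i (PP hN 1) = (if i = ix hN 1 then 4 * X (ix hN 1) ^ 3 else 0) +
      (if i = ix hN 2 then 4 * X (ix hN 2) ^ 3 else 0) +
      (if i = ix hN 3 then 4 * X (ix hN 3) ^ 3 else 0) := by
  have hX : ∀ j : Fin N, pderiv i (X j ^ 4 : MvPolynomial (Fin N) ℂ) =
      if i = j then 4 * X j ^ 3 else 0 := by
    intro j
    rw [pderiv_pow, pderiv_X]
    by_cases h : i = j
    · subst h; simp
    · rw [if_neg h, Pi.single_eq_of_ne (fun h' => h h'.symm)]; simp
  show pderiv i (gg hN) = _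
  unfold gg
  rw [map_add, map_add, hX, hX, hX]

private noncomputable def vv : Fin 0 → Fin (0 + 2) → MvPolynomial (Fin (0 + 2)) ℂ :=
  fun l => l.elim0

private def JJ {N : ℕ} (hN : 4 ≤ N) (i : Fin 3) : Fin (0 + 2) → Fin N ⊕ Fin 0 :=
  ![Sum.inl (ix hN 0), Sum.inl (ix hN i.succ)]

private noncomputable def cc {N : ℕ} (hN : 4 ≤ N) (i : Fin 3)
    (J : Fin (0 + 2) → Fin N ⊕ Fin 0) : MvPolynomial (Fin N) ℂ :=
  if J = JJ hN i then 1 else 0

private theorem mnr_zero {N : ℕ} {S : Type} [CommRing S] (T : Fin N → Fin (0 + 2) → S)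
    (r : Fin 0 → Fin (0 + 2) → S) (a b : Fin N) :
    mnr T r ![Sum.inl a, Sum.inl b] = T a 0 * T b 1 - T a 1 * T b 0 := by
  unfold mnr
  rw [Matrix.det_fin_two]
  rfl

private theorem sum_cc {N : ℕ} (hN : 4 ≤ N) (r : Fin 0 → Fin (0 + 2) → MvPolynomial (Fin N) ℂ)
    (i : Fin 3) :
    ∑ J, cc hN i J * mnr (fun a i => pderiv a (PP hN i)) r J = 4 * X (ix hN i.succ) ^ 3 := by
  rw [Finset.sum_eq_single (JJ hN i)]
  · unfold cc
    rw [if_pos rfl, one_mul]
    unfold JJ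
    rw [mnr_zero]
    have e0 : ∀ j : Fin 3, ix hN j.succ ≠ ix hN 0 := fun j h => by
      have := ix_inj hN h
      exact absurd this (Fin.succ_ne_zero j)
    have h0 : ∀ j : Fin 3, ix hN 0 ≠ ix hN j.succ := fun j h => e0 j h.symm
    have a1 : ix hN 0 ≠ ix hN 1 := h0 0
    have a2 : ix hN 0 ≠ ix hN 2 := h0 1
    have a3 : ix hN 0 ≠ ix hN 3 := h0 2
    simp only [pd_X, pd_g, if_true, if_neg (e0 i), if_neg a1, if_neg a2, if_neg a3, mul_zero,
      add_zero, sub_zero, one_mul]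
    have hne : ∀ a b : Fin 4, a ≠ b → ix hN a ≠ ix hN b := fun a b h h' => h (ix_inj hN h')
    fin_cases i
    · show (if ix hN 1 = ix hN 1 then (4 : MvPolynomial (Fin N) ℂ) * X (ix hN 1) ^ 3 else 0) +
        (if ix hN 1 = ix hN 2 then 4 * X (ix hN 2) ^ 3 else 0) +
        (if ix hN 1 = ix hN 3 then 4 * X (ix hN 3) ^ 3 else 0) = 4 * X (ix hN 1) ^ 3
      rw [if_pos rfl, if_neg (hne 1 2 (by decide)), if_neg (hne 1 3 (by decide))]
      ring
    · show (if ix hN 2 = ix hN 1 then (4 : MvPolynomial (Fin N) ℂ) * X (ix hN 1) ^ 3 else 0) +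
        (if ix hN 2 = ix hN 2 then 4 * X (ix hN 2) ^ 3 else 0) +
        (if ix hN 2 = ix hN 3 then 4 * X (ix hN 3) ^ 3 else 0) = 4 * X (ix hN 2) ^ 3
      rw [if_pos rfl, if_neg (hne 2 1 (by decide)), if_neg (hne 2 3 (by decide))]
      ring
    · show (if ix hN 3 = ix hN 1 then (4 : MvPolynomial (Fin N) ℂ) * X (ix hN 1) ^ 3 else 0) +
        (if ix hN 3 = ix hN 2 then 4 * X (ix hN 2) ^ 3 else 0) +
        (if ix hN 3 = ix hN 3 then 4 * X (ix hN 3) ^ 3 else 0) = 4 * X (ix hN 3) ^ 3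
      rw [if_pos rfl, if_neg (hne 3 1 (by decide)), if_neg (hne 3 2 (by decide))]
      ring
  · intro J _ hJ
    unfold cc
    rw [if_neg hJ, zero_mul]
  · intro h
    exact absurd (Finset.mem_univ _) h

private theorem mins_one {N : ℕ} (r : Fin 0 → Fin (0 + 2) → MvPolynomial (Fin N) ℂ) :
    mins r ((0 : Fin 2), (1 : Fin 2)) = 1 := by
  unfold mins
  rw [alp_zero]
  show (Pi.single (0 : Fin 2) (1 : MvPolynomial (Fin N) ℂ) : Fin 2 → MvPolynomial (Fin N) ℂ) 0 *
      (Pi.single (1 : Fin 2) (1 : MvPolynomial (Fin N) ℂ) : Fin 2 → MvPolynomial (Fin N) ℂ) 1 -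
      (Pi.single (0 : Fin 2) (1 : MvPolynomial (Fin N) ℂ) : Fin 2 → MvPolynomial (Fin N) ℂ) 1 *
      (Pi.single (1 : Fin 2) (1 : MvPolynomial (Fin N) ℂ) : Fin 2 → MvPolynomial (Fin N) ℂ) 0 = 1
  simp

private theorem st_form {N : ℕ} (hN : 4 ≤ N) (a b : Fin N) :
    stdF (PP hN) vv a b = pderiv a (PP hN 0) * pderiv b (PP hN 1) -
      pderiv a (PP hN 1) * pderiv b (PP hN 0) := by
  unfold stdF
  rw [alp_zero]

private theorem euler_g {N : ℕ} (hN : 4 ≤ N) :
    ∑ i, X i * pderiv i (PP hN 1) = 4 * gg hN := by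
  simp only [pd_g, mul_add, Finset.sum_add_distrib, mul_ite, mul_zero, Finset.sum_ite_eq',
    Finset.mem_univ, if_true]
  unfold gg
  ring

private theorem euler_X {N : ℕ} (hN : 4 ≤ N) :
    ∑ i, X i * pderiv i (PP hN 0) = X (ix hN 0) := by
  simp only [pd_X, mul_ite, mul_zero, mul_one, Finset.sum_ite_eq', Finset.mem_univ, if_true]

private theorem rad_form {N : ℕ} (hN : 4 ≤ N) (j : Fin N) :
    radC 3 (stdF (PP hN) vv) j = C (((3 : ℂ) + 2)⁻¹) *
      (X (ix hN 0) * pderiv j (PP hN 1) - 4 * gg hN * pderiv j (PP hN 0)) := by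
  unfold radC
  rw [← euler_g hN, ← euler_X hN]
  rw [Finset.sum_mul, Finset.sum_mul, ← Finset.sum_sub_distrib]
  push_cast
  congr 1
  refine Finset.sum_congr rfl fun i _ => ?_
  rw [st_form]
  ring

private theorem cop_form {N : ℕ} (hN : 4 ≤ N) : Cop (radC 3 (stdF (PP hN) vv)) := by
  have hne : ∀ a b : Fin 4, a ≠ b → ix hN a ≠ ix hN b := fun a b h h' => h (ix_inj hN h')
  intro p hp
  by_contra hu
  have h5 : IsUnit (C (((3 : ℂ) + 2)⁻¹) : MvPolynomial (Fin N) ℂ) := by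
    apply IsUnit.map
    exact isUnit_iff_ne_zero.mpr (by norm_num)
  have hp0 := hp (ix hN 0)
  have hp1 := hp (ix hN 1)
  have hp2 := hp (ix hN 2)
  rw [rad_form, h5.dvd_mul_left, pd_X, pd_g] at hp0 hp1 hp2
  rw [if_pos rfl, if_neg (hne 0 1 (by decide)), if_neg (hne 0 2 (by decide)),
    if_neg (hne 0 3 (by decide))] at hp0
  rw [if_neg (hne 1 0 (by decide)), if_pos rfl, if_neg (hne 1 2 (by decide)),
    if_neg (hne 1 3 (by decide))] at hp1
  rw [if_neg (hne 2 0 (by decide)), if_neg (hne 2 1 (by decide)), if_pos rfl,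
    if_neg (hne 2 3 (by decide))] at hp2
  have h4 : (C (1 / 4 : ℂ) : MvPolynomial (Fin N) ℂ) * 4 = 1 := by
    have : (4 : MvPolynomial (Fin N) ℂ) = C 4 := (map_ofNat C 4).symm
    rw [this, ← C_mul]
    norm_num
  have q0 : p ∣ gg hN := by
    have h := Dvd.dvd.mul_left hp0 (-C (1 / 4 : ℂ))
    have e : -C (1 / 4 : ℂ) * (X (ix hN 0) * (0 + 0 + 0) - 4 * gg hN * 1) = gg hN := by
      calc -C (1 / 4 : ℂ) * (X (ix hN 0) * (0 + 0 + 0) - 4 * gg hN * 1)
          = (C (1 / 4 : ℂ) * 4) * gg hN := by ring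
        _ = gg hN := by rw [h4, one_mul]
    rwa [e] at h
  have q1 : p ∣ X (ix hN 0) * X (ix hN 1) ^ 3 := by
    have h := Dvd.dvd.mul_left hp1 (C (1 / 4 : ℂ))
    have e : C (1 / 4 : ℂ) * (X (ix hN 0) * (4 * X (ix hN 1) ^ 3 + 0 + 0) - 4 * gg hN * 0) =
        X (ix hN 0) * X (ix hN 1) ^ 3 := by
      calc C (1 / 4 : ℂ) * (X (ix hN 0) * (4 * X (ix hN 1) ^ 3 + 0 + 0) - 4 * gg hN * 0)
          = (C (1 / 4 : ℂ) * 4) * (X (ix hN 0) * X (ix hN 1) ^ 3) := by ring
        _ = X (ix hN 0) * X (ix hN 1) ^ 3 := by rw [h4, one_mul]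
    rwa [e] at h
  have q2 : p ∣ X (ix hN 0) * X (ix hN 2) ^ 3 := by
    have h := Dvd.dvd.mul_left hp2 (C (1 / 4 : ℂ))
    have e : C (1 / 4 : ℂ) * (X (ix hN 0) * (0 + 4 * X (ix hN 2) ^ 3 + 0) - 4 * gg hN * 0) =
        X (ix hN 0) * X (ix hN 2) ^ 3 := by
      calc C (1 / 4 : ℂ) * (X (ix hN 0) * (0 + 4 * X (ix hN 2) ^ 3 + 0) - 4 * gg hN * 0)
          = (C (1 / 4 : ℂ) * 4) * (X (ix hN 0) * X (ix hN 2) ^ 3) := by ring
        _ = X (ix hN 0) * X (ix hN 2) ^ 3 := by rw [h4, one_mul]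
    rwa [e] at h
  have hg0 : gg hN ≠ 0 := by
    intro h
    have h' := congrArg (eval (Pi.single (ix hN 1) (1 : ℂ))) h
    unfold gg at h'
    rw [map_zero, map_add, map_add, map_pow, map_pow, map_pow, eval_X, eval_X, eval_X,
      Pi.single_eq_same, Pi.single_eq_of_ne (hne 2 1 (by decide)),
      Pi.single_eq_of_ne (hne 3 1 (by decide))] at h'
    norm_num at h'
  have hpne : p ≠ 0 := fun h => hg0 (by rw [h] at q0; exact zero_dvd_iff.mp q0)
  obtain ⟨q, hq, hqp⟩ := WfDvdMonoid.exists_irreducible_factor hu hpne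
  have hqP : Prime q := hq.prime
  have key : ∀ i : Fin N, q ∣ X i → (X i : MvPolynomial (Fin N) ℂ) ∣ q := fun i h =>
    hq.dvd_symm (X_prime (i := i)).irreducible h
  have c0 : ¬ q ∣ (X (ix hN 0) : MvPolynomial (Fin N) ℂ) := by
    intro h
    obtain ⟨t, ht⟩ := ((key _ h).trans hqp).trans q0
    have h' := congrArg (eval (Pi.single (ix hN 1) (1 : ℂ))) ht
    unfold gg at h'
    rw [map_mul, map_add, map_add, map_pow, map_pow, map_pow, eval_X, eval_X, eval_X, eval_X,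
      Pi.single_eq_same, Pi.single_eq_of_ne (hne 2 1 (by decide)),
      Pi.single_eq_of_ne (hne 3 1 (by decide)), Pi.single_eq_of_ne (hne 0 1 (by decide))] at h'
    norm_num at h'
  have d1 : q ∣ (X (ix hN 1) : MvPolynomial (Fin N) ℂ) := by
    rcases hqP.dvd_or_dvd (hqp.trans q1) with h | h
    · exact absurd h c0
    · exact hqP.dvd_of_dvd_pow h
  have d2 : q ∣ (X (ix hN 2) : MvPolynomial (Fin N) ℂ) := by
    rcases hqP.dvd_or_dvd (hqp.trans q2) with h | h
    · exact absurd h c0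
    · exact hqP.dvd_of_dvd_pow h
  have := X_dvd_X.mp ((key _ d1).trans d2)
  exact hne 1 2 (by decide) this

theorem cert_14 {N : ℕ} (hN : 4 ≤ N) :
    ∃ Φ v c eg ℓ el, Cert (N := N) (k := 0) ![1, 4] ![] Φ v c eg ℓ el := by
  refine ⟨PP hN, vv, cc hN, fun _ => 3, X (ix hN 0), 1, ?_⟩
  have hz : ∀ (x : Fin N → ℂ), (∀ i : Fin 4, x (ix hN i) = 0) →
      (∀ i : Fin N, 4 ≤ i.val → x i = 0) → x = 0 := by
    intro x h1 h2
    funext i
    by_cases hi : 4 ≤ i.val
    · exact h2 i hi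
    · have : i = ix hN ⟨i.val, by omega⟩ := Fin.ext rfl
      rw [this]
      exact h1 _
  refine ⟨⟨?_, fun l => l.elim0⟩, fun _ => by norm_num, ?_, Nat.one_pos, isHomogeneous_X _ _, ?_,
    ?_, ?_, cop_form hN⟩
  · intro i
    fin_cases i
    · exact isHomogeneous_X _ _
    · exact gg_hom hN
  · intro i J
    by_cases h : J = JJ hN i
    · right
      refine ⟨0, ?_, ?_⟩
      · unfold cc
        rw [if_pos h]
        exact isHomogeneous_one _ _
      · subst h
        unfold dg JJ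
        simp
    · left
      unfold cc
      rw [if_neg h]
  · intro x hx
    have hs : ∀ i : Fin 3, x (ix hN i.succ) = 0 := by
      intro i
      have h := hx (Sum.inl (Sum.inl i))
      change eval x (∑ J, cc hN i J * mnr (fun a i => pderiv a (PP hN i)) _ J) = 0 at h
      rw [sum_cc] at h
      simpa using h
    have h0 : x (ix hN 0) = 0 := by
      have h := hx (Sum.inl (Sum.inr 0))
      change eval x (X (ix hN 0)) = 0 at h
      simpa using h
    refine hz x ?_ ?_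
    · intro i
      refine Fin.cases h0 hs i
    · intro i hi
      have h := hx (Sum.inr ⟨i, hi⟩)
      change eval x (X i) = 0 at h
      simpa using h
  · intro x hx
    exfalso
    have h := hx (Sum.inl (Sum.inr ((0 : Fin 2), (1 : Fin 2))))
    change eval x (mins (fun l i => aeval (PP hN) (vv l i)) ((0 : Fin 2), (1 : Fin 2))) = 0 at h
    rw [mins_one] at h
    simp at h
  · intro x hx
    exfalso
    have h := hx (Sum.inl ((0 : Fin 2), (1 : Fin 2)))
    change eval x (mins (fun l i => aeval (PP hN) (vv l i)) ((0 : Fin 2), (1 : Fin 2))) = 0 at h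
    rw [mins_one] at h
    simp at h

end Pool.Agent.Helper1.FG
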