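import Pool.Agent.Helper1.FG.StdMove

/-! FG-14: explicit member with certificate, `k = 0` (forms `df ∧ dg`), weights (2,3).
For instance `q = X_0 X_1 + X_2^2`, `c = X_1^3 + X_0^3 + X_3^3` (the variables of index `≥ 4` may be absent, `t1` allows this); three
combinations `g_0, g_1, g_2`, with homogeneous polynomial coefficients, of the minors of `(dq, dc)` having finitely
many common zeros in the projective space with coordinates `X_0, .., X_3`, for instance (constants to be adjusted)
`X_1^3 - X_0^3 + X_0 X_3^2`, `- X_2 X_0^2 + X_1 X_3^2`, `- X_2 X_1^2 + X_2 X_3^2`, and `ℓ` a linear form without zero at these points.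
Any other choice is welcome.  `t2`, `t3` are trivial for `k = 0` (`mins (0, 1) = 1`). -/

set_option autoImplicit false
set_option linter.unusedSimpArgs false

namespace Pool.Agent.Helper1.FG

open MvPolynomial
open scoped BigOperators
open Pool.Agent.Helper93 (TT OF RE HomS IntS FolS Cop Comp PreIrr pb)
open Pool.Agent.Helper71.FL

private lemma alp0 {S : Type} [CommRing S] (r : Fin 0 → Fin (0 + 2) → S) (x y : Fin (0 + 2) → S) :
    alp r x y = x 0 * y 1 - x 1 * y 0 := by
  unfold alp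
  refine (Matrix.det_fin_two _).trans ?_
  rfl

private lemma mnr0 {S : Type} [CommRing S] {N : ℕ} (T : Fin N → Fin (0 + 2) → S)
    (r : Fin 0 → Fin (0 + 2) → S) (a b : Fin N) :
    mnr (k := 0) T r ![Sum.inl a, Sum.inl b] = T a 0 * T b 1 - T a 1 * T b 0 := by
  unfold mnr
  refine (Matrix.det_fin_two _).trans ?_
  rfl

private lemma irr_X2 {N : ℕ} {i j : Fin N} (hij : i ≠ j) {f : MvPolynomial (Fin N) ℂ}
    (hf : Irreducible f) (h1 : f ∣ X i) (h2 : f ∣ X j) : False := by
  have h3 : Associated f (X i) := hf.associated_of_dvd (X_prime).irreducible h1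
  have h4 : (X i : MvPolynomial (Fin N) ℂ) ∣ X j := h3.symm.dvd.trans h2
  exact hij (X_dvd_X.mp h4)

private lemma pdX {N : ℕ} (i j : Fin N) :
    pderiv i (X j : MvPolynomial (Fin N) ℂ) = if j = i then 1 else 0 := by
  rw [pderiv_X, Pi.single_apply]

private lemma unit_C {N : ℕ} {z : ℂ} (hz : z ≠ 0) : IsUnit (C z : MvPolynomial (Fin N) ℂ) :=
  (isUnit_iff_ne_zero.mpr hz).map C

private lemma cop_23 {N : ℕ} {i0 i1 i2 i3 : Fin N} (h01 : i0 ≠ i1) (h02 : i0 ≠ i2) (h03 : i0 ≠ i3)
    (h12 : i1 ≠ i2) (h13 : i1 ≠ i3) (h23 : i2 ≠ i3)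
    (v : Fin 0 → Fin (0 + 2) → MvPolynomial (Fin (0 + 2)) ℂ) :
    Cop (radC 3 (stdF (k := 0) (R := ℂ) (n := N)
      ![X i1 * X i0 + X i2 ^ 2, X i0 ^ 3 + X i1 ^ 3 + X i3 ^ 3] v)) := by
  classical
  set q : MvPolynomial (Fin N) ℂ := X i1 * X i0 + X i2 ^ 2 with hq
  set e : MvPolynomial (Fin N) ℂ := X i0 ^ 3 + X i1 ^ 3 + X i3 ^ 3 with he
  have hqh : q.IsHomogeneous 2 := by
    rw [hq]
    exact ((isHomogeneous_X ℂ i1).mul (isHomogeneous_X ℂ i0)).add ((isHomogeneous_X ℂ i2).pow 2)
  have heh : e.IsHomogeneous 3 := by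
    rw [he]
    exact (((isHomogeneous_X ℂ i0).pow 3).add ((isHomogeneous_X ℂ i1).pow 3)).add
      ((isHomogeneous_X ℂ i3).pow 3)
  have hrad : ∀ j, radC 3 (stdF (k := 0) (R := ℂ) (n := N) ![q, e] v) j =
      C (((3 : ℕ) : ℂ) + 2)⁻¹ * (2 * q * pderiv j e - 3 * e * pderiv j q) := by
    intro j
    unfold radC
    have h1 : ∀ i, X i * stdF (k := 0) (R := ℂ) (n := N) ![q, e] v i j =
        (X i * pderiv i q) * pderiv j e - (X i * pderiv i e) * pderiv j q := by
      intro i
      have : stdF (k := 0) (R := ℂ) (n := N) ![q, e] v i j =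
          pderiv i q * pderiv j e - pderiv i e * pderiv j q := by
        unfold stdF
        rw [alp0]
        rfl
      rw [this]; ring
    rw [Finset.sum_congr rfl (fun i _ => h1 i), Finset.sum_sub_distrib, ← Finset.sum_mul,
      ← Finset.sum_mul, hqh.sum_X_mul_pderiv, heh.sum_X_mul_pderiv]
    simp only [nsmul_eq_mul]
    push_cast
    rfl
  intro p hp
  by_contra hpu
  -- partial derivatives
  have q0 : pderiv i0 q = X i1 := by
    rw [hq]; simp [pdX, h01, h01.symm, h02.symm, Derivation.leibniz, Derivation.leibniz_pow]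
  have q1 : pderiv i1 q = X i0 := by
    rw [hq]; simp [pdX, h01, h01.symm, h12.symm, Derivation.leibniz, Derivation.leibniz_pow]
  have q2 : pderiv i2 q = 2 * X i2 := by
    rw [hq]; simp [pdX, h02, h12, Derivation.leibniz, Derivation.leibniz_pow]
  have q3 : pderiv i3 q = 0 := by
    rw [hq]; simp [pdX, h03, h13, h23, Derivation.leibniz, Derivation.leibniz_pow]
  have e0 : pderiv i0 e = 3 * X i0 ^ 2 := by
    rw [he]; simp [pdX, h01.symm, h03.symm, Derivation.leibniz, Derivation.leibniz_pow]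
  have e1 : pderiv i1 e = 3 * X i1 ^ 2 := by
    rw [he]; simp [pdX, h01, h13.symm, Derivation.leibniz, Derivation.leibniz_pow]
  have e2 : pderiv i2 e = 0 := by
    rw [he]; simp [pdX, h02, h12, h23.symm, Derivation.leibniz, Derivation.leibniz_pow]
  have e3 : pderiv i3 e = 3 * X i3 ^ 2 := by
    rw [he]; simp [pdX, h03, h13, Derivation.leibniz, Derivation.leibniz_pow]
  have hpD : ∀ j, p ∣ 2 * q * pderiv j e - 3 * e * pderiv j q := by
    intro j
    have h1 := hp j
    rw [hrad j] at h1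
    exact (unit_C (by norm_num)).dvd_mul_left.mp h1
  have hmq : ∀ i j, p ∣ q * (2 * (pderiv i q * pderiv j e - pderiv j q * pderiv i e)) := by
    intro i j
    have h1 := ((hpD j).mul_left (pderiv i q)).sub ((hpD i).mul_left (pderiv j q))
    refine h1.trans (dvd_of_eq ?_)
    ring
  have hme : ∀ i j, p ∣ e * (3 * (pderiv i q * pderiv j e - pderiv j q * pderiv i e)) := by
    intro i j
    have h1 := ((hpD j).mul_left (pderiv i e)).sub ((hpD i).mul_left (pderiv j e))
    refine h1.trans (dvd_of_eq ?_)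
    ring
  have hqirr : Irreducible q := by
    rw [hq]
    refine irreducible_mul_X_add _ _ i0 (X_ne_zero _) ?_ ?_ ?_
    · rw [vars_X]; simpa using h01
    · intro h
      have h1 := vars_pow (X i2 : MvPolynomial (Fin N) ℂ) 2 h
      rw [vars_X] at h1
      exact h02 (by simpa using h1)
    · intro d hd1 hd2
      by_contra hdu
      have hd0 : d ≠ 0 := by
        rintro rfl
        exact X_ne_zero i1 (zero_dvd_iff.mp hd1)
      obtain ⟨f, hf, hfd⟩ := WfDvdMonoid.exists_irreducible_factor hdu hd0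
      exact irr_X2 h12 hf (hfd.trans hd1) (hf.prime.dvd_of_dvd_pow (hfd.trans hd2))
  have u2 : IsUnit (2 : MvPolynomial (Fin N) ℂ) := by
    have h2 := unit_C (N := N) (z := 2) two_ne_zero
    rwa [show (C 2 : MvPolynomial (Fin N) ℂ) = 2 from map_ofNat C 2] at h2
  have u3 : IsUnit (3 : MvPolynomial (Fin N) ℂ) := by
    have h3 := unit_C (N := N) (z := 3) three_ne_zero
    rwa [show (C 3 : MvPolynomial (Fin N) ℂ) = 3 from map_ofNat C 3] at h3
  have hp0 : p ≠ 0 := by
    rintro rfl
    have h1 := zero_dvd_iff.mp (hmq i1 i3)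
    rw [q1, e3, q3] at h1
    have h2 : q * (2 * (X i0 * (3 * X i3 ^ 2) - 0 * pderiv i1 e)) ≠ 0 := by
      rw [zero_mul, sub_zero]
      refine mul_ne_zero hqirr.ne_zero (mul_ne_zero u2.ne_zero (mul_ne_zero (X_ne_zero _)
        (mul_ne_zero u3.ne_zero (pow_ne_zero _ (X_ne_zero _)))))
    exact h2 h1
  obtain ⟨f, hf, hfp⟩ := WfDvdMonoid.exists_irreducible_factor hpu hp0
  have hfP := hf.prime
  have n2 : ¬ f ∣ (2 : MvPolynomial (Fin N) ℂ) := fun h => hf.not_isUnit (isUnit_of_dvd_unit h u2)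
  have n3 : ¬ f ∣ (3 : MvPolynomial (Fin N) ℂ) := fun h => hf.not_isUnit (isUnit_of_dvd_unit h u3)
  -- f does not divide all minors
  have key : ¬ (f ∣ (pderiv i1 q * pderiv i3 e - pderiv i3 q * pderiv i1 e) ∧
      f ∣ (pderiv i1 q * pderiv i2 e - pderiv i2 q * pderiv i1 e) ∧
      f ∣ (pderiv i0 q * pderiv i2 e - pderiv i2 q * pderiv i0 e) ∧
      f ∣ (pderiv i0 q * pderiv i3 e - pderiv i3 q * pderiv i0 e)) := by
    rintro ⟨k13, k12, k02, k03⟩
    rw [q1, e3, q3, zero_mul, sub_zero] at k13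
    rw [q1, e2, q2, e1, mul_zero, zero_sub, dvd_neg] at k12
    rw [q0, e2, q2, e0, mul_zero, zero_sub, dvd_neg] at k02
    rw [q0, e3, q3, zero_mul, sub_zero] at k03
    have a13 : f ∣ X i0 ∨ f ∣ X i3 := by
      rcases hfP.dvd_or_dvd k13 with h | h
      · exact Or.inl h
      · rcases hfP.dvd_or_dvd h with h | h
        · exact absurd h n3
        · exact Or.inr (hfP.dvd_of_dvd_pow h)
    have a12 : f ∣ X i2 ∨ f ∣ X i1 := by
      rcases hfP.dvd_or_dvd k12 with h | h
      · rcases hfP.dvd_or_dvd h with h | h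
        · exact absurd h n2
        · exact Or.inl h
      · rcases hfP.dvd_or_dvd h with h | h
        · exact absurd h n3
        · exact Or.inr (hfP.dvd_of_dvd_pow h)
    rcases a13 with h | h <;> rcases a12 with h' | h'
    · exact irr_X2 h02 hf h h'
    · exact irr_X2 h01 hf h h'
    · exact irr_X2 h23 hf h' h
    · exact irr_X2 h13 hf h' h
  have hfq : f ∣ q := by
    by_contra hnq
    apply key
    have : ∀ i j, f ∣ pderiv i q * pderiv j e - pderiv j q * pderiv i e := by
      intro i j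
      rcases hfP.dvd_or_dvd (hfp.trans (hmq i j)) with h | h
      · exact absurd h hnq
      · rcases hfP.dvd_or_dvd h with h | h
        · exact absurd h n2
        · exact h
    exact ⟨this _ _, this _ _, this _ _, this _ _⟩
  have hfe : f ∣ e := by
    by_contra hnq
    apply key
    have : ∀ i j, f ∣ pderiv i q * pderiv j e - pderiv j q * pderiv i e := by
      intro i j
      rcases hfP.dvd_or_dvd (hfp.trans (hme i j)) with h | h
      · exact absurd h hnq
      · rcases hfP.dvd_or_dvd h with h | h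
        · exact absurd h n3
        · exact h
    exact ⟨this _ _, this _ _, this _ _, this _ _⟩
  have hqe : q ∣ e := ((hf.associated_of_dvd hqirr hfq).symm.dvd).trans hfe
  obtain ⟨r, hr⟩ := hqe
  have h1 := congrArg (eval (fun i => if i = i0 then (1 : ℂ) else 0)) hr
  rw [hq, he] at h1
  simp [h01.symm, h02.symm, h03.symm] at h1

theorem cert_23 {N : ℕ} (hN : 4 ≤ N) :
    ∃ Φ v c eg ℓ el, Cert (N := N) (k := 0) ![2, 3] ![] Φ v c eg ℓ el := by
  classical
  obtain ⟨i0, hi0⟩ : ∃ i : Fin N, i.val = 0 := ⟨⟨0, by omega⟩, rfl⟩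
  obtain ⟨i1, hi1⟩ : ∃ i : Fin N, i.val = 1 := ⟨⟨1, by omega⟩, rfl⟩
  obtain ⟨i2, hi2⟩ : ∃ i : Fin N, i.val = 2 := ⟨⟨2, by omega⟩, rfl⟩
  obtain ⟨i3, hi3⟩ : ∃ i : Fin N, i.val = 3 := ⟨⟨3, by omega⟩, rfl⟩
  have h01 : i0 ≠ i1 := by intro h; rw [h] at hi0; omega
  have h02 : i0 ≠ i2 := by intro h; rw [h] at hi0; omega
  have h03 : i0 ≠ i3 := by intro h; rw [h] at hi0; omega
  have h12 : i1 ≠ i2 := by intro h; rw [h] at hi1; omega
  have h13 : i1 ≠ i3 := by intro h; rw [h] at hi1; omega
  have h23 : i2 ≠ i3 := by intro h; rw [h] at hi2; omega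
  set q : MvPolynomial (Fin N) ℂ := X i1 * X i0 + X i2 ^ 2 with hq
  set e : MvPolynomial (Fin N) ℂ := X i0 ^ 3 + X i1 ^ 3 + X i3 ^ 3 with he
  have hqh : q.IsHomogeneous 2 := by
    rw [hq]
    exact ((isHomogeneous_X ℂ i1).mul (isHomogeneous_X ℂ i0)).add ((isHomogeneous_X ℂ i2).pow 2)
  have heh : e.IsHomogeneous 3 := by
    rw [he]
    exact (((isHomogeneous_X ℂ i0).pow 3).add ((isHomogeneous_X ℂ i1).pow 3)).add
      ((isHomogeneous_X ℂ i3).pow 3)
  have q0 : pderiv i0 q = X i1 := by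
    rw [hq]; simp [pdX, h01, h01.symm, h02.symm, Derivation.leibniz, Derivation.leibniz_pow]
  have q1 : pderiv i1 q = X i0 := by
    rw [hq]; simp [pdX, h01, h01.symm, h12.symm, Derivation.leibniz, Derivation.leibniz_pow]
  have q2 : pderiv i2 q = 2 * X i2 := by
    rw [hq]; simp [pdX, h02, h12, Derivation.leibniz, Derivation.leibniz_pow]
  have q3 : pderiv i3 q = 0 := by
    rw [hq]; simp [pdX, h03, h13, h23, Derivation.leibniz, Derivation.leibniz_pow]
  have e0 : pderiv i0 e = 3 * X i0 ^ 2 := by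
    rw [he]; simp [pdX, h01.symm, h03.symm, Derivation.leibniz, Derivation.leibniz_pow]
  have e1 : pderiv i1 e = 3 * X i1 ^ 2 := by
    rw [he]; simp [pdX, h01, h13.symm, Derivation.leibniz, Derivation.leibniz_pow]
  have e2 : pderiv i2 e = 0 := by
    rw [he]; simp [pdX, h02, h12, h23.symm, Derivation.leibniz, Derivation.leibniz_pow]
  have e3 : pderiv i3 e = 3 * X i3 ^ 2 := by
    rw [he]; simp [pdX, h03, h13, Derivation.leibniz, Derivation.leibniz_pow]
  set J : Fin N → Fin N → (Fin (0 + 2) → Fin N ⊕ Fin 0) := fun a b => ![Sum.inl a, Sum.inl b]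
    with hJ
  have hJne : ∀ a b a' b', a ≠ a' → J a b ≠ J a' b' := by
    intro a b a' b' h h'
    have h1 := congrFun h' 0
    exact h (Sum.inl_injective h1)
  set c : Fin 3 → (Fin (0 + 2) → Fin N ⊕ Fin 0) → MvPolynomial (Fin N) ℂ :=
    ![fun K => if K = J i0 i1 then 1 else 0,
      fun K => if K = J i0 i2 then C (-1) else if K = J i1 i3 then C 2 else 0,
      fun K => if K = J i2 i3 then 1 else 0] with hc
  set T : Fin N → Fin (0 + 2) → MvPolynomial (Fin N) ℂ := fun a i => pderiv a ((![q, e] :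
    Fin (0 + 2) → MvPolynomial (Fin N) ℂ) i) with hT
  set v : Fin 0 → Fin (0 + 2) → MvPolynomial (Fin (0 + 2)) ℂ := fun l => l.elim0 with hv
  have hg0 : ∑ K, c 0 K * mnr T (fun l i => aeval (![q, e] :
      Fin (0 + 2) → MvPolynomial (Fin N) ℂ) (v l i)) K = 3 * (X i1 ^ 3 - X i0 ^ 3) := by
    rw [Finset.sum_eq_single (J i0 i1)]
    · have h1 : c 0 (J i0 i1) = 1 := if_pos rfl
      rw [h1, one_mul, hJ, mnr0]
      show pderiv i0 q * pderiv i1 e - pderiv i0 e * pderiv i1 q = _
      rw [q0, e1, e0, q1]; ring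
    · intro K _ hK
      have h1 : c 0 K = 0 := if_neg hK
      rw [h1, zero_mul]
    · intro h; exact absurd (Finset.mem_univ _) h
  have hg2 : ∑ K, c 2 K * mnr T (fun l i => aeval (![q, e] :
      Fin (0 + 2) → MvPolynomial (Fin N) ℂ) (v l i)) K = 6 * (X i2 * X i3 ^ 2) := by
    rw [Finset.sum_eq_single (J i2 i3)]
    · have h1 : c 2 (J i2 i3) = 1 := if_pos rfl
      rw [h1, one_mul, hJ, mnr0]
      show pderiv i2 q * pderiv i3 e - pderiv i2 e * pderiv i3 q = _
      rw [q2, e3, e2, q3]; ring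
    · intro K _ hK
      have h1 : c 2 K = 0 := if_neg hK
      rw [h1, zero_mul]
    · intro h; exact absurd (Finset.mem_univ _) h
  have hg1 : ∑ K, c 1 K * mnr T (fun l i => aeval (![q, e] :
      Fin (0 + 2) → MvPolynomial (Fin N) ℂ) (v l i)) K =
      6 * (X i2 * X i0 ^ 2 + X i0 * X i3 ^ 2) := by
    have hne : J i0 i2 ≠ J i1 i3 := hJne _ _ _ _ h01
    rw [← Finset.sum_subset (Finset.subset_univ {J i0 i2, J i1 i3})]
    · rw [Finset.sum_pair hne]
      have h1 : c 1 (J i0 i2) = C (-1) := if_pos rfl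
      have h2 : c 1 (J i1 i3) = C 2 := by
        show (if J i1 i3 = J i0 i2 then C (-1) else if J i1 i3 = J i1 i3 then C 2 else 0) = _
        rw [if_neg hne.symm, if_pos rfl]
      have h3 : mnr T (fun l i => aeval (![q, e] :
          Fin (0 + 2) → MvPolynomial (Fin N) ℂ) (v l i)) (J i0 i2) = - (6 * (X i2 * X i0 ^ 2)) := by
        rw [hJ, mnr0]
        show pderiv i0 q * pderiv i2 e - pderiv i0 e * pderiv i2 q = _
        rw [q0, e2, e0, q2]; ring
      have h4 : mnr T (fun l i => aeval (![q, e] :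
          Fin (0 + 2) → MvPolynomial (Fin N) ℂ) (v l i)) (J i1 i3) = 3 * (X i0 * X i3 ^ 2) := by
        rw [hJ, mnr0]
        show pderiv i1 q * pderiv i3 e - pderiv i1 e * pderiv i3 q = _
        rw [q1, e3, e1, q3]; ring
      rw [h1, h2, h3, h4, map_neg, map_one]
      have h5 : (C 2 : MvPolynomial (Fin N) ℂ) = 2 := map_ofNat C 2
      rw [h5]; ring
    · intro K _ hK
      rw [Finset.mem_insert, Finset.mem_singleton, not_or] at hK
      have h1 : c 1 K = 0 := by
        show (if K = J i0 i2 then C (-1) else if K = J i1 i3 then C 2 else 0) = _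
        rw [if_neg hK.1, if_neg hK.2]
      rw [h1, zero_mul]
  have hm1 : ∀ r : Fin 0 → Fin (0 + 2) → MvPolynomial (Fin N) ℂ, mins r (0, 1) = 1 := by
    intro r
    unfold mins
    rw [alp0]
    simp
  have hdg : ∀ K : Fin (0 + 2) → Fin N ⊕ Fin 0, dg (k := 0) ![2, 3] ![] K = 3 := by
    intro K
    unfold dg
    have h1 : ∀ a, (Sum.elim (fun _ => 0) (fun l : Fin 0 => (![] : Fin 0 → ℕ) l + 1) (K a) : ℕ)
        = 0 := by
      intro a
      rcases K a with y | y
      · rfl
      · exact y.elim0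
    rw [Finset.sum_congr rfl (fun a _ => h1 a)]
    simp [Fin.sum_univ_succ]
  refine ⟨![q, e], v, c, fun _ => 3, X i0 + X i2 + X i3, 1, ?_⟩
  refine ⟨⟨?_, fun l => l.elim0⟩, fun _ => by norm_num, ?_, one_pos, ?_, ?_, ?_, ?_, ?_⟩
  · intro i
    refine Fin.cases ?_ (fun i => ?_) i
    · exact hqh
    · have : i = 0 := Subsingleton.elim _ _
      subst this
      exact heh
  · intro i K
    have hh : ∀ z : ℂ, ∃ a, (C z : MvPolynomial (Fin N) ℂ).IsHomogeneous a ∧
        a + dg (k := 0) ![2, 3] ![] K = 3 := fun z => ⟨0, isHomogeneous_C _ _, by rw [hdg]⟩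
    have h1' : ∃ a, (1 : MvPolynomial (Fin N) ℂ).IsHomogeneous a ∧
        a + dg (k := 0) ![2, 3] ![] K = 3 := by simpa using hh 1
    fin_cases i
    · show (if K = J i0 i1 then (1 : MvPolynomial (Fin N) ℂ) else 0) = 0 ∨ ∃ a,
        (if K = J i0 i1 then (1 : MvPolynomial (Fin N) ℂ) else 0).IsHomogeneous a ∧
          a + dg (k := 0) ![2, 3] ![] K = 3
      split_ifs
      · exact Or.inr h1'
      · exact Or.inl rfl
    · show (if K = J i0 i2 then (C (-1) : MvPolynomial (Fin N) ℂ) else if K = J i1 i3 then C 2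
        else 0) = 0 ∨ ∃ a, (if K = J i0 i2 then (C (-1) : MvPolynomial (Fin N) ℂ) else
          if K = J i1 i3 then C 2 else 0).IsHomogeneous a ∧ a + dg (k := 0) ![2, 3] ![] K = 3
      split_ifs
      · exact Or.inr (hh _)
      · exact Or.inr (hh _)
      · exact Or.inl rfl
    · show (if K = J i2 i3 then (1 : MvPolynomial (Fin N) ℂ) else 0) = 0 ∨ ∃ a,
        (if K = J i2 i3 then (1 : MvPolynomial (Fin N) ℂ) else 0).IsHomogeneous a ∧
          a + dg (k := 0) ![2, 3] ![] K = 3
      split_ifs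
      · exact Or.inr h1'
      · exact Or.inl rfl
  · exact ((isHomogeneous_X ℂ i0).add (isHomogeneous_X ℂ i2)).add (isHomogeneous_X ℂ i3)
  · intro x hx
    have k0 := hx (Sum.inl (Sum.inl 0))
    have k1 := hx (Sum.inl (Sum.inl 1))
    have k2 := hx (Sum.inl (Sum.inl 2))
    have kl := hx (Sum.inl (Sum.inr 0))
    simp only [Sum.elim_inl, Sum.elim_inr] at k0 k1 k2 kl
    rw [hg0] at k0
    rw [hg1] at k1
    rw [hg2] at k2
    simp only [map_mul, map_sub, map_add, map_pow, eval_X, map_ofNat] at k0 k1 k2 kl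
    have a2 : x i2 * x i3 ^ 2 = 0 := by
      rcases mul_eq_zero.mp k2 with h | h
      · norm_num at h
      · exact h
    have a1 : x i2 * x i0 ^ 2 + x i0 * x i3 ^ 2 = 0 := by
      rcases mul_eq_zero.mp k1 with h | h
      · norm_num at h
      · exact h
    have a0 : x i1 ^ 3 - x i0 ^ 3 = 0 := by
      rcases mul_eq_zero.mp k0 with h | h
      · norm_num at h
      · exact h
    have fin : x i0 = 0 → x i2 = 0 → x i3 = 0 → x = 0 := by
      intro z0 z2 z3
      have z1 : x i1 = 0 := by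
        rw [z0] at a0
        have : x i1 ^ 3 = 0 := by simpa using a0
        exact pow_eq_zero_iff (by norm_num) |>.mp this
      funext j
      by_cases hj : 4 ≤ j.val
      · have h4 := hx (Sum.inr ⟨j, hj⟩)
        simpa [pads] using h4
      · have hj' : j = i0 ∨ j = i1 ∨ j = i2 ∨ j = i3 := by
          have : j.val = 0 ∨ j.val = 1 ∨ j.val = 2 ∨ j.val = 3 := by omega
          rcases this with h | h | h | h
          · exact Or.inl (Fin.ext (by omega))
          · exact Or.inr (Or.inl (Fin.ext (by omega)))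
          · exact Or.inr (Or.inr (Or.inl (Fin.ext (by omega))))
          · exact Or.inr (Or.inr (Or.inr (Fin.ext (by omega))))
        rcases hj' with rfl | rfl | rfl | rfl
        · exact z0
        · exact z1
        · exact z2
        · exact z3
    rcases mul_eq_zero.mp a2 with z2 | z3
    · rw [z2, zero_mul, zero_add] at a1
      rcases mul_eq_zero.mp a1 with z0 | z3
      · rw [z0, z2] at kl
        exact fin z0 z2 (by simpa using kl)
      · have z3' : x i3 = 0 := pow_eq_zero_iff (by norm_num) |>.mp z3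
        rw [z2, z3'] at kl
        exact fin (by simpa using kl) z2 z3'
    · have z3' : x i3 = 0 := pow_eq_zero_iff (by norm_num) |>.mp z3
      rw [z3'] at a1 kl
      have a1' : x i2 * x i0 ^ 2 = 0 := by simpa using a1
      rcases mul_eq_zero.mp a1' with z2 | z0
      · rw [z2] at kl
        exact fin (by simpa using kl) z2 z3'
      · have z0' : x i0 = 0 := pow_eq_zero_iff (by norm_num) |>.mp z0
        rw [z0'] at kl
        exact fin z0' (by simpa using kl) z3'
  · intro x hx
    have h1 := hx (Sum.inl (Sum.inr (0, 1)))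
    simp only [Sum.elim_inl, Sum.elim_inr] at h1
    rw [hm1, map_one] at h1
    exact absurd h1 one_ne_zero
  · intro x hx
    have h1 := hx (Sum.inl (0, 1))
    simp only [Sum.elim_inl] at h1
    rw [hm1, map_one] at h1
    exact absurd h1 one_ne_zero
  · exact cop_23 h01 h02 h03 h12 h13 h23 v

end Pool.Agent.Helper1.FG
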