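import Pool.Agent.Helper1.FG.F2a

/-! FG-16: explicit member with certificate, `k = 1`, weights (1,1,3), `s = 0`.
`Φ = (X_0, X_1, f)`, `f = X_0^3 + X_2^3 + X_3^3`, `v = (y_0, 2 y_1, -3 y_2)` (the choice `(y_0, y_1, -2 y_2)` would give a common
factor `f`), `r = (X_0, 2 X_1, -3 f)`; recipes: minors of the columns `(0,1,2)`, `(0,1,3)`, `(0,1,v)`: `3 X_2^2`, `3 X_3^2`,
`-3 f - 3 X_0^3`; `ℓ = X_1`. -/

set_option autoImplicit false
set_option linter.unusedSimpArgs false

namespace Pool.Agent.Helper1.FG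

open MvPolynomial
open scoped BigOperators
open Pool.Agent.Helper93 (TT OF RE HomS IntS FolS Cop Comp PreIrr pb)
open Pool.Agent.Helper71.FL

private theorem sum_single_113 {ι : Type} [Fintype ι] [DecidableEq ι] {R : Type} [CommRing R] (J0 : ι)
    (g : ι → R) : ∑ J, (Pi.single J0 (1 : R) : ι → R) J * g J = g J0 := by
  rw [Finset.sum_eq_single J0]
  · simp
  · intro J _ hJ
    rw [Pi.single_eq_of_ne hJ, zero_mul]
  · intro h; exact absurd (Finset.mem_univ _) h

private theorem alp_113 {S : Type} [CommRing S] (r : Fin 1 → Fin (1 + 2) → S)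
    (x y : Fin (1 + 2) → S) : alp (k := 1) r x y = x 0 * (y 1 * r 0 2 - y 2 * r 0 1) -
      x 1 * (y 0 * r 0 2 - y 2 * r 0 0) + x 2 * (y 0 * r 0 1 - y 1 * r 0 0) := by
  have e : (Fin.cons x (Fin.cons y r) : Fin (1 + 2) → Fin (1 + 2) → S) = ![x, y, r 0] := by
    funext i
    fin_cases i <;> rfl
  unfold alp
  rw [e, Matrix.det_fin_three]
  simp
  ring

theorem cert_113 {N : ℕ} (hN : 4 ≤ N) :
    ∃ Φ v c eg ℓ el, Cert (N := N) (k := 1) ![1, 1, 3] ![0] Φ v c eg ℓ el ∧ ClV v := by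
  classical
  obtain ⟨i0, hi0⟩ : ∃ i : Fin N, i.val = 0 := ⟨⟨0, by omega⟩, rfl⟩
  obtain ⟨i1, hi1⟩ : ∃ i : Fin N, i.val = 1 := ⟨⟨1, by omega⟩, rfl⟩
  obtain ⟨i2, hi2⟩ : ∃ i : Fin N, i.val = 2 := ⟨⟨2, by omega⟩, rfl⟩
  obtain ⟨i3, hi3⟩ : ∃ i : Fin N, i.val = 3 := ⟨⟨3, by omega⟩, rfl⟩
  have n01 : i0 ≠ i1 := by intro h; rw [h] at hi0; omega
  have n02 : i0 ≠ i2 := by intro h; rw [h] at hi0; omega
  have n03 : i0 ≠ i3 := by intro h; rw [h] at hi0; omega
  have n12 : i1 ≠ i2 := by intro h; rw [h] at hi1; omega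
  have n13 : i1 ≠ i3 := by intro h; rw [h] at hi1; omega
  have n23 : i2 ≠ i3 := by intro h; rw [h] at hi2; omega
  obtain ⟨f, hf⟩ : ∃ f : MvPolynomial (Fin N) ℂ, f = X i0 ^ 3 + X i2 ^ 3 + X i3 ^ 3 := ⟨_, rfl⟩
  obtain ⟨Φ, hΦ⟩ : ∃ Φ : Fin (1 + 2) → MvPolynomial (Fin N) ℂ, Φ = ![X i0, X i1, f] := ⟨_, rfl⟩
  obtain ⟨v, hv⟩ : ∃ v : Fin 1 → Fin (1 + 2) → MvPolynomial (Fin (1 + 2)) ℂ,
      v = fun _ => ![X 0, C 2 * X 1, C (-3) * X 2] := ⟨_, rfl⟩
  have hr : (fun (l : Fin 1) (i : Fin (1 + 2)) => aeval Φ (v l i)) =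
      fun _ => ![X i0, C 2 * X i1, C (-3) * f] := by
    funext l i
    rw [hv]
    fin_cases i <;> simp [hΦ, MvPolynomial.algebraMap_eq]
  have hΦ0 : Φ 0 = X i0 := by rw [hΦ]; rfl
  have hΦ1 : Φ 1 = X i1 := by rw [hΦ]; rfl
  have hΦ2 : Φ 2 = f := by rw [hΦ]; rfl
  obtain ⟨J, hJ⟩ : ∃ J : Fin 3 → (Fin (1 + 2) → Fin N ⊕ Fin 1), J =
    ![![Sum.inl i0, Sum.inl i1, Sum.inl i2], ![Sum.inl i0, Sum.inl i1, Sum.inl i3],
      ![Sum.inl i0, Sum.inl i1, Sum.inr 0]] := ⟨_, rfl⟩
  have hf0 : pderiv i0 f = 3 * X i0 ^ 2 := by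
    rw [hf]; simp [pderiv_X, Pi.single_apply, n02, n03, n02.symm, n03.symm]
  have hf1 : pderiv i1 f = 0 := by
    rw [hf]; simp [pderiv_X, Pi.single_apply, n01, n12, n13, n01.symm, n12.symm, n13.symm]
  have hf2 : pderiv i2 f = 3 * X i2 ^ 2 := by
    rw [hf]; simp [pderiv_X, Pi.single_apply, n02, n23, n02.symm, n23.symm]
  have hf3 : pderiv i3 f = 3 * X i3 ^ 2 := by
    rw [hf]; simp [pderiv_X, Pi.single_apply, n03, n23, n03.symm, n23.symm]
  have fhom : f.IsHomogeneous 3 := by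
    rw [hf]
    exact (((isHomogeneous_X ℂ i0).pow 3).add ((isHomogeneous_X ℂ i2).pow 3)).add
      ((isHomogeneous_X ℂ i3).pow 3)
  -- values of the minors
  have hm : ∀ i : Fin 3, ∑ K, (Pi.single (J i) (1 : MvPolynomial (Fin N) ℂ) :
        (Fin (1 + 2) → Fin N ⊕ Fin 1) → MvPolynomial (Fin N) ℂ) K *
      mnr (k := 1) (fun a i => pderiv a (Φ i)) (fun l i => aeval Φ (v l i)) K =
      ![3 * X i2 ^ 2, 3 * X i3 ^ 2, C (-3) * f - 3 * X i0 ^ 3] i := by
    intro i
    rw [sum_single_113, hr]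
    unfold mnr
    rw [Matrix.det_fin_three]
    fin_cases i <;>
      simp [hJ, hΦ0, hΦ1, hΦ2, hf0, hf1, hf2, hf3, pderiv_X, Pi.single_apply, n01, n02, n03, n12, n13,
        n01.symm, n02.symm, n03.symm, n12.symm, n13.symm]
    all_goals ring
  have hmin01 : mins (k := 1) (fun l i => aeval Φ (v l i)) (0, 1) = C (-3) * f := by
    rw [hr]; unfold mins
    rw [alp_113]
    simp
  have hmin12 : mins (k := 1) (fun l i => aeval Φ (v l i)) (1, 2) = X i0 := by
    rw [hr]; unfold mins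
    rw [alp_113]
    simp
  have hmin02 : mins (k := 1) (fun l i => aeval Φ (v l i)) (0, 2) = -(C 2 * X i1) := by
    rw [hr]; unfold mins
    rw [alp_113]
    simp
  have hrad : ∀ j, radC 3 (stdF (k := 1) Φ v) j = -(C (5⁻¹ : ℂ) * (
      (if j = i0 then 1 else 0) * (C (-9) * X i1 * f) + (if j = i1 then 1 else 0) * (C 6 * X i0 * f)
        + pderiv j f * (X i0 * X i1))) := by
    intro j
    have hp0 : pderiv j (Φ 0) = if j = i0 then 1 else 0 := by
      rw [hΦ0, pderiv_X, Pi.single_apply]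
      by_cases h : j = i0
      · rw [if_pos h, if_pos h.symm]
      · rw [if_neg h, if_neg (fun h' => h h'.symm)]
    have hp1 : pderiv j (Φ 1) = if j = i1 then 1 else 0 := by
      rw [hΦ1, pderiv_X, Pi.single_apply]
      by_cases h : j = i1
      · rw [if_pos h, if_pos h.symm]
      · rw [if_neg h, if_neg (fun h' => h h'.symm)]
    have hs : ∀ i, ∑ a, X a * pderiv a (Φ i) = ![X i0, X i1, 3 * f] i := by
      intro i
      fin_cases i
      · have h := (isHomogeneous_X ℂ i0).sum_X_mul_pderiv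
        simpa [hΦ0] using h
      · have h := (isHomogeneous_X ℂ i1).sum_X_mul_pderiv
        simpa [hΦ1] using h
      · have h := fhom.sum_X_mul_pderiv
        simpa [hΦ2] using h
    unfold radC
    have h1 : ∑ i, X i * stdF (k := 1) Φ v i j = alp (k := 1) (fun l i => aeval Φ (v l i))
        ![X i0, X i1, 3 * f] (fun i => pderiv j (Φ i)) := by
      simp only [stdF, alp_113, ← hs, Finset.mul_sum, Finset.sum_mul, ← Finset.sum_sub_distrib,
        ← Finset.sum_add_distrib]
      apply Finset.sum_congr rfl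
      intro a _
      ring
    rw [h1, hr, alp_113, hp0, hp1, hΦ2]
    have c9 : (C (-9) : MvPolynomial (Fin N) ℂ) = -9 := by rw [map_neg, map_ofNat]
    have c6 : (C 6 : MvPolynomial (Fin N) ℂ) = 6 := map_ofNat C 6
    have c5 : ((3 : ℂ) + 2)⁻¹ = 5⁻¹ := by norm_num
    have c3 : (C (-3) : MvPolynomial (Fin N) ℂ) = -3 := by rw [map_neg, map_ofNat]
    have c2 : (C 2 : MvPolynomial (Fin N) ℂ) = 2 := map_ofNat C 2
    push_cast
    rw [c5, c9, c6, c3, c2]
    ring
  have key : ∀ (q g : MvPolynomial (Fin N) ℂ) (i : Fin N), Irreducible q → q ∣ X i → q ∣ g →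
      ∀ x : Fin N → ℂ, x i = 0 → eval x g = 0 := by
    intro q g i hq h1 h2 x hx
    have h3 : Irreducible (X i : MvPolynomial (Fin N) ℂ) := (X_prime (i := i)).irreducible
    obtain ⟨u, hu⟩ := ((hq.associated_of_dvd h3 h1).symm.dvd).trans h2
    rw [hu, map_mul, eval_X, hx, zero_mul]
  have c9 : (C (-9) : MvPolynomial (Fin N) ℂ) = -9 := by rw [map_neg, map_ofNat]
  have c6 : (C 6 : MvPolynomial (Fin N) ℂ) = 6 := map_ofNat C 6
  have hall : ∀ x : Fin N → ℂ, x i0 = 0 → x i1 = 0 → x i2 = 0 → x i3 = 0 →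
      (∀ i : Fin N, 4 ≤ i.val → x i = 0) → x = 0 := by
    intro x h0 h1 h2 h3 h4
    funext i
    by_cases c0 : i.val = 0
    · rw [Fin.ext (c0.trans hi0.symm), h0]; rfl
    by_cases c1 : i.val = 1
    · rw [Fin.ext (c1.trans hi1.symm), h1]; rfl
    by_cases c2 : i.val = 2
    · rw [Fin.ext (c2.trans hi2.symm), h2]; rfl
    by_cases c3 : i.val = 3
    · rw [Fin.ext (c3.trans hi3.symm), h3]; rfl
    exact h4 i (by omega)
  refine ⟨Φ, v, fun i => Pi.single (J i) 1, ![2, 2, 3], X i1, 1, ?_, ?_⟩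
  · constructor
    · constructor
      · intro i
        fin_cases i
        · simpa [hΦ0] using isHomogeneous_X ℂ i0
        · simpa [hΦ1] using isHomogeneous_X ℂ i1
        · simpa [hΦ2] using fhom
      · intro l i
        fin_cases l
        fin_cases i
        · simpa [hv] using isWeightedHomogeneous_X ℂ ![1, 1, 3] (0 : Fin 3)
        · simpa [hv] using (isWeightedHomogeneous_C ![1, 1, 3] (2 : ℂ)).mul
            (isWeightedHomogeneous_X ℂ ![1, 1, 3] (1 : Fin 3))
        · simpa [hv] using (isWeightedHomogeneous_C ![1, 1, 3] (-3 : ℂ)).mul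
            (isWeightedHomogeneous_X ℂ ![1, 1, 3] (2 : Fin 3))
    · intro i; fin_cases i <;> simp
    · intro i K
      by_cases hK : K = J i
      · right
        refine ⟨0, ?_, ?_⟩
        · rw [hK, Pi.single_eq_same]
          exact isHomogeneous_one _ _
        · rw [hK, zero_add]
          unfold dg
          fin_cases i <;> simp [hJ, Fin.sum_univ_three]
      · left
        rw [Pi.single_eq_of_ne hK]
    · exact Nat.one_pos
    · exact isHomogeneous_X _ _
    · intro x hx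
      have e0 := hx (Sum.inl (Sum.inl 0))
      have e1 := hx (Sum.inl (Sum.inl 1))
      have e2 := hx (Sum.inl (Sum.inl 2))
      have e3 := hx (Sum.inl (Sum.inr 0))
      simp only [Sum.elim_inl, Sum.elim_inr, hm] at e0 e1 e2 e3
      simp [hf] at e0 e1 e2 e3
      refine hall x ?_ e3 e0 e1 (fun i hi => ?_)
      · rw [e0, e1] at e2
        have h6 : x i0 ^ 3 = 0 := by linear_combination (-1 / 6) * e2
        exact (pow_eq_zero_iff (by norm_num)).mp h6
      · have h := hx (Sum.inr ⟨i, hi⟩)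
        simpa [pads] using h
    · intro x hx
      have e0 := hx (Sum.inl (Sum.inl 0))
      have e1 := hx (Sum.inl (Sum.inl 1))
      have e2 := hx (Sum.inl (Sum.inr (1, 2)))
      have e3 := hx (Sum.inl (Sum.inr (0, 2)))
      simp only [Sum.elim_inl, Sum.elim_inr, hm, hmin12, hmin02] at e0 e1 e2 e3
      simp [hf] at e0 e1 e2 e3
      refine hall x e2 e3 e0 e1 (fun i hi => ?_)
      have h := hx (Sum.inr ⟨i, hi⟩)
      simpa [pads] using h
    · intro x hx
      have e0 := hx (Sum.inl (0, 1))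
      have e2 := hx (Sum.inl (1, 2))
      have e3 := hx (Sum.inl (0, 2))
      simp only [Sum.elim_inl, Sum.elim_inr, hmin01, hmin12, hmin02] at e0 e2 e3
      simp [hf] at e0 e2 e3
      have hpad : ∀ i : Fin N, 3 ≤ i.val → x i = 0 := by
        intro i hi
        have h := hx (Sum.inr ⟨i, hi⟩)
        simpa [pads] using h
      have h3 : x i3 = 0 := hpad i3 (by omega)
      have h2 : x i2 = 0 := by
        rw [e2, h3] at e0
        have h6 : x i2 ^ 3 = 0 := by linear_combination e0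
        exact (pow_eq_zero_iff (by norm_num)).mp h6
      exact hall x e2 e3 h2 h3 (fun i hi => hpad i (by omega))
    · intro p hp
      by_contra hpu
      have hp0 : p ≠ 0 := by
        intro h0
        have h1 := hp i2
        rw [h0, zero_dvd_iff, hrad, if_neg n02.symm, if_neg n12.symm, hf2] at h1
        have h2 := congrArg (eval (fun _ : Fin N => (1 : ℂ))) h1
        simp at h2
      obtain ⟨q, hq, hqp⟩ := WfDvdMonoid.exists_irreducible_factor hpu hp0
      have hqpr : Prime q := hq.prime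
      have hu : IsUnit (-(C (5⁻¹ : ℂ)) : MvPolynomial (Fin N) ℂ) := by
        have h5 : IsUnit (C (5⁻¹ : ℂ) : MvPolynomial (Fin N) ℂ) :=
          (IsUnit.mk0 (5⁻¹ : ℂ) (by norm_num)).map C
        exact h5.neg
      have hq' : ∀ j, q ∣ (if j = i0 then 1 else 0) * (C (-9) * X i1 * f) +
          (if j = i1 then 1 else 0) * (C 6 * X i0 * f) + pderiv j f * (X i0 * X i1) := by
        intro j
        have h1 := hqp.trans (hp j)
        rw [hrad, ← neg_mul] at h1
        exact (hu.dvd_mul_left).mp h1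
      have g0 := hq' i0
      have g1 := hq' i1
      have g2 := hq' i2
      have g3 := hq' i3
      rw [if_pos rfl, if_neg n01, hf0, one_mul, zero_mul, add_zero] at g0
      rw [if_pos rfl, if_neg n01.symm, hf1, one_mul, zero_mul, zero_mul, add_zero, zero_add] at g1
      rw [if_neg n02.symm, if_neg n12.symm, hf2, zero_mul, zero_mul, zero_add, zero_add] at g2
      rw [if_neg n03.symm, if_neg n13.symm, hf3, zero_mul, zero_mul, zero_add, zero_add] at g3
      have h3u : IsUnit (3 : MvPolynomial (Fin N) ℂ) := by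
        have h5 : IsUnit (C (3 : ℂ) : MvPolynomial (Fin N) ℂ) :=
          (IsUnit.mk0 (3 : ℂ) (by norm_num)).map C
        rwa [map_ofNat] at h5
      have hc : ∀ k : Fin N, q ∣ 3 * X k ^ 2 * (X i0 * X i1) → q ∣ X k ∨ q ∣ X i0 ∨ q ∣ X i1 := by
        intro k hk
        rcases hqpr.dvd_or_dvd hk with h | h
        · left
          exact hqpr.dvd_of_dvd_pow ((h3u.dvd_mul_left).mp h)
        · right
          exact hqpr.dvd_or_dvd h
      have hA : ¬ q ∣ X i0 := by
        intro h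
        have h1 := key q _ i0 hq h g0 (fun k => if k = i0 then 0 else 1) (by simp)
        simp [hf, n01, n02, n03, n01.symm, n02.symm, n03.symm] at h1
      have hB : ¬ q ∣ X i1 := by
        intro h
        have h1 := key q _ i1 hq h g1 (fun k => if k = i1 then 0 else 1) (by simp)
        simp [hf, n01, n12, n13, n01.symm, n12.symm, n13.symm] at h1
        norm_num at h1
      rcases hc i2 g2 with h | h | h
      · rcases hc i3 g3 with h' | h' | h'
        · have h1 := key q _ i2 hq h h' (fun k => if k = i2 then 0 else 1) (by simp)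
          simp [n23, n23.symm] at h1
        · exact hA h'
        · exact hB h'
      · exact hA h
      · exact hB h
  · rw [ClV_iff_div, hv]
    rw [Fin.sum_univ_three]
    simp [pderiv_X, Pi.single_apply]
    have c3 : (C 3 : MvPolynomial (Fin (1 + 2)) ℂ) = 3 := map_ofNat C 3
    have c2 : (C 2 : MvPolynomial (Fin (1 + 2)) ℂ) = 2 := map_ofNat C 2
    rw [c3, c2]
    ring

end Pool.Agent.Helper1.FG
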