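import Pool.Agent.Helper1.FG.F2a

/-! FG-17: explicit member with certificate, `k = 1`, weights (1,2,2), `s = 0`.
`Φ = (X_0, q_1, q_2)`, `v = (a y_0, b y_1, c y_2)` with `a + b + c = 0`, `a b c ≠ 0`, `b ≠ c`,
`q_1 = X_1^2 + X_2^2 + X_3^2 + m X_0^2`, `q_2 = α X_1^2 + β X_2^2 + γ X_3^2 + n X_0^2` with general constants; the minors of the columns
`(0,i,j)` are `X_i X_j` up to constants, those of the columns `(0,i,v)` are `X_i h_i`, `h_i` quadratic; `g_0 = X_1 X_2`,
`g_1 = X_3 (X_1 + X_2)`, `g_2 = ∑ X_i h_i`, `ℓ` a form without zero at the finitely many common zeros; any other choice is welcome.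

Choice made here: `v = (-3 y_0, y_1, 2 y_2)`, `q_1 = X_1^2 + X_2^2 + X_3^2`, `q_2 = 2 X_1^2 + X_2^2 + 3 X_3^2`, `ℓ = X_0`. -/

set_option autoImplicit false
set_option linter.unusedSimpArgs false

namespace Pool.Agent.Helper1.FG

open MvPolynomial
open scoped BigOperators
open Pool.Agent.Helper93 (TT OF RE HomS IntS FolS Cop Comp PreIrr pb)
open Pool.Agent.Helper71.FL

private theorem alp_122 {S : Type} [CommRing S] (r : Fin 1 → Fin (1 + 2) → S)
    (x y : Fin (1 + 2) → S) : alp (k := 1) r x y = x 0 * (y 1 * r 0 2 - y 2 * r 0 1) -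
      x 1 * (y 0 * r 0 2 - y 2 * r 0 0) + x 2 * (y 0 * r 0 1 - y 1 * r 0 0) := by
  have e : (Fin.cons x (Fin.cons y r) : Fin (1 + 2) → Fin (1 + 2) → S) = ![x, y, r 0] := by
    funext i
    fin_cases i <;> rfl
  unfold alp
  rw [e, Matrix.det_fin_three]
  simp
  ring

private theorem mnr_122 {S : Type} [CommRing S] {N : ℕ} (T : Fin N → Fin (1 + 2) → S)
    (r : Fin 1 → Fin (1 + 2) → S) (a b : Fin N) (z : Fin N ⊕ Fin 1) :
    mnr (k := 1) T r ![Sum.inl a, Sum.inl b, z] =
      T a 0 * (T b 1 * Sum.elim T r z 2 - T b 2 * Sum.elim T r z 1) -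
      T a 1 * (T b 0 * Sum.elim T r z 2 - T b 2 * Sum.elim T r z 0) +
      T a 2 * (T b 0 * Sum.elim T r z 1 - T b 1 * Sum.elim T r z 0) := by
  unfold mnr
  rw [Matrix.det_fin_three]
  simp
  ring

private theorem sum_ite_122 {ι : Type} [Fintype ι] [DecidableEq ι] {R : Type} [CommRing R]
    (s : Finset ι) (g : ι → R) : ∑ J, (if J ∈ s then (1 : R) else 0) * g J = ∑ J ∈ s, g J := by
  simp only [ite_mul, one_mul, zero_mul]
  rw [Finset.sum_ite_mem, Finset.univ_inter]

theorem cert_122 {N : ℕ} (hN : 4 ≤ N) :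
    ∃ Φ v c eg ℓ el, Cert (N := N) (k := 1) ![1, 2, 2] ![0] Φ v c eg ℓ el ∧ ClV v := by
  classical
  obtain ⟨i0, hi0⟩ : ∃ i : Fin N, i.val = 0 := ⟨⟨0, by omega⟩, rfl⟩
  obtain ⟨i1, hi1⟩ : ∃ i : Fin N, i.val = 1 := ⟨⟨1, by omega⟩, rfl⟩
  obtain ⟨i2, hi2⟩ : ∃ i : Fin N, i.val = 2 := ⟨⟨2, by omega⟩, rfl⟩
  obtain ⟨i3, hi3⟩ : ∃ i : Fin N, i.val = 3 := ⟨⟨3, by omega⟩, rfl⟩
  have n01 : i0 ≠ i1 := by intro h; rw [h] at hi0; omega
  have n02 : i0 ≠ i2 := by intro h; rw [h] at hi0; omega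
  have n03 : i0 ≠ i3 := by intro h; rw [h] at hi0; omega
  have n12 : i1 ≠ i2 := by intro h; rw [h] at hi1; omega
  have n13 : i1 ≠ i3 := by intro h; rw [h] at hi1; omega
  have n23 : i2 ≠ i3 := by intro h; rw [h] at hi2; omega
  obtain ⟨f, hf⟩ : ∃ f : MvPolynomial (Fin N) ℂ, f = X i1 ^ 2 + X i2 ^ 2 + X i3 ^ 2 := ⟨_, rfl⟩
  obtain ⟨g, hg⟩ : ∃ g : MvPolynomial (Fin N) ℂ, g = 2 * X i1 ^ 2 + X i2 ^ 2 + 3 * X i3 ^ 2 :=
    ⟨_, rfl⟩
  obtain ⟨Φ, hΦ⟩ : ∃ Φ : Fin (1 + 2) → MvPolynomial (Fin N) ℂ, Φ = ![X i0, f, g] := ⟨_, rfl⟩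
  obtain ⟨v, hv⟩ : ∃ v : Fin 1 → Fin (1 + 2) → MvPolynomial (Fin (1 + 2)) ℂ,
      v = fun _ => ![C (-3) * X 0, X 1, C 2 * X 2] := ⟨_, rfl⟩
  have hr : (fun (l : Fin 1) (i : Fin (1 + 2)) => aeval Φ (v l i)) =
      fun _ => ![C (-3) * X i0, f, C 2 * g] := by
    funext l i
    rw [hv]
    fin_cases i <;> simp [hΦ, MvPolynomial.algebraMap_eq]
  have hΦ0 : Φ 0 = X i0 := by rw [hΦ]; rfl
  have hΦ1 : Φ 1 = f := by rw [hΦ]; rfl
  have hΦ2 : Φ 2 = g := by rw [hΦ]; rfl
  have C2 : (C 2 : MvPolynomial (Fin N) ℂ) = 2 := map_ofNat C 2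
  have C3 : (C (-3) : MvPolynomial (Fin N) ℂ) = -3 := by rw [map_neg, map_ofNat]
  have d2 : ∀ i : Fin N, pderiv i (2 : MvPolynomial (Fin N) ℂ) = 0 := by
    intro i; rw [← C2, pderiv_C]
  have d3 : ∀ i : Fin N, pderiv i (3 : MvPolynomial (Fin N) ℂ) = 0 := by
    intro i; rw [← map_ofNat (C : ℂ →+* MvPolynomial (Fin N) ℂ) 3, pderiv_C]
  have hf0 : pderiv i0 f = 0 := by
    rw [hf]; simp [pderiv_X, Pi.single_apply, n01, n02, n03, n01.symm, n02.symm, n03.symm]
  have hf1 : pderiv i1 f = 2 * X i1 := by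
    rw [hf]; simp [pderiv_X, Pi.single_apply, n12, n13, n12.symm, n13.symm]
  have hf2 : pderiv i2 f = 2 * X i2 := by
    rw [hf]; simp [pderiv_X, Pi.single_apply, n12, n23, n12.symm, n23.symm]
  have hf3 : pderiv i3 f = 2 * X i3 := by
    rw [hf]; simp [pderiv_X, Pi.single_apply, n13, n23, n13.symm, n23.symm]
  have hg0 : pderiv i0 g = 0 := by
    rw [hg]; simp [pderiv_X, Pi.single_apply, n01, n02, n03, n01.symm, n02.symm, n03.symm, d2, d3]
  have hg1 : pderiv i1 g = 4 * X i1 := by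
    rw [hg]; simp [pderiv_X, Pi.single_apply, n12, n13, n12.symm, n13.symm, d2, d3]; ring
  have hg2 : pderiv i2 g = 2 * X i2 := by
    rw [hg]; simp [pderiv_X, Pi.single_apply, n12, n23, n12.symm, n23.symm, d2, d3]
  have hg3 : pderiv i3 g = 6 * X i3 := by
    rw [hg]; simp [pderiv_X, Pi.single_apply, n13, n23, n13.symm, n23.symm, d2, d3]; ring
  have fhom : f.IsHomogeneous 2 := by
    rw [hf]
    exact (((isHomogeneous_X ℂ i1).pow 2).add ((isHomogeneous_X ℂ i2).pow 2)).add
      ((isHomogeneous_X ℂ i3).pow 2)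
  have ghom : g.IsHomogeneous 2 := by
    have e : g = C 2 * X i1 ^ 2 + X i2 ^ 2 + C 3 * X i3 ^ 2 := by
      rw [hg, C2, map_ofNat]
    rw [e]
    exact ((((isHomogeneous_X ℂ i1).pow 2).C_mul _).add ((isHomogeneous_X ℂ i2).pow 2)).add
      (((isHomogeneous_X ℂ i3).pow 2).C_mul _)
  -- derivatives of the coordinates
  have t00 : pderiv i0 (Φ 0) = 1 := by rw [hΦ0, pderiv_X_self]
  have t10 : pderiv i1 (Φ 0) = 0 := by rw [hΦ0, pderiv_X_of_ne n01]
  have t20 : pderiv i2 (Φ 0) = 0 := by rw [hΦ0, pderiv_X_of_ne n02]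
  have t30 : pderiv i3 (Φ 0) = 0 := by rw [hΦ0, pderiv_X_of_ne n03]
  obtain ⟨Jm, hJm⟩ : ∃ Jm : Fin N → (Fin N ⊕ Fin 1) → (Fin (1 + 2) → Fin N ⊕ Fin 1),
    Jm = fun a z => ![Sum.inl i0, Sum.inl a, z] := ⟨_, rfl⟩
  have hJne : ∀ a a' z z', a ≠ a' → Jm a z ≠ Jm a' z' := by
    intro a a' z z' h h'
    rw [hJm] at h'
    exact h (Sum.inl_injective (congrFun h' 1))
  obtain ⟨J, hJ⟩ : ∃ J : Fin 3 → Finset (Fin (1 + 2) → Fin N ⊕ Fin 1), J =
    ![{Jm i1 (Sum.inl i2)}, {Jm i1 (Sum.inl i3), Jm i2 (Sum.inl i3)},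
      {Jm i1 (Sum.inr 0), Jm i2 (Sum.inr 0), Jm i3 (Sum.inr 0)}] := ⟨_, rfl⟩
  -- values of the minors
  have hm : ∀ i : Fin 3, ∑ K, (if K ∈ J i then (1 : MvPolynomial (Fin N) ℂ) else 0) *
      mnr (k := 1) (fun a i => pderiv a (Φ i)) (fun l i => aeval Φ (v l i)) K =
      ![-4 * X i1 * X i2, 4 * X i1 * X i3 + 8 * X i2 * X i3,
        2 * X i1 * (2 * g - 2 * f) + 2 * X i2 * (2 * g - f) + 2 * X i3 * (2 * g - 3 * f)] i := by
    intro i
    rw [sum_ite_122, hr, hJ]
    fin_cases i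
    · show ∑ K ∈ {Jm i1 (Sum.inl i2)}, _ = _
      rw [Finset.sum_singleton, hJm, mnr_122]
      simp only [Sum.elim_inl, Sum.elim_inr, t00, t10, t20, t30, hΦ1, hΦ2, hf0, hf1, hf2, hf3, hg0,
        hg1, hg2, hg3]
      simp
      ring
    · show ∑ K ∈ {Jm i1 (Sum.inl i3), Jm i2 (Sum.inl i3)}, _ = _
      rw [Finset.sum_pair (hJne _ _ _ _ n12), hJm, mnr_122, mnr_122]
      simp only [Sum.elim_inl, Sum.elim_inr, t00, t10, t20, t30, hΦ1, hΦ2, hf0, hf1, hf2, hf3, hg0,
        hg1, hg2, hg3]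
      simp
      ring
    · show ∑ K ∈ {Jm i1 (Sum.inr 0), Jm i2 (Sum.inr 0), Jm i3 (Sum.inr 0)}, _ = _
      rw [Finset.sum_insert, Finset.sum_pair (hJne _ _ _ _ n23), hJm, mnr_122, mnr_122, mnr_122]
      · simp only [Sum.elim_inl, Sum.elim_inr, t00, t10, t20, t30, hΦ1, hΦ2, hf0, hf1, hf2, hf3, hg0,
          hg1, hg2, hg3]
        simp [C2, C3]
        ring
      · rw [Finset.mem_insert, Finset.mem_singleton, not_or]
        exact ⟨hJne _ _ _ _ n12, hJne _ _ _ _ n13⟩
  have hmin01 : mins (k := 1) (fun l i => aeval Φ (v l i)) (0, 1) = C 2 * g := by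
    rw [hr]; unfold mins
    rw [alp_122]
    simp
  have hmin12 : mins (k := 1) (fun l i => aeval Φ (v l i)) (1, 2) = C (-3) * X i0 := by
    rw [hr]; unfold mins
    rw [alp_122]
    simp
  have hmin02 : mins (k := 1) (fun l i => aeval Φ (v l i)) (0, 2) = -f := by
    rw [hr]; unfold mins
    rw [alp_122]
    simp
  have hrad : ∀ j, radC 3 (stdF (k := 1) Φ v) j = C (5⁻¹ : ℂ) * (
      8 * X i0 * g * pderiv j f - 7 * X i0 * f * pderiv j g
        - 2 * (if j = i0 then 1 else 0) * (f * g)) := by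
    intro j
    have hp0 : pderiv j (Φ 0) = if j = i0 then 1 else 0 := by
      rw [hΦ0, pderiv_X, Pi.single_apply]
      by_cases h : j = i0
      · rw [if_pos h, if_pos h.symm]
      · rw [if_neg h, if_neg (fun h' => h h'.symm)]
    have hs : ∀ i, ∑ a, X a * pderiv a (Φ i) = ![X i0, 2 * f, 2 * g] i := by
      intro i
      fin_cases i
      · have h := (isHomogeneous_X ℂ i0).sum_X_mul_pderiv
        simpa [hΦ0] using h
      · have h := fhom.sum_X_mul_pderiv
        simpa [hΦ1] using h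
      · have h := ghom.sum_X_mul_pderiv
        simpa [hΦ2] using h
    unfold radC
    have h1 : ∑ i, X i * stdF (k := 1) Φ v i j = alp (k := 1) (fun l i => aeval Φ (v l i))
        ![X i0, 2 * f, 2 * g] (fun i => pderiv j (Φ i)) := by
      simp only [stdF, alp_122, ← hs, Finset.mul_sum, Finset.sum_mul, ← Finset.sum_sub_distrib,
        ← Finset.sum_add_distrib]
      apply Finset.sum_congr rfl
      intro a _
      ring
    rw [h1, hr, alp_122, hp0, hΦ1, hΦ2]
    have c5 : ((3 : ℂ) + 2)⁻¹ = 5⁻¹ := by norm_num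
    push_cast
    rw [c5]
    simp only [C2, C3, Matrix.cons_val_zero, Matrix.cons_val_one, Matrix.cons_val]
    ring
  have key : ∀ (q g : MvPolynomial (Fin N) ℂ) (i : Fin N), Irreducible q → q ∣ X i → q ∣ g →
      ∀ x : Fin N → ℂ, x i = 0 → eval x g = 0 := by
    intro q g i hq h1 h2 x hx
    have h3 : Irreducible (X i : MvPolynomial (Fin N) ℂ) := (X_prime (i := i)).irreducible
    obtain ⟨u, hu⟩ := ((hq.associated_of_dvd h3 h1).symm.dvd).trans h2
    rw [hu, map_mul, eval_X, hx, zero_mul]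
  have hall : ∀ x : Fin N → ℂ, x i0 = 0 → x i1 = 0 → x i2 = 0 → x i3 = 0 →
      (∀ i : Fin N, 4 ≤ i.val → x i = 0) → x = 0 := by
    intro x h0 h1 h2 h3 h4
    funext i
    by_cases c0 : i.val = 0
    · rw [Fin.ext (c0.trans hi0.symm), h0]; rfl
    by_cases c1 : i.val = 1
    · rw [Fin.ext (c1.trans hi1.symm), h1]; rfl
    by_cases c2 : i.val = 2
    · rw [Fin.ext (c2.trans hi2.symm), h2]; rfl
    by_cases c3 : i.val = 3
    · rw [Fin.ext (c3.trans hi3.symm), h3]; rfl
    exact h4 i (by omega)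
  have hzero : ∀ a b c : ℂ, a * b = 0 → 4 * a * c + 8 * b * c = 0 →
      2 * a * (2 * (2 * a ^ 2 + b ^ 2 + 3 * c ^ 2) - 2 * (a ^ 2 + b ^ 2 + c ^ 2)) +
      2 * b * (2 * (2 * a ^ 2 + b ^ 2 + 3 * c ^ 2) - (a ^ 2 + b ^ 2 + c ^ 2)) +
      2 * c * (2 * (2 * a ^ 2 + b ^ 2 + 3 * c ^ 2) - 3 * (a ^ 2 + b ^ 2 + c ^ 2)) = 0 →
      a = 0 ∧ b = 0 ∧ c = 0 := by
    intro a b c h1 h2 h3
    rcases mul_eq_zero.1 h1 with h | h
    · rw [h] at h2 h3
      have h4 : b * c = 0 := by linear_combination (1 / 8) * h2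
      rcases mul_eq_zero.1 h4 with h5 | h5
      · rw [h5] at h3
        have h6 : c ^ 3 = 0 := by linear_combination (1 / 6) * h3
        exact ⟨h, h5, (pow_eq_zero_iff (by norm_num)).mp h6⟩
      · rw [h5] at h3
        have h6 : b ^ 3 = 0 := by linear_combination (1 / 2) * h3
        exact ⟨h, (pow_eq_zero_iff (by norm_num)).mp h6, h5⟩
    · rw [h] at h2 h3
      have h4 : a * c = 0 := by linear_combination (1 / 4) * h2
      rcases mul_eq_zero.1 h4 with h5 | h5
      · rw [h5] at h3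
        have h6 : c ^ 3 = 0 := by linear_combination (1 / 6) * h3
        exact ⟨h5, h, (pow_eq_zero_iff (by norm_num)).mp h6⟩
      · rw [h5] at h3
        have h6 : a ^ 3 = 0 := by linear_combination (1 / 4) * h3
        exact ⟨(pow_eq_zero_iff (by norm_num)).mp h6, h, h5⟩
  refine ⟨Φ, v, fun i K => if K ∈ J i then 1 else 0, ![2, 2, 3], X i0, 1, ?_, ?_⟩
  · constructor
    · constructor
      · intro i
        fin_cases i
        · simpa [hΦ0] using isHomogeneous_X ℂ i0
        · simpa [hΦ1] using fhom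
        · simpa [hΦ2] using ghom
      · intro l i
        fin_cases l
        fin_cases i
        · simpa [hv] using (isWeightedHomogeneous_C ![1, 2, 2] (-3 : ℂ)).mul
            (isWeightedHomogeneous_X ℂ ![1, 2, 2] (0 : Fin 3))
        · simpa [hv] using isWeightedHomogeneous_X ℂ ![1, 2, 2] (1 : Fin 3)
        · simpa [hv] using (isWeightedHomogeneous_C ![1, 2, 2] (2 : ℂ)).mul
            (isWeightedHomogeneous_X ℂ ![1, 2, 2] (2 : Fin 3))
    · intro i; fin_cases i <;> simp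
    · intro i K
      by_cases hK : K ∈ J i
      · right
        refine ⟨0, ?_, ?_⟩
        · show (if K ∈ J i then (1 : MvPolynomial (Fin N) ℂ) else 0).IsHomogeneous 0
          rw [if_pos hK]
          exact isHomogeneous_one _ _
        · rw [zero_add]
          rw [hJ, hJm] at hK
          unfold dg
          fin_cases i
          · have h1 : K = ![Sum.inl i0, Sum.inl i1, Sum.inl i2] := by simpa using hK
            rw [h1]
            simp [Fin.sum_univ_three]
          · have h1 : K = ![Sum.inl i0, Sum.inl i1, Sum.inl i3] ∨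
              K = ![Sum.inl i0, Sum.inl i2, Sum.inl i3] := by simpa using hK
            rcases h1 with h1 | h1 <;>
            · rw [h1]
              simp [Fin.sum_univ_three]
          · have h1 : K = ![Sum.inl i0, Sum.inl i1, Sum.inr 0] ∨
              K = ![Sum.inl i0, Sum.inl i2, Sum.inr 0] ∨
              K = ![Sum.inl i0, Sum.inl i3, Sum.inr 0] := by simpa using hK
            rcases h1 with h1 | h1 | h1 <;>
            · rw [h1]
              simp [Fin.sum_univ_three]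
      · left
        exact if_neg hK
    · exact Nat.one_pos
    · exact isHomogeneous_X _ _
    · intro x hx
      have e0 := hx (Sum.inl (Sum.inl 0))
      have e1 := hx (Sum.inl (Sum.inl 1))
      have e2 := hx (Sum.inl (Sum.inl 2))
      have e3 := hx (Sum.inl (Sum.inr 0))
      simp only [Sum.elim_inl, Sum.elim_inr, hm] at e0 e1 e2 e3
      simp only [hf, hg, Matrix.cons_val_zero, Matrix.cons_val_one, Matrix.cons_val, map_add,
        map_sub, map_mul, map_pow, eval_X, map_ofNat, map_neg] at e0 e1 e2 e3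
      obtain ⟨z1, z2, z3⟩ := hzero (x i1) (x i2) (x i3) (by linear_combination (-1 / 4) * e0) e1 e2
      refine hall x e3 z1 z2 z3 (fun i hi => ?_)
      have h := hx (Sum.inr ⟨i, hi⟩)
      simpa [pads] using h
    · intro x hx
      have e0 := hx (Sum.inl (Sum.inl 0))
      have e1 := hx (Sum.inl (Sum.inl 1))
      have e2 := hx (Sum.inl (Sum.inl 2))
      have e3 := hx (Sum.inl (Sum.inr (1, 2)))
      simp only [Sum.elim_inl, Sum.elim_inr, hm, hmin12] at e0 e1 e2 e3
      simp only [hf, hg, Matrix.cons_val_zero, Matrix.cons_val_one, Matrix.cons_val, map_add,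
        map_sub, map_mul, map_pow, eval_X, map_ofNat, map_neg, eval_C] at e0 e1 e2 e3
      obtain ⟨z1, z2, z3⟩ := hzero (x i1) (x i2) (x i3) (by linear_combination (-1 / 4) * e0) e1 e2
      refine hall x (by linear_combination (-1 / 3) * e3) z1 z2 z3 (fun i hi => ?_)
      have h := hx (Sum.inr ⟨i, hi⟩)
      simpa [pads] using h
    · intro x hx
      have e0 := hx (Sum.inl (0, 1))
      have e2 := hx (Sum.inl (1, 2))
      have e3 := hx (Sum.inl (0, 2))
      simp only [Sum.elim_inl, Sum.elim_inr, hmin01, hmin12, hmin02] at e0 e2 e3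
      simp only [hf, hg, map_add, map_sub, map_mul, map_pow, eval_X, map_ofNat, map_neg,
        eval_C] at e0 e2 e3
      have hpad : ∀ i : Fin N, 3 ≤ i.val → x i = 0 := by
        intro i hi
        have h := hx (Sum.inr ⟨i, hi⟩)
        simpa [pads] using h
      have h3 : x i3 = 0 := hpad i3 (by omega)
      rw [h3] at e0 e3
      have h1 : x i1 ^ 2 = 0 := by linear_combination (1 / 2) * e0 + e3
      have h1' : x i1 = 0 := (pow_eq_zero_iff (by norm_num)).mp h1
      have h2 : x i2 ^ 2 = 0 := by linear_combination -e3 - h1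
      have h2' : x i2 = 0 := (pow_eq_zero_iff (by norm_num)).mp h2
      exact hall x (by linear_combination (-1 / 3) * e2) h1' h2' h3 (fun i hi => hpad i (by omega))
    · intro p hp
      by_contra hpu
      have hu5 : IsUnit (C (5⁻¹ : ℂ) : MvPolynomial (Fin N) ℂ) :=
        (IsUnit.mk0 (5⁻¹ : ℂ) (by norm_num)).map C
      have hp' : ∀ j, p ∣ 8 * X i0 * g * pderiv j f - 7 * X i0 * f * pderiv j g
          - 2 * (if j = i0 then 1 else 0) * (f * g) := by
        intro j
        have h1 := hp j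
        rw [hrad] at h1
        exact hu5.dvd_mul_left.mp h1
      have g0 := hp' i0
      have g1 := hp' i1
      rw [if_pos rfl, hf0, hg0] at g0
      rw [if_neg n01.symm, hf1, hg1] at g1
      have hp0 : p ≠ 0 := by
        intro h0
        rw [h0, zero_dvd_iff] at g1
        have h2 := congrArg (eval (fun _ : Fin N => (1 : ℂ))) g1
        simp [hf, hg] at h2
        norm_num at h2
      obtain ⟨q, hq, hqp⟩ := WfDvdMonoid.exists_irreducible_factor hpu hp0
      have hqpr : Prime q := hq.prime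
      have hcu : ∀ n : ℂ, n ≠ 0 → IsUnit (C n : MvPolynomial (Fin N) ℂ) := fun n hn =>
        (IsUnit.mk0 n hn).map C
      have hnu : ∀ n : ℂ, n ≠ 0 → ¬ q ∣ C n := fun n hn h =>
        hq.not_isUnit (isUnit_of_dvd_unit h (hcu n hn))
      -- `q` divides `f` or `g`
      have hfg : q ∣ f ∨ q ∣ g := by
        have h1 : q ∣ C (-2) * (f * g) := by
          refine (hqp.trans g0).trans (dvd_of_eq ?_)
          rw [map_neg, C2]; ring
        exact hqpr.dvd_or_dvd ((hcu (-2) (by norm_num)).dvd_mul_left.mp h1)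
      -- `q` does not divide both
      have hboth : ¬ (q ∣ f ∧ q ∣ g) := by
        rintro ⟨h1, h2⟩
        have h3 : q ∣ (1 * X i3 + (-X i2)) * (1 * X i3 + X i2) := by
          have h4 : q ∣ g - 2 * f := h2.sub (h1.mul_left 2)
          refine h4.trans (dvd_of_eq ?_)
          rw [hf, hg]; ring
        have hv2 : i3 ∉ (X i2 : MvPolynomial (Fin N) ℂ).vars := by
          rw [vars_X, Finset.mem_singleton]; exact n23.symm
        have irr1 : Irreducible (1 * X i3 + (-X i2) : MvPolynomial (Fin N) ℂ) := by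
          refine irreducible_mul_X_add _ _ i3 one_ne_zero (by simp) (by rw [vars_neg]; exact hv2) ?_
          intro d hd1 _
          exact isUnit_of_dvd_one hd1
        have irr2 : Irreducible (1 * X i3 + X i2 : MvPolynomial (Fin N) ℂ) := by
          refine irreducible_mul_X_add _ _ i3 one_ne_zero (by simp) hv2 ?_
          intro d hd1 _
          exact isUnit_of_dvd_one hd1
        rcases hqpr.dvd_or_dvd h3 with h | h
        · obtain ⟨u, hu⟩ := ((hq.associated_of_dvd irr1 h).symm.dvd).trans h1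
          have h5 := congrArg (eval (fun k : Fin N => if k = i2 then (1 : ℂ) else
            if k = i3 then 1 else 0)) hu
          simp [hf, n12, n13, n23, n12.symm, n13.symm, n23.symm] at h5
        · obtain ⟨u, hu⟩ := ((hq.associated_of_dvd irr2 h).symm.dvd).trans h1
          have h5 := congrArg (eval (fun k : Fin N => if k = i2 then (1 : ℂ) else
            if k = i3 then -1 else 0)) hu
          simp [hf, n12, n13, n23, n12.symm, n13.symm, n23.symm] at h5
      have hX0f : ¬ (q ∣ X i0 ∧ q ∣ f) := by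
        rintro ⟨h1, h2⟩
        have h3 := key q _ i0 hq h1 h2 (fun k => if k = i1 then 1 else 0) (by simp [n01])
        simp [hf, n12, n13, n12.symm, n13.symm] at h3
      have hX0g : ¬ (q ∣ X i0 ∧ q ∣ g) := by
        rintro ⟨h1, h2⟩
        have h3 := key q _ i0 hq h1 h2 (fun k => if k = i1 then 1 else 0) (by simp [n01])
        simp [hg, n12, n13, n12.symm, n13.symm] at h3
      have hX1f : ¬ (q ∣ X i1 ∧ q ∣ f) := by
        rintro ⟨h1, h2⟩
        have h3 := key q _ i1 hq h1 h2 (fun k => if k = i2 then 1 else 0) (by simp [n12])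
        simp [hf, n12, n23, n12.symm, n23.symm] at h3
      have hX1g : ¬ (q ∣ X i1 ∧ q ∣ g) := by
        rintro ⟨h1, h2⟩
        have h3 := key q _ i1 hq h1 h2 (fun k => if k = i2 then 1 else 0) (by simp [n12])
        simp [hg, n12, n23, n12.symm, n23.symm] at h3
      have gq := hqp.trans g1
      rcases hfg with h | h
      · -- `q ∣ f`
        have h1 : q ∣ C 16 * (X i0 * (g * X i1)) := by
          have h2 : q ∣ 28 * X i0 * f * X i1 := by
            have : 28 * X i0 * f * X i1 = f * (28 * X i0 * X i1) := by ring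
            rw [this]; exact h.mul_right _
          refine (gq.add h2).trans (dvd_of_eq ?_)
          rw [map_ofNat]; ring
        rcases hqpr.dvd_or_dvd ((hcu 16 (by norm_num)).dvd_mul_left.mp h1) with h2 | h2
        · exact hX0f ⟨h2, h⟩
        · rcases hqpr.dvd_or_dvd h2 with h3 | h3
          · exact hboth ⟨h, h3⟩
          · exact hX1f ⟨h3, h⟩
      · -- `q ∣ g`
        have h1 : q ∣ C (-28) * (X i0 * (f * X i1)) := by
          have h2 : q ∣ 16 * X i0 * g * X i1 := by
            have : 16 * X i0 * g * X i1 = g * (16 * X i0 * X i1) := by ring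
            rw [this]; exact h.mul_right _
          refine (gq.sub h2).trans (dvd_of_eq ?_)
          rw [map_neg, map_ofNat]; ring
        rcases hqpr.dvd_or_dvd ((hcu (-28) (by norm_num)).dvd_mul_left.mp h1) with h2 | h2
        · exact hX0g ⟨h2, h⟩
        · rcases hqpr.dvd_or_dvd h2 with h3 | h3
          · exact hboth ⟨h3, h⟩
          · exact hX1g ⟨h3, h⟩
  · rw [ClV_iff_div, hv]
    rw [Fin.sum_univ_three]
    simp [pderiv_X, Pi.single_apply]
    have c3 : (C 3 : MvPolynomial (Fin (1 + 2)) ℂ) = 3 := map_ofNat C 3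
    have c2 : (C 2 : MvPolynomial (Fin (1 + 2)) ℂ) = 2 := map_ofNat C 2
    rw [c3, c2]
    ring

end Pool.Agent.Helper1.FG
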