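import Pool.Agent.Helper1.FG.F5b

/-! FG-20: `cert_1112`; see the text in F5a. -/

set_option autoImplicit false

namespace Pool.Agent.Helper1.FG

open MvPolynomial
open scoped BigOperators
open Pool.Agent.Helper93 (TT OF RE HomS IntS FolS Cop Comp PreIrr pb)
open Pool.Agent.Helper71.FL

/-- scaling -/
private theorem eval_scale {n d : ℕ} {f : MvPolynomial (Fin n) ℂ} (hf : f.IsHomogeneous d)
    (c : ℂ) (x : Fin n → ℂ) : eval (fun i => c * x i) f = c ^ d * eval x f := by
  rw [eval_eq, eval_eq, Finset.mul_sum]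
  refine Finset.sum_congr rfl fun m hm => ?_
  have h1 : ∑ i ∈ m.support, m i = d := by
    have := hf (mem_support_iff.1 hm)
    rw [← this, Finsupp.weight_apply, Finsupp.sum]
    simp
  have h2 : ∏ i ∈ m.support, (c * x i) ^ m i = c ^ d * ∏ i ∈ m.support, x i ^ m i := by
    rw [← h1, ← Finset.prod_pow_eq_pow_sum, ← Finset.prod_mul_distrib]
    exact Finset.prod_congr rfl fun i _ => mul_pow _ _ _
  rw [h2]
  ring

/-- a linear form -/
private theorem lin_form {n : ℕ} {l : MvPolynomial (Fin n) ℂ} (h : l.IsHomogeneous 1) :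
    ∃ a : Fin n → ℂ, l = ∑ i, C (a i) * X i := by
  have h1 : ∀ i, ∃ a : ℂ, pderiv i l = C a := by
    intro i
    have h2 : (pderiv i l).IsHomogeneous 0 := h.pderiv
    rw [← totalDegree_zero_iff_isHomogeneous, totalDegree_eq_zero_iff_eq_C] at h2
    exact ⟨_, h2⟩
  choose a ha using h1
  refine ⟨a, ?_⟩
  have h2 := h.sum_X_mul_pderiv
  rw [one_smul] at h2
  rw [← h2]
  refine Finset.sum_congr rfl fun i _ => ?_
  rw [ha, mul_comm]

/-- the value along a line, as a polynomial -/
private theorem line_poly {n : ℕ} (f : MvPolynomial (Fin n) ℂ) (u w : Fin n → ℂ) :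
    ∃ p : Polynomial ℂ, ∀ t : ℂ, p.eval t = eval (fun i => u i + t * w i) f := by
  refine ⟨aeval (fun i => Polynomial.C (u i) + Polynomial.X * Polynomial.C (w i)) f, fun t => ?_⟩
  induction f using MvPolynomial.induction_on with
  | C a => simp
  | add p q hp hq => rw [map_add, Polynomial.eval_add, hp, hq, map_add]
  | mul_X p i hp =>
    rw [map_mul, Polynomial.eval_mul, hp, map_mul, aeval_X, eval_X]
    simp only [Polynomial.eval_add, Polynomial.eval_mul, Polynomial.eval_C, Polynomial.eval_X]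

/-- two forms on `ℂ ^ 3` of degree 2 and 1 have a common zero -/
private theorem two_zero {f ℓ : MvPolynomial (Fin 3) ℂ} (hf : f.IsHomogeneous 2)
    (hℓ : ℓ.IsHomogeneous 1) : ∃ x : Fin 3 → ℂ, x ≠ 0 ∧ eval x f = 0 ∧ eval x ℓ = 0 := by
  obtain ⟨a, rfl⟩ := lin_form hℓ
  have hev : ∀ x : Fin 3 → ℂ, eval x (∑ i, C (a i) * X i : MvPolynomial (Fin 3) ℂ) =
      a 0 * x 0 + a 1 * x 1 + a 2 * x 2 := by
    intro x
    rw [map_sum, Fin.sum_univ_three]
    simp
  -- two independent vectors in the kernel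
  obtain ⟨u, w, hu, hw, hind⟩ : ∃ u w : Fin 3 → ℂ, a 0 * u 0 + a 1 * u 1 + a 2 * u 2 = 0 ∧
      a 0 * w 0 + a 1 * w 1 + a 2 * w 2 = 0 ∧
      ∀ s t : ℂ, (∀ i, s * u i + t * w i = 0) → s = 0 ∧ t = 0 := by
    by_cases h0 : a 0 = 0
    · by_cases h1 : a 1 = 0
      · refine ⟨![1, 0, 0], ![0, 1, 0], by simp [h0], by simp [h1], fun s t h => ?_⟩
        have e0 := h 0
        have e1 := h 1
        simp at e0 e1
        exact ⟨e0, e1⟩
      · refine ⟨![1, 0, 0], ![0, -(a 2) / a 1, 1], by simp [h0], ?_, fun s t h => ?_⟩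
        · simp
          field_simp
          ring
        · have e0 := h 0
          have e2 := h 2
          simp at e0 e2
          exact ⟨e0, e2⟩
    · refine ⟨![-(a 1) / a 0, 1, 0], ![-(a 2) / a 0, 0, 1], ?_, ?_, fun s t h => ?_⟩
      · simp
        field_simp
        ring
      · simp
        field_simp
        ring
      · have e1 := h 1
        have e2 := h 2
        simp at e1 e2
        exact ⟨e1, e2⟩
  have hker : ∀ s t : ℂ, eval (fun i => s * u i + t * w i)
      (∑ i, C (a i) * X i : MvPolynomial (Fin 3) ℂ) = 0 := by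
    intro s t
    rw [hev]
    linear_combination s * hu + t * hw
  obtain ⟨p, hp⟩ := line_poly f u w
  by_cases hdeg : 0 < p.degree
  · obtain ⟨z, hz⟩ := Complex.exists_root hdeg
    refine ⟨fun i => 1 * u i + z * w i, ?_, ?_, hker 1 z⟩
    · intro h
      exact one_ne_zero (hind 1 z (fun i => congrFun h i)).1
    · have h1 := hp z
      rw [Polynomial.IsRoot.def.1 hz] at h1
      have h2 : (fun i => 1 * u i + z * w i) = fun i => u i + z * w i := by
        ext i
        rw [one_mul]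
      rw [h2, ← h1]
  · -- the value on the line does not depend on the point
    have hc : ∀ t, eval (fun i => u i + t * w i) f = eval (fun i => u i + 0 * w i) f := by
      intro t
      rw [← hp, ← hp, Polynomial.eq_C_of_degree_le_zero (not_lt.1 hdeg), Polynomial.eval_C,
        Polynomial.eval_C]
    obtain ⟨c, hc'⟩ : ∃ c : ℂ, c = eval (fun i => u i + 0 * w i) f := ⟨_, rfl⟩
    obtain ⟨g, hg⟩ := line_poly f w u
    have hg2 : ∀ s : ℂ, s ≠ 0 → g.eval s = c * s ^ 2 := by
      intro s hs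
      rw [hg]
      have h1 : (fun i => w i + s * u i) = fun i => s * (u i + s⁻¹ * w i) := by
        ext i
        field_simp
        ring
      rw [h1, eval_scale hf, hc, ← hc']
      ring
    have hgp : g = Polynomial.C c * Polynomial.X ^ 2 := by
      apply Polynomial.eq_of_infinite_eval_eq
      refine Set.Infinite.mono (s := {0}ᶜ) ?_ (Set.Finite.infinite_compl (Set.finite_singleton _))
      intro s hs
      have hs0 : s ≠ 0 := hs
      show g.eval s = _
      rw [hg2 s hs0]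
      simp
    have h0 : g.eval 0 = 0 := by
      rw [hgp]
      simp
    rw [hg] at h0
    refine ⟨fun i => 0 * u i + 1 * w i, ?_, ?_, hker 0 1⟩
    · intro h
      exact one_ne_zero (hind 0 1 (fun i => congrFun h i)).2
    · have h2 : (fun i => 0 * u i + 1 * w i) = fun i => w i + 0 * u i := by
        ext i
        ring
      rw [h2, h0]

/-- substitution of `q` for the last coordinate -/
private noncomputable def QQ (q : MvPolynomial (Fin 3) ℂ) : Fin 4 → MvPolynomial (Fin 3) ℂ :=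
  ![X 0, X 1, X 2, q]

private theorem eval_sub {n : ℕ} (Φ : Fin 4 → MvPolynomial (Fin n) ℂ) (x : Fin n → ℂ)
    (f : MvPolynomial (Fin 4) ℂ) : eval x (aeval Φ f) = eval (fun i => eval x (Φ i)) f := by
  induction f using MvPolynomial.induction_on with
  | C a => simp
  | add p q hp hq => rw [map_add, map_add, hp, hq, map_add]
  | mul_X p i hp => rw [map_mul, map_mul, hp, map_mul, aeval_X, eval_X]

private theorem mins_eval {n m : ℕ} {r : Fin 2 → Fin (2 + 2) → MvPolynomial (Fin n) ℂ}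
    {r' : Fin 2 → Fin (2 + 2) → MvPolynomial (Fin m) ℂ} {x : Fin n → ℂ} {y : Fin m → ℂ}
    (h : ∀ l i, eval x (r l i) = eval y (r' l i)) (p : Fin (2 + 2) × Fin (2 + 2)) :
    eval x (mins r p) = eval y (mins r' p) := by
  unfold mins alp
  rw [RingHom.map_det, RingHom.map_det]
  congr 1
  ext i j
  simp only [RingHom.mapMatrix_apply, Matrix.map_apply, Matrix.of_apply]
  have hs : ∀ (a j : Fin (2 + 2)), eval x ((Pi.single a 1 : Fin (2 + 2) → MvPolynomial (Fin n) ℂ) j) =
      eval y ((Pi.single a 1 : Fin (2 + 2) → MvPolynomial (Fin m) ℂ) j) := by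
    intro a j
    by_cases haj : j = a
    · subst haj; simp
    · simp [Pi.single_eq_of_ne haj]
  refine Fin.cases ?_ (fun i => ?_) i
  · exact hs _ _
  · refine Fin.cases ?_ (fun l => ?_) i
    · exact hs _ _
    · exact h _ _

private theorem det_four {S : Type} [CommRing S] (A : Matrix (Fin 4) (Fin 4) S) (a b c p q r s : S)
    (h : A = !![1, 0, 0, a; 0, 1, 0, b; 0, 0, 1, c; p, q, r, s]) :
    A.det = s - p * a - q * b - r * c := by
  rw [h, Matrix.det_succ_row_zero]
  simp [Fin.sum_univ_succ, Matrix.det_fin_three, Fin.succAbove, Matrix.submatrix]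
  ring

theorem cert_1112 {N M : ℕ} (hM : 4 ≤ M) (v : Fin 2 → Fin 4 → MvPolynomial (Fin 4) ℂ)
    {Φ0 : Fin 4 → MvPolynomial (Fin N) ℂ} (h0 : WH (k := 2) ![1, 1, 1, 2] ![0, 0] Φ0 v)
    (hβ : Cop (radC 3 (stdF (k := 2) Φ0 v))) {P : Fin 4 → MvPolynomial (Fin 3) ℂ}
    (hP : ∀ i, (P i).IsHomogeneous (![1, 1, 1, 2] i))
    (hT : Triv (mins (k := 2) (fun l i => aeval P (v l i)))) :
    ∃ Φ c eg ℓ el, Cert (N := M) (k := 2) ![1, 1, 1, 2] ![0, 0] Φ v c eg ℓ el := by
  classical
  obtain ⟨q, ℓ, hq2, hℓ, hTa, hTb⟩ := exists_q v h0 hβ hP hT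
  obtain ⟨ι, hι⟩ : ∃ ι : Fin 3 → Fin M, ∀ j, (ι j).val = j.val :=
    ⟨fun j => ⟨j.val, by omega⟩, fun _ => rfl⟩
  have hιinj : Function.Injective ι := fun i j hij => Fin.ext (by rw [← hι, ← hι, hij])
  obtain ⟨z, hz⟩ : ∃ z : Fin M, z.val = 3 := ⟨⟨3, by omega⟩, rfl⟩
  have hzι : ∀ j, z ≠ ι j := by
    intro j hj
    have := congrArg Fin.val hj
    rw [hz, hι] at this
    omega
  obtain ⟨Φ, hΦ⟩ : ∃ Φ : Fin 4 → MvPolynomial (Fin M) ℂ,
      Φ = ![X (ι 0), X (ι 1), X (ι 2), X z ^ 2 + rename ι q] := ⟨_, rfl⟩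
  -- `hq v q l` is a quadratic form
  have hqv : ∀ i : Fin 4, ((![X 0, X 1, X 2, q] : Fin 4 → MvPolynomial (Fin 3) ℂ) i).IsHomogeneous
      ((![1, 1, 1, 2] : Fin 4 → ℕ) i) := by
    intro i
    fin_cases i
    · exact isHomogeneous_X _ _
    · exact isHomogeneous_X _ _
    · exact isHomogeneous_X _ _
    · exact hq2
  have hwh : ∀ l i, (aeval (![X 0, X 1, X 2, q] : Fin 4 → MvPolynomial (Fin 3) ℂ)
      (v l i)).IsHomogeneous ((![1, 1, 1, 2] : Fin 4 → ℕ) i) := by
    intro l i
    have h1 := aeval_hom (k := 2) hqv (h0.hv l i)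
    have h2 : (![0, 0] : Fin 2 → ℕ) l = 0 := by fin_cases l <;> rfl
    rw [h2, add_zero] at h1
    exact h1
  have hhom : ∀ l, (hq v q l).IsHomogeneous 2 := by
    intro l
    refine (hwh l 3).sub (IsHomogeneous.sum _ _ _ fun j _ => ?_)
    have h1 := hwh l j.castSucc
    have h2 : (![1, 1, 1, 2] : Fin 4 → ℕ) j.castSucc = 1 := by fin_cases j <;> rfl
    rw [h2] at h1
    exact h1.mul hq2.pderiv
  have hh : hq v q 0 ≠ 0 := by
    intro h1
    obtain ⟨x, hx, hx1, hx2⟩ := two_zero (hhom 1) hℓ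
    apply hx
    apply hTb
    intro k
    fin_cases k
    · show eval x (hq v q 0) = 0
      rw [h1, map_zero]
    · exact hx1
    · exact hx2
  -- the derivatives of the coordinates
  have hd1 : ∀ (j : Fin 3) (i : Fin 3), pderiv (ι j) (Φ i.castSucc) = if i = j then 1 else 0 := by
    intro j i
    have h1 : Φ i.castSucc = X (ι i) := by rw [hΦ]; fin_cases i <;> rfl
    rw [h1, pderiv_X, Pi.single_apply]
    by_cases hij : i = j
    · rw [if_pos hij, hij, if_pos rfl]
    · rw [if_neg hij, if_neg (fun h => hij (hιinj h))]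
  have hd2 : ∀ j : Fin 3, pderiv (ι j) (Φ 3) = rename ι (pderiv j q) := by
    intro j
    have h1 : Φ 3 = X z ^ 2 + rename ι q := by rw [hΦ]; rfl
    rw [h1, map_add, pderiv_rename hιinj, pderiv_pow, pderiv_X_of_ne (hzι j), mul_zero, zero_add]
  have hd3 : ∀ i : Fin 3, pderiv z (Φ i.castSucc) = 0 := by
    intro i
    have h1 : Φ i.castSucc = X (ι i) := by rw [hΦ]; fin_cases i <;> rfl
    rw [h1, pderiv_X_of_ne (hzι i).symm]
  have hd4 : pderiv z (Φ 3) = 2 * X z := by
    have h1 : Φ 3 = X z ^ 2 + rename ι q := by rw [hΦ]; rfl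
    have h2 : pderiv z (rename ι q) = 0 := by
      apply pderiv_eq_zero_of_notMem_vars
      intro h3
      have h4 := vars_rename ι q h3
      obtain ⟨j, -, hj⟩ := Finset.mem_image.1 h4
      exact hzι j hj.symm
    rw [h1, map_add, h2, add_zero, pderiv_pow, pderiv_X_self]
    simp
  obtain ⟨T, hTd⟩ : ∃ T : Fin M → Fin (2 + 2) → MvPolynomial (Fin M) ℂ,
      T = fun a i => pderiv a (Φ i) := ⟨_, rfl⟩
  obtain ⟨r, hr⟩ : ∃ r : Fin 2 → Fin (2 + 2) → MvPolynomial (Fin M) ℂ,
      r = fun l i => aeval Φ (v l i) := ⟨_, rfl⟩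
  obtain ⟨e, he⟩ : ∃ e : Fin 3 → Fin M ⊕ Fin 2, e = ![Sum.inl z, Sum.inr 0, Sum.inr 1] := ⟨_, rfl⟩
  obtain ⟨Jr, hJr⟩ : ∃ Jr : Fin 3 → Fin (2 + 2) → Fin M ⊕ Fin 2, Jr = fun i =>
      ![Sum.inl (ι 0), Sum.inl (ι 1), Sum.inl (ι 2), e i] := ⟨_, rfl⟩
  have hmnr : ∀ i, mnr T r (Jr i) = Sum.elim T r (e i) 3 -
      Sum.elim T r (e i) 0 * rename ι (pderiv 0 q) - Sum.elim T r (e i) 1 * rename ι (pderiv 1 q) -
      Sum.elim T r (e i) 2 * rename ι (pderiv 2 q) := by
    intro i
    unfold mnr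
    apply det_four
    rw [hJr, hTd]
    ext a b
    fin_cases a <;> fin_cases b
    · exact congrArg _ (hd1 0 0)
    · exact congrArg _ (hd1 0 1)
    · exact congrArg _ (hd1 0 2)
    · exact congrArg _ (hd2 0)
    · exact congrArg _ (hd1 1 0)
    · exact congrArg _ (hd1 1 1)
    · exact congrArg _ (hd1 1 2)
    · exact congrArg _ (hd2 1)
    · exact congrArg _ (hd1 2 0)
    · exact congrArg _ (hd1 2 1)
    · exact congrArg _ (hd1 2 2)
    · exact congrArg _ (hd2 2)
    · rfl
    · rfl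
    · rfl
    · rfl
  have hm0 : mnr T r (Jr 0) = 2 * X z := by
    rw [hmnr, he, hTd]
    have e3 : pderiv z (Φ 3) = 2 * X z := hd4
    have e0 : pderiv z (Φ 0) = 0 := hd3 0
    have e1 : pderiv z (Φ 1) = 0 := hd3 1
    have e2 : pderiv z (Φ 2) = 0 := hd3 2
    show pderiv z (Φ 3) - pderiv z (Φ 0) * _ - pderiv z (Φ 1) * _ - pderiv z (Φ 2) * _ = _
    rw [e0, e1, e2, e3]
    ring
  have hml : ∀ (l : Fin 2) (i : Fin 3), e i = Sum.inr l → mnr T r (Jr i) = aeval Φ (v l 3) -
      aeval Φ (v l 0) * rename ι (pderiv 0 q) - aeval Φ (v l 1) * rename ι (pderiv 1 q) -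
      aeval Φ (v l 2) * rename ι (pderiv 2 q) := by
    intro l i hi
    rw [hmnr, hi, hr]
    rfl
  -- evaluation at the points with vanishing `X z`
  have hpt : ∀ x : Fin M → ℂ, x z = 0 → ∀ f : MvPolynomial (Fin 4) ℂ,
      eval x (aeval Φ f) = eval (fun j => x (ι j)) (aeval ![X 0, X 1, X 2, q] f) := by
    intro x hx f
    rw [eval_sub, eval_sub]
    congr 2
    ext i
    rw [hΦ]
    fin_cases i
    · show eval x (X (ι 0)) = eval (fun j => x (ι j)) (X 0)
      rw [eval_X, eval_X]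
    · show eval x (X (ι 1)) = eval (fun j => x (ι j)) (X 1)
      rw [eval_X, eval_X]
    · show eval x (X (ι 2)) = eval (fun j => x (ι j)) (X 2)
      rw [eval_X, eval_X]
    · show eval x (X z ^ 2 + rename ι q) = eval (fun j => x (ι j)) q
      rw [map_add, map_pow, eval_X, hx, eval_rename]
      simp only [ne_eq, OfNat.ofNat_ne_zero, not_false_eq_true, zero_pow, zero_add]
      rfl
  have hev : ∀ x : Fin M → ℂ, x z = 0 → ∀ (l : Fin 2) (i : Fin 3), e i = Sum.inr l →
      eval x (mnr T r (Jr i)) = eval (fun j => x (ι j)) (hq v q l) := by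
    intro x hx l i hi
    rw [hml l i hi]
    unfold hq
    simp only [map_sub, map_mul, map_add, Fin.sum_univ_three, hpt x hx, eval_rename]
    show _ = eval (fun j => x (ι j)) (aeval ![X 0, X 1, X 2, q] (v l 3)) -
      (eval (fun j => x (ι j)) (aeval ![X 0, X 1, X 2, q] (v l 0)) *
          eval (fun j => x (ι j)) (pderiv 0 q) +
        eval (fun j => x (ι j)) (aeval ![X 0, X 1, X 2, q] (v l 1)) *
          eval (fun j => x (ι j)) (pderiv 1 q) +
        eval (fun j => x (ι j)) (aeval ![X 0, X 1, X 2, q] (v l 2)) *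
          eval (fun j => x (ι j)) (pderiv 2 q))
    have hcomp : (x ∘ ι) = fun j => x (ι j) := rfl
    rw [hcomp]
    ring
  have hzero : ∀ x : Fin M → ℂ, x z = 0 → (∀ i : Fin M, 4 ≤ i.val → x i = 0) →
      (fun j => x (ι j)) = 0 → x = 0 := by
    intro x hx h4 hy
    ext i
    rcases Nat.lt_or_ge i.val 3 with h | h
    · have h1 : i = ι ⟨i.val, h⟩ := Fin.ext (by rw [hι])
      rw [h1]
      exact congrFun hy _
    · rcases Nat.lt_or_ge i.val 4 with h5 | h5
      · have h1 : i = z := Fin.ext (by rw [hz]; omega)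
        rw [h1]
        exact hx
      · exact h4 i h5
  have hminsv : ∀ x : Fin M → ℂ, x z = 0 → (∀ p, eval x (mins (k := 2) r p) = 0) →
      (fun j => x (ι j)) = 0 := by
    intro x hx hp
    apply hTa
    intro p
    rw [← hp p]
    refine (mins_eval (fun l i => ?_) p).symm
    rw [hr]
    exact hpt x hx (v l i)
  obtain ⟨c, hc⟩ : ∃ c : Fin 3 → (Fin (2 + 2) → Fin M ⊕ Fin 2) → MvPolynomial (Fin M) ℂ,
      c = fun i J => if J = Jr i then 1 else 0 := ⟨_, rfl⟩
  have hsum : ∀ i, ∑ J, c i J * mnr T r J = mnr T r (Jr i) := by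
    intro i
    rw [hc]
    simp only [ite_mul, one_mul, zero_mul, Finset.sum_ite_eq', Finset.mem_univ, if_true]
  have hX2 : ∀ x : Fin M → ℂ, eval x (mnr T r (Jr 0)) = 0 → x z = 0 := by
    intro x hx
    rw [hm0, map_mul, eval_X] at hx
    rcases mul_eq_zero.1 hx with h1 | h1
    · exfalso
      rw [map_ofNat] at h1
      norm_num at h1
    · exact h1
  subst hTd hr
  refine ⟨Φ, c, ![1, 2, 2], rename ι ℓ, 1, ?_, ?_, ?_, one_pos, hℓ.rename_isHomogeneous, ?_, ?_, ?_, ?_⟩
  · -- homogeneity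
    refine ⟨fun i => ?_, h0.hv⟩
    rw [hΦ]
    fin_cases i
    · exact isHomogeneous_X _ _
    · exact isHomogeneous_X _ _
    · exact isHomogeneous_X _ _
    · exact ((isHomogeneous_X ℂ z).pow 2).add hq2.rename_isHomogeneous
  · intro i
    fin_cases i <;> decide
  · intro i J
    rw [hc]
    by_cases hJ : J = Jr i
    · refine Or.inr ⟨0, ?_, ?_⟩
      · simp only [hJ, if_true]
        exact isHomogeneous_one _ _
      · rw [hJ, hJr, he]
        fin_cases i <;> simp [dg, Fin.sum_univ_succ]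
    · exact Or.inl (by simp only [hJ, if_false])
  · intro x hx
    have hz0 : x z = 0 := by
      apply hX2
      rw [← hsum]
      exact hx (Sum.inl (Sum.inl 0))
    refine hzero x hz0 (fun i hi => ?_) ?_
    · have := hx (Sum.inr ⟨i, hi⟩)
      simpa [pads] using this
    · apply hTb
      intro k
      fin_cases k
      · show eval (fun j => x (ι j)) (hq v q 0) = 0
        rw [← hev x hz0 0 1 (by rw [he]; rfl), ← hsum]
        exact hx (Sum.inl (Sum.inl 1))
      · show eval (fun j => x (ι j)) (hq v q 1) = 0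
        rw [← hev x hz0 1 2 (by rw [he]; rfl), ← hsum]
        exact hx (Sum.inl (Sum.inl 2))
      · show eval (fun j => x (ι j)) ℓ = 0
        have h1 : eval x (rename ι ℓ) = 0 := hx (Sum.inl (Sum.inr 0))
        rw [eval_rename] at h1
        exact h1
  · intro x hx
    have hz0 : x z = 0 := by
      apply hX2
      rw [← hsum]
      exact hx (Sum.inl (Sum.inl 0))
    refine hzero x hz0 (fun i hi => ?_) (hminsv x hz0 fun p => hx (Sum.inl (Sum.inr p)))
    have := hx (Sum.inr ⟨i, hi⟩)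
    simpa [pads] using this
  · intro x hx
    have hp : ∀ i : Fin M, 3 ≤ i.val → x i = 0 := by
      intro i hi
      have := hx (Sum.inr ⟨i, hi⟩)
      simpa [pads] using this
    have hz0 : x z = 0 := hp z (by omega)
    exact hzero x hz0 (fun i hi => hp i (by omega)) (hminsv x hz0 fun p => hx (Sum.inl p))
  · apply cop_q hM v h0 hβ hq2 hh
    rw [hΦ]
    have hι' : ι = ![⟨0, by omega⟩, ⟨1, by omega⟩, ⟨2, by omega⟩] := by
      funext j
      apply Fin.ext
      rw [hι]
      fin_cases j <;> rfl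
    have hz' : z = ⟨3, by omega⟩ := Fin.ext hz
    have hren : rename ι q = aeval ![X (ι 0), X (ι 1), X (ι 2)] q := by
      have h1 : (![X (ι 0), X (ι 1), X (ι 2)] : Fin 3 → MvPolynomial (Fin M) ℂ) = X ∘ ι := by
        funext j
        fin_cases j <;> rfl
      rw [h1]
      have h2 : (rename ι : MvPolynomial (Fin 3) ℂ →ₐ[ℂ] MvPolynomial (Fin M) ℂ) =
          aeval (X ∘ ι) := by
        apply MvPolynomial.algHom_ext
        intro i
        rw [rename_X, aeval_X]
        rfl
      rw [h2]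
    rw [hren, hι', hz']
    rfl

end Pool.Agent.Helper1.FG
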