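import Pool.Agent.Helper1.FG.StdMove
import Pool.Agent.Helper1.FG.CopR

/-! FG-18, 19, 20: forms pulled back from the weighted space (1,1,1,2), `k = 2`.
Write `v_i = (X_i, c_i y_3 + q_i)` with `X_i` a linear field on `ℂ^3`, `q_i` quadratic on `ℂ^3`, and for a quadratic form `q` on `ℂ^3`
`h_i(q) = c_i q + q_i - X_i q`: the value of `v_i (y_3 - q)` on the graph of `q`.
FG-18 `exists_q`: there is `q` such that (a) `v_1 ∧ v_2` has no zero on the graph of `q` outside 0; (b) `h_1(q), h_2(q), ℓ` have no common zero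
for some linear form `ℓ`.  Both conditions are open in `q` (`triv_open` along lines joining two choices); (a) holds for `P 3` expressed in
the coordinates `P 0, P 1, P 2` (these are independent: at a common zero of `P 0, P 1, P 2` both `v_i ∘ P` are multiples of the last basis vector).
(b) Let `Y_i = X_i - c_i/2`, so `h_i(q)(p) = q_i(p) - dq_p(Y_i p)`, and let `β = i_R i_v1 i_v2 vol`; `β` is coprime (`hβ`).  Facts:
 - `Y_1, Y_2` are linearly dependent at the general point only if (α) `Y_2 = λ Y_1` (or `Y_1 = 0`), then `v_2 - λ v_1` is vertical modulo `R` and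
   `q_2 - λ q_1` divides `β`; (β) `Y_i = n_i ⊗ u`, then `n_1 q_2 - n_2 q_1` divides `β`: both impossible (also when the divisor is 0);
 - if `Y_1`, `Y_2` vanish on a plane `{n = 0}` then `n` divides `β`: impossible.
 So for a general line `L` in the projective plane: the two functionals `q ↦ dq_p(Y_i p)` are independent at the general point of `L` and not
 both zero at any point of `L`.  Parametrise `L` by `p = p_0 + s p_1`: `h_i(q)(p) = H_i(q, s) ∈ ℂ[q, s]`, linear in `q`.  If for every `q` there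
 is a common zero on `L` then the resultant vanishes identically, so `H_1, H_2` have a common factor `G` of positive degree in `s`
 (homogenise, or treat `s = ∞` separately); `G` of degree 1 in `q` contradicts independence at the general point, `G ∈ ℂ[s]` contradicts
 the last fact at a root of `G`.
FG-19 `cop_q`: `radC 3 (stdF Φ1 v)` is coprime for `Φ1 = (X_0, X_1, X_2, X_3^2 + q)` if `h_1(q), h_2(q)` are not both 0: a prime factor `p`
 divides `2 X_3 β_3(Φ1)`; if it divides `β_3(Φ1)` it divides all `β_j(Φ1)`, and the norm of `ℂ[X_0,..] ` over `ℂ[y][X_4, ..]` (free of rank 2,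
 basis `1, X_3`) gives a common factor of the `β_j`; if `p = X_3` then `β` vanishes on the tangent spaces of the graph of `q`, so `v_1, v_2`
 are tangent to it (`β ≠ 0` there), `h_i = 0`.
FG-20 `cert_1112`: recipes = minors of the columns `(0,1,2,3)`, `(0,1,2,v_1)`, `(0,1,2,v_2)`: `2 X_3`, `h_1 + X_3 (..)`, `h_2 + X_3 (..)`. -/

/-! Formal proof of `exists_q` without resultants: with `q = q_a + t S`, `S` a quadratic form with `B(p, Y_1 p)`, `B(p, Y_2 p)` without common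
zero on a line (`LA`: choose `Z` in the pencil of `Y_1, Y_2`, neither scalar nor of rank one, a general `p_1`, and `p_0` with `p_1, Z p_1,
Z p_0` independent; then `B(p_i, .)` can be prescribed so that the forms are `s_0^2` and `s_1^2 + ..`). -/

set_option autoImplicit false

namespace Pool.Agent.Helper1.FG

open MvPolynomial
open scoped BigOperators
open Pool.Agent.Helper93 (TT OF RE HomS IntS FolS Cop Comp PreIrr pb)
open Pool.Agent.Helper71.FL

section LA

private def d3 (a b c : Fin 3 → ℂ) : ℂ :=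
  a 0 * (b 1 * c 2 - b 2 * c 1) - a 1 * (b 0 * c 2 - b 2 * c 0) + a 2 * (b 0 * c 1 - b 1 * c 0)

private abbrev M3 : Type := Fin 3 → Fin 3 → ℂ

private def ap (Z : M3) (p : Fin 3 → ℂ) : Fin 3 → ℂ :=
  fun i => Z i 0 * p 0 + Z i 1 * p 1 + Z i 2 * p 2

private def dp (a b : Fin 3 → ℂ) : ℂ := a 0 * b 0 + a 1 * b 1 + a 2 * b 2

private lemma ap_add (Z : M3) (p q : Fin 3 → ℂ) : ap Z (p + q) = ap Z p + ap Z q := by
  funext i; simp only [ap, Pi.add_apply]; ring

private lemma ap_lin (Z W : M3) (a b : ℂ) (p : Fin 3 → ℂ) :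
    ap (a • Z + b • W) p = a • ap Z p + b • ap W p := by
  funext i; simp only [ap, Pi.add_apply, Pi.smul_apply, smul_eq_mul]; ring

private lemma cram (a b c x : Fin 3 → ℂ) (i : Fin 3) :
    d3 a b c * x i = d3 x b c * a i + d3 a x c * b i + d3 a b x * c i := by
  fin_cases i <;> simp [d3] <;> ring

private lemma d3_e (a b : Fin 3 → ℂ) (h : ∀ c, d3 a b c = 0) :
    a 1 * b 2 - a 2 * b 1 = 0 ∧ a 0 * b 2 - a 2 * b 0 = 0 ∧ a 0 * b 1 - a 1 * b 0 = 0 := by
  have h0 := h ![1, 0, 0]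
  have h1 := h ![0, 1, 0]
  have h2 := h ![0, 0, 1]
  simp [d3] at h0 h1 h2
  refine ⟨?_, ?_, ?_⟩
  · linear_combination h0
  · linear_combination -h1
  · linear_combination h2

private lemma par {a b : Fin 3 → ℂ} (h : ∀ c, d3 a b c = 0) (ha : a ≠ 0) : ∃ l : ℂ, b = l • a := by
  obtain ⟨h0, h1, h2⟩ := d3_e a b h
  obtain ⟨i, hi⟩ : ∃ i, a i ≠ 0 := by
    by_contra hc
    push Not at hc
    exact ha (funext hc)
  refine ⟨b i / a i, ?_⟩
  funext j
  simp only [Pi.smul_apply, smul_eq_mul]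
  rw [div_mul_eq_mul_div, eq_div_iff hi]
  fin_cases i <;> fin_cases j <;> simp at * <;> first | ring1 | (linear_combination h0) | (linear_combination -h0) | (linear_combination h1) | (linear_combination -h1) | (linear_combination h2) | (linear_combination -h2)

/-- a map of the form `p ↦ n(p) u` -/
private def Rk1 (Z : M3) : Prop := ∃ u n : Fin 3 → ℂ, ∀ i j, Z i j = u i * n j

private def Sca (Z : M3) : Prop := ∃ m : ℂ, ∀ i j, Z i j = if i = j then m else 0

private lemma sca_of {Z : M3} (h : ∀ p c, d3 p (ap Z p) c = 0) : Sca Z := by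
  obtain ⟨-, a1, a2⟩ := d3_e _ _ (h ![1, 0, 0])
  obtain ⟨b1, -, b2⟩ := d3_e _ _ (h ![0, 1, 0])
  obtain ⟨c1, c2, -⟩ := d3_e _ _ (h ![0, 0, 1])
  obtain ⟨-, -, d1⟩ := d3_e _ _ (h ![1, 1, 0])
  obtain ⟨-, d2, -⟩ := d3_e _ _ (h ![1, 0, 1])
  simp only [ap, Matrix.cons_val_zero, Matrix.cons_val_one, Matrix.cons_val_two,
    Matrix.tail_cons, Matrix.head_cons] at a1 a2 b1 b2 c1 c2 d1 d2
  have z20 : Z 2 0 = 0 := by linear_combination a1
  have z10 : Z 1 0 = 0 := by linear_combination a2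
  have z21 : Z 2 1 = 0 := by linear_combination b1
  have z01 : Z 0 1 = 0 := by linear_combination -b2
  have z12 : Z 1 2 = 0 := by linear_combination -c1
  have z02 : Z 0 2 = 0 := by linear_combination -c2
  have z11 : Z 1 1 = Z 0 0 := by linear_combination d1 + z01 - z10
  have z22 : Z 2 2 = Z 0 0 := by linear_combination d2 + z02 - z20
  refine ⟨Z 0 0, fun i j => ?_⟩
  fin_cases i <;> fin_cases j <;> simp [z20, z10, z21, z01, z12, z02, z11, z22]

/-- a third vector completes two vectors that are not parallel -/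
private lemma rk1_of {Z : M3} {u : Fin 3 → ℂ} (h : ∀ g, ∃ k : ℂ, ap Z g = k • u) : Rk1 Z := by
  obtain ⟨k0, h0⟩ := h ![1, 0, 0]
  obtain ⟨k1, h1⟩ := h ![0, 1, 0]
  obtain ⟨k2, h2⟩ := h ![0, 0, 1]
  refine ⟨u, ![k0, k1, k2], fun i j => ?_⟩
  have e0 := congrFun h0 i
  have e1 := congrFun h1 i
  have e2 := congrFun h2 i
  simp only [ap, Matrix.cons_val_zero, Matrix.cons_val_one, Matrix.cons_val_two,
    Matrix.tail_cons, Matrix.head_cons, Pi.smul_apply, smul_eq_mul] at e0 e1 e2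
  fin_cases j
  · show Z i 0 = u i * k0
    linear_combination e0
  · show Z i 1 = u i * k1
    linear_combination e1
  · show Z i 2 = u i * k2
    linear_combination e2

private lemma rk1_d3 {Z : M3} (hs : ¬ Sca Z) (h : ∀ p q, d3 p (ap Z p) (ap Z q) = 0) : Rk1 Z := by
  obtain ⟨p, hp⟩ : ∃ p, ∃ c, d3 p (ap Z p) c ≠ 0 := by
    by_contra hc
    push Not at hc
    exact hs (sca_of hc)
  obtain ⟨c, hc⟩ := hp
  set u := ap Z p with hu
  -- the image lies in the span of `p` and `u`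
  have him : ∀ q, d3 p u c • ap Z q = d3 (ap Z q) u c • p + d3 p (ap Z q) c • u := by
    intro q
    funext i
    have := cram p u c (ap Z q) i
    rw [h p q] at this
    simp only [Pi.smul_apply, Pi.add_apply, smul_eq_mul]
    linear_combination this
  -- outside the span the values are parallel to `u`
  have key : ∀ r, d3 p u r ≠ 0 → ∃ k : ℂ, ap Z r = k • u := by
    intro r hr
    have e1 := h r p
    have e2 := him r
    rw [← hu] at e1
    set x := ap Z r with hx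
    -- `d3 r x u = 0`, `D x = α p + β u`
    have e3 : d3 x u c * d3 p u r = 0 := by
      have e4 : d3 p u c * d3 r x u = d3 x u c * d3 p u r := by
        have e5 : ∀ i, d3 p u c * x i = d3 x u c * p i + d3 p x c * u i := fun i => by
          have := congrFun e2 i
          simpa only [Pi.smul_apply, Pi.add_apply, smul_eq_mul] using this
        simp only [d3] at e5 ⊢
        linear_combination (u 2 * r 0 - u 0 * r 2) * e5 1 + (u 1 * r 2 - u 2 * r 1) * e5 0 +
          (u 0 * r 1 - u 1 * r 0) * e5 2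
      rw [e1, mul_zero] at e4
      linear_combination -e4
    have e6 : d3 x u c = 0 := by
      rcases mul_eq_zero.1 e3 with e | e
      · exact e
      · exact absurd e hr
    refine ⟨d3 p x c / d3 p u c, ?_⟩
    rw [e6, zero_smul, zero_add] at e2
    rw [div_eq_inv_mul, mul_smul, ← e2, smul_smul, inv_mul_cancel₀ hc, one_smul]
  refine rk1_of (u := u) fun r => ?_
  by_cases hr : d3 p u r = 0
  · have h1 : d3 p u (r + c) ≠ 0 := by
      have : d3 p u (r + c) = d3 p u r + d3 p u c := by simp only [d3, Pi.add_apply]; ring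
      rw [this, hr, zero_add]
      exact hc
    obtain ⟨k, hk⟩ := key _ h1
    obtain ⟨k', hk'⟩ := key _ hc
    refine ⟨k - k', ?_⟩
    rw [ap_add] at hk
    rw [sub_smul, ← hk, ← hk']
    abel
  · exact key _ hr

/-- two rank one maps whose sum is a rank one map -/
private lemma rk1_sum {Y W : M3} (hY : Rk1 Y) (hW : Rk1 W) (h : Rk1 (Y + W)) (hY0 : Y ≠ 0) :
    (∃ u n m : Fin 3 → ℂ, (∀ i j, Y i j = u i * n j) ∧ ∀ i j, W i j = u i * m j) ∨
      ∃ n u u' : Fin 3 → ℂ, (∀ i j, Y i j = u i * n j) ∧ ∀ i j, W i j = u' i * n j := by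
  obtain ⟨u, n, hun⟩ := hY
  obtain ⟨u', n', hun'⟩ := hW
  obtain ⟨a, b, hab⟩ := h
  have hu0 : u ≠ 0 := by
    rintro rfl
    exact hY0 (by funext i j; rw [hun]; simp)
  have hn0 : n ≠ 0 := by
    rintro rfl
    exact hY0 (by funext i j; rw [hun]; simp)
  by_cases h1 : ∀ c, d3 u u' c = 0
  · obtain ⟨l, hl⟩ := par h1 hu0
    left
    refine ⟨u, n, l • n', hun, fun i j => ?_⟩
    rw [hun', hl]
    simp only [Pi.smul_apply, smul_eq_mul]
    ring
  by_cases h2 : ∀ c, d3 n n' c = 0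
  · obtain ⟨l, hl⟩ := par h2 hn0
    right
    refine ⟨n, u, l • u', hun, fun i j => ?_⟩
    rw [hun', hl]
    simp only [Pi.smul_apply, smul_eq_mul]
    ring
  exfalso
  push Not at h1 h2
  obtain ⟨c, hc⟩ := h1
  obtain ⟨c', hc'⟩ := h2
  have hm : ∀ i j k l, (u i * u' j - u j * u' i) * (n k * n' l - n l * n' k) = 0 := by
    intro i j k l
    have e : ∀ i j, u i * n j + u' i * n' j = a i * b j := fun i j => by
      rw [← hun, ← hun', ← hab]; rfl
    linear_combination (u j * n l + u' j * n' l) * e i k + a i * b k * e j l -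
      (u j * n k + u' j * n' k) * e i l - a i * b l * e j k
  have : d3 u u' c * d3 n n' c' = 0 := by
    simp only [d3]
    linear_combination c 0 * c' 0 * hm 1 2 1 2 + c 0 * c' 1 * hm 1 2 2 0 + c 0 * c' 2 * hm 1 2 0 1 +
      c 1 * c' 0 * hm 2 0 1 2 + c 1 * c' 1 * hm 2 0 2 0 + c 1 * c' 2 * hm 2 0 0 1 +
      c 2 * c' 0 * hm 0 1 1 2 + c 2 * c' 1 * hm 0 1 2 0 + c 2 * c' 2 * hm 0 1 0 1
  exact (mul_ne_zero hc hc') this

/-- a nonzero scalar map is not a difference of two rank one maps -/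
private lemma sca_sub {Z W : M3} (hW : Rk1 W) (h : Rk1 (Z + W)) {m : ℂ}
    (hm : ∀ i j, Z i j = if i = j then m else 0) : m = 0 := by
  obtain ⟨u, n, hun⟩ := hW
  obtain ⟨a, b, hab⟩ := h
  have e : ∀ i j, (if i = j then m else 0) = a i * b j - u i * n j := fun i j => by
    rw [← hm, ← hun, ← hab]
    show Z i j = Z i j + W i j - W i j
    ring
  have e00 := e 0 0
  have e01 := e 0 1
  have e02 := e 0 2
  have e10 := e 1 0
  have e11 := e 1 1
  have e12 := e 1 2
  have e20 := e 2 0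
  have e21 := e 2 1
  have e22 := e 2 2
  simp at e00 e01 e02 e10 e11 e12 e20 e21 e22
  have h3 : m ^ 3 = 0 := by
    have : m ^ 3 = m * (m * m - 0 * 0) - 0 * (0 * m - 0 * 0) + 0 * (0 * 0 - m * 0) := by ring
    rw [this]
    have k : ∀ x00 x01 x02 x10 x11 x12 x20 x21 x22 : ℂ, x00 = a 0 * b 0 - u 0 * n 0 →
      x01 = a 0 * b 1 - u 0 * n 1 → x02 = a 0 * b 2 - u 0 * n 2 → x10 = a 1 * b 0 - u 1 * n 0 →
      x11 = a 1 * b 1 - u 1 * n 1 → x12 = a 1 * b 2 - u 1 * n 2 → x20 = a 2 * b 0 - u 2 * n 0 →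
      x21 = a 2 * b 1 - u 2 * n 1 → x22 = a 2 * b 2 - u 2 * n 2 →
      x00 * (x11 * x22 - x12 * x21) - x01 * (x10 * x22 - x12 * x20) +
        x02 * (x10 * x21 - x11 * x20) = 0 := by
      intro x00 x01 x02 x10 x11 x12 x20 x21 x22 h1 h2 h3 h4 h5 h6 h7 h8 h9
      subst h1 h2 h3 h4 h5 h6 h7 h8 h9
      ring
    exact k m 0 0 0 m 0 0 0 m e00 (by rw [← e01]) (by rw [← e02]) (by rw [← e10]) e11
      (by rw [← e12]) (by rw [← e20]) (by rw [← e21]) e22
  exact pow_eq_zero_iff (three_ne_zero) |>.1 h3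

/-- the pencil contains a map which is neither scalar nor of rank one -/
private lemma exists_good {Y W : M3} (hα : ∀ a b : ℂ, a • Y + b • W = 0 → a = 0 ∧ b = 0)
    (hβ : ¬ ∃ u n m : Fin 3 → ℂ, (∀ i j, Y i j = u i * n j) ∧ ∀ i j, W i j = u i * m j)
    (hγ : ¬ ∃ n u u' : Fin 3 → ℂ, (∀ i j, Y i j = u i * n j) ∧ ∀ i j, W i j = u' i * n j) :
    ∃ a b : ℂ, ¬ Sca (a • Y + b • W) ∧ ¬ Rk1 (a • Y + b • W) := by
  by_contra hc
  push Not at hc
  have hr : ∀ a b : ℂ, Rk1 (a • Y + b • W) := by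
    intro a b
    by_contra hn
    have hs : Sca (a • Y + b • W) := by
      by_contra hs
      exact hn (hc a b hs)
    obtain ⟨m, hm⟩ := hs
    have hm0 : m ≠ 0 := by
      rintro rfl
      apply hn
      refine ⟨0, 0, fun i j => ?_⟩
      rw [hm]
      simp
    -- scalar maps of the pencil are multiples of `a • Y + b • W`
    have hmul : ∀ a' b' : ℂ, Sca (a' • Y + b' • W) → ∃ l : ℂ, a' = l * a ∧ b' = l * b := by
      rintro a' b' ⟨m', hm'⟩
      have h1 : (m * a' - m' * a) • Y + (m * b' - m' * b) • W = 0 := by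
        funext i j
        have e1 := hm i j
        have e2 := hm' i j
        simp only [Pi.add_apply, Pi.smul_apply, smul_eq_mul, Pi.zero_apply] at e1 e2 ⊢
        have e3 : m * (if i = j then m' else 0) = m' * (if i = j then m else 0) := by
          split_ifs <;> ring
        linear_combination m * e2 - m' * e1 + e3
      obtain ⟨h2, h3⟩ := hα _ _ h1
      refine ⟨m' / m, ?_, ?_⟩
      · field_simp
        linear_combination h2
      · field_simp
        linear_combination h3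
    have hab : ¬ (a = 0 ∧ b = 0) := by
      rintro ⟨rfl, rfl⟩
      have := hm 0 0
      simp at this
      exact hm0 this.symm
    by_cases ha : a = 0
    · have hb : b ≠ 0 := fun hb => hab ⟨ha, hb⟩
      have h1 : Rk1 Y := by
        have := hc 1 0 (fun h => by
          obtain ⟨l, h1, h2⟩ := hmul 1 0 h
          rw [ha, mul_zero] at h1
          exact one_ne_zero h1)
        simpa using this
      have h2 : Rk1 ((a • Y + b • W) + Y) := by
        have := hc (a + 1) b (fun h => by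
          obtain ⟨l, h1, h2⟩ := hmul (a + 1) b h
          rw [ha, mul_zero, zero_add] at h1
          exact one_ne_zero h1)
        convert this using 1
        module
      exact hm0 (sca_sub h1 h2 hm)
    · have h1 : Rk1 W := by
        have := hc 0 1 (fun h => by
          obtain ⟨l, h1, h2⟩ := hmul 0 1 h
          have hl : l = 0 := by
            rcases mul_eq_zero.1 h1.symm with h | h
            · exact h
            · exact absurd h ha
          rw [hl, zero_mul] at h2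
          exact one_ne_zero h2)
        simpa using this
      have h2 : Rk1 ((a • Y + b • W) + W) := by
        have := hc a (b + 1) (fun h => by
          obtain ⟨l, h1, h2⟩ := hmul a (b + 1) h
          have hl : l = 1 := by
            have : (l - 1) * a = 0 := by linear_combination -h1
            rcases mul_eq_zero.1 this with h | h
            · linear_combination h
            · exact absurd h ha
          rw [hl, one_mul] at h2
          exact one_ne_zero (α := ℂ) (by linear_combination h2))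
        convert this using 1
        module
      exact hm0 (sca_sub h1 h2 hm)
  have hY : Rk1 Y := by simpa using hr 1 0
  have hW : Rk1 W := by simpa using hr 0 1
  have hYW : Rk1 (Y + W) := by simpa using hr 1 1
  have hY0 : Y ≠ 0 := by
    rintro rfl
    exact one_ne_zero (hα 1 0 (by simp)).1
  rcases rk1_sum hY hW hYW hY0 with h | h
  · exact hβ h
  · exact hγ h

/-- maps which are parallel at every point -/
private lemma exists_indep {Z W : M3} (hZ : ¬ Rk1 Z) (hW : ¬ ∃ l : ℂ, W = l • Z) :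
    ∃ p c, d3 (ap Z p) (ap W p) c ≠ 0 := by
  by_contra hc
  push Not at hc
  have hZ' : ∀ u : Fin 3 → ℂ, ∃ g, ¬ ∃ k : ℂ, ap Z g = k • u := by
    intro u
    by_contra h
    push Not at h
    exact hZ (rk1_of h)
  obtain ⟨p, hp⟩ := hZ' 0
  have hp0 : ap Z p ≠ 0 := fun h => hp ⟨0, by rw [h]; simp⟩
  obtain ⟨l, hl⟩ := par (hc p) hp0
  set u := ap Z p with hu
  have good : ∀ g, (¬ ∃ k : ℂ, ap Z g = k • u) → ap W g = l • ap Z g := by
    intro g hg
    have hg0 : ap Z g ≠ 0 := fun h => hg ⟨0, by rw [h]; simp⟩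
    obtain ⟨l', hl'⟩ := par (hc g) hg0
    obtain ⟨c, hcc⟩ : ∃ c, d3 u (ap Z g) c ≠ 0 := by
      by_contra h
      push Not at h
      exact hg (par h hp0)
    have h1 := hc (p + g) c
    have h2 := hc p c
    have h3 := hc g c
    rw [ap_add, ap_add, ← hu, hl, hl'] at h1
    rw [← hu, hl] at h2
    rw [hl'] at h3
    have h4 : (l' - l) * d3 u (ap Z g) c = 0 := by
      simp only [d3, Pi.add_apply, Pi.smul_apply, smul_eq_mul] at h1 h2 h3 ⊢
      linear_combination h1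
    rcases mul_eq_zero.1 h4 with h | h
    · rw [hl', sub_eq_zero.1 h]
    · exact absurd h hcc
  obtain ⟨g, hg⟩ := hZ' u
  have all : ∀ r, ap W r = l • ap Z r := by
    intro r
    by_cases hr : ∃ k : ℂ, ap Z r = k • u
    · obtain ⟨k, hk⟩ := hr
      have h1 : ¬ ∃ k' : ℂ, ap Z (r + g) = k' • u := by
        rintro ⟨k', hk'⟩
        apply hg
        refine ⟨k' - k, ?_⟩
        rw [ap_add, hk] at hk'
        rw [sub_smul, ← hk']
        abel
      have h2 := good _ h1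
      have h3 := good g hg
      rw [ap_add, ap_add, h3, smul_add] at h2
      exact add_right_cancel h2
    · exact good r hr
  apply hW
  refine ⟨l, ?_⟩
  funext i j
  have e0 := congrFun (all ![1, 0, 0]) i
  have e1 := congrFun (all ![0, 1, 0]) i
  have e2 := congrFun (all ![0, 0, 1]) i
  simp only [ap, Matrix.cons_val_zero, Matrix.cons_val_one, Matrix.cons_val_two,
    Matrix.tail_cons, Matrix.head_cons, Pi.smul_apply, smul_eq_mul] at e0 e1 e2
  simp only [Pi.smul_apply, smul_eq_mul]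
  fin_cases j
  · show W i 0 = l * Z i 0
    linear_combination e0
  · show W i 1 = l * Z i 1
    linear_combination e1
  · show W i 2 = l * Z i 2
    linear_combination e2

private noncomputable def d3p (a b c : Fin 3 → MvPolynomial (Fin 3) ℂ) : MvPolynomial (Fin 3) ℂ :=
  a 0 * (b 1 * c 2 - b 2 * c 1) - a 1 * (b 0 * c 2 - b 2 * c 0) + a 2 * (b 0 * c 1 - b 1 * c 0)

private lemma eval_d3p (p : Fin 3 → ℂ) (a b c : Fin 3 → MvPolynomial (Fin 3) ℂ) :
    eval p (d3p a b c) = d3 (fun i => eval p (a i)) (fun i => eval p (b i)) (fun i => eval p (c i)) := by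
  simp only [d3p, d3, map_add, map_sub, map_mul]

private noncomputable def app (Z : M3) (i : Fin 3) : MvPolynomial (Fin 3) ℂ :=
  C (Z i 0) * X 0 + C (Z i 1) * X 1 + C (Z i 2) * X 2

private lemma eval_app (p : Fin 3 → ℂ) (Z : M3) (i : Fin 3) : eval p (app Z i) = ap Z p i := by
  simp only [app, ap, map_add, map_mul, eval_C, eval_X]

/-- a common point -/
private lemma common {Z W : M3} (h1 : ∃ p q, d3 p (ap Z p) (ap Z q) ≠ 0)
    (h2 : ∃ p c, d3 (ap Z p) (ap W p) c ≠ 0) :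
    ∃ p q c, d3 p (ap Z p) (ap Z q) ≠ 0 ∧ d3 (ap Z p) (ap W p) c ≠ 0 := by
  obtain ⟨p, q, hpq⟩ := h1
  obtain ⟨r, c, hrc⟩ := h2
  set F : MvPolynomial (Fin 3) ℂ := d3p X (app Z) (fun i => C (ap Z q i)) with hF
  set G : MvPolynomial (Fin 3) ℂ := d3p (app Z) (app W) (fun i => C (c i)) with hG
  have eF : ∀ x, eval x F = d3 x (ap Z x) (ap Z q) := by
    intro x
    rw [hF, eval_d3p]
    simp only [eval_X, eval_C, eval_app]
  have eG : ∀ x, eval x G = d3 (ap Z x) (ap W x) c := by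
    intro x
    rw [hG, eval_d3p]
    simp only [eval_C, eval_app]
  have hF0 : F ≠ 0 := fun h => hpq (by rw [← eF, h, map_zero])
  have hG0 : G ≠ 0 := fun h => hrc (by rw [← eG, h, map_zero])
  obtain ⟨x, hx⟩ : ∃ x, eval x (F * G) ≠ 0 := by
    by_contra h
    push Not at h
    exact mul_ne_zero hF0 hG0 (MvPolynomial.funext fun x => by rw [h x, map_zero])
  rw [map_mul] at hx
  exact ⟨x, q, c, by rw [← eF]; exact left_ne_zero_of_mul hx, by rw [← eG]; exact right_ne_zero_of_mul hx⟩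

private def cr (b c : Fin 3 → ℂ) : Fin 3 → ℂ :=
  ![b 1 * c 2 - b 2 * c 1, b 2 * c 0 - b 0 * c 2, b 0 * c 1 - b 1 * c 0]

private lemma dp_cr (a b c : Fin 3 → ℂ) : dp (cr b c) a = d3 a b c := by
  simp only [dp, cr, d3, Matrix.cons_val_zero, Matrix.cons_val_one, Matrix.cons_val_two,
    Matrix.tail_cons, Matrix.head_cons]
  ring

private lemma exists_dual {a b c : Fin 3 → ℂ} (h : d3 a b c ≠ 0) (t1 t2 t3 : ℂ) :
    ∃ φ : Fin 3 → ℂ, dp φ a = t1 ∧ dp φ b = t2 ∧ dp φ c = t3 := by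
  refine ⟨fun i => (d3 a b c)⁻¹ * (t1 * cr b c i + t2 * cr c a i + t3 * cr a b i), ?_, ?_, ?_⟩
  · have e : dp (fun i => (d3 a b c)⁻¹ * (t1 * cr b c i + t2 * cr c a i + t3 * cr a b i)) a =
        (d3 a b c)⁻¹ * (t1 * dp (cr b c) a + t2 * dp (cr c a) a + t3 * dp (cr a b) a) := by
      simp only [dp]; ring
    rw [e, dp_cr, dp_cr, dp_cr]
    have e1 : d3 a c a = 0 := by simp only [d3]; ring
    have e2 : d3 a a b = 0 := by simp only [d3]; ring
    rw [e1, e2]
    field_simp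
    ring
  · have e : dp (fun i => (d3 a b c)⁻¹ * (t1 * cr b c i + t2 * cr c a i + t3 * cr a b i)) b =
        (d3 a b c)⁻¹ * (t1 * dp (cr b c) b + t2 * dp (cr c a) b + t3 * dp (cr a b) b) := by
      simp only [dp]; ring
    rw [e, dp_cr, dp_cr, dp_cr]
    have e1 : d3 b b c = 0 := by simp only [d3]; ring
    have e2 : d3 b c a = d3 a b c := by simp only [d3]; ring
    have e3 : d3 b a b = 0 := by simp only [d3]; ring
    rw [e1, e2, e3]
    field_simp
    ring
  · have e : dp (fun i => (d3 a b c)⁻¹ * (t1 * cr b c i + t2 * cr c a i + t3 * cr a b i)) c =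
        (d3 a b c)⁻¹ * (t1 * dp (cr b c) c + t2 * dp (cr c a) c + t3 * dp (cr a b) c) := by
      simp only [dp]; ring
    rw [e, dp_cr, dp_cr, dp_cr]
    have e1 : d3 c b c = 0 := by simp only [d3]; ring
    have e2 : d3 c c a = 0 := by simp only [d3]; ring
    have e3 : d3 c a b = d3 a b c := by simp only [d3]; ring
    rw [e1, e2, e3]
    field_simp
    ring

/-- a symmetric form with prescribed values on two vectors -/
private lemma exists_sym {p0 p1 p2 : Fin 3 → ℂ} (h : d3 p0 p1 p2 ≠ 0) {φ0 φ1 : Fin 3 → ℂ}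
    (hs : dp φ0 p1 = dp φ1 p0) : ∃ S : M3, (∀ i j, S i j = S j i) ∧ ap S p0 = φ0 ∧ ap S p1 = φ1 := by
  set D := d3 p0 p1 p2 with hD
  set c0 := cr p1 p2 with hc0
  set c1 := cr p2 p0 with hc1
  set c2 := cr p0 p1 with hc2
  have a00 : dp c0 p0 = D := dp_cr _ _ _
  have a01 : dp c0 p1 = 0 := by rw [hc0, dp_cr]; simp only [d3]; ring
  have a10 : dp c1 p0 = 0 := by rw [hc1, dp_cr]; simp only [d3]; ring
  have a11 : dp c1 p1 = D := by rw [hc1, dp_cr, hD]; simp only [d3]; ring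
  have a20 : dp c2 p0 = 0 := by rw [hc2, dp_cr]; simp only [d3]; ring
  have a21 : dp c2 p1 = 0 := by rw [hc2, dp_cr]; simp only [d3]; ring
  have exp : ∀ φ : Fin 3 → ℂ, ∀ i, D * φ i = dp φ p0 * c0 i + dp φ p1 * c1 i + dp φ p2 * c2 i := by
    intro φ i
    rw [hD, hc0, hc1, hc2]
    fin_cases i <;>
      simp [dp, cr, d3] <;> ring
  set g00 := dp φ0 p0
  set g01 := dp φ0 p1 with hg01
  set g11 := dp φ1 p1
  set g02 := dp φ0 p2
  set g12 := dp φ1 p2
  refine ⟨fun i j => (D⁻¹) ^ 2 * (g00 * (c0 i * c0 j) + g01 * (c0 i * c1 j + c1 i * c0 j) +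
    g11 * (c1 i * c1 j) + g02 * (c0 i * c2 j + c2 i * c0 j) + g12 * (c1 i * c2 j + c2 i * c1 j)),
    fun i j => by ring, ?_, ?_⟩
  · funext i
    have e : ap (fun i j => (D⁻¹) ^ 2 * (g00 * (c0 i * c0 j) + g01 * (c0 i * c1 j + c1 i * c0 j) +
      g11 * (c1 i * c1 j) + g02 * (c0 i * c2 j + c2 i * c0 j) + g12 * (c1 i * c2 j + c2 i * c1 j)))
      p0 i = (D⁻¹) ^ 2 * (g00 * (c0 i * dp c0 p0) + g01 * (c0 i * dp c1 p0 + c1 i * dp c0 p0) +
      g11 * (c1 i * dp c1 p0) + g02 * (c0 i * dp c2 p0 + c2 i * dp c0 p0) +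
      g12 * (c1 i * dp c2 p0 + c2 i * dp c1 p0)) := by
      simp only [ap, dp]; ring
    rw [e, a00, a10, a20]
    have := exp φ0 i
    field_simp
    linear_combination (-D) * this
  · funext i
    have e : ap (fun i j => (D⁻¹) ^ 2 * (g00 * (c0 i * c0 j) + g01 * (c0 i * c1 j + c1 i * c0 j) +
      g11 * (c1 i * c1 j) + g02 * (c0 i * c2 j + c2 i * c0 j) + g12 * (c1 i * c2 j + c2 i * c1 j)))
      p1 i = (D⁻¹) ^ 2 * (g00 * (c0 i * dp c0 p1) + g01 * (c0 i * dp c1 p1 + c1 i * dp c0 p1) +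
      g11 * (c1 i * dp c1 p1) + g02 * (c0 i * dp c2 p1 + c2 i * dp c0 p1) +
      g12 * (c1 i * dp c2 p1 + c2 i * dp c1 p1)) := by
      simp only [ap, dp]; ring
    rw [e, a01, a11, a21]
    have := exp φ1 i
    rw [← hs] at this
    field_simp
    linear_combination (-D) * this

/-- the two quadratic forms `B(p, Z p)`, `B(p, W p)` have no common zero on a line -/
private lemma exists_SL {Z W : M3} {p1 p0 c : Fin 3 → ℂ} (h1 : d3 p1 (ap Z p1) (ap Z p0) ≠ 0)
    (h2 : d3 (ap Z p1) (ap W p1) c ≠ 0) :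
    ∃ S : M3, (∀ i j, S i j = S j i) ∧ ∃ l : Fin 3 → ℂ, ∀ p, dp (ap S p) (ap Z p) = 0 →
      dp (ap S p) (ap W p) = 0 → dp l p = 0 → p = 0 := by
  have hp1 : p1 ≠ 0 := by
    rintro rfl
    exact h1 (by simp [d3])
  obtain ⟨p2, hp2⟩ : ∃ p2, d3 p0 p1 p2 ≠ 0 := by
    by_contra h
    push Not at h
    have h' : ∀ c, d3 p1 p0 c = 0 := fun c => by
      have e : d3 p1 p0 c = - d3 p0 p1 c := by simp only [d3]; ring
      rw [e, h c, neg_zero]
    obtain ⟨l, hl⟩ := par h' hp1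
    apply h1
    rw [hl]
    simp only [d3, ap, Pi.smul_apply, smul_eq_mul]
    ring
  obtain ⟨φ1, f1, f2, -⟩ := exists_dual h2 0 1 0
  obtain ⟨φ0, f3, f4, f5⟩ := exists_dual h1 (dp φ1 p0) (-(dp φ1 (ap Z p0))) 1
  obtain ⟨S, hS, hS0, hS1⟩ := exists_sym hp2 f3
  refine ⟨S, hS, cr p0 p1, fun p e1 e2 e3 => ?_⟩
  rw [dp_cr] at e3
  -- `p` is a combination of `p0` and `p1`
  set D := d3 p0 p1 p2 with hD
  have e4 : ∀ i, D * p i = d3 p p1 p2 * p0 i + d3 p0 p p2 * p1 i := by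
    intro i
    have := cram p0 p1 p2 p i
    have e5 : d3 p0 p1 p = d3 p p0 p1 := by simp only [d3]; ring
    rw [e5, e3, zero_mul, add_zero] at this
    exact this
  set s := d3 p p1 p2 / D with hs
  set t := d3 p0 p p2 / D with ht
  have e5 : p = fun i => s * p0 i + t * p1 i := by
    funext i
    have := e4 i
    rw [hs, ht]
    field_simp
    linear_combination this
  have e6 : ap S p = fun i => s * φ0 i + t * φ1 i := by
    rw [← hS0, ← hS1, e5]
    funext i
    simp only [ap]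
    ring
  have e7 : ap Z p = fun i => s * ap Z p0 i + t * ap Z p1 i := by
    rw [e5]
    funext i
    simp only [ap]
    ring
  have e8 : ap W p = fun i => s * ap W p0 i + t * ap W p1 i := by
    rw [e5]
    funext i
    simp only [ap]
    ring
  rw [e6] at e1 e2
  rw [e7] at e1
  rw [e8] at e2
  have e9 : s * s = 0 := by
    simp only [dp] at e1 f1 f4 f5
    linear_combination e1 - s * s * f5 - s * t * f4 - t * t * f1
  have hs0 : s = 0 := by
    rcases mul_eq_zero.1 e9 with h | h <;> exact h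
  rw [hs0] at e2
  have e10 : t * t = 0 := by
    simp only [dp] at e2 f2
    linear_combination e2 - t * t * f2
  have ht0 : t = 0 := by
    rcases mul_eq_zero.1 e10 with h | h <;> exact h
  rw [e5, hs0, ht0]
  funext i
  simp

/-- the linear algebra of FG-18 -/
private lemma LA {Y W : M3} (hα : ∀ a b : ℂ, a • Y + b • W = 0 → a = 0 ∧ b = 0)
    (hβ : ¬ ∃ u n m : Fin 3 → ℂ, (∀ i j, Y i j = u i * n j) ∧ ∀ i j, W i j = u i * m j)
    (hγ : ¬ ∃ n u u' : Fin 3 → ℂ, (∀ i j, Y i j = u i * n j) ∧ ∀ i j, W i j = u' i * n j) :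
    ∃ S : M3, (∀ i j, S i j = S j i) ∧ ∃ l : Fin 3 → ℂ, ∀ p, dp (ap S p) (ap Y p) = 0 →
      dp (ap S p) (ap W p) = 0 → dp l p = 0 → p = 0 := by
  obtain ⟨a, b, hs, hr⟩ := exists_good hα hβ hγ
  have h1 : ∃ p q, d3 p (ap (a • Y + b • W) p) (ap (a • Y + b • W) q) ≠ 0 := by
    by_contra h
    push Not at h
    exact hr (rk1_d3 hs h)
  obtain ⟨a', b', hab⟩ : ∃ a' b' : ℂ, ¬ ∃ l : ℂ, a' • Y + b' • W = l • (a • Y + b • W) := by
    by_cases ha : a = 0
    · refine ⟨1, 0, ?_⟩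
      rintro ⟨l, hl⟩
      have : (1 : ℂ) • Y + (-(l * b)) • W = 0 := by
        rw [ha] at hl
        have e : (1 : ℂ) • Y + (0 : ℂ) • W - l • ((0 : ℂ) • Y + b • W) = 0 := sub_eq_zero.2 hl
        rw [← e]
        module
      exact one_ne_zero (hα _ _ this).1
    · refine ⟨0, 1, ?_⟩
      rintro ⟨l, hl⟩
      have : (-(l * a)) • Y + (1 - l * b) • W = 0 := by
        have e : (0 : ℂ) • Y + (1 : ℂ) • W - l • (a • Y + b • W) = 0 := sub_eq_zero.2 hl
        rw [← e]
        module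
      obtain ⟨h2, h3⟩ := hα _ _ this
      have hl0 : l = 0 := by
        rcases mul_eq_zero.1 (neg_eq_zero.1 h2) with h | h
        · exact h
        · exact absurd h ha
      rw [hl0, zero_mul, sub_zero] at h3
      exact one_ne_zero h3
  have h2 := exists_indep hr hab
  obtain ⟨p1, p0, c, h3, h4⟩ := common h1 h2
  obtain ⟨S, hS, l, hl⟩ := exists_SL h3 h4
  refine ⟨S, hS, l, fun p e1 e2 e3 => hl p ?_ ?_ e3⟩
  · rw [ap_lin]
    simp only [dp, Pi.add_apply, Pi.smul_apply, smul_eq_mul] at e1 e2 ⊢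
    linear_combination a * e1 + b * e2
  · rw [ap_lin]
    simp only [dp, Pi.add_apply, Pi.smul_apply, smul_eq_mul] at e1 e2 ⊢
    linear_combination a' * e1 + b' * e2

end LA

private lemma wt4 {p : MvPolynomial (Fin 4) ℂ} {m : ℕ}
    (hp : IsWeightedHomogeneous (![1, 1, 1, 2] : Fin 4 → ℕ) p m) {d : Fin 4 →₀ ℕ}
    (hd : coeff d p ≠ 0) : d 0 + d 1 + d 2 + d 3 * 2 = m := by
  have h := hp hd
  rw [Finsupp.weight_apply, Finsupp.sum_fintype _ _ (by simp), Fin.sum_univ_four] at h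
  simpa using h

private lemma lin4 {p : MvPolynomial (Fin 4) ℂ}
    (hp : IsWeightedHomogeneous (![1, 1, 1, 2] : Fin 4 → ℕ) p 1) :
    ∃ a : Fin 3 → ℂ, p = C (a 0) * X 0 + C (a 1) * X 1 + C (a 2) * X 2 := by
  classical
  refine ⟨![coeff (Finsupp.single 0 1) p, coeff (Finsupp.single 1 1) p,
    coeff (Finsupp.single 2 1) p], ?_⟩
  ext m
  simp only [coeff_add, coeff_C_mul, coeff_X, Matrix.cons_val_zero, Matrix.cons_val_one,
    Matrix.cons_val_two, Matrix.tail_cons, Matrix.head_cons]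
  by_cases h0 : Finsupp.single 0 1 = m
  · subst h0
    simp [Finsupp.single_left_inj]
  by_cases h1 : Finsupp.single 1 1 = m
  · subst h1
    simp [Finsupp.single_left_inj]
  by_cases h2 : Finsupp.single 2 1 = m
  · subst h2
    simp [Finsupp.single_left_inj]
  rw [if_neg h0, if_neg h1, if_neg h2]
  simp only [mul_zero, add_zero]
  by_contra hc
  have hw := wt4 hp hc
  have : m 0 = 1 ∧ m 1 = 0 ∧ m 2 = 0 ∧ m 3 = 0 ∨ m 0 = 0 ∧ m 1 = 1 ∧ m 2 = 0 ∧ m 3 = 0 ∨
      m 0 = 0 ∧ m 1 = 0 ∧ m 2 = 1 ∧ m 3 = 0 := by omega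
  rcases this with ⟨e0, e1, e2, e3⟩ | ⟨e0, e1, e2, e3⟩ | ⟨e0, e1, e2, e3⟩
  · apply h0
    ext i
    fin_cases i <;> simp [e0, e1, e2, e3]
  · apply h1
    ext i
    fin_cases i <;> simp [e0, e1, e2, e3]
  · apply h2
    ext i
    fin_cases i <;> simp [e0, e1, e2, e3]

private lemma lin3 {p : MvPolynomial (Fin 3) ℂ} (hp : p.IsHomogeneous 1) :
    ∃ a : Fin 3 → ℂ, p = C (a 0) * X 0 + C (a 1) * X 1 + C (a 2) * X 2 := by
  classical
  refine ⟨![coeff (Finsupp.single 0 1) p, coeff (Finsupp.single 1 1) p,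
    coeff (Finsupp.single 2 1) p], ?_⟩
  ext m
  simp only [coeff_add, coeff_C_mul, coeff_X, Matrix.cons_val_zero, Matrix.cons_val_one,
    Matrix.cons_val_two, Matrix.tail_cons, Matrix.head_cons]
  by_cases h0 : Finsupp.single 0 1 = m
  · subst h0
    simp [Finsupp.single_left_inj]
  by_cases h1 : Finsupp.single 1 1 = m
  · subst h1
    simp [Finsupp.single_left_inj]
  by_cases h2 : Finsupp.single 2 1 = m
  · subst h2
    simp [Finsupp.single_left_inj]
  rw [if_neg h0, if_neg h1, if_neg h2]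
  simp only [mul_zero, add_zero]
  by_contra hc
  have hw := hp hc
  rw [Finsupp.weight_apply, Finsupp.sum_fintype _ _ (by simp), Fin.sum_univ_three] at hw
  simp only [Pi.one_apply, smul_eq_mul, mul_one] at hw
  have : m 0 = 1 ∧ m 1 = 0 ∧ m 2 = 0 ∨ m 0 = 0 ∧ m 1 = 1 ∧ m 2 = 0 ∨
      m 0 = 0 ∧ m 1 = 0 ∧ m 2 = 1 := by omega
  rcases this with ⟨e0, e1, e2⟩ | ⟨e0, e1, e2⟩ | ⟨e0, e1, e2⟩
  · apply h0
    ext i
    fin_cases i <;> simp [e0, e1, e2]
  · apply h1
    ext i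
    fin_cases i <;> simp [e0, e1, e2]
  · apply h2
    ext i
    fin_cases i <;> simp [e0, e1, e2]

private lemma quad4 {p : MvPolynomial (Fin 4) ℂ}
    (hp : IsWeightedHomogeneous (![1, 1, 1, 2] : Fin 4 → ℕ) p 2) :
    p = C (coeff (Finsupp.single 3 1) p) * X 3 +
      aeval (![X 0, X 1, X 2, 0] : Fin 4 → MvPolynomial (Fin 4) ℂ) p := by
  classical
  have key : ∀ m ∈ p.support, monomial m (coeff m p) =
      (if m = Finsupp.single 3 1 then C (coeff m p) * X 3 else 0) +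
        aeval (![X 0, X 1, X 2, 0] : Fin 4 → MvPolynomial (Fin 4) ℂ) (monomial m (coeff m p)) := by
    intro m hm
    have hw := wt4 hp (mem_support_iff.1 hm)
    have e1 : aeval (![X 0, X 1, X 2, 0] : Fin 4 → MvPolynomial (Fin 4) ℂ)
        (monomial m (coeff m p)) = C (coeff m p) * (X 0 ^ m 0 * X 1 ^ m 1 * X 2 ^ m 2 * 0 ^ m 3) := by
      rw [aeval_monomial, Finsupp.prod_fintype _ _ (by simp), Fin.prod_univ_four]
      simp [algebraMap_eq]
    have e2 : monomial m (coeff m p) =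
        C (coeff m p) * (X 0 ^ m 0 * X 1 ^ m 1 * X 2 ^ m 2 * X 3 ^ m 3) := by
      rw [monomial_eq, Finsupp.prod_fintype _ _ (by simp), Fin.prod_univ_four]
    rw [e1, e2]
    by_cases h3 : m 3 = 0
    · rw [if_neg, h3, pow_zero, pow_zero, zero_add]
      rintro rfl
      simp at h3
    · have h4 : m 0 = 0 ∧ m 1 = 0 ∧ m 2 = 0 ∧ m 3 = 1 := by omega
      obtain ⟨a0, a1, a2, a3⟩ := h4
      rw [if_pos, a0, a1, a2, a3]
      · simp
      · ext i
        fin_cases i <;> simp [a0, a1, a2, a3]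
  conv_lhs => rw [← support_sum_monomial_coeff p]
  rw [Finset.sum_congr rfl key, Finset.sum_add_distrib, ← map_sum, support_sum_monomial_coeff,
    Finset.sum_ite_eq']
  congr 1
  split_ifs with h
  · rfl
  · rw [notMem_support_iff.1 h]
    simp

/-- structure of the polynomials of weighted degree 2, in any algebra -/
private lemma quad4_aeval {S : Type} [CommRing S] [Algebra ℂ S] {p : MvPolynomial (Fin 4) ℂ}
    (hp : IsWeightedHomogeneous (![1, 1, 1, 2] : Fin 4 → ℕ) p 2) (Φ : Fin 4 → S) :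
    aeval Φ p = algebraMap ℂ S (coeff (Finsupp.single 3 1) p) * Φ 3 +
      aeval (![Φ 0, Φ 1, Φ 2, 0] : Fin 4 → S) p := by
  conv_lhs => rw [quad4 hp]
  rw [map_add, map_mul, aeval_C, aeval_X]
  congr 1
  rw [← AlgHom.comp_apply, comp_aeval]
  congr 2
  funext i
  fin_cases i <;> simp


section div
variable {S : Type} [CommRing S]

/-- the determinant with rows `x, y, a, b` -/
private def D4 (x y a b : Fin 4 → S) : S :=
  (x 0 * y 1 - x 1 * y 0) * (a 2 * b 3 - a 3 * b 2) - (x 0 * y 2 - x 2 * y 0) * (a 1 * b 3 - a 3 * b 1) +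
  (x 0 * y 3 - x 3 * y 0) * (a 1 * b 2 - a 2 * b 1) + (x 1 * y 2 - x 2 * y 1) * (a 0 * b 3 - a 3 * b 0) -
  (x 1 * y 3 - x 3 * y 1) * (a 0 * b 2 - a 2 * b 0) + (x 2 * y 3 - x 3 * y 2) * (a 0 * b 1 - a 1 * b 0)

private lemma alp4 (r : Fin 2 → Fin 4 → S) (x y : Fin 4 → S) :
    alp (k := 2) r x y = D4 x y (r 0) (r 1) := by
  have e : (Matrix.of (Fin.cons x (Fin.cons y r)) : Matrix (Fin 4) (Fin 4) S) =
      !![x 0, x 1, x 2, x 3; y 0, y 1, y 2, y 3; r 0 0, r 0 1, r 0 2, r 0 3;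
        r 1 0, r 1 1, r 1 2, r 1 3] := by
    ext i j
    fin_cases i <;> fin_cases j <;> rfl
  change Matrix.det (Matrix.of (Fin.cons x (Fin.cons y r)) : Matrix (Fin 4) (Fin 4) S) = _
  rw [e]
  unfold D4
  simp [Matrix.det_succ_row_zero, Fin.sum_univ_succ, Fin.succAbove]
  ring

private lemma D4_shift (x y a b : Fin 4 → S) (g0 g1 : S) :
    D4 x y (fun i => a i + g0 * x i) (fun i => b i + g1 * x i) = D4 x y a b := by
  unfold D4; ring

private def K3 (x y a : Fin 4 → S) : S :=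
  (x 0 * y 1 - x 1 * y 0) * a 2 - (x 0 * y 2 - x 2 * y 0) * a 1 + (x 1 * y 2 - x 2 * y 1) * a 0

private lemma D4_alpha (x y a b : Fin 4 → S) (s t : S) (h0 : s * a 0 + t * b 0 = 0)
    (h1 : s * a 1 + t * b 1 = 0) (h2 : s * a 2 + t * b 2 = 0) :
    t * D4 x y a b = (s * a 3 + t * b 3) * K3 x y a := by
  unfold D4 K3
  linear_combination
    (-(x 1 * y 2 - x 2 * y 1) * a 3 + (x 1 * y 3 - x 3 * y 1) * a 2 - (x 2 * y 3 - x 3 * y 2) * a 1) * h0 +
    ((x 0 * y 2 - x 2 * y 0) * a 3 - (x 0 * y 3 - x 3 * y 0) * a 2 + (x 2 * y 3 - x 3 * y 2) * a 0) * h1 +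
    (-(x 0 * y 1 - x 1 * y 0) * a 3 + (x 0 * y 3 - x 3 * y 0) * a 1 - (x 1 * y 3 - x 3 * y 1) * a 0) * h2

private lemma D4_swap (x y a b : Fin 4 → S) : D4 x y a b = - D4 x y b a := by
  unfold D4; ring

private lemma D4_beta (x y a b : Fin 4 → S) (u : Fin 3 → S) (n m : S) (a0 : a 0 = u 0 * n)
    (a1 : a 1 = u 1 * n) (a2 : a 2 = u 2 * n) (b0 : b 0 = u 0 * m) (b1 : b 1 = u 1 * m)
    (b2 : b 2 = u 2 * m) :
    D4 x y a b = (n * b 3 - m * a 3) * ((x 0 * y 1 - x 1 * y 0) * u 2 -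
      (x 0 * y 2 - x 2 * y 0) * u 1 + (x 1 * y 2 - x 2 * y 1) * u 0) := by
  unfold D4
  rw [a0, a1, a2, b0, b1, b2]
  ring

private lemma D4_gamma (x y a b : Fin 4 → S) (u v : Fin 3 → S) (n : S) (a0 : a 0 = u 0 * n)
    (a1 : a 1 = u 1 * n) (a2 : a 2 = u 2 * n) (b0 : b 0 = v 0 * n) (b1 : b 1 = v 1 * n)
    (b2 : b 2 = v 2 * n) : n ∣ D4 x y a b := by
  unfold D4
  rw [a0, a1, a2, b0, b1, b2]
  exact ⟨(x 0 * y 1 - x 1 * y 0) * (u 2 * b 3 - a 3 * v 2) -
    (x 0 * y 2 - x 2 * y 0) * (u 1 * b 3 - a 3 * v 1) +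
    (x 0 * y 3 - x 3 * y 0) * (u 1 * v 2 - u 2 * v 1) * n +
    (x 1 * y 2 - x 2 * y 1) * (u 0 * b 3 - a 3 * v 0) -
    (x 1 * y 3 - x 3 * y 1) * (u 0 * v 2 - u 2 * v 0) * n +
    (x 2 * y 3 - x 3 * y 2) * (u 0 * v 1 - u 1 * v 0) * n, by ring⟩

end div

private lemma not_unit {N n : ℕ} {g : MvPolynomial (Fin N) ℂ} (hn : 0 < n) (hg : g.IsHomogeneous n) :
    ¬ IsUnit g := by
  intro h
  have h1 : IsUnit (constantCoeff g) := h.map constantCoeff
  have h2 : constantCoeff g = 0 := by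
    rw [constantCoeff_eq]
    by_contra hc
    have := hg hc
    simp at this
    omega
  rw [h2] at h1
  exact not_isUnit_zero h1

private lemma rad4 {N : ℕ} {Φ : Fin 4 → MvPolynomial (Fin N) ℂ}
    (hΦ : ∀ i, (Φ i).IsHomogeneous ((![1, 1, 1, 2] : Fin 4 → ℕ) i))
    (v : Fin 2 → Fin 4 → MvPolynomial (Fin 4) ℂ) (j : Fin N) :
    radC 3 (stdF (k := 2) Φ v) j = C (((3 : ℕ) : ℂ) + 2)⁻¹ *
      D4 ![Φ 0, Φ 1, Φ 2, 2 * Φ 3] (fun i => pderiv j (Φ i)) (fun i => aeval Φ (v 0 i))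
        (fun i => aeval Φ (v 1 i)) := by
  unfold radC stdF
  congr 1
  rw [← alp_comb (k := 2) (fun l i => aeval Φ (v l i)) (fun a : Fin N => X a)
    (fun a i => pderiv a (Φ i)) (fun i => pderiv j (Φ i)), alp4]
  congr 1
  funext i
  rw [(hΦ i).sum_X_mul_pderiv]
  fin_cases i <;> simp [two_mul, two_smul]


/-- the linear maps `Y` of the fields -/
private noncomputable def YY (M : Fin 2 → M3) (c : Fin 2 → ℂ) (l : Fin 2) : M3 :=
  fun i k => M l i k - if i = k then c l / 2 else 0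

private noncomputable def RR {N : ℕ} (Φ : Fin 4 → MvPolynomial (Fin N) ℂ) :
    Fin 4 → MvPolynomial (Fin N) ℂ := ![Φ 0, Φ 1, Φ 2, 2 * Φ 3]

private noncomputable def lc {N : ℕ} (Φ : Fin 4 → MvPolynomial (Fin N) ℂ) (a : Fin 3 → ℂ) :
    MvPolynomial (Fin N) ℂ := C (a 0) * Φ 0 + C (a 1) * Φ 1 + C (a 2) * Φ 2

private lemma lc_hom {N : ℕ} {Φ : Fin 4 → MvPolynomial (Fin N) ℂ}
    (hΦ : ∀ i, (Φ i).IsHomogeneous ((![1, 1, 1, 2] : Fin 4 → ℕ) i)) (a : Fin 3 → ℂ) :
    (lc Φ a).IsHomogeneous 1 := by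
  have h : ∀ (c : ℂ) (i : Fin 4), (![1, 1, 1, 2] : Fin 4 → ℕ) i = 1 → (C c * Φ i).IsHomogeneous 1 := by
    intro c i hi
    have := (isHomogeneous_C (Fin N) c).mul (hΦ i)
    rwa [hi, zero_add] at this
  exact ((h _ 0 rfl).add (h _ 1 rfl)).add (h _ 2 rfl)

private noncomputable def AA {N : ℕ} (Φ : Fin 4 → MvPolynomial (Fin N) ℂ)
    (v : Fin 2 → Fin 4 → MvPolynomial (Fin 4) ℂ) (M : Fin 2 → M3) (c : Fin 2 → ℂ) (l : Fin 2) :
    Fin 4 → MvPolynomial (Fin N) ℂ :=
  ![lc Φ (YY M c l 0), lc Φ (YY M c l 1), lc Φ (YY M c l 2), aeval ![Φ 0, Φ 1, Φ 2, 0] (v l 3)]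

/-- the data of the fields -/
private structure Dat (v : Fin 2 → Fin 4 → MvPolynomial (Fin 4) ℂ) (M : Fin 2 → M3)
    (c : Fin 2 → ℂ) : Prop where
  lin : ∀ (l : Fin 2) (i : Fin 3), v l i.castSucc =
    C (M l i 0) * X 0 + C (M l i 1) * X 1 + C (M l i 2) * X 2
  quad : ∀ l, IsWeightedHomogeneous (![1, 1, 1, 2] : Fin 4 → ℕ) (v l 3) 2
  hc : ∀ l, c l = coeff (Finsupp.single 3 1) (v l 3)

private lemma exists_dat {v : Fin 2 → Fin 4 → MvPolynomial (Fin 4) ℂ}
    (hv : ∀ l i, IsWeightedHomogeneous (![1, 1, 1, 2] : Fin 4 → ℕ) (v l i)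
      ((![1, 1, 1, 2] : Fin 4 → ℕ) i + (![0, 0] : Fin 2 → ℕ) l)) :
    ∃ M c, Dat v M c := by
  have h0 : ∀ l : Fin 2, (![0, 0] : Fin 2 → ℕ) l = 0 := by
    intro l
    fin_cases l <;> rfl
  have h1 : ∀ (l : Fin 2) (i : Fin 3), ∃ a : Fin 3 → ℂ, v l i.castSucc =
      C (a 0) * X 0 + C (a 1) * X 1 + C (a 2) * X 2 := by
    intro l i
    apply lin4
    have := hv l i.castSucc
    rw [h0 l, add_zero] at this
    have e : (![1, 1, 1, 2] : Fin 4 → ℕ) i.castSucc = 1 := by fin_cases i <;> rfl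
    rwa [e] at this
  choose M hM using h1
  refine ⟨M, fun l => coeff (Finsupp.single 3 1) (v l 3), ⟨hM, fun l => ?_, fun l => rfl⟩⟩
  have := hv l 3
  rw [h0 l, add_zero] at this
  exact this

private lemma r_eq {N : ℕ} {Φ : Fin 4 → MvPolynomial (Fin N) ℂ}
    {v : Fin 2 → Fin 4 → MvPolynomial (Fin 4) ℂ} {M : Fin 2 → M3} {c : Fin 2 → ℂ} (h : Dat v M c)
    (l : Fin 2) : (fun i => aeval Φ (v l i)) = fun i => AA Φ v M c l i + C (c l / 2) * RR Φ i := by
  have e : ∀ i : Fin 3, aeval Φ (v l i.castSucc) = lc Φ (M l i) := by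
    intro i
    rw [h.lin l i]
    simp [lc, algebraMap_eq]
  have e' : ∀ i : Fin 3, lc Φ (M l i) = lc Φ (YY M c l i) + C (c l / 2) * RR Φ i.castSucc := by
    intro i
    unfold lc YY RR
    fin_cases i <;> simp <;> ring
  funext i
  refine Fin.lastCases ?_ (fun i => ?_) i
  · show aeval Φ (v l 3) = aeval ![Φ 0, Φ 1, Φ 2, 0] (v l 3) + C (c l / 2) * (2 * Φ 3)
    rw [quad4_aeval (h.quad l) Φ, ← h.hc l, algebraMap_eq]
    have : C (c l) = (C (c l / 2) : MvPolynomial (Fin N) ℂ) * 2 := by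
      rw [show (2 : MvPolynomial (Fin N) ℂ) = C 2 from (map_ofNat C 2).symm, ← C_mul]
      congr 1
      ring
    rw [this]
    ring
  · rw [e, e']
    congr 1
    fin_cases i <;> rfl

private lemma cop_contra {N : ℕ} {Φ : Fin 4 → MvPolynomial (Fin N) ℂ}
    {v : Fin 2 → Fin 4 → MvPolynomial (Fin 4) ℂ}
    (hΦ : ∀ i, (Φ i).IsHomogeneous ((![1, 1, 1, 2] : Fin 4 → ℕ) i))
    (hβ : Cop (radC 3 (stdF (k := 2) Φ v))) {M : Fin 2 → M3} {c : Fin 2 → ℂ} (h : Dat v M c)
    {g : MvPolynomial (Fin N) ℂ} {n : ℕ} (hn : 0 < n) (hg : g.IsHomogeneous n)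
    (hd : ∀ T, g ∣ D4 (RR Φ) T (AA Φ v M c 0) (AA Φ v M c 1)) : False := by
  refine not_unit hn hg (hβ g fun j => ?_)
  rw [rad4 hΦ v j, r_eq h 0, r_eq h 1]
  apply Dvd.dvd.mul_left
  have := D4_shift (RR Φ) (fun i => pderiv j (Φ i)) (AA Φ v M c 0) (AA Φ v M c 1) (C (c 0 / 2))
    (C (c 1 / 2))
  show g ∣ D4 (RR Φ) _ _ _
  rw [this]
  exact hd _

private lemma g_hom {N : ℕ} {Φ : Fin 4 → MvPolynomial (Fin N) ℂ}
    (hΦ : ∀ i, (Φ i).IsHomogeneous ((![1, 1, 1, 2] : Fin 4 → ℕ) i)) {p : MvPolynomial (Fin 4) ℂ}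
    (hp : IsWeightedHomogeneous (![1, 1, 1, 2] : Fin 4 → ℕ) p 2) :
    (aeval ![Φ 0, Φ 1, Φ 2, 0] p).IsHomogeneous 2 := by
  refine aeval_hom (k := 2) (w := ![1, 1, 1, 2]) (Φ := ![Φ 0, Φ 1, Φ 2, 0]) ?_ hp
  intro i
  fin_cases i
  · exact hΦ 0
  · exact hΦ 1
  · exact hΦ 2
  · exact isHomogeneous_zero _ _ _

private lemma C_hom {N n : ℕ} (a : ℂ) {g : MvPolynomial (Fin N) ℂ} (hg : g.IsHomogeneous n) :
    (C a * g).IsHomogeneous n := by
  have := (isHomogeneous_C (Fin N) a).mul hg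
  rwa [zero_add] at this

private lemma lc_smul {N : ℕ} (Φ : Fin 4 → MvPolynomial (Fin N) ℂ) (a b : ℂ) (x y : Fin 3 → ℂ)
    (h : ∀ k, a * x k + b * y k = 0) : C a * lc Φ x + C b * lc Φ y = 0 := by
  have e : ∀ k, C a * C (x k) + C b * C (y k) = (0 : MvPolynomial (Fin N) ℂ) := by
    intro k
    rw [← C_mul, ← C_mul, ← C_add, h k, C_0]
  unfold lc
  linear_combination Φ 0 * e 0 + Φ 1 * e 1 + Φ 2 * e 2

private lemma condα {N : ℕ} {Φ : Fin 4 → MvPolynomial (Fin N) ℂ}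
    {v : Fin 2 → Fin 4 → MvPolynomial (Fin 4) ℂ}
    (hΦ : ∀ i, (Φ i).IsHomogeneous ((![1, 1, 1, 2] : Fin 4 → ℕ) i))
    (hβ : Cop (radC 3 (stdF (k := 2) Φ v))) {M : Fin 2 → M3} {c : Fin 2 → ℂ} (h : Dat v M c)
    (a b : ℂ) (hab : a • YY M c 0 + b • YY M c 1 = 0) : a = 0 ∧ b = 0 := by
  have hk : ∀ i k, a * YY M c 0 i k + b * YY M c 1 i k = 0 := fun i k => by
    have := congrFun (congrFun hab i) k
    simpa using this
  have h0 := lc_smul Φ a b _ _ (hk 0)
  have h1 := lc_smul Φ a b _ _ (hk 1)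
  have h2 := lc_smul Φ a b _ _ (hk 2)
  have g0 := g_hom hΦ (h.quad 0)
  have g1 := g_hom hΦ (h.quad 1)
  have hb : b = 0 := by
    by_contra hb
    refine cop_contra hΦ hβ h two_pos ((C_hom a g0).add (C_hom b g1)) fun T => ?_
    have := D4_alpha (RR Φ) T (AA Φ v M c 0) (AA Φ v M c 1) (C a) (C b) h0 h1 h2
    refine ⟨C b⁻¹ * K3 (RR Φ) T (AA Φ v M c 0), ?_⟩
    have e : (C b⁻¹ : MvPolynomial (Fin N) ℂ) * C b = 1 := by
      rw [← C_mul, inv_mul_cancel₀ hb, C_1]
    calc D4 (RR Φ) T (AA Φ v M c 0) (AA Φ v M c 1)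
        = C b⁻¹ * (C b * D4 (RR Φ) T (AA Φ v M c 0) (AA Φ v M c 1)) := by
          rw [← mul_assoc, e, one_mul]
      _ = _ := by
          rw [this]
          show _ * ((C a * aeval ![Φ 0, Φ 1, Φ 2, 0] (v 0 3) +
            C b * aeval ![Φ 0, Φ 1, Φ 2, 0] (v 1 3)) * _) = _
          ring
  have ha : a = 0 := by
    by_contra ha
    refine cop_contra hΦ hβ h two_pos ((C_hom b g1).add (C_hom a g0)) fun T => ?_
    have := D4_alpha (RR Φ) T (AA Φ v M c 1) (AA Φ v M c 0) (C b) (C a)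
      (by rw [add_comm]; exact h0) (by rw [add_comm]; exact h1) (by rw [add_comm]; exact h2)
    refine ⟨-(C a⁻¹ * K3 (RR Φ) T (AA Φ v M c 1)), ?_⟩
    have e : (C a⁻¹ : MvPolynomial (Fin N) ℂ) * C a = 1 := by
      rw [← C_mul, inv_mul_cancel₀ ha, C_1]
    calc D4 (RR Φ) T (AA Φ v M c 0) (AA Φ v M c 1)
        = -(C a⁻¹ * (C a * D4 (RR Φ) T (AA Φ v M c 1) (AA Φ v M c 0))) := by
          rw [← mul_assoc, e, one_mul, D4_swap]
      _ = _ := by
          rw [this]
          show -(_ * ((C b * aeval ![Φ 0, Φ 1, Φ 2, 0] (v 1 3) +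
            C a * aeval ![Φ 0, Φ 1, Φ 2, 0] (v 0 3)) * _)) = _
          ring
  exact ⟨ha, hb⟩

private lemma lc_fac {N : ℕ} (Φ : Fin 4 → MvPolynomial (Fin N) ℂ) (u : ℂ) (n x : Fin 3 → ℂ)
    (h : ∀ k, x k = u * n k) : lc Φ x = C u * lc Φ n := by
  unfold lc
  rw [h 0, h 1, h 2, C_mul, C_mul, C_mul]
  ring

private lemma condβ {N : ℕ} {Φ : Fin 4 → MvPolynomial (Fin N) ℂ}
    {v : Fin 2 → Fin 4 → MvPolynomial (Fin 4) ℂ}
    (hΦ : ∀ i, (Φ i).IsHomogeneous ((![1, 1, 1, 2] : Fin 4 → ℕ) i))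
    (hβ : Cop (radC 3 (stdF (k := 2) Φ v))) {M : Fin 2 → M3} {c : Fin 2 → ℂ} (h : Dat v M c) :
    ¬ ∃ u n m : Fin 3 → ℂ, (∀ i j, YY M c 0 i j = u i * n j) ∧ ∀ i j, YY M c 1 i j = u i * m j := by
  rintro ⟨u, n, m, h0, h1⟩
  have g0 := g_hom hΦ (h.quad 0)
  have g1 := g_hom hΦ (h.quad 1)
  have e := (lc_hom hΦ n).mul g1
  have e' := (lc_hom hΦ m).mul g0
  refine cop_contra hΦ hβ h three_pos (e.sub e') fun T => ?_
  have := D4_beta (RR Φ) T (AA Φ v M c 0) (AA Φ v M c 1) (fun i => C (u i)) (lc Φ n) (lc Φ m)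
    (lc_fac Φ _ _ _ (h0 0)) (lc_fac Φ _ _ _ (h0 1)) (lc_fac Φ _ _ _ (h0 2))
    (lc_fac Φ _ _ _ (h1 0)) (lc_fac Φ _ _ _ (h1 1)) (lc_fac Φ _ _ _ (h1 2))
  exact ⟨_, this⟩

private lemma condγ {N : ℕ} {Φ : Fin 4 → MvPolynomial (Fin N) ℂ}
    {v : Fin 2 → Fin 4 → MvPolynomial (Fin 4) ℂ}
    (hΦ : ∀ i, (Φ i).IsHomogeneous ((![1, 1, 1, 2] : Fin 4 → ℕ) i))
    (hβ : Cop (radC 3 (stdF (k := 2) Φ v))) {M : Fin 2 → M3} {c : Fin 2 → ℂ} (h : Dat v M c) :
    ¬ ∃ n u u' : Fin 3 → ℂ, (∀ i j, YY M c 0 i j = u i * n j) ∧ ∀ i j, YY M c 1 i j = u' i * n j := by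
  rintro ⟨n, u, u', h0, h1⟩
  refine cop_contra hΦ hβ h one_pos (lc_hom hΦ n) fun T => ?_
  exact D4_gamma (RR Φ) T (AA Φ v M c 0) (AA Φ v M c 1) (fun i => C (u i)) (fun i => C (u' i))
    (lc Φ n) (lc_fac Φ _ _ _ (h0 0)) (lc_fac Φ _ _ _ (h0 1)) (lc_fac Φ _ _ _ (h0 2))
    (lc_fac Φ _ _ _ (h1 0)) (lc_fac Φ _ _ _ (h1 1)) (lc_fac Φ _ _ _ (h1 2))


/-- `h_l(q)` -/
noncomputable def hq (v : Fin 2 → Fin 4 → MvPolynomial (Fin 4) ℂ) (q : MvPolynomial (Fin 3) ℂ)
    (l : Fin 2) : MvPolynomial (Fin 3) ℂ :=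
  aeval ![X 0, X 1, X 2, q] (v l 3) -
    ∑ j : Fin 3, aeval ![X 0, X 1, X 2, q] (v l j.castSucc) * pderiv j q

private noncomputable def l3 (a : Fin 3 → ℂ) : MvPolynomial (Fin 3) ℂ :=
  C (a 0) * X 0 + C (a 1) * X 1 + C (a 2) * X 2

private lemma l3_hom (a : Fin 3 → ℂ) : (l3 a).IsHomogeneous 1 :=
  ((C_hom _ (isHomogeneous_X _ 0)).add (C_hom _ (isHomogeneous_X _ 1))).add
    (C_hom _ (isHomogeneous_X _ 2))

private lemma eval_l3 (p a : Fin 3 → ℂ) : eval p (l3 a) = dp a p := by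
  simp only [l3, dp, map_add, map_mul, eval_C, eval_X]

private noncomputable def QQ (S : M3) : MvPolynomial (Fin 3) ℂ :=
  X 0 * l3 (S 0) + X 1 * l3 (S 1) + X 2 * l3 (S 2)

private lemma QQ_hom (S : M3) : (QQ S).IsHomogeneous 2 :=
  (((isHomogeneous_X _ 0).mul (l3_hom _)).add ((isHomogeneous_X _ 1).mul (l3_hom _))).add
    ((isHomogeneous_X _ 2).mul (l3_hom _))

private lemma eval_QQ (S : M3) (p : Fin 3 → ℂ) : eval p (QQ S) = dp (ap S p) p := by
  simp only [QQ, map_add, map_mul, eval_X, eval_l3, dp, ap]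
  ring

private lemma eval_pderiv_QQ {S : M3} (hS : ∀ i j, S i j = S j i) (p : Fin 3 → ℂ) (j : Fin 3) :
    eval p (pderiv j (QQ S)) = 2 * ap S p j := by
  have h01 := hS 0 1
  have h02 := hS 0 2
  have h12 := hS 1 2
  simp only [QQ, l3, map_add, Derivation.leibniz, pderiv_C, smul_eq_mul, mul_zero,
    pderiv_X, map_mul, eval_X, eval_C, ap]
  fin_cases j
  · simp
    linear_combination -(p 1 * h01) - p 2 * h02
  · simp
    linear_combination p 0 * h01 - p 2 * h12
  · simp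
    linear_combination p 0 * h02 + p 1 * h12

private noncomputable def GG (M : Fin 2 → M3) (c : Fin 2 → ℂ) (S : M3) (l : Fin 2) :
    MvPolynomial (Fin 3) ℂ := C (c l) * QQ S - ∑ j : Fin 3, l3 (M l j) * pderiv j (QQ S)

private lemma hq_eq {v : Fin 2 → Fin 4 → MvPolynomial (Fin 4) ℂ} {M : Fin 2 → M3} {c : Fin 2 → ℂ}
    (h : Dat v M c) (q : MvPolynomial (Fin 3) ℂ) (l : Fin 2) :
    hq v q l = C (c l) * q + aeval (![X 0, X 1, X 2, 0] : Fin 4 → MvPolynomial (Fin 3) ℂ) (v l 3) -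
      ∑ j : Fin 3, l3 (M l j) * pderiv j q := by
  unfold hq
  congr 1
  · rw [quad4_aeval (h.quad l), ← h.hc l, algebraMap_eq]
    rfl
  · refine Finset.sum_congr rfl fun j _ => ?_
    rw [h.lin l j]
    congr 1
    simp [l3, algebraMap_eq]

private lemma hq_add {v : Fin 2 → Fin 4 → MvPolynomial (Fin 4) ℂ} {M : Fin 2 → M3} {c : Fin 2 → ℂ}
    (h : Dat v M c) (q : MvPolynomial (Fin 3) ℂ) (S : M3) (t : ℂ) (l : Fin 2) :
    hq v (q + C t * QQ S) l = hq v q l + C t * GG M c S l := by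
  rw [hq_eq h, hq_eq h]
  unfold GG
  have e : ∀ j : Fin 3, pderiv j (q + C t * QQ S) = pderiv j q + C t * pderiv j (QQ S) := by
    intro j
    rw [map_add, pderiv_C_mul]
  simp only [e, mul_add, Finset.sum_add_distrib, mul_sub, Finset.mul_sum]
  have e2 : ∀ j : Fin 3, l3 (M l j) * (C t * pderiv j (QQ S)) = C t * (l3 (M l j) * pderiv j (QQ S)) :=
    fun j => by ring
  simp only [e2]
  ring

private lemma eval_GG {M : Fin 2 → M3} {c : Fin 2 → ℂ} {S : M3} (hS : ∀ i j, S i j = S j i)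
    (l : Fin 2) (p : Fin 3 → ℂ) : eval p (GG M c S l) = -2 * dp (ap S p) (ap (YY M c l) p) := by
  unfold GG
  rw [map_sub, map_sum, map_mul, eval_C, eval_QQ, Fin.sum_univ_three]
  simp only [map_mul, eval_l3, eval_pderiv_QQ hS]
  simp only [dp]
  have e0 : ap (YY M c l) p 0 =
      M l 0 0 * p 0 + M l 0 1 * p 1 + M l 0 2 * p 2 - c l / 2 * p 0 := by
    simp [ap, YY]; ring
  have e1 : ap (YY M c l) p 1 =
      M l 1 0 * p 0 + M l 1 1 * p 1 + M l 1 2 * p 2 - c l / 2 * p 1 := by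
    simp [ap, YY]; ring
  have e2 : ap (YY M c l) p 2 =
      M l 2 0 * p 0 + M l 2 1 * p 1 + M l 2 2 * p 2 - c l / 2 * p 2 := by
    simp [ap, YY]; ring
  rw [e0, e1, e2]
  ring

private lemma hq_hom {v : Fin 2 → Fin 4 → MvPolynomial (Fin 4) ℂ} {M : Fin 2 → M3} {c : Fin 2 → ℂ}
    (h : Dat v M c) {q : MvPolynomial (Fin 3) ℂ} (hq2 : q.IsHomogeneous 2) (l : Fin 2) :
    (hq v q l).IsHomogeneous 2 := by
  rw [hq_eq h]
  refine ((C_hom _ hq2).add ?_).sub (IsHomogeneous.sum _ _ _ fun _ _ => (l3_hom _).mul hq2.pderiv)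
  refine aeval_hom (k := 2) (w := ![1, 1, 1, 2]) (Φ := ![X 0, X 1, X 2, 0]) ?_ (h.quad l)
  intro i
  fin_cases i
  · exact isHomogeneous_X _ _
  · exact isHomogeneous_X _ _
  · exact isHomogeneous_X _ _
  · exact isHomogeneous_zero _ _ _

private lemma GG_hom (M : Fin 2 → M3) (c : Fin 2 → ℂ) (S : M3) (l : Fin 2) :
    (GG M c S l).IsHomogeneous 2 :=
  (C_hom _ (QQ_hom S)).sub (IsHomogeneous.sum _ _ _ fun _ _ => (l3_hom _).mul (QQ_hom S).pderiv)


/-! the family in `t` -/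

private lemma ev_C (t : ℂ) (σ : Type) (p : Polynomial ℂ) : ev t σ (C p) = C (p.eval t) := by
  simp [ev]

private lemma ev_cn (t : ℂ) (σ : Type) (q : MvPolynomial σ ℂ) : ev t σ (cn σ q) = q := by
  unfold ev cn
  rw [map_map]
  have : (Polynomial.evalRingHom t).comp (Polynomial.C : ℂ →+* Polynomial ℂ) = RingHom.id ℂ := by
    ext x
    simp
  rw [this, MvPolynomial.map_id]

private lemma ev_aeval (t : ℂ) {N : ℕ} (Φ : Fin 4 → MvPolynomial (Fin N) (Polynomial ℂ))
    (p : MvPolynomial (Fin 4) ℂ) :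
    ev t (Fin N) (aeval Φ (MvPolynomial.map (Polynomial.C : ℂ →+* Polynomial ℂ) p)) =
      aeval (fun i => ev t (Fin N) (Φ i)) p := by
  induction p using MvPolynomial.induction_on with
  | C a => simp [algebraMap_eq, ev_C]
  | add p q hp hq => simp only [map_add, hp, hq]
  | mul_X p i hp =>
    rw [map_mul, map_mul, map_mul, map_mul, hp, map_X, aeval_X, aeval_X]

private lemma mins_map {S S' : Type} [CommRing S] [CommRing S'] (φ : S →+* S')
    (r : Fin 2 → Fin 4 → S) (p : Fin 4 × Fin 4) :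
    φ (mins (k := 2) r p) = mins (k := 2) (fun l i => φ (r l i)) p := by
  unfold mins
  rw [← alp_map (k := 2) r φ]
  congr 1
  · funext i
    by_cases h : i = p.1
    · rw [h]; simp
    · rw [Pi.single_eq_of_ne h, Pi.single_eq_of_ne h, map_zero]
  · funext i
    by_cases h : i = p.2
    · rw [h]; simp
    · rw [Pi.single_eq_of_ne h, Pi.single_eq_of_ne h, map_zero]

private lemma cn_hom {σ : Type} {q : MvPolynomial σ ℂ} {n : ℕ} (h : q.IsHomogeneous n) :
    (cn σ q).IsHomogeneous n := h.map _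

private lemma CX_hom {σ : Type} {q : MvPolynomial σ (Polynomial ℂ)} {n : ℕ} (h : q.IsHomogeneous n) :
    (C Polynomial.X * q).IsHomogeneous n := by
  have := (isHomogeneous_C σ (Polynomial.X : Polynomial ℂ)).mul h
  rwa [zero_add] at this

/-- condition (a) is open along lines -/
private lemma open_a {v : Fin 2 → Fin 4 → MvPolynomial (Fin 4) ℂ}
    (hv : ∀ l i, IsWeightedHomogeneous (![1, 1, 1, 2] : Fin 4 → ℕ) (v l i)
      ((![1, 1, 1, 2] : Fin 4 → ℕ) i + (![0, 0] : Fin 2 → ℕ) l)) {q : MvPolynomial (Fin 3) ℂ}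
    (hq2 : q.IsHomogeneous 2) (S : M3)
    (h : Triv (mins (k := 2) (fun l i => aeval ![X 0, X 1, X 2, q] (v l i)))) :
    {t : ℂ | ¬ Triv (mins (k := 2)
      (fun l i => aeval ![X 0, X 1, X 2, q + C t * QQ S] (v l i)))}.Finite := by
  set F : MvPolynomial (Fin 3) (Polynomial ℂ) := cn (Fin 3) q + C Polynomial.X * cn (Fin 3) (QQ S)
    with hF
  have hFh : F.IsHomogeneous 2 := (cn_hom hq2).add (CX_hom (cn_hom (QQ_hom S)))
  set r : Fin 2 → Fin 4 → MvPolynomial (Fin 3) (Polynomial ℂ) := fun l i =>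
    aeval ![X 0, X 1, X 2, F] (MvPolynomial.map (Polynomial.C : ℂ →+* Polynomial ℂ) (v l i)) with hr
  have hrh : ∀ l i, (r l i).IsHomogeneous ((![1, 1, 1, 2] : Fin 4 → ℕ) i + (![0, 0] : Fin 2 → ℕ) l) := by
    intro l i
    refine aeval_hom (k := 2) (w := ![1, 1, 1, 2]) (Φ := ![X 0, X 1, X 2, F]) ?_ ?_
    · intro i
      fin_cases i
      · exact isHomogeneous_X _ _
      · exact isHomogeneous_X _ _
      · exact isHomogeneous_X _ _
      · exact hFh
    · intro d hd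
      rw [coeff_map] at hd
      exact hv l i (fun h0 => hd (by rw [h0, map_zero]))
  have hev : ∀ (t : ℂ), (fun p => ev t (Fin 3) (mins (k := 2) r p)) =
      mins (k := 2) (fun l i => aeval ![X 0, X 1, X 2, q + C t * QQ S] (v l i)) := by
    intro t
    funext p
    rw [mins_map]
    congr 1
    funext l i
    rw [hr]
    show ev t (Fin 3) (aeval ![X 0, X 1, X 2, F] (MvPolynomial.map Polynomial.C (v l i))) = _
    rw [ev_aeval]
    congr 2
    funext i
    fin_cases i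
    · show ev t (Fin 3) (X 0) = X 0
      simp [ev]
    · show ev t (Fin 3) (X 1) = X 1
      simp [ev]
    · show ev t (Fin 3) (X 2) = X 2
      simp [ev]
    · show ev t (Fin 3) F = q + C t * QQ S
      rw [hF, map_add, map_mul, ev_cn, ev_cn, ev_C, Polynomial.eval_X]
  have h0 : Triv (fun p => ev 0 (Fin 3) (mins (k := 2) r p)) := by
    rw [hev 0]
    have e : q + C 0 * QQ S = q := by rw [C_0, zero_mul, add_zero]
    rw [e]
    exact h
  have := triv_open (mins (k := 2) r) _ (mins_hom (k := 2) ![1, 1, 1, 2] ![0, 0] r hrh) 0 h0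
  refine this.subset ?_
  intro t ht
  simp only [Set.mem_ofPred_eq] at ht ⊢
  rw [hev t]
  exact ht

/-- condition (b) is open along lines -/
private lemma open_b {v : Fin 2 → Fin 4 → MvPolynomial (Fin 4) ℂ} {M : Fin 2 → M3} {c : Fin 2 → ℂ}
    (hD : Dat v M c) {q : MvPolynomial (Fin 3) ℂ} (hq2 : q.IsHomogeneous 2) {S : M3} {l : Fin 3 → ℂ}
    (h : Triv ![GG M c S 0, GG M c S 1, l3 l]) :
    {t : ℂ | ¬ Triv ![C t * hq v q 0 + GG M c S 0, C t * hq v q 1 + GG M c S 1, l3 l]}.Finite := by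
  set f : Fin 3 → MvPolynomial (Fin 3) (Polynomial ℂ) :=
    ![C Polynomial.X * cn (Fin 3) (hq v q 0) + cn (Fin 3) (GG M c S 0),
      C Polynomial.X * cn (Fin 3) (hq v q 1) + cn (Fin 3) (GG M c S 1), cn (Fin 3) (l3 l)] with hf
  have hfh : ∀ k, (f k).IsHomogeneous ((![2, 2, 1] : Fin 3 → ℕ) k) := by
    intro k
    fin_cases k
    · exact (CX_hom (cn_hom (hq_hom hD hq2 0))).add (cn_hom (GG_hom M c S 0))
    · exact (CX_hom (cn_hom (hq_hom hD hq2 1))).add (cn_hom (GG_hom M c S 1))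
    · exact cn_hom (l3_hom l)
  have hev : ∀ t : ℂ, (fun k => ev t (Fin 3) (f k)) =
      ![C t * hq v q 0 + GG M c S 0, C t * hq v q 1 + GG M c S 1, l3 l] := by
    intro t
    funext k
    fin_cases k
    · show ev t (Fin 3) (C Polynomial.X * cn (Fin 3) (hq v q 0) + cn (Fin 3) (GG M c S 0)) =
        C t * hq v q 0 + GG M c S 0
      rw [map_add, map_mul, ev_cn, ev_cn, ev_C, Polynomial.eval_X]
    · show ev t (Fin 3) (C Polynomial.X * cn (Fin 3) (hq v q 1) + cn (Fin 3) (GG M c S 1)) =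
        C t * hq v q 1 + GG M c S 1
      rw [map_add, map_mul, ev_cn, ev_cn, ev_C, Polynomial.eval_X]
    · show ev t (Fin 3) (cn (Fin 3) (l3 l)) = l3 l
      rw [ev_cn]
  have h0 : Triv (fun k => ev 0 (Fin 3) (f k)) := by
    rw [hev 0]
    simp only [C_0, zero_mul, zero_add]
    exact h
  have := triv_open f _ hfh 0 h0
  refine this.subset ?_
  intro t ht
  simp only [Set.mem_ofPred_eq] at ht ⊢
  rw [hev t]
  exact ht

/-- the quadric of the given map -/
private lemma base_q {v : Fin 2 → Fin 4 → MvPolynomial (Fin 4) ℂ} {M : Fin 2 → M3} {c : Fin 2 → ℂ}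
    (hD : Dat v M c) {P : Fin 4 → MvPolynomial (Fin 3) ℂ}
    (hP : ∀ i, (P i).IsHomogeneous ((![1, 1, 1, 2] : Fin 4 → ℕ) i))
    (hT : Triv (mins (k := 2) (fun l i => aeval P (v l i)))) :
    ∃ q : MvPolynomial (Fin 3) ℂ, q.IsHomogeneous 2 ∧
      Triv (mins (k := 2) (fun l i => aeval ![X 0, X 1, X 2, q] (v l i))) := by
  have hlin : ∀ i : Fin 3, ∃ a : Fin 3 → ℂ, P i.castSucc = l3 a := by
    intro i
    apply lin3
    have := hP i.castSucc
    have e : (![1, 1, 1, 2] : Fin 4 → ℕ) i.castSucc = 1 := by fin_cases i <;> rfl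
    rwa [e] at this
  choose A hA using hlin
  -- values of `mins`
  have hmins : ∀ (Φ : Fin 4 → MvPolynomial (Fin 3) ℂ) (x : Fin 3 → ℂ) (p : Fin 4 × Fin 4),
      eval x (mins (k := 2) (fun l i => aeval Φ (v l i)) p) =
        mins (k := 2) (fun l i => eval (fun j => eval x (Φ j)) (v l i)) p := by
    intro Φ x p
    rw [mins_map]
    congr 1
    funext l i
    rw [map_aeval]
    have : (eval x).comp (algebraMap ℂ (MvPolynomial (Fin 3) ℂ)) = RingHom.id ℂ := by
      ext a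
      simp [algebraMap_eq]
    rw [this]
    rfl
  have hinj : ∀ y : Fin 3 → ℂ, ap A y = 0 → y = 0 := by
    intro y hy
    apply hT
    intro p
    rw [hmins]
    have hz : ∀ i : Fin 3, eval y (P i.castSucc) = 0 := by
      intro i
      rw [hA, eval_l3]
      have := congrFun hy i
      simpa [ap, dp] using this
    have hr : ∀ (l : Fin 2) (i : Fin 3), eval (fun j => eval y (P j)) (v l i.castSucc) = 0 := by
      intro l i
      rw [hD.lin l i]
      have e0 := hz 0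
      have e1 := hz 1
      have e2 := hz 2
      simp only [map_add, map_mul, eval_C, eval_X]
      show M l i 0 * eval y (P 0) + M l i 1 * eval y (P 1) + M l i 2 * eval y (P 2) = 0
      have e0' : eval y (P 0) = 0 := e0
      have e1' : eval y (P 1) = 0 := e1
      have e2' : eval y (P 2) = 0 := e2
      rw [e0', e1', e2']
      ring
    unfold mins
    rw [alp4]
    unfold D4
    have a0 := hr 0 0
    have a1 := hr 0 1
    have a2 := hr 0 2
    have b0 := hr 1 0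
    have b1 := hr 1 1
    have b2 := hr 1 2
    have a0' : eval (fun j => eval y (P j)) (v 0 0) = 0 := a0
    have a1' : eval (fun j => eval y (P j)) (v 0 1) = 0 := a1
    have a2' : eval (fun j => eval y (P j)) (v 0 2) = 0 := a2
    have b0' : eval (fun j => eval y (P j)) (v 1 0) = 0 := b0
    have b1' : eval (fun j => eval y (P j)) (v 1 1) = 0 := b1
    have b2' : eval (fun j => eval y (P j)) (v 1 2) = 0 := b2
    dsimp only
    rw [a0', a1', a2', b0', b1', b2']
    ring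
  have hap : ∀ (Z : M3) (p : Fin 3 → ℂ), ap Z p = (Matrix.of Z).mulVec p := by
    intro Z p
    funext i
    simp [ap, Matrix.mulVec, dotProduct, Fin.sum_univ_three]
  have hdet : (Matrix.of A).det ≠ 0 := by
    intro h0
    obtain ⟨y, hy0, hy⟩ := Matrix.exists_mulVec_eq_zero_iff.2 h0
    exact hy0 (hinj y (by rw [hap]; exact hy))
  have hu : IsUnit (Matrix.of A).det := isUnit_iff_ne_zero.2 hdet
  obtain ⟨B, hB⟩ : ∃ B : M3, Matrix.of B = (Matrix.of A)⁻¹ :=
    ⟨fun i j => (Matrix.of A)⁻¹ i j, by ext i j; rfl⟩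
  have hAB : ∀ x : Fin 3 → ℂ, ap A (ap B x) = x := by
    intro x
    rw [hap, hap, hB, Matrix.mulVec_mulVec, Matrix.mul_nonsing_inv _ hu, Matrix.one_mulVec]
  refine ⟨aeval (fun k => l3 (B k)) (P 3), ?_, ?_⟩
  · have := (hP 3).aeval (fun k => l3 (B k)) (fun k => l3_hom _)
    simpa using this
  · intro x hx
    have key : ap B x = 0 := by
      apply hT
      intro p
      rw [hmins]
      rw [← hx p, hmins]
      congr 1
      funext l i
      congr 2
      funext j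
      refine Fin.lastCases ?_ (fun j => ?_) j
      · show eval (ap B x) (P 3) = eval x (aeval (fun k => l3 (B k)) (P 3))
        rw [map_aeval]
        have : (eval x).comp (algebraMap ℂ (MvPolynomial (Fin 3) ℂ)) = RingHom.id ℂ := by
          ext a
          simp [algebraMap_eq]
        rw [this]
        have e : (fun i => eval x (l3 (B i))) = ap B x := by
          funext i
          rw [eval_l3]
          simp only [dp, ap]
        rw [e]
        rfl
      · rw [hA, eval_l3]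
        have e := congrFun (hAB x) j
        have e' : dp (A j) (ap B x) = ap A (ap B x) j := by simp only [dp, ap]
        rw [e', e]
        fin_cases j
        · show x 0 = eval x (X 0)
          rw [eval_X]
        · show x 1 = eval x (X 1)
          rw [eval_X]
        · show x 2 = eval x (X 2)
          rw [eval_X]
    rw [← hAB x, key]
    funext i
    simp [ap]

theorem exists_q {N : ℕ} (v : Fin 2 → Fin 4 → MvPolynomial (Fin 4) ℂ)
    {Φ0 : Fin 4 → MvPolynomial (Fin N) ℂ} (h0 : WH (k := 2) ![1, 1, 1, 2] ![0, 0] Φ0 v)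
    (hβ : Cop (radC 3 (stdF (k := 2) Φ0 v))) {P : Fin 4 → MvPolynomial (Fin 3) ℂ}
    (hP : ∀ i, (P i).IsHomogeneous (![1, 1, 1, 2] i))
    (hT : Triv (mins (k := 2) (fun l i => aeval P (v l i)))) :
    ∃ q ℓ : MvPolynomial (Fin 3) ℂ, q.IsHomogeneous 2 ∧ ℓ.IsHomogeneous 1 ∧
      Triv (mins (k := 2) (fun l i => aeval ![X 0, X 1, X 2, q] (v l i))) ∧
      Triv ![hq v q 0, hq v q 1, ℓ] := by
  obtain ⟨M, c, hD⟩ := exists_dat h0.hv
  obtain ⟨S, hS, l, hl⟩ := LA (condα h0.hΦ hβ hD) (condβ h0.hΦ hβ hD) (condγ h0.hΦ hβ hD)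
  obtain ⟨qa, hqa, hqT⟩ := base_q hD hP hT
  have hG : Triv ![GG M c S 0, GG M c S 1, l3 l] := by
    intro x hx
    have e0 : eval x (GG M c S 0) = 0 := hx 0
    have e1 : eval x (GG M c S 1) = 0 := hx 1
    have e2 : eval x (l3 l) = 0 := hx 2
    rw [eval_GG hS] at e0 e1
    rw [eval_l3] at e2
    have two : (-2 : ℂ) ≠ 0 := by norm_num
    exact hl x ((mul_eq_zero.1 e0).resolve_left two) ((mul_eq_zero.1 e1).resolve_left two) e2
  have hA := open_a h0.hv hqa S hqT
  have hB := open_b hD hqa hG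
  -- a parameter outside the exceptional sets
  obtain ⟨t, ht⟩ : ∃ t : ℂ, t ∉ {0} ∪ {t : ℂ | ¬ Triv ![C t * hq v qa 0 + GG M c S 0,
      C t * hq v qa 1 + GG M c S 1, l3 l]} ∪ (fun t : ℂ => t⁻¹) '' {t : ℂ | ¬ Triv (mins (k := 2)
      (fun l i => aeval ![X 0, X 1, X 2, qa + C t * QQ S] (v l i)))} :=
    (((Set.finite_singleton _).union hB).union (hA.image _)).exists_notMem
  simp only [Set.mem_union, Set.mem_singleton_iff, Set.mem_ofPred_eq, Set.mem_image, not_or,
    not_not, not_exists, not_and] at ht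
  obtain ⟨⟨ht0, ht1⟩, ht2⟩ := ht
  refine ⟨qa + C t⁻¹ * QQ S, l3 l, hqa.add (C_hom _ (QQ_hom S)), l3_hom l, ?_, ?_⟩
  · by_contra hc
    exact ht2 _ hc (inv_inv t)
  · intro x hx
    apply ht1
    have e0 : eval x (hq v (qa + C t⁻¹ * QQ S) 0) = 0 := hx 0
    have e1 : eval x (hq v (qa + C t⁻¹ * QQ S) 1) = 0 := hx 1
    have e2 : eval x (l3 l) = 0 := hx 2
    rw [hq_add hD, map_add, map_mul, eval_C] at e0 e1
    intro k
    fin_cases k
    · show eval x (C t * hq v qa 0 + GG M c S 0) = 0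
      rw [map_add, map_mul, eval_C]
      field_simp at e0
      linear_combination e0
    · show eval x (C t * hq v qa 1 + GG M c S 1) = 0
      rw [map_add, map_mul, eval_C]
      field_simp at e1
      linear_combination e1
    · exact e2

end Pool.Agent.Helper1.FG
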