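import Pool.Agent.Helper1.FG.F5a

/-! FG-19: `cop_q`; see the text in F5a. -/

set_option autoImplicit false

namespace Pool.Agent.Helper1.FG

open MvPolynomial
open scoped BigOperators
open Pool.Agent.Helper93 (TT OF RE HomS IntS FolS Cop Comp PreIrr pb)
open Pool.Agent.Helper71.FL

/-- coefficients of the contraction of the 2-form with the weighted radial field -/
private noncomputable def bet (v : Fin 2 → Fin 4 → MvPolynomial (Fin 4) ℂ) (j : Fin 4) :
    MvPolynomial (Fin 4) ℂ :=
  ∑ i : Fin 4, ((![1, 1, 1, 2] i : ℕ) : MvPolynomial (Fin 4) ℂ) * X i * mins (k := 2) v (i, j)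

private lemma radC_eq {n : ℕ} (Φ : Fin 4 → MvPolynomial (Fin n) ℂ)
    (hΦ : ∀ i, (Φ i).IsHomogeneous (![1, 1, 1, 2] i)) (v : Fin 2 → Fin 4 → MvPolynomial (Fin 4) ℂ)
    (b : Fin n) : radC 3 (stdF (k := 2) Φ v) b =
      C (((3 : ℕ) : ℂ) + 2)⁻¹ * ∑ j : Fin 4, aeval Φ (bet v j) * pderiv b (Φ j) := by
  unfold radC
  congr 1
  have h1 : ∀ a, X a * stdF (k := 2) Φ v a b = ∑ j : Fin 4, ∑ i : Fin 4,
      (aeval Φ (mins (k := 2) v (i, j)) * (X a * pderiv a (Φ i))) * pderiv b (Φ j) := by
    intro a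
    rw [stdF_expand (k := 2) Φ v a b, Finset.sum_comm, Finset.mul_sum]
    refine Finset.sum_congr rfl fun j _ => ?_
    rw [Finset.mul_sum]
    refine Finset.sum_congr rfl fun i _ => ?_
    ring
  rw [Finset.sum_congr rfl (fun a _ => h1 a), Finset.sum_comm]
  refine Finset.sum_congr rfl fun j _ => ?_
  rw [Finset.sum_comm]
  unfold bet
  rw [map_sum, Finset.sum_mul]
  refine Finset.sum_congr rfl fun i _ => ?_
  rw [← Finset.sum_mul, ← Finset.mul_sum, (hΦ i).sum_X_mul_pderiv, map_mul, map_mul, map_natCast,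
    aeval_X, nsmul_eq_mul]
  ring

private noncomputable def Th : MvPolynomial (Fin 4) ℂ →ₐ[ℂ] Polynomial (MvPolynomial (Fin 4) ℂ) :=
  aeval (fun i => (Polynomial.X : Polynomial (MvPolynomial (Fin 4) ℂ)) ^ (![1, 1, 1, 2] i : ℕ) *
    Polynomial.C (X i))

private lemma Th_wh {p : MvPolynomial (Fin 4) ℂ} {m : ℕ}
    (hp : IsWeightedHomogeneous ![1, 1, 1, 2] p m) :
    Th p = (Polynomial.X : Polynomial (MvPolynomial (Fin 4) ℂ)) ^ m * Polynomial.C p := by
  classical
  have h1 : ∀ d ∈ p.support, Th (monomial d (coeff d p)) =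
      (Polynomial.X : Polynomial (MvPolynomial (Fin 4) ℂ)) ^ m *
        Polynomial.C (monomial d (coeff d p)) := by
    intro d hd
    have hw : Finsupp.weight (![1, 1, 1, 2] : Fin 4 → ℕ) d = m := hp (mem_support_iff.mp hd)
    unfold Th
    rw [aeval_monomial, monomial_eq, map_mul]
    rw [Finsupp.prod_fintype _ _ (fun i => pow_zero _), Finsupp.prod_fintype _ _ (fun i => pow_zero _)]
    simp only [mul_pow]
    rw [Finset.prod_mul_distrib, map_prod]
    simp only [map_pow]
    have h2 : ∏ i : Fin 4, ((Polynomial.X : Polynomial (MvPolynomial (Fin 4) ℂ)) ^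
        (![1, 1, 1, 2] i : ℕ)) ^ (d i) = Polynomial.X ^ m := by
      simp only [← pow_mul]
      rw [Finset.prod_pow_eq_pow_sum, ← hw, Finsupp.weight_apply, Finsupp.sum_fintype _ _ (by simp)]
      congr 1
      refine Finset.sum_congr rfl fun i _ => ?_
      simp [mul_comm]
    rw [h2]
    have h3 : (algebraMap ℂ (Polynomial (MvPolynomial (Fin 4) ℂ))) (coeff d p) =
        Polynomial.C (C (coeff d p)) := rfl
    rw [h3]
    ring
  have h4 : p = ∑ d ∈ p.support, monomial d (coeff d p) := (support_sum_monomial_coeff p).symm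
  calc Th p = Th (∑ d ∈ p.support, monomial d (coeff d p)) := by rw [← h4]
    _ = ∑ d ∈ p.support, Polynomial.X ^ m * Polynomial.C (monomial d (coeff d p)) := by
        rw [map_sum]; exact Finset.sum_congr rfl h1
    _ = Polynomial.X ^ m * Polynomial.C p := by
        rw [← Finset.mul_sum, ← map_sum, ← h4]

private lemma Th_mins {v : Fin 2 → Fin 4 → MvPolynomial (Fin 4) ℂ}
    (hv : ∀ l i, IsWeightedHomogeneous ![1, 1, 1, 2] (v l i) ((![1, 1, 1, 2] : Fin 4 → ℕ) i))
    (i j : Fin 4) :
    (Polynomial.X : Polynomial (MvPolynomial (Fin 4) ℂ)) ^ (![1, 1, 1, 2] i : ℕ) *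
      Polynomial.X ^ (![1, 1, 1, 2] j : ℕ) * Th (mins (k := 2) v (i, j)) =
      Polynomial.X ^ 5 * Polynomial.C (mins (k := 2) v (i, j)) := by
  set w : Fin 4 → ℕ := ![1, 1, 1, 2] with hw
  set Mx : Matrix (Fin 4) (Fin 4) (MvPolynomial (Fin 4) ℂ) :=
    Matrix.of (Fin.cons (Pi.single i 1) (Fin.cons (Pi.single j 1) v) :
      Fin 4 → Fin 4 → MvPolynomial (Fin 4) ℂ) with hM
  have hm : mins (k := 2) v (i, j) = Mx.det := rfl
  have h1 : Th Mx.det = (Matrix.map Mx Th).det := by
    have := RingHom.map_det (Th : MvPolynomial (Fin 4) ℂ →ₐ[ℂ] Polynomial (MvPolynomial (Fin 4) ℂ)).toRingHom Mx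
    exact this
  have h2 : Polynomial.C Mx.det = (Matrix.map Mx (Polynomial.C)).det := by
    have := RingHom.map_det (Polynomial.C : MvPolynomial (Fin 4) ℂ →+* Polynomial (MvPolynomial (Fin 4) ℂ)) Mx
    exact this
  have h3 : Matrix.map Mx (Polynomial.C) * Matrix.diagonal
      (fun b => (Polynomial.X : Polynomial (MvPolynomial (Fin 4) ℂ)) ^ (w b)) =
      Matrix.diagonal (![Polynomial.X ^ (w i), Polynomial.X ^ (w j), 1, 1]) * Matrix.map Mx Th := by
    ext1 a b
    rw [Matrix.mul_diagonal, Matrix.diagonal_mul, Matrix.map_apply, Matrix.map_apply]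
    fin_cases a
    · show Polynomial.C ((Pi.single i 1 : Fin 4 → MvPolynomial (Fin 4) ℂ) b) * Polynomial.X ^ (w b)
        = Polynomial.X ^ (w i) * Th ((Pi.single i 1 : Fin 4 → MvPolynomial (Fin 4) ℂ) b)
      by_cases hb : b = i
      · subst hb; simp
      · simp [Pi.single_eq_of_ne hb]
    · show Polynomial.C ((Pi.single j 1 : Fin 4 → MvPolynomial (Fin 4) ℂ) b) * Polynomial.X ^ (w b)
        = Polynomial.X ^ (w j) * Th ((Pi.single j 1 : Fin 4 → MvPolynomial (Fin 4) ℂ) b)
      by_cases hb : b = j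
      · subst hb; simp
      · simp [Pi.single_eq_of_ne hb]
    · show Polynomial.C (v 0 b) * Polynomial.X ^ (w b) = 1 * Th (v 0 b)
      rw [Th_wh (hv 0 b)]; ring
    · show Polynomial.C (v 1 b) * Polynomial.X ^ (w b) = 1 * Th (v 1 b)
      rw [Th_wh (hv 1 b)]; ring
  have h4 := congrArg Matrix.det h3
  rw [Matrix.det_mul, Matrix.det_mul, Matrix.det_diagonal, Matrix.det_diagonal, ← h1, ← h2] at h4
  rw [hm]
  have h5 : ∏ b : Fin 4, (Polynomial.X : Polynomial (MvPolynomial (Fin 4) ℂ)) ^ (w b) =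
      Polynomial.X ^ 5 := by
    rw [Fin.prod_univ_four, hw]
    simp only [Matrix.cons_val]
    ring
  have h6 : ∏ b : Fin 4, (![Polynomial.X ^ (w i), Polynomial.X ^ (w j), 1, 1] :
      Fin 4 → Polynomial (MvPolynomial (Fin 4) ℂ)) b = Polynomial.X ^ (w i) * Polynomial.X ^ (w j) := by
    rw [Fin.prod_univ_four]
    simp
  rw [h5, h6] at h4
  rw [← h4]; ring

private lemma Th_bet {v : Fin 2 → Fin 4 → MvPolynomial (Fin 4) ℂ}
    (hv : ∀ l i, IsWeightedHomogeneous ![1, 1, 1, 2] (v l i) ((![1, 1, 1, 2] : Fin 4 → ℕ) i))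
    (j : Fin 4) :
    (Polynomial.X : Polynomial (MvPolynomial (Fin 4) ℂ)) ^ (![1, 1, 1, 2] j : ℕ) * Th (bet v j) =
      Polynomial.X ^ 5 * Polynomial.C (bet v j) := by
  unfold bet
  rw [map_sum, map_sum, Finset.mul_sum, Finset.mul_sum]
  refine Finset.sum_congr rfl fun i _ => ?_
  have h1 := Th_mins hv i j
  have h2 : Th (X i) = Polynomial.X ^ (![1, 1, 1, 2] i : ℕ) * Polynomial.C (X i) := by
    unfold Th; rw [aeval_X]
  rw [map_mul, map_mul, map_mul, map_mul, map_natCast, map_natCast, h2]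
  linear_combination ((![1, 1, 1, 2] i : ℕ) : Polynomial (MvPolynomial (Fin 4) ℂ)) *
    Polynomial.C (X i) * h1

private lemma mono_of_mul {D : Type} [CommRing D] [IsDomain D] {a b : Polynomial D} {c : D} {m : ℕ}
    (hc : c ≠ 0) (h : a * b = Polynomial.X ^ m * Polynomial.C c) :
    ∃ (k : ℕ) (a' : D), a = Polynomial.X ^ k * Polynomial.C a' := by
  have hr : Polynomial.X ^ m * Polynomial.C c = Polynomial.monomial m c := by
    rw [mul_comm, Polynomial.C_mul_X_pow_eq_monomial]
  rw [hr] at h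
  have hab : a * b ≠ 0 := by
    rw [h]; exact (Polynomial.monomial_eq_zero_iff c m).not.mpr hc
  have ha : a ≠ 0 := left_ne_zero_of_mul hab
  have hb : b ≠ 0 := right_ne_zero_of_mul hab
  have h1 : a.natDegree + b.natDegree = m := by
    rw [← Polynomial.natDegree_mul ha hb, h, Polynomial.natDegree_monomial_eq m hc]
  have h2 : a.natTrailingDegree + b.natTrailingDegree = m := by
    rw [← Polynomial.natTrailingDegree_mul ha hb, h, Polynomial.natTrailingDegree_monomial hc]
  have h3 := Polynomial.natTrailingDegree_le_natDegree a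
  have h4 := Polynomial.natTrailingDegree_le_natDegree b
  have h5 : a.natTrailingDegree = a.natDegree := by omega
  refine ⟨a.natDegree, a.coeff a.natDegree, ?_⟩
  rw [mul_comm, Polynomial.C_mul_X_pow_eq_monomial]
  ext n
  rw [Polynomial.coeff_monomial]
  split_ifs with hn
  · rw [hn]
  · rcases lt_or_gt_of_ne hn with h6 | h6
    · exact Polynomial.coeff_eq_zero_of_natDegree_lt h6
    · exact Polynomial.coeff_eq_zero_of_lt_natTrailingDegree (by omega)

private lemma cop_bet {N : ℕ} {v : Fin 2 → Fin 4 → MvPolynomial (Fin 4) ℂ}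
    {Φ0 : Fin 4 → MvPolynomial (Fin N) ℂ} (h0 : WH (k := 2) ![1, 1, 1, 2] ![0, 0] Φ0 v)
    (hβ : Cop (radC 3 (stdF (k := 2) Φ0 v))) : Cop (bet v : OF 4) := by
  have hv : ∀ l i, IsWeightedHomogeneous ![1, 1, 1, 2] (v l i) ((![1, 1, 1, 2] : Fin 4 → ℕ) i) := by
    intro l i
    have := h0.hv l i
    fin_cases l <;> simpa using this
  intro g hg
  have hu : IsUnit (aeval Φ0 g) := by
    apply hβ
    intro b
    rw [radC_eq Φ0 h0.hΦ v b]
    refine Dvd.dvd.mul_left (Finset.dvd_sum fun j _ => Dvd.dvd.mul_right ?_ _) _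
    exact map_dvd (aeval Φ0) (hg j)
  have hne : ∃ j, bet v j ≠ 0 := by
    by_contra hcon
    push Not at hcon
    have h1 : IsUnit (0 : MvPolynomial (Fin N) ℂ) := by
      apply hβ
      intro b
      rw [radC_eq Φ0 h0.hΦ v b]
      simp [hcon]
    exact not_isUnit_zero h1
  obtain ⟨j, hj⟩ := hne
  obtain ⟨h, hh⟩ := hg j
  have e1 := Th_bet hv j
  have e2 : Th (bet v j) = Th g * Th h := by rw [← map_mul, ← hh]
  rw [e2] at e1
  obtain ⟨k, g', hk⟩ := mono_of_mul hj
    (show Th g * (Polynomial.X ^ (![1, 1, 1, 2] j : ℕ) * Th h) = _ by rw [← e1]; ring)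
  have f1 : Polynomial.eval 1 (Th g) = g := by
    have : (Polynomial.evalRingHom (1 : MvPolynomial (Fin 4) ℂ)).comp (Th : _ →ₐ[ℂ] _).toRingHom =
        RingHom.id (MvPolynomial (Fin 4) ℂ) := by
      apply MvPolynomial.ringHom_ext
      · intro c
        show Polynomial.eval 1 (Th (C c)) = C c
        unfold Th
        rw [aeval_C]
        show Polynomial.eval 1 (Polynomial.C (C c)) = C c
        rw [Polynomial.eval_C]
      · intro i
        show Polynomial.eval 1 (Th (X i)) = X i
        unfold Th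
        rw [aeval_X]
        simp
    exact congrArg (fun φ : MvPolynomial (Fin 4) ℂ →+* MvPolynomial (Fin 4) ℂ => φ g) this
  have f0 : Polynomial.eval 0 (Th g) = C (constantCoeff g) := by
    have : (Polynomial.evalRingHom (0 : MvPolynomial (Fin 4) ℂ)).comp (Th : _ →ₐ[ℂ] _).toRingHom =
        (C : ℂ →+* MvPolynomial (Fin 4) ℂ).comp constantCoeff := by
      apply MvPolynomial.ringHom_ext
      · intro c
        show Polynomial.eval 0 (Th (C c)) = C (constantCoeff (C c))
        unfold Th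
        rw [aeval_C, constantCoeff_C]
        show Polynomial.eval 0 (Polynomial.C (C c)) = C c
        rw [Polynomial.eval_C]
      · intro i
        show Polynomial.eval 0 (Th (X i)) = C (constantCoeff (X i))
        unfold Th
        rw [aeval_X, constantCoeff_X, map_zero]
        fin_cases i <;> simp
    exact congrArg (fun φ : MvPolynomial (Fin 4) ℂ →+* MvPolynomial (Fin 4) ℂ => φ g) this
  have hc : constantCoeff g ≠ 0 := by
    intro hc
    have hcomp : (constantCoeff : MvPolynomial (Fin N) ℂ →+* ℂ).comp (aeval Φ0 : _ →ₐ[ℂ] _).toRingHom =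
        (constantCoeff : MvPolynomial (Fin 4) ℂ →+* ℂ) := by
      apply MvPolynomial.ringHom_ext
      · intro c
        show constantCoeff (aeval Φ0 (C c)) = constantCoeff (C c)
        rw [aeval_C]
        show constantCoeff (C c) = _
        rw [constantCoeff_C, constantCoeff_C]
      · intro i
        show constantCoeff (aeval Φ0 (X i)) = constantCoeff (X i)
        rw [aeval_X, constantCoeff_X]
        show coeff 0 (Φ0 i) = 0
        apply (h0.hΦ i).coeff_eq_zero
        rw [map_zero]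
        fin_cases i <;> simp
    have h3 : constantCoeff (aeval Φ0 g) = 0 := by
      rw [← hc]
      exact congrArg (fun φ : MvPolynomial (Fin 4) ℂ →+* ℂ => φ g) hcomp
    have h4 := hu.map (constantCoeff : MvPolynomial (Fin N) ℂ →+* ℂ)
    rw [h3] at h4
    exact not_isUnit_zero h4
  rw [hk] at f0 f1
  rcases Nat.eq_zero_or_pos k with hk0 | hk0
  · subst hk0
    simp only [pow_zero, one_mul, Polynomial.eval_C] at f0 f1
    rw [← f1, f0]
    exact (isUnit_iff_ne_zero.mpr hc).map C
  · exfalso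
    rw [Polynomial.eval_mul, Polynomial.eval_pow, Polynomial.eval_X, zero_pow hk0.ne', zero_mul] at f0
    exact hc (C_injective _ _ (by rw [← f0, map_zero]))


private lemma split2 {R : Type} [CommRing R] (s : Polynomial R) :
    s = Polynomial.expand R 2 (Polynomial.contract 2 s) +
      Polynomial.X * Polynomial.expand R 2 (Polynomial.contract 2 (Polynomial.divX s)) := by
  ext n
  rw [Polynomial.coeff_add]
  rcases Nat.even_or_odd' n with ⟨m, rfl | rfl⟩
  · rw [Polynomial.coeff_expand_mul' (by norm_num), Polynomial.coeff_contract (by norm_num)]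
    have : (Polynomial.X * Polynomial.expand R 2
        (Polynomial.contract 2 (Polynomial.divX s))).coeff (2 * m) = 0 := by
      rcases m with _ | m
      · simp
      · rw [show 2 * (m + 1) = (2 * m + 1) + 1 from rfl, Polynomial.coeff_X_mul,
          Polynomial.coeff_expand (by norm_num), if_neg (by omega)]
    rw [this, add_zero, mul_comm]
  · rw [Polynomial.coeff_X_mul, Polynomial.coeff_expand (by norm_num), if_neg (by omega),
      Polynomial.coeff_expand_mul' (by norm_num), Polynomial.coeff_contract (by norm_num),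
      Polynomial.coeff_divX, zero_add, mul_comm]

private lemma contract_X_mul {R : Type} [CommRing R] (s : Polynomial R) :
    Polynomial.contract 2 (Polynomial.X * s) =
      Polynomial.X * Polynomial.contract 2 (Polynomial.divX s) := by
  ext n
  rw [Polynomial.coeff_contract (by norm_num)]
  rcases n with _ | n
  · simp
  · rw [show (n + 1) * 2 = (n * 2 + 1) + 1 from by ring, Polynomial.coeff_X_mul,
      Polynomial.coeff_X_mul, Polynomial.coeff_contract (by norm_num), Polynomial.coeff_divX]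

private lemma expand_cop {D : Type} [CommRing D] [IsDomain D] {b : Fin 4 → Polynomial D}
    (hP : ∀ B : Fin 4 → Polynomial D, (∀ i j, B i * b j = B j * b i) → ∃ c, ∀ i, B i = c * b i)
    (hb : ∃ i, b i ≠ 0) {p : Polynomial D} (hp : ∀ j, p ∣ Polynomial.expand D 2 (b j)) :
    IsUnit p := by
  choose B hB using hp
  obtain ⟨i0, hi0⟩ := hb
  have hex : Polynomial.expand D 2 (b i0) ≠ 0 := by
    rwa [Ne, Polynomial.expand_eq_zero (by norm_num)]
  have hp0 : p ≠ 0 := by
    rintro rfl
    rw [hB i0, zero_mul] at hex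
    exact hex rfl
  have hc : ∀ i j, B i * Polynomial.expand D 2 (b j) = B j * Polynomial.expand D 2 (b i) := by
    intro i j
    apply mul_left_cancel₀ hp0
    rw [← mul_assoc, ← hB i, ← mul_assoc, ← hB j, mul_comm]
  have h0 : ∀ i j, Polynomial.contract 2 (B i) * b j = Polynomial.contract 2 (B j) * b i := by
    intro i j
    rw [← Polynomial.contract_mul_expand (by norm_num), hc i j,
      Polynomial.contract_mul_expand (by norm_num)]
  have h1 : ∀ i j, Polynomial.contract 2 (Polynomial.divX (B i)) * b j =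
      Polynomial.contract 2 (Polynomial.divX (B j)) * b i := by
    intro i j
    apply mul_left_cancel₀ (Polynomial.X_ne_zero (R := D))
    rw [← mul_assoc, ← contract_X_mul, ← mul_assoc, ← contract_X_mul,
      ← Polynomial.contract_mul_expand (by norm_num), ← Polynomial.contract_mul_expand (by norm_num),
      mul_assoc, mul_assoc, hc i j]
  obtain ⟨c0, hc0⟩ := hP _ h0
  obtain ⟨c1, hc1⟩ := hP _ h1
  have h2 := split2 (B i0)
  rw [hc0 i0, hc1 i0, map_mul, map_mul] at h2
  have hB0 : B i0 ≠ 0 := by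
    intro h
    rw [hB i0, h, mul_zero] at hex
    exact hex rfl
  have h3 : (Polynomial.expand D 2 c0 + Polynomial.X * Polynomial.expand D 2 c1) * p = 1 := by
    apply mul_right_cancel₀ hB0
    rw [mul_assoc, ← hB i0, one_mul]
    conv_rhs => rw [h2]
    ring
  exact IsUnit.of_mul_eq_one_right _ h3

private lemma cop_P {A : OF 4} (hc : Cop A) (hne : ∃ i, A i ≠ 0)
    (B : Fin 4 → MvPolynomial (Fin 4) ℂ) (h : ∀ i j, B i * A j = B j * A i) :
    ∃ c, ∀ i, B i = c * A i := by
  obtain ⟨i, hi⟩ := hne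
  obtain ⟨c, hcc⟩ := Pool.Agent.Helper93.dvd_of_cop hc (a := A i) (b := B i)
    (fun j => ⟨B j, by rw [mul_comm, h i j, mul_comm]⟩)
  refine ⟨c, fun j => ?_⟩
  apply mul_right_cancel₀ hi
  rw [h j i, hcc]
  ring

/-- substitution -/
private noncomputable def eqh (q : MvPolynomial (Fin 3) ℂ) :
    MvPolynomial (Fin 4) ℂ →+* Polynomial (MvPolynomial (Fin 3) ℂ) :=
  eval₂Hom (Polynomial.C.comp C) ![Polynomial.C (X 0), Polynomial.C (X 1), Polynomial.C (X 2),
    Polynomial.X + Polynomial.C q]

private noncomputable def gqh (q : MvPolynomial (Fin 3) ℂ) :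
    Polynomial (MvPolynomial (Fin 3) ℂ) →+* MvPolynomial (Fin 4) ℂ :=
  Polynomial.eval₂RingHom (rename Fin.castSucc : MvPolynomial (Fin 3) ℂ →ₐ[ℂ]
    MvPolynomial (Fin 4) ℂ).toRingHom (X 3 - rename Fin.castSucc q)

private lemma eqh_rename (q s : MvPolynomial (Fin 3) ℂ) :
    eqh q (rename Fin.castSucc s) = Polynomial.C s := by
  have : (eqh q).comp (rename Fin.castSucc : MvPolynomial (Fin 3) ℂ →ₐ[ℂ]
      MvPolynomial (Fin 4) ℂ).toRingHom = Polynomial.C := by
    apply MvPolynomial.ringHom_ext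
    · intro c
      show eqh q (rename Fin.castSucc (C c)) = _
      rw [rename_C]
      unfold eqh
      rw [coe_eval₂Hom, eval₂_C]
      rfl
    · intro i
      show eqh q (rename Fin.castSucc (X i)) = _
      rw [rename_X]
      unfold eqh
      rw [coe_eval₂Hom, eval₂_X]
      fin_cases i <;> rfl
  exact congrArg (fun φ : MvPolynomial (Fin 3) ℂ →+* Polynomial (MvPolynomial (Fin 3) ℂ) => φ s) this

private noncomputable def ei (q : MvPolynomial (Fin 3) ℂ) :
    MvPolynomial (Fin 4) ℂ ≃+* Polynomial (MvPolynomial (Fin 3) ℂ) :=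
  RingEquiv.ofRingHom (eqh q) (gqh q)
    (by
      apply Polynomial.ringHom_ext
      · intro s
        show eqh q (gqh q (Polynomial.C s)) = _
        unfold gqh
        rw [Polynomial.coe_eval₂RingHom, Polynomial.eval₂_C]
        exact eqh_rename q s
      · show eqh q (gqh q Polynomial.X) = _
        unfold gqh
        rw [Polynomial.coe_eval₂RingHom, Polynomial.eval₂_X, map_sub, eqh_rename]
        have : eqh q (X 3) = Polynomial.X + Polynomial.C q := by
          unfold eqh
          rw [coe_eval₂Hom, eval₂_X]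
          rfl
        rw [this]
        simp)
    (by
      apply MvPolynomial.ringHom_ext
      · intro c
        show gqh q (eqh q (C c)) = C c
        unfold eqh gqh
        rw [coe_eval₂Hom, eval₂_C]
        show Polynomial.eval₂RingHom _ _ (Polynomial.C (C c)) = _
        rw [Polynomial.coe_eval₂RingHom, Polynomial.eval₂_C]
        exact rename_C _ _
      · intro i
        show gqh q (eqh q (X i)) = X i
        unfold eqh gqh
        rw [coe_eval₂Hom, eval₂_X]
        rw [Polynomial.coe_eval₂RingHom]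
        fin_cases i
        · show Polynomial.eval₂ _ _ (Polynomial.C (X 0)) = _
          rw [Polynomial.eval₂_C]; exact rename_X _ _
        · show Polynomial.eval₂ _ _ (Polynomial.C (X 1)) = _
          rw [Polynomial.eval₂_C]; exact rename_X _ _
        · show Polynomial.eval₂ _ _ (Polynomial.C (X 2)) = _
          rw [Polynomial.eval₂_C]; exact rename_X _ _
        · show Polynomial.eval₂ _ _ (Polynomial.X + Polynomial.C q) = _
          rw [Polynomial.eval₂_add, Polynomial.eval₂_X, Polynomial.eval₂_C]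
          show X 3 - rename Fin.castSucc q + rename Fin.castSucc q = X 3
          ring)

private noncomputable def sg (q : MvPolynomial (Fin 3) ℂ) :
    MvPolynomial (Fin 4) ℂ →ₐ[ℂ] MvPolynomial (Fin 4) ℂ :=
  aeval ![X 0, X 1, X 2, X 3 ^ 2 + rename Fin.castSucc q]

private lemma e0_sg (q : MvPolynomial (Fin 3) ℂ) (a : MvPolynomial (Fin 4) ℂ) :
    eqh 0 (sg q a) = Polynomial.expand _ 2 (eqh q a) := by
  have : (eqh 0).comp (sg q).toRingHom =
      (Polynomial.expand (MvPolynomial (Fin 3) ℂ) 2).toRingHom.comp (eqh q) := by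
    apply MvPolynomial.ringHom_ext
    · intro c
      show eqh 0 (sg q (C c)) = Polynomial.expand _ 2 (eqh q (C c))
      unfold sg
      rw [aeval_C]
      show eqh 0 (C c) = _
      unfold eqh
      rw [coe_eval₂Hom, coe_eval₂Hom, eval₂_C, eval₂_C]
      show _ = Polynomial.expand _ 2 (Polynomial.C (C c))
      rw [Polynomial.expand_C]
      rfl
    · intro i
      show eqh 0 (sg q (X i)) = Polynomial.expand _ 2 (eqh q (X i))
      unfold sg
      rw [aeval_X]
      have h1 : ∀ r : MvPolynomial (Fin 3) ℂ, ∀ i : Fin 4, eqh r (X i) = (![Polynomial.C (X 0),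
          Polynomial.C (X 1), Polynomial.C (X 2), Polynomial.X + Polynomial.C r] :
          Fin 4 → Polynomial (MvPolynomial (Fin 3) ℂ)) i := by
        intro r i
        unfold eqh
        rw [coe_eval₂Hom, eval₂_X]
      fin_cases i
      · show eqh 0 (X 0) = Polynomial.expand _ 2 (eqh q (X 0))
        rw [h1, h1]; show Polynomial.C (X 0) = Polynomial.expand _ 2 (Polynomial.C (X 0))
        rw [Polynomial.expand_C]
      · show eqh 0 (X 1) = Polynomial.expand _ 2 (eqh q (X 1))
        rw [h1, h1]; show Polynomial.C (X 1) = Polynomial.expand _ 2 (Polynomial.C (X 1))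
        rw [Polynomial.expand_C]
      · show eqh 0 (X 2) = Polynomial.expand _ 2 (eqh q (X 2))
        rw [h1, h1]; show Polynomial.C (X 2) = Polynomial.expand _ 2 (Polynomial.C (X 2))
        rw [Polynomial.expand_C]
      · show eqh 0 (X 3 ^ 2 + rename Fin.castSucc q) = Polynomial.expand _ 2 (eqh q (X 3))
        rw [map_add, map_pow, eqh_rename, h1, h1]
        show (Polynomial.X + Polynomial.C 0) ^ 2 + Polynomial.C q =
          Polynomial.expand _ 2 (Polynomial.X + Polynomial.C q)
        rw [map_add, Polynomial.expand_X, Polynomial.expand_C, map_zero, add_zero]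
  exact congrArg (fun φ : MvPolynomial (Fin 4) ℂ →+* Polynomial (MvPolynomial (Fin 3) ℂ) => φ a) this

private lemma cop_sg {A : OF 4} (hc : Cop A) (hne : ∃ i, A i ≠ 0) (q : MvPolynomial (Fin 3) ℂ) :
    Cop (fun i => sg q (A i) : OF 4) := by
  intro p hp
  have h1 : IsUnit (eqh 0 p) := by
    apply expand_cop (b := fun i => eqh q (A i))
    · intro B hB
      have h2 : ∀ i j, (ei q).symm (B i) * A j = (ei q).symm (B j) * A i := by
        intro i j
        apply (ei q).injective
        rw [map_mul, map_mul, RingEquiv.apply_symm_apply, RingEquiv.apply_symm_apply]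
        exact hB i j
      obtain ⟨c, hcc⟩ := cop_P hc hne _ h2
      refine ⟨eqh q c, fun i => ?_⟩
      have := congrArg (ei q) (hcc i)
      rw [RingEquiv.apply_symm_apply, map_mul] at this
      exact this
    · obtain ⟨i, hi⟩ := hne
      exact ⟨i, fun h => hi ((ei q).injective (by rw [map_zero]; exact h))⟩
    · intro j
      rw [← e0_sg]
      exact map_dvd (eqh 0) (hp j)
  have h3 := h1.map (ei 0).symm
  have h4 : (ei 0).symm (eqh 0 p) = p := (ei 0).symm_apply_apply p
  rwa [h4] at h3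

private lemma alp_rowz (r : Fin 2 → Fin 4 → MvPolynomial (Fin 4) ℂ)
    (x : Fin 4 → MvPolynomial (Fin 4) ℂ) :
    ∑ j, r 0 j * alp (k := 2) r x (Pi.single j 1) = 0 := by
  classical
  set m : Fin 4 → Fin 4 → MvPolynomial (Fin 4) ℂ := Fin.cons x (Fin.cons 0 r) with hm
  set L : (Fin 4 → MvPolynomial (Fin 4) ℂ) →ₗ[MvPolynomial (Fin 4) ℂ] MvPolynomial (Fin 4) ℂ :=
    (Matrix.detRowAlternating (n := Fin 4) (R := MvPolynomial (Fin 4) ℂ)).toMultilinearMap.toLinearMap
      m 1 with hL
  have h1 : ∀ y, L y = alp (k := 2) r x y := by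
    intro y
    show Matrix.det (Function.update m 1 y) = Matrix.det _
    congr 1
    ext1 a b
    fin_cases a <;> rfl
  have h2 := L.pi_apply_eq_sum_univ (r 0)
  have h3 : L (r 0) = 0 := by
    rw [h1]
    unfold alp
    apply Matrix.det_zero_of_row_eq (i := 1) (j := 2) (by decide)
    rfl
  rw [h3] at h2
  rw [h2]
  refine Finset.sum_congr rfl fun j _ => ?_
  rw [smul_eq_mul, h1]
  congr 2
  funext i
  by_cases h : j = i
  · subst h; simp
  · simp [h]

private lemma bet_rel (v : Fin 2 → Fin 4 → MvPolynomial (Fin 4) ℂ) :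
    ∑ j, bet v j * v 0 j = 0 := by
  unfold bet
  simp only [Finset.sum_mul]
  rw [Finset.sum_comm]
  refine Finset.sum_eq_zero fun i _ => ?_
  have h := alp_rowz v (Pi.single i 1)
  calc ∑ j, ((![1, 1, 1, 2] i : ℕ) : MvPolynomial (Fin 4) ℂ) * X i * mins (k := 2) v (i, j) * v 0 j
      = ((![1, 1, 1, 2] i : ℕ) : MvPolynomial (Fin 4) ℂ) * X i *
        ∑ j, v 0 j * alp (k := 2) v (Pi.single i 1) (Pi.single j 1) := by
        rw [Finset.mul_sum]
        refine Finset.sum_congr rfl fun j _ => ?_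
        show _ * _ * alp (k := 2) v (Pi.single i 1) (Pi.single j 1) * v 0 j = _
        ring
    _ = 0 := by rw [h, mul_zero]

private lemma case2 {v : Fin 2 → Fin 4 → MvPolynomial (Fin 4) ℂ} (hc : Cop (bet v : OF 4))
    {q : MvPolynomial (Fin 3) ℂ} (hq2 : q.IsHomogeneous 2) (hh : hq v q 0 ≠ 0)
    (h : ∀ a : Fin 3, (X 3 : MvPolynomial (Fin 4) ℂ) ∣ sg q (bet v a.castSucc) +
      sg q (bet v 3) * rename Fin.castSucc (pderiv a q)) : False := by
  set ev : MvPolynomial (Fin 4) ℂ →ₐ[ℂ] MvPolynomial (Fin 3) ℂ :=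
    aeval ![X 0, X 1, X 2, q] with hev
  set κ : MvPolynomial (Fin 4) ℂ →ₐ[ℂ] MvPolynomial (Fin 3) ℂ :=
    aeval ![X 0, X 1, X 2, 0] with hκ
  have k3 : κ (X 3) = 0 := by rw [hκ, aeval_X]; rfl
  have kr : ∀ s, κ (rename Fin.castSucc s) = s := by
    intro s
    rw [hκ, aeval_rename]
    have : ((![X 0, X 1, X 2, 0] : Fin 4 → MvPolynomial (Fin 3) ℂ) ∘ Fin.castSucc) = X := by
      funext i; fin_cases i <;> rfl
    rw [this, aeval_X_left_apply]
  have ks : ∀ b, κ (sg q b) = ev b := by
    intro b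
    have : κ.comp (sg q) = ev := by
      apply MvPolynomial.algHom_ext
      intro i
      rw [AlgHom.comp_apply]
      unfold sg
      rw [aeval_X, hev, aeval_X]
      fin_cases i
      · show κ (X 0) = X 0
        rw [hκ, aeval_X]; rfl
      · show κ (X 1) = X 1
        rw [hκ, aeval_X]; rfl
      · show κ (X 2) = X 2
        rw [hκ, aeval_X]; rfl
      · show κ (X 3 ^ 2 + rename Fin.castSucc q) = q
        rw [map_add, map_pow, k3, kr]; ring
    rw [← this]; rfl
  have h1 : ∀ a : Fin 3, ev (bet v a.castSucc) + ev (bet v 3) * pderiv a q = 0 := by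
    intro a
    have := map_dvd κ (h a)
    rw [k3, zero_dvd_iff, map_add, map_mul, ks, ks, kr] at this
    exact this
  have h2 : ev (bet v 3) * hq v q 0 = 0 := by
    have h3 := congrArg ev (bet_rel v)
    rw [map_sum, map_zero, Fin.sum_univ_castSucc] at h3
    unfold hq
    rw [mul_sub, Finset.mul_sum]
    have h4 : ∀ j : Fin 3, ev (bet v 3) * (aeval ![X 0, X 1, X 2, q] (v 0 j.castSucc) * pderiv j q) =
        - ev (bet v j.castSucc * v 0 j.castSucc) := by
      intro j
      rw [map_mul]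
      linear_combination (ev (v 0 j.castSucc)) * h1 j
    rw [Finset.sum_congr rfl (fun j _ => h4 j), Finset.sum_neg_distrib, sub_neg_eq_add, ← h3, map_mul]
    rw [add_comm]
    rfl
  have h5 : ev (bet v 3) = 0 := (mul_eq_zero.mp h2).resolve_right hh
  have h6 : ∀ j, ev (bet v j) = 0 := by
    intro j
    refine Fin.lastCases h5 (fun a => ?_) j
    have := h1 a
    rw [h5, zero_mul, add_zero] at this
    exact this
  have h7 : ∀ b : MvPolynomial (Fin 4) ℂ, ev b = 0 →
      (X 3 - rename Fin.castSucc q : MvPolynomial (Fin 4) ℂ) ∣ b := by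
    intro b hb
    set I : Ideal (MvPolynomial (Fin 4) ℂ) :=
      Ideal.span {(X 3 - rename Fin.castSucc q : MvPolynomial (Fin 4) ℂ)} with hI
    have e1 : (Ideal.Quotient.mk I).comp ((rename Fin.castSucc : MvPolynomial (Fin 3) ℂ →ₐ[ℂ]
        MvPolynomial (Fin 4) ℂ).comp ev).toRingHom = Ideal.Quotient.mk I := by
      apply MvPolynomial.ringHom_ext
      · intro c
        show Ideal.Quotient.mk I (rename Fin.castSucc (ev (C c))) = _
        congr 1
        rw [hev, aeval_C]
        exact rename_C _ _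
      · intro i
        show Ideal.Quotient.mk I (rename Fin.castSucc (ev (X i))) = _
        rw [hev, aeval_X]
        fin_cases i
        · congr 1; exact rename_X _ _
        · congr 1; exact rename_X _ _
        · congr 1; exact rename_X _ _
        · show Ideal.Quotient.mk I (rename Fin.castSucc q) = Ideal.Quotient.mk I (X 3)
          rw [eq_comm, Ideal.Quotient.eq, hI]
          exact Ideal.subset_span rfl
    have e2 := congrArg (fun φ : MvPolynomial (Fin 4) ℂ →+* _ => φ b) e1
    have e3 : Ideal.Quotient.mk I (rename Fin.castSucc (ev b)) = Ideal.Quotient.mk I b := e2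
    rw [hb, map_zero, map_zero, eq_comm, Ideal.Quotient.eq_zero_iff_mem, hI,
      Ideal.mem_span_singleton] at e3
    exact e3
  have h8 := hc _ (fun j => h7 _ (h6 j))
  have h9 := h8.map (constantCoeff : MvPolynomial (Fin 4) ℂ →+* ℂ)
  rw [map_sub, constantCoeff_X, constantCoeff_rename] at h9
  have h10 : constantCoeff q = 0 := hq2.coeff_eq_zero (by rw [map_zero]; norm_num)
  rw [h10, sub_zero] at h9
  exact not_isUnit_zero h9

private noncomputable def P4 (q : MvPolynomial (Fin 3) ℂ) : Fin 4 → MvPolynomial (Fin 4) ℂ :=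
  ![X 0, X 1, X 2, X 3 ^ 2 + rename Fin.castSucc q]

private noncomputable def GG4 (v : Fin 2 → Fin 4 → MvPolynomial (Fin 4) ℂ)
    (q : MvPolynomial (Fin 3) ℂ) (b : Fin 4) : MvPolynomial (Fin 4) ℂ :=
  ∑ j, sg q (bet v j) * pderiv b (P4 q j)

private lemma GG4_lt (v : Fin 2 → Fin 4 → MvPolynomial (Fin 4) ℂ)
    (q : MvPolynomial (Fin 3) ℂ) (a : Fin 3) :
    GG4 v q a.castSucc = sg q (bet v a.castSucc) +
      sg q (bet v 3) * rename Fin.castSucc (pderiv a q) := by
  have hr : pderiv a.castSucc (rename Fin.castSucc q) = rename Fin.castSucc (pderiv a q) :=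
    pderiv_rename (Fin.castSucc_injective 3) a q
  have h3 : pderiv a.castSucc (P4 q 3) = rename Fin.castSucc (pderiv a q) := by
    show pderiv a.castSucc (X 3 ^ 2 + rename Fin.castSucc q) = _
    rw [map_add, hr, pderiv_pow, pderiv_X_of_ne (by
      intro h; exact absurd (congrArg Fin.val h) (by simp; omega))]
    simp
  unfold GG4
  rw [Fin.sum_univ_castSucc]
  show _ + sg q (bet v 3) * pderiv a.castSucc (P4 q 3) = _
  rw [h3]
  congr 1
  have h4 : ∀ j : Fin 3, P4 q j.castSucc = X j.castSucc := by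
    intro j; fin_cases j <;> rfl
  rw [Finset.sum_eq_single a]
  · rw [h4, pderiv_X_self, mul_one]
  · intro j _ hj
    rw [h4, pderiv_X_of_ne (by intro h; exact hj (Fin.castSucc_injective 3 h)), mul_zero]
  · intro h; exact absurd (Finset.mem_univ a) h

private lemma GG4_3 (v : Fin 2 → Fin 4 → MvPolynomial (Fin 4) ℂ) (q : MvPolynomial (Fin 3) ℂ) :
    GG4 v q 3 = sg q (bet v 3) * (C 2 * X 3) := by
  have hr : pderiv 3 (rename Fin.castSucc q : MvPolynomial (Fin 4) ℂ) = 0 := by
    classical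
    apply pderiv_eq_zero_of_notMem_vars
    intro h
    have h1 := vars_rename Fin.castSucc q h
    rw [Finset.mem_image] at h1
    obtain ⟨j, _, hj⟩ := h1
    have := congrArg Fin.val hj
    simp at this
    omega
  have h3 : pderiv 3 (P4 q 3) = C 2 * X 3 := by
    show pderiv 3 (X 3 ^ 2 + rename Fin.castSucc q : MvPolynomial (Fin 4) ℂ) = _
    rw [map_add, hr, pderiv_pow, pderiv_X_self]
    simp
    exact (map_ofNat C 2).symm
  unfold GG4
  rw [Fin.sum_univ_four, h3]
  have e0 : pderiv 3 (P4 q 0) = 0 := by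
    show pderiv 3 (X 0 : MvPolynomial (Fin 4) ℂ) = 0
    exact pderiv_X_of_ne (by decide)
  have e1 : pderiv 3 (P4 q 1) = 0 := by
    show pderiv 3 (X 1 : MvPolynomial (Fin 4) ℂ) = 0
    exact pderiv_X_of_ne (by decide)
  have e2 : pderiv 3 (P4 q 2) = 0 := by
    show pderiv 3 (X 2 : MvPolynomial (Fin 4) ℂ) = 0
    exact pderiv_X_of_ne (by decide)
  rw [e0, e1, e2]
  ring

private lemma cop_G {v : Fin 2 → Fin 4 → MvPolynomial (Fin 4) ℂ} (hc : Cop (bet v : OF 4))
    (hne : ∃ j, bet v j ≠ 0) {q : MvPolynomial (Fin 3) ℂ} (hq2 : q.IsHomogeneous 2)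
    (hh : hq v q 0 ≠ 0) : Cop (GG4 v q : OF 4) := by
  have hX : ∀ f : MvPolynomial (Fin 4) ℂ, f ∣ X 3 → Irreducible f → (∀ b, f ∣ GG4 v q b) → False := by
    intro f hf hfi hfd
    have h1 : Associated f (X 3 : MvPolynomial (Fin 4) ℂ) :=
      hfi.associated_of_dvd (X_prime.irreducible) hf
    refine case2 hc hq2 hh fun a => ?_
    rw [← GG4_lt]
    exact h1.symm.dvd.trans (hfd _)
  intro p hp
  by_contra hpu
  obtain ⟨f, hfi, hfd⟩ : ∃ f : MvPolynomial (Fin 4) ℂ, Irreducible f ∧ ∀ b, f ∣ GG4 v q b := by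
    by_cases hp0 : p = 0
    · refine ⟨X 0, X_prime.irreducible, fun b => ?_⟩
      have := hp b
      rw [hp0, zero_dvd_iff] at this
      rw [this]
      exact dvd_zero _
    · obtain ⟨f, hf, hfp⟩ := WfDvdMonoid.exists_irreducible_factor hpu hp0
      exact ⟨f, hf, fun b => hfp.trans (hp b)⟩
  have hfp : Prime f := UniqueFactorizationMonoid.irreducible_iff_prime.mp hfi
  have h3 := hfd 3
  rw [GG4_3] at h3
  rcases hfp.dvd_or_dvd h3 with h4 | h4
  · have h5 : ∀ j, f ∣ sg q (bet v j) := by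
      intro j
      refine Fin.lastCases h4 (fun a => ?_) j
      have h6 := hfd a.castSucc
      rw [GG4_lt] at h6
      exact (dvd_add_left (h4.mul_right _)).mp h6
    exact hfi.not_isUnit (cop_sg hc hne q f h5)
  · rcases hfp.dvd_or_dvd h4 with h5 | h5
    · exact hfi.not_isUnit (isUnit_of_dvd_unit h5 ((isUnit_iff_ne_zero.mpr (by norm_num)).map C))
    · exact hX f h5 hfi hfd

private lemma unit_of_rename {M : ℕ} {ι : Fin 4 → Fin M} (hι : Function.Injective ι) {G : OF 4}
    (hG : Cop G) {p : MvPolynomial (Fin M) ℂ} (hp : ∀ b, p ∣ rename ι (G b)) : IsUnit p := by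
  classical
  have hne : ∃ b, G b ≠ 0 := by
    by_contra hcon
    push Not at hcon
    exact not_isUnit_zero (hG 0 (fun i => by rw [hcon i]))
  obtain ⟨b, hb⟩ := hne
  have hrb : rename ι (G b) ≠ 0 := by
    intro h
    exact hb (rename_injective ι hι (by rw [h, map_zero]))
  obtain ⟨r, hr⟩ := hp b
  have hp0 : p ≠ 0 := by rintro rfl; rw [zero_mul] at hr; exact hrb hr
  have hr0 : r ≠ 0 := by rintro rfl; rw [mul_zero] at hr; exact hrb hr
  have hv : ↑p.vars ⊆ Set.range ι := by
    intro i hi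
    by_contra hcon
    rw [Finset.mem_coe, mem_vars_iff_degreeOf_ne_zero] at hi
    have h1 : degreeOf i (rename ι (G b)) = 0 := by
      by_contra h2
      rw [← Ne, ← mem_vars_iff_degreeOf_ne_zero] at h2
      have h3 := vars_rename ι (G b) h2
      rw [Finset.mem_image] at h3
      obtain ⟨j, _, hj⟩ := h3
      exact hcon ⟨j, hj⟩
    rw [hr, degreeOf_mul_eq hp0 hr0] at h1
    omega
  obtain ⟨p', rfl⟩ := exists_rename_eq_of_vars_subset_range p ι hι hv
  have h2 : IsUnit p' := by
    apply hG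
    intro j
    have h3 := map_dvd (killCompl hι) (hp j)
    rw [killCompl_rename_app, killCompl_rename_app] at h3
    exact h3
  exact h2.map (rename ι)

theorem cop_q {N M : ℕ} (hM : 4 ≤ M) (v : Fin 2 → Fin 4 → MvPolynomial (Fin 4) ℂ)
    {Φ0 : Fin 4 → MvPolynomial (Fin N) ℂ} (h0 : WH (k := 2) ![1, 1, 1, 2] ![0, 0] Φ0 v)
    (hβ : Cop (radC 3 (stdF (k := 2) Φ0 v))) {q : MvPolynomial (Fin 3) ℂ} (hq2 : q.IsHomogeneous 2)
    (hh : hq v q 0 ≠ 0) {Φ1 : Fin 4 → MvPolynomial (Fin M) ℂ}
    (h1 : Φ1 = ![X ⟨0, by omega⟩, X ⟨1, by omega⟩, X ⟨2, by omega⟩, X ⟨3, by omega⟩ ^ 2 +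
      aeval ![X ⟨0, by omega⟩, X ⟨1, by omega⟩, X ⟨2, by omega⟩] q]) :
    Cop (radC 3 (stdF (k := 2) Φ1 v)) := by
  have hc := cop_bet h0 hβ
  have hne : ∃ j, bet v j ≠ 0 := by
    by_contra hcon
    push Not at hcon
    exact not_isUnit_zero (hc 0 (fun i => by rw [hcon i]))
  have hG := cop_G hc hne hq2 hh
  have hι : Function.Injective (Fin.castLE hM) := Fin.castLE_injective hM
  have hΦ : ∀ i, Φ1 i = rename (Fin.castLE hM) (P4 q i) := by
    intro i
    rw [h1]
    fin_cases i
    · show X _ = rename (Fin.castLE hM) (X 0)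
      rw [rename_X]; rfl
    · show X _ = rename (Fin.castLE hM) (X 1)
      rw [rename_X]; rfl
    · show X _ = rename (Fin.castLE hM) (X 2)
      rw [rename_X]; rfl
    · show X _ ^ 2 + aeval _ q = rename (Fin.castLE hM) (X 3 ^ 2 + rename Fin.castSucc q)
      rw [map_add, map_pow, rename_X, rename_rename]
      congr 1
      rw [rename_eq_aeval]
      congr 2
      funext j
      fin_cases j <;> rfl
  have hhom : ∀ i, (P4 q i).IsHomogeneous (![1, 1, 1, 2] i) := by
    intro i
    fin_cases i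
    · exact isHomogeneous_X _ _
    · exact isHomogeneous_X _ _
    · exact isHomogeneous_X _ _
    · show (X 3 ^ 2 + rename Fin.castSucc q : MvPolynomial (Fin 4) ℂ).IsHomogeneous 2
      exact ((isHomogeneous_X ℂ (3 : Fin 4)).pow 2).add hq2.rename_isHomogeneous
  have hhom1 : ∀ i, (Φ1 i).IsHomogeneous (![1, 1, 1, 2] i) := by
    intro i; rw [hΦ]; exact (hhom i).rename_isHomogeneous
  have hsg : ∀ b, aeval Φ1 b = rename (Fin.castLE hM) (sg q b) := by
    intro b
    have : (aeval Φ1 : _ →ₐ[ℂ] _) = (rename (Fin.castLE hM)).comp (sg q) := by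
      apply MvPolynomial.algHom_ext
      intro i
      rw [AlgHom.comp_apply, aeval_X, hΦ]
      unfold sg
      rw [aeval_X]
      rfl
    rw [this]; rfl
  intro p hp
  apply unit_of_rename hι hG
  intro b
  have h2 := hp (Fin.castLE hM b)
  rw [radC_eq Φ1 hhom1 v] at h2
  have h3 : ∑ j, aeval Φ1 (bet v j) * pderiv (Fin.castLE hM b) (Φ1 j) =
      rename (Fin.castLE hM) (GG4 v q b) := by
    unfold GG4
    rw [map_sum]
    refine Finset.sum_congr rfl fun j _ => ?_
    rw [hsg, hΦ, pderiv_rename hι, map_mul]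
  rw [h3] at h2
  have h4 : IsUnit (C (((3 : ℕ) : ℂ) + 2)⁻¹ : MvPolynomial (Fin M) ℂ) :=
    (isUnit_iff_ne_zero.mpr (by norm_num)).map C
  exact (h4.dvd_mul_left).mp h2

end Pool.Agent.Helper1.FG
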