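import Pool.Agent.Helper1.FG.F6b

/-! FG-23: `cert_11111`; see the text in F6a. -/

set_option autoImplicit false

namespace Pool.Agent.Helper1.FG

open MvPolynomial
open scoped BigOperators
open Pool.Agent.Helper93 (TT OF RE HomS IntS FolS Cop Comp PreIrr pb)
open Pool.Agent.Helper71.FL

/-- linear forms with given coefficients -/
private noncomputable def Lf {R : Type} [CommRing R] {n m : ℕ} (φ : Fin m → Fin n → R) (i : Fin m) :
    MvPolynomial (Fin n) R := ∑ l, C (φ i l) * X l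

private def JJ (l : Fin 3) : Fin 5 → Fin 4 ⊕ Fin 3 :=
  ![Sum.inl 0, Sum.inl 1, Sum.inl 2, Sum.inl 3, Sum.inr l]

private theorem Lf_hom {R : Type} [CommRing R] {n m : ℕ} (φ : Fin m → Fin n → R) (i : Fin m) :
    (Lf φ i).IsHomogeneous 1 := by
  unfold Lf
  apply IsHomogeneous.sum
  intro l _
  exact (isHomogeneous_X R l).C_mul (φ i l)

private theorem Lf_map {R R' : Type} [CommRing R] [CommRing R'] (θ : R →+* R') {n m : ℕ}
    (φ : Fin m → Fin n → R) (i : Fin m) :
    MvPolynomial.map θ (Lf φ i) = Lf (fun i l => θ (φ i l)) i := by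
  unfold Lf
  rw [map_sum]
  apply Finset.sum_congr rfl
  intro l _
  rw [map_mul, map_C, map_X]

private theorem pderiv_Lf {R : Type} [CommRing R] {n m : ℕ} (φ : Fin m → Fin n → R) (i : Fin m)
    (a : Fin n) : pderiv a (Lf φ i) = C (φ i a) := by
  unfold Lf
  rw [map_sum, Finset.sum_eq_single a]
  · rw [pderiv_C_mul, pderiv_X_self, mul_one]
  · intro l _ hl
    rw [pderiv_C_mul, pderiv_X_of_ne hl, mul_zero]
  · intro h; exact absurd (Finset.mem_univ _) h

private theorem eval_Lf {n m : ℕ} (φ : Fin m → Fin n → ℂ) (i : Fin m) (x : Fin n → ℂ) :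
    eval x (Lf φ i) = ∑ l, φ i l * x l := by
  unfold Lf
  rw [map_sum]
  apply Finset.sum_congr rfl
  intro l _
  rw [map_mul, eval_C, eval_X]

private theorem hom_one {n : ℕ} {p : MvPolynomial (Fin n) ℂ} (hp : p.IsHomogeneous 1) :
    ∃ c : Fin n → ℂ, p = ∑ l, C (c l) * X l := by
  have h1 := hp.sum_X_mul_pderiv
  rw [one_smul] at h1
  have h2 : ∀ i, ∃ c : ℂ, pderiv i p = C c := by
    intro i
    have h3 : (pderiv i p).IsHomogeneous 0 := hp.pderiv
    rw [← totalDegree_zero_iff_isHomogeneous, totalDegree_eq_zero_iff_eq_C] at h3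
    exact ⟨_, h3⟩
  choose c hc using h2
  refine ⟨c, ?_⟩
  rw [← h1]
  apply Finset.sum_congr rfl
  intro l _
  rw [← hc l, ← h1, mul_comm]

private theorem map_mins {S S' : Type} [CommRing S] [CommRing S'] (θ : S →+* S') {k : ℕ}
    (r : Fin k → Fin (k + 2) → S) (p : Fin (k + 2) × Fin (k + 2)) :
    θ (mins r p) = mins (fun l i => θ (r l i)) p := by
  unfold mins
  rw [← alp_map]
  congr 1
  · funext i
    by_cases h : i = p.1
    · subst h; simp
    · simp [Pi.single_eq_of_ne h]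
  · funext i
    by_cases h : i = p.2
    · subst h; simp
    · simp [Pi.single_eq_of_ne h]

private theorem map_mnr {S S' : Type} [CommRing S] [CommRing S'] (θ : S →+* S') {k N : ℕ}
    (T : Fin N → Fin (k + 2) → S) (r : Fin k → Fin (k + 2) → S) (J : Fin (k + 2) → Fin N ⊕ Fin k) :
    θ (mnr T r J) = mnr (fun a i => θ (T a i)) (fun l i => θ (r l i)) J := by
  unfold mnr
  rw [RingHom.map_det]
  congr 1
  ext a i
  simp only [RingHom.mapMatrix_apply, Matrix.map_apply, Matrix.of_apply]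
  rcases J a with b | l
  · rfl
  · rfl

private theorem map_aev {R R' : Type} [CommRing R] [CommRing R'] (θ : R →+* R') {n m : ℕ}
    (φ : Fin m → Fin n → R) (p : MvPolynomial (Fin m) R) :
    MvPolynomial.map θ (aeval (Lf φ) p) =
      aeval (Lf (fun i l => θ (φ i l))) (MvPolynomial.map θ p) := by
  have h := MvPolynomial.map_bind₁ θ (Lf φ) p
  have h2 : (fun i => MvPolynomial.map θ (Lf φ i)) = Lf (fun i l => θ (φ i l)) := by
    funext i
    exact Lf_map θ φ i
  rw [h2] at h
  exact h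

/-- the two forms of the pullback -/
private theorem radC_pb {n : ℕ} (φ : Fin 5 → Fin n → ℂ)
    (v : Fin 3 → Fin 5 → MvPolynomial (Fin 5) ℂ) :
    radC 3 (stdF (k := 3) (Lf φ) v) =
      pb φ (radC 3 (stdF (k := 3) (fun i => (X i : MvPolynomial (Fin 5) ℂ)) v)) := by
  have h1 : ∀ a b, stdF (k := 3) (fun i => (X i : MvPolynomial (Fin 5) ℂ)) v a b =
      mins v (a, b) := by
    intro a b
    unfold stdF mins
    congr 1
    · funext l i
      exact MvPolynomial.aeval_X_left_apply _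
    · funext i
      rw [pderiv_X]
    · funext i
      rw [pderiv_X]
  funext b
  unfold radC pb
  have h2 : ∀ p, Pool.Agent.Helper93.lsub φ p = aeval (Lf φ) p := fun p => rfl
  simp only [h2, h1, stdF_expand, pderiv_Lf, map_mul, map_sum, aeval_C, aeval_X]
  have h3 : ∀ c : ℂ, (algebraMap ℂ (MvPolynomial (Fin n) ℂ)) c = C c := fun c => rfl
  simp only [h3]
  have h4 : ∀ i : Fin 5, Lf φ i = ∑ a, C (φ i a) * X a := fun i => rfl
  have h5 : ∀ A : Fin 5 → Fin 5 → MvPolynomial (Fin n) ℂ,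
      ∑ a, X a * ∑ i, ∑ j, A i j * (C (φ i a) * C (φ j b)) =
        ∑ j, C (φ j b) * ∑ i, Lf φ i * A i j := by
    intro A
    have h6 : ∀ F : Fin n → Fin 5 → Fin 5 → MvPolynomial (Fin n) ℂ,
        ∑ a, ∑ i, ∑ j, F a i j = ∑ j, ∑ i, ∑ a, F a i j := by
      intro F
      calc ∑ a, ∑ i, ∑ j, F a i j = ∑ i, ∑ a, ∑ j, F a i j := Finset.sum_comm
        _ = ∑ i, ∑ j, ∑ a, F a i j := Finset.sum_congr rfl (fun i _ => Finset.sum_comm)
        _ = ∑ j, ∑ i, ∑ a, F a i j := Finset.sum_comm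
    simp only [h4, Finset.mul_sum, Finset.sum_mul]
    rw [h6]
    apply Finset.sum_congr rfl
    intro j _
    apply Finset.sum_congr rfl
    intro i _
    apply Finset.sum_congr rfl
    intro a _
    ring
  rw [h5, Finset.mul_sum]
  apply Finset.sum_congr rfl
  intro j _
  ring


private theorem wh_map {R R' : Type} [CommRing R] [CommRing R'] (θ : R →+* R') {n : ℕ}
    {w : Fin n → ℕ} {p : MvPolynomial (Fin n) R} {m : ℕ} (hp : IsWeightedHomogeneous w p m) :
    IsWeightedHomogeneous w (MvPolynomial.map θ p) m := by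
  intro d hd
  rw [coeff_map] at hd
  exact hp (fun h => hd (by rw [h, map_zero]))

private noncomputable def gg {R : Type} [CommRing R] (φ : Fin 5 → Fin 4 → R)
    (v : Fin 3 → Fin 5 → MvPolynomial (Fin 5) R) (i : Fin 3) : MvPolynomial (Fin 4) R :=
  mnr (k := 3) (fun a j => pderiv a (Lf φ j)) (fun l j => aeval (Lf φ) (v l j)) (JJ i)

private noncomputable def mm {R : Type} [CommRing R] (φ : Fin 5 → Fin 4 → R)
    (v : Fin 3 → Fin 5 → MvPolynomial (Fin 5) R) (p : Fin 5 × Fin 5) : MvPolynomial (Fin 4) R :=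
  mins (k := 3) (fun l j => aeval (Lf φ) (v l j)) p

private theorem rr_hom {R : Type} [CommRing R] (φ : Fin 5 → Fin 4 → R)
    {v : Fin 3 → Fin 5 → MvPolynomial (Fin 5) R}
    (hv : ∀ l i, IsWeightedHomogeneous (fun _ => 1) (v l i) 1) (l : Fin 3) (i : Fin 5) :
    (aeval (Lf φ) (v l i)).IsHomogeneous 1 :=
  aeval_hom (k := 3) (w := fun _ => 1) (fun i => Lf_hom φ i) (hv l i)

private theorem dg_JJ (i : Fin 3) : dg (k := 3) (fun _ => 1) (fun _ => 0) (JJ i) = 1 := by
  unfold dg JJ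
  simp [Fin.sum_univ_succ]

private theorem gg_hom {R : Type} [CommRing R] (φ : Fin 5 → Fin 4 → R)
    {v : Fin 3 → Fin 5 → MvPolynomial (Fin 5) R}
    (hv : ∀ l i, IsWeightedHomogeneous (fun _ => 1) (v l i) 1) (i : Fin 3) :
    (gg φ v i).IsHomogeneous 1 := by
  have h := mnr_hom (k := 3) (fun _ => 1) (fun _ => Nat.one_pos) (fun _ => 0)
    (fun a j => pderiv a (Lf φ j)) (fun l j => aeval (Lf φ) (v l j)) (by
      intro a j
      rw [pderiv_Lf]
      exact isHomogeneous_C _ _) (rr_hom φ hv) (JJ i)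
  rw [dg_JJ] at h
  exact h

private theorem mm_hom {R : Type} [CommRing R] (φ : Fin 5 → Fin 4 → R)
    {v : Fin 3 → Fin 5 → MvPolynomial (Fin 5) R}
    (hv : ∀ l i, IsWeightedHomogeneous (fun _ => 1) (v l i) 1) (p : Fin 5 × Fin 5) :
    (mm φ v p).IsHomogeneous 3 := by
  have h := mins_hom (k := 3) (fun _ => 1) (fun _ => 0)
    (fun l j => aeval (Lf φ) (v l j)) (rr_hom φ hv) p
  have h2 : (∑ _i : Fin (3 + 2), 1 + ∑ _l : Fin 3, 0 - 1 - 1 : ℕ) = 3 := by
    simp
  rw [h2] at h
  exact h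

private theorem gg_map {R R' : Type} [CommRing R] [CommRing R'] (θ : R →+* R')
    (φ : Fin 5 → Fin 4 → R) (v : Fin 3 → Fin 5 → MvPolynomial (Fin 5) R) (i : Fin 3) :
    MvPolynomial.map θ (gg φ v i) =
      gg (fun i l => θ (φ i l)) (fun l i => MvPolynomial.map θ (v l i)) i := by
  unfold gg
  rw [map_mnr]
  congr 1
  · funext a j
    rw [← pderiv_map, Lf_map]
  · funext l j
    exact map_aev θ φ _

private theorem mm_map {R R' : Type} [CommRing R] [CommRing R'] (θ : R →+* R')
    (φ : Fin 5 → Fin 4 → R) (v : Fin 3 → Fin 5 → MvPolynomial (Fin 5) R) (p : Fin 5 × Fin 5) :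
    MvPolynomial.map θ (mm φ v p) =
      mm (fun i l => θ (φ i l)) (fun l i => MvPolynomial.map θ (v l i)) p := by
  unfold mm
  rw [map_mins]
  congr 1
  funext l j
  exact map_aev θ φ _

/-- conditions open along lines -/
private def LO (Q : (Fin 5 → Fin 4 → ℂ) → Prop) : Prop :=
  ∀ φ ψ : Fin 5 → Fin 4 → ℂ, Q φ → {t : ℂ | ¬ Q (fun i l => φ i l + t * (ψ i l - φ i l))}.Finite

private theorem LO_and {Q Q' : (Fin 5 → Fin 4 → ℂ) → Prop} (h : LO Q) (h' : LO Q') :
    LO (fun φ => Q φ ∧ Q' φ) := by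
  intro φ ψ hQ
  apply ((h φ ψ hQ.1).union (h' φ ψ hQ.2)).subset
  intro t ht
  simp only [Set.mem_ofPred_eq, not_and_or] at ht
  exact ht

private theorem LO_ex {Q Q' : (Fin 5 → Fin 4 → ℂ) → Prop} (h : LO Q) (h' : LO Q')
    (e : ∃ φ, Q φ) (e' : ∃ φ, Q' φ) : ∃ φ, Q φ ∧ Q' φ := by
  obtain ⟨φ, hφ⟩ := e
  obtain ⟨ψ, hψ⟩ := e'
  have h1 := h φ ψ hφ
  have h2 := h' ψ φ hψ
  have hinj : Function.Injective (fun t : ℂ => 1 - t) := by
    intro a b hab
    exact sub_right_injective hab
  have h3 := h1.union (h2.preimage hinj.injOn)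
  obtain ⟨t, ht⟩ := h3.infinite_compl.nonempty
  rw [Set.mem_compl_iff, Set.mem_union, not_or] at ht
  obtain ⟨ht1, ht2⟩ := ht
  simp only [Set.mem_ofPred_eq, Set.mem_preimage, not_not] at ht1 ht2
  refine ⟨_, ht1, ?_⟩
  convert ht2 using 3
  ring

/-- families of homogeneous polynomials depending polynomially on the matrix -/
private def LF {κ : Type} (Q : (Fin 5 → Fin 4 → ℂ) → κ → MvPolynomial (Fin 4) ℂ) : Prop :=
  ∀ φ ψ : Fin 5 → Fin 4 → ℂ, ∃ (f : κ → MvPolynomial (Fin 4) (Polynomial ℂ)) (e : κ → ℕ),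
    (∀ k, (f k).IsHomogeneous (e k)) ∧
    ∀ t k, ev t (Fin 4) (f k) = Q (fun i l => φ i l + t * (ψ i l - φ i l)) k

private theorem LF_sum {κ κ' : Type} {Q : (Fin 5 → Fin 4 → ℂ) → κ → MvPolynomial (Fin 4) ℂ}
    {Q' : (Fin 5 → Fin 4 → ℂ) → κ' → MvPolynomial (Fin 4) ℂ} (h : LF Q) (h' : LF Q') :
    LF (fun φ => Sum.elim (Q φ) (Q' φ)) := by
  intro φ ψ
  obtain ⟨f, e, h1, h2⟩ := h φ ψ
  obtain ⟨f', e', h1', h2'⟩ := h' φ ψ
  refine ⟨Sum.elim f f', Sum.elim e e', ?_, ?_⟩
  · rintro (k | k)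
    · exact h1 k
    · exact h1' k
  · rintro t (k | k)
    · exact h2 t k
    · exact h2' t k

private theorem LF_const {κ : Type} (q : κ → MvPolynomial (Fin 4) ℂ) (e : κ → ℕ)
    (hq : ∀ k, (q k).IsHomogeneous (e k)) : LF (fun _ => q) := by
  intro φ ψ
  refine ⟨fun k => cn (Fin 4) (q k), e, ?_, ?_⟩
  · intro k
    exact (hq k).map _
  · intro t k
    unfold ev cn
    rw [MvPolynomial.map_map]
    have h3 : (Polynomial.evalRingHom t).comp (Polynomial.C : ℂ →+* Polynomial ℂ)
        = RingHom.id ℂ := by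
      ext b
      simp
    rw [h3, MvPolynomial.map_id]

private theorem LF_LO {κ : Type} [Finite κ] {Q : (Fin 5 → Fin 4 → ℂ) → κ → MvPolynomial (Fin 4) ℂ}
    (h : LF Q) : LO (fun φ => Triv (Q φ)) := by
  intro φ ψ hQ
  obtain ⟨f, e, h1, h2⟩ := h φ ψ
  have h3 := triv_open f e h1 0 (by
    have h4 : (fun k => ev 0 (Fin 4) (f k)) = Q φ := by
      funext k
      rw [h2]
      congr 1
      funext i l
      ring
    rw [h4]
    exact hQ)
  have h5 : ∀ t, (fun k => ev t (Fin 4) (f k)) = Q (fun i l => φ i l + t * (ψ i l - φ i l)) := by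
    intro t
    funext k
    exact h2 t k
  simp only [h5] at h3
  exact h3

private theorem ev_line (t : ℂ) (φ ψ : Fin 5 → Fin 4 → ℂ) (i : Fin 5) (l : Fin 4) :
    Polynomial.evalRingHom t (Polynomial.C (φ i l) + Polynomial.X *
      Polynomial.C (ψ i l - φ i l)) = φ i l + t * (ψ i l - φ i l) := by
  simp

private theorem ev_v (t : ℂ) (v : Fin 3 → Fin 5 → MvPolynomial (Fin 5) ℂ) (l : Fin 3) (i : Fin 5) :
    MvPolynomial.map (Polynomial.evalRingHom t)
      (MvPolynomial.map (Polynomial.C : ℂ →+* Polynomial ℂ) (v l i)) = v l i := by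
  rw [MvPolynomial.map_map]
  have h3 : (Polynomial.evalRingHom t).comp (Polynomial.C : ℂ →+* Polynomial ℂ)
      = RingHom.id ℂ := by
    ext b
    simp
  rw [h3, MvPolynomial.map_id]

private theorem LF_gg {v : Fin 3 → Fin 5 → MvPolynomial (Fin 5) ℂ}
    (hv : ∀ l i, IsWeightedHomogeneous (fun _ => 1) (v l i) 1) : LF (fun φ => gg φ v) := by
  intro φ ψ
  refine ⟨gg (fun i l => Polynomial.C (φ i l) + Polynomial.X * Polynomial.C (ψ i l - φ i l))
    (fun l i => MvPolynomial.map (Polynomial.C : ℂ →+* Polynomial ℂ) (v l i)), fun _ => 1,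
    fun k => gg_hom _ (fun l i => wh_map _ (hv l i)) k, ?_⟩
  intro t k
  unfold ev
  rw [gg_map]
  simp only [ev_line, ev_v]

private theorem LF_mm {v : Fin 3 → Fin 5 → MvPolynomial (Fin 5) ℂ}
    (hv : ∀ l i, IsWeightedHomogeneous (fun _ => 1) (v l i) 1) : LF (fun φ => mm φ v) := by
  intro φ ψ
  refine ⟨mm (fun i l => Polynomial.C (φ i l) + Polynomial.X * Polynomial.C (ψ i l - φ i l))
    (fun l i => MvPolynomial.map (Polynomial.C : ℂ →+* Polynomial ℂ) (v l i)), fun _ => 3,
    fun k => mm_hom _ (fun l i => wh_map _ (hv l i)) k, ?_⟩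
  intro t k
  unfold ev
  rw [mm_map]
  simp only [ev_line, ev_v]

private theorem LO_h {h : MvPolynomial (Fin 5 × Fin 4) ℂ} :
    LO (fun φ => eval (fun q => φ q.1 q.2) h ≠ 0) := by
  intro φ ψ hQ
  let H : Polynomial ℂ := aeval (fun q : Fin 5 × Fin 4 => Polynomial.C (φ q.1 q.2) +
    Polynomial.X * Polynomial.C (ψ q.1 q.2 - φ q.1 q.2)) h
  have hH : ∀ t, Polynomial.eval t H =
      eval (fun q : Fin 5 × Fin 4 => φ q.1 q.2 + t * (ψ q.1 q.2 - φ q.1 q.2)) h := by
    intro t
    have h1 : (Polynomial.evalRingHom t).comp (aeval (fun q : Fin 5 × Fin 4 =>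
        Polynomial.C (φ q.1 q.2) + Polynomial.X * Polynomial.C (ψ q.1 q.2 - φ q.1 q.2)) :
        MvPolynomial (Fin 5 × Fin 4) ℂ →ₐ[ℂ] Polynomial ℂ).toRingHom =
        eval (fun q : Fin 5 × Fin 4 => φ q.1 q.2 + t * (ψ q.1 q.2 - φ q.1 q.2)) := by
      apply MvPolynomial.ringHom_ext
      · intro c; simp
      · intro q; simp
    exact RingHom.congr_fun h1 h
  have hH0 : H ≠ 0 := by
    intro h0
    apply hQ
    have h1 := hH 0
    rw [h0, Polynomial.eval_zero] at h1
    simp only [zero_mul, add_zero] at h1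
    exact h1.symm
  apply (H.roots.toFinset.finite_toSet).subset
  intro t ht
  simp only [Set.mem_ofPred_eq, not_not] at ht
  rw [Finset.mem_coe, Multiset.mem_toFinset, Polynomial.mem_roots hH0, Polynomial.IsRoot, hH]
  exact ht


private theorem eval_aev {n m : ℕ} (g : Fin m → MvPolynomial (Fin n) ℂ) (x : Fin n → ℂ)
    (p : MvPolynomial (Fin m) ℂ) : eval x (aeval g p) = eval (fun i => eval x (g i)) p := by
  have h : (eval x).comp (aeval g : MvPolynomial (Fin m) ℂ →ₐ[ℂ] MvPolynomial (Fin n) ℂ).toRingHom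
      = eval (fun i => eval x (g i)) := by
    apply MvPolynomial.ringHom_ext
    · intro c; simp
    · intro i; simp
  exact RingHom.congr_fun h p

private theorem eval_mm (φ : Fin 5 → Fin 4 → ℂ) (v : Fin 3 → Fin 5 → MvPolynomial (Fin 5) ℂ)
    (p : Fin 5 × Fin 5) (x : Fin 4 → ℂ) : eval x (mm φ v p) =
      mins (k := 3) (fun l j => eval (fun i => ∑ l, φ i l * x l) (v l j)) p := by
  unfold mm
  rw [map_mins]
  simp only [eval_aev, eval_Lf]

private theorem ex3 (v : Fin 3 → Fin 5 → MvPolynomial (Fin 5) ℂ)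
    {P : Fin 5 → MvPolynomial (Fin 3) ℂ} (hP : ∀ i, (P i).IsHomogeneous 1)
    (hT : Triv (mins (k := 3) (fun l i => aeval P (v l i)))) :
    ∃ φ, Triv (Sum.elim (mm φ v) (pads 4 3)) := by
  have h1 : ∀ i, ∃ c : Fin 3 → ℂ, P i = ∑ l, C (c l) * X l := fun i => hom_one (hP i)
  choose c hc using h1
  refine ⟨fun i => Fin.snoc (c i) 0, ?_⟩
  intro x hx
  have hx3 : x (Fin.last 3) = 0 := by
    have h2 := hx (Sum.inr ⟨Fin.last 3, le_refl 3⟩)
    simp only [Sum.elim_inr, pads, eval_X] at h2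
    exact h2
  have hy : ∀ i, ∑ l, (Fin.snoc (c i) 0 : Fin 4 → ℂ) l * x l =
      eval (fun l : Fin 3 => x l.castSucc) (P i) := by
    intro i
    rw [Fin.sum_univ_castSucc, Fin.snoc_last, zero_mul, add_zero, hc i, map_sum]
    apply Finset.sum_congr rfl
    intro l _
    rw [Fin.snoc_castSucc, map_mul, eval_C, eval_X]
  have h3 : (fun l : Fin 3 => x l.castSucc) = 0 := by
    apply hT
    intro p
    have h4 := hx (Sum.inl p)
    simp only [Sum.elim_inl] at h4
    rw [eval_mm] at h4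
    rw [map_mins]
    simp only [eval_aev]
    simp only [hy] at h4
    exact h4
  funext l
  refine Fin.lastCases ?_ ?_ l
  · exact hx3
  · intro l'
    exact congrFun h3 l'

private theorem JJ_castSucc (i : Fin 3) (a : Fin 4) : JJ i a.castSucc = Sum.inl a := by
  fin_cases a <;> rfl

private theorem JJ_last (i : Fin 3) : JJ i (Fin.last 4) = Sum.inr i := rfl

private theorem eval_gg (φ : Fin 5 → Fin 4 → ℂ) (v : Fin 3 → Fin 5 → MvPolynomial (Fin 5) ℂ)
    (k : Fin 3) (x : Fin 4 → ℂ) : eval x (gg φ v k) =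
      mnr (k := 3) (fun a j => φ j a)
        (fun l j => eval (fun i => ∑ l, φ i l * x l) (v l j)) (JJ k) := by
  unfold gg
  rw [map_mnr]
  simp only [eval_aev, eval_Lf, pderiv_Lf, eval_C]

/-- the minor vanishes only if the last row lies in the hyperplane -/
private theorem mnr_zero {φ : Fin 5 → Fin 4 → ℂ} {z : Fin 5 → ℂ}
    (hz : ∀ l, ∑ i, z i * φ i l = 0)
    (hinj : ∀ x : Fin 4 → ℂ, (∀ i, ∑ l, φ i l * x l = 0) → x = 0)
    {r : Fin 3 → Fin 5 → ℂ} {k : Fin 3}
    (h : mnr (k := 3) (fun a j => φ j a) r (JJ k) = 0) : ∑ i, z i * r k i = 0 := by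
  unfold mnr at h
  rw [← Matrix.exists_vecMul_eq_zero_iff] at h
  obtain ⟨c, hc0, hc⟩ := h
  by_contra hne
  apply hc0
  have h1 : ∀ j : Fin 5, ∑ a : Fin 4, c a.castSucc * φ j a + c (Fin.last 4) * r k j = 0 := by
    intro j
    have h2 := congrFun hc j
    rw [Matrix.vecMul, dotProduct, Fin.sum_univ_castSucc] at h2
    simp only [Matrix.of_apply, JJ_castSucc, Sum.elim_inl, Pi.zero_apply] at h2
    exact h2
  have h3 : c (Fin.last 4) * ∑ i, z i * r k i = 0 := by
    have h4 : ∑ j, z j * (∑ a : Fin 4, c a.castSucc * φ j a + c (Fin.last 4) * r k j) = 0 := by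
      apply Finset.sum_eq_zero
      intro j _
      rw [h1 j, mul_zero]
    have h5 : ∑ j, z j * (∑ a : Fin 4, c a.castSucc * φ j a + c (Fin.last 4) * r k j) =
        ∑ a : Fin 4, c a.castSucc * (∑ j, z j * φ j a) +
          c (Fin.last 4) * ∑ i, z i * r k i := by
      simp only [mul_add, Finset.sum_add_distrib, Finset.mul_sum]
      rw [Finset.sum_comm]
      congr 1
      · apply Finset.sum_congr rfl
        intro a _
        apply Finset.sum_congr rfl
        intro j _
        ring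
      · apply Finset.sum_congr rfl
        intro j _
        ring
    rw [h5] at h4
    simp only [hz, mul_zero, Finset.sum_const_zero, zero_add] at h4
    exact h4
  have h6 : c (Fin.last 4) = 0 := (mul_eq_zero.mp h3).resolve_right hne
  have h7 : (fun a : Fin 4 => c a.castSucc) = 0 := by
    apply hinj
    intro i
    have h8 := h1 i
    rw [h6, zero_mul, add_zero] at h8
    rw [← h8]
    apply Finset.sum_congr rfl
    intro a _
    ring
  funext a
  refine Fin.lastCases ?_ ?_ a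
  · exact h6
  · intro a'
    exact congrFun h7 a'

private theorem ex12 (v : Fin 3 → Fin 5 → MvPolynomial (Fin 5) ℂ)
    (h0 : ∀ l i, (v l i).IsHomogeneous 1) {z : Fin 5 → ℂ}
    (hLI : LinearIndependent ℂ
      (Fin.cons (∑ i, C (z i) * X i) (zv v z) : Fin 4 → MvPolynomial (Fin 5) ℂ))
    (hTr : Triv (Sum.elim
      (Fin.cons (∑ i, C (z i) * X i) (zv v z) : Fin 4 → MvPolynomial (Fin 5) ℂ)
        (mins (k := 3) v))) :
    ∃ i0 : Fin 4, ∃ φ, Triv (Sum.elim (Sum.elim (gg φ v)
      (fun _ : Fin 1 => (X i0 : MvPolynomial (Fin 4) ℂ))) (pads 4 4)) ∧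
      Triv (Sum.elim (Sum.elim (gg φ v) (mm φ v)) (pads 4 4)) := by
  classical
  set p : Fin 4 → MvPolynomial (Fin 5) ℂ := Fin.cons (∑ i, C (z i) * X i) (zv v z) with hp
  have hphom : ∀ a, (p a).IsHomogeneous 1 := by
    intro a
    refine Fin.cases ?_ ?_ a
    · rw [hp, Fin.cons_zero]
      apply IsHomogeneous.sum
      intro i _
      exact (isHomogeneous_X ℂ i).C_mul (z i)
    · intro l
      rw [hp, Fin.cons_succ]
      unfold zv
      apply IsHomogeneous.sum
      intro i _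
      exact (h0 l i).C_mul (z i)
  have h1 : ∀ a, ∃ c : Fin 5 → ℂ, p a = ∑ l, C (c l) * X l := fun a => hom_one (hphom a)
  choose m hm using h1
  -- the hyperplane
  have hz0 : z ≠ 0 := by
    rintro rfl
    apply hLI.ne_zero 0
    rw [hp, Fin.cons_zero]
    simp
  let Z : (Fin 5 → ℂ) →ₗ[ℂ] ℂ := Fintype.linearCombination ℂ z
  have hZ : ∀ y, Z y = ∑ i, z i * y i := by
    intro y
    rw [Fintype.linearCombination_apply]
    apply Finset.sum_congr rfl
    intro i _
    rw [smul_eq_mul, mul_comm]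
  have hZs : LinearMap.range Z = ⊤ := by
    rw [LinearMap.range_eq_top]
    obtain ⟨i, hi⟩ := Function.ne_iff.mp hz0
    intro c
    refine ⟨Pi.single i (c / z i), ?_⟩
    rw [hZ, Finset.sum_eq_single i]
    · rw [Pi.single_eq_same]
      field_simp [show z i ≠ 0 from hi]
    · intro j _ hj
      rw [Pi.single_eq_of_ne hj, mul_zero]
    · intro h; exact absurd (Finset.mem_univ _) h
  have hker : Module.finrank ℂ (LinearMap.ker Z) = Module.finrank ℂ (Fin 4 → ℂ) := by
    have h2 := LinearMap.finrank_range_add_finrank_ker Z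
    rw [hZs, finrank_top, Module.finrank_self, Module.finrank_fin_fun] at h2
    rw [Module.finrank_fin_fun]
    omega
  let e : (Fin 4 → ℂ) ≃ₗ[ℂ] LinearMap.ker Z := (LinearEquiv.ofFinrankEq _ _ hker).symm
  let L : (Fin 4 → ℂ) →ₗ[ℂ] (Fin 5 → ℂ) := (LinearMap.ker Z).subtype ∘ₗ e.toLinearMap
  let φ : Fin 5 → Fin 4 → ℂ := fun i l => L (Pi.single l 1) i
  have hL : ∀ x i, L x i = ∑ l, φ i l * x l := by
    intro x i
    have h2 : x = ∑ l, x l • (Pi.single l (1 : ℂ) : Fin 4 → ℂ) := by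
      funext j
      rw [Finset.sum_apply, Finset.sum_eq_single j]
      · simp
      · intro b _ hb
        simp [Ne.symm hb]
      · intro h; exact absurd (Finset.mem_univ _) h
    conv_lhs => rw [h2]
    rw [map_sum, Finset.sum_apply]
    apply Finset.sum_congr rfl
    intro l _
    rw [map_smul, Pi.smul_apply, smul_eq_mul, mul_comm]
  have hLinj : Function.Injective L :=
    (LinearMap.ker Z).injective_subtype.comp e.injective
  have hLZ : ∀ x, Z (L x) = 0 := fun x => (e x).2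
  have hzφ : ∀ l, ∑ i, z i * φ i l = 0 := by
    intro l
    rw [← hZ]
    exact hLZ _
  have hinj : ∀ x : Fin 4 → ℂ, (∀ i, ∑ l, φ i l * x l = 0) → x = 0 := by
    intro x hx
    apply hLinj
    rw [map_zero]
    funext i
    rw [hL, hx i]
    rfl
  have hfun : ∀ x, (fun i => ∑ l, φ i l * x l) = L x := by
    intro x; funext i; rw [hL]
  -- evaluation of the four forms at points of the hyperplane
  have hev : ∀ x : Fin 4 → ℂ, (∀ k, eval x (gg φ v k) = 0) → ∀ a, eval (L x) (p a) = 0 := by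
    intro x hx a
    refine Fin.cases ?_ ?_ a
    · rw [hp, Fin.cons_zero, map_sum]
      have h2 := hLZ x
      rw [hZ] at h2
      rw [← h2]
      apply Finset.sum_congr rfl
      intro i _
      rw [map_mul, eval_C, eval_X]
    · intro k
      have h2 := hx k
      rw [eval_gg] at h2
      have h3 := mnr_zero hzφ hinj h2
      rw [hp, Fin.cons_succ]
      unfold zv
      rw [map_sum, ← h3]
      apply Finset.sum_congr rfl
      intro i _
      rw [map_mul, eval_C, hfun]
  -- the common zeros of the four forms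
  let Mx : Matrix (Fin 4) (Fin 5) ℂ := Matrix.of m
  have hrow : LinearIndependent ℂ Mx.row := by
    rw [Fintype.linearIndependent_iff] at hLI ⊢
    intro g hg
    apply hLI
    have h2 : ∀ j, ∑ a, g a * m a j = 0 := by
      intro j
      have h3 := congrFun hg j
      rw [Finset.sum_apply] at h3
      exact h3
    calc ∑ a, g a • p a = ∑ a, ∑ j, C (g a * m a j) * X j := by
          apply Finset.sum_congr rfl
          intro a _
          rw [hm a, Finset.smul_sum]
          apply Finset.sum_congr rfl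
          intro j _
          rw [smul_eq_C_mul, C_mul, mul_assoc]
      _ = ∑ j, C (∑ a, g a * m a j) * X j := by
          rw [Finset.sum_comm]
          apply Finset.sum_congr rfl
          intro j _
          rw [map_sum, Finset.sum_mul]
      _ = 0 := by
          apply Finset.sum_eq_zero
          intro j _
          rw [h2 j, C_0, zero_mul]
  have hMk : Module.finrank ℂ (LinearMap.ker Mx.mulVecLin) ≤ 1 := by
    have h2 := LinearMap.finrank_range_add_finrank_ker Mx.mulVecLin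
    have h3 : Module.finrank ℂ (LinearMap.range Mx.mulVecLin) = 4 := by
      have h4 := hrow.rank_matrix
      rw [Fintype.card_fin] at h4
      exact h4
    rw [h3, Module.finrank_fin_fun] at h2
    omega
  have hMmem : ∀ y : Fin 5 → ℂ, (∀ a, eval y (p a) = 0) ↔ y ∈ LinearMap.ker Mx.mulVecLin := by
    intro y
    rw [LinearMap.mem_ker]
    have h2 : ∀ a, eval y (p a) = (Mx.mulVecLin y) a := by
      intro a
      rw [hm a, map_sum, Matrix.mulVecLin_apply, Matrix.mulVec, dotProduct]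
      apply Finset.sum_congr rfl
      intro j _
      rw [map_mul, eval_C, eval_X]
      rfl
    constructor
    · intro h3; funext a; rw [← h2 a, h3 a]; rfl
    · intro h3 a; rw [h2 a, h3]; rfl
  obtain ⟨y0, hy0⟩ := finrank_le_one_iff.mp hMk
  obtain ⟨x0, hx0⟩ : ∃ x0, L x0 = y0.1 := by
    have h2 : y0.1 ∈ LinearMap.ker Z := by
      rw [LinearMap.mem_ker, hZ]
      have h3 := (hMmem y0.1).mpr y0.2 0
      rw [hp, Fin.cons_zero, map_sum] at h3
      rw [← h3]
      apply Finset.sum_congr rfl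
      intro i _
      rw [map_mul, eval_C, eval_X]
    obtain ⟨x0, h4⟩ := e.surjective ⟨y0.1, h2⟩
    exact ⟨x0, congrArg Subtype.val h4⟩
  obtain ⟨i0, hi0⟩ : ∃ i0 : Fin 4, x0 i0 = 0 → x0 = 0 := by
    by_cases h : x0 = 0
    · exact ⟨0, fun _ => h⟩
    · obtain ⟨i, hi⟩ := Function.ne_iff.mp h
      exact ⟨i, fun h2 => absurd h2 hi⟩
  refine ⟨i0, φ, ?_, ?_⟩
  · intro x hx
    have hx1 : ∀ k, eval x (gg φ v k) = 0 := fun k => hx (Sum.inl (Sum.inl k))
    have hx2 : x i0 = 0 := by
      have h2 := hx (Sum.inl (Sum.inr 0))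
      simp only [Sum.elim_inl, Sum.elim_inr, eval_X] at h2
      exact h2
    obtain ⟨c, hc⟩ := hy0 ⟨L x, (hMmem _).mp (hev x hx1)⟩
    have h3 : c • y0.1 = L x := congrArg Subtype.val hc
    have h4 : x = c • x0 := by
      apply hLinj
      rw [map_smul, hx0, h3]
    rw [h4, Pi.smul_apply, smul_eq_mul, mul_eq_zero] at hx2
    rcases hx2 with h5 | h5
    · rw [h4, h5, zero_smul]
    · rw [h4, hi0 h5, smul_zero]
  · intro x hx
    have hx1 : ∀ k, eval x (gg φ v k) = 0 := fun k => hx (Sum.inl (Sum.inl k))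
    have hx2 : ∀ q, eval x (mm φ v q) = 0 := fun q => hx (Sum.inl (Sum.inr q))
    have h2 : L x = 0 := by
      apply hTr
      rintro (a | q)
      · exact hev x hx1 a
      · have h3 := hx2 q
        rw [eval_mm, hfun] at h3
        simp only [Sum.elim_inr]
        rw [map_mins]
        exact h3
    apply hLinj
    rw [h2, map_zero]

/-- the leading component of a factor of a homogeneous polynomial is a factor -/
private theorem top_dvd {n m : ℕ} {p q : MvPolynomial (Fin n) ℂ} (hpq : (p * q).IsHomogeneous m)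
    (h0 : p * q ≠ 0) : homogeneousComponent p.totalDegree p ∣ p * q := by
  have hp : p ≠ 0 := left_ne_zero_of_mul h0
  have hq : q ≠ 0 := right_ne_zero_of_mul h0
  have hdeg : p.totalDegree + q.totalDegree = m := by
    rw [← totalDegree_mul_of_isDomain hp hq, hpq.totalDegree h0]
  refine ⟨homogeneousComponent q.totalDegree q, ?_⟩
  have h1 : homogeneousComponent m (p * q) = p * q := by
    rw [homogeneousComponent_of_mem hpq, if_pos rfl]
  rw [← h1]
  conv_lhs => rw [← sum_homogeneousComponent p, Finset.sum_mul, map_sum]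
  rw [Finset.sum_eq_single p.totalDegree]
  · rw [← hdeg]
    exact Pool.Agent.Helper93.homComp_mul (homogeneousComponent_isHomogeneous _ _) _
  · intro i hi hne
    have hi' : i < p.totalDegree := by
      rw [Finset.mem_range] at hi
      omega
    have h2 : i + (m - i) = m := by omega
    have h3 := Pool.Agent.Helper93.homComp_mul (q := q)
      (homogeneousComponent_isHomogeneous i p) (m - i)
    rw [h2] at h3
    have h4 : homogeneousComponent (m - i) q = 0 :=
      homogeneousComponent_eq_zero _ _ (by omega)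
    rw [h3, h4, mul_zero]
  · intro h
    exact absurd (Finset.mem_range.mpr (Nat.lt_succ_self _)) h

/-- a homogeneous form with a coprime linear pullback is coprime -/
private theorem cop_hom {N M d : ℕ} {A : OF N} (hA : A ∈ HomS N d) (φ : Fin N → Fin M → ℂ)
    (h : Cop (pb φ A)) : Cop A := by
  have hpb : ∀ P : MvPolynomial (Fin N) ℂ, (∀ i, P ∣ A i) →
      IsUnit (Pool.Agent.Helper93.lsub φ P) := by
    intro P hP
    apply h
    intro i
    show _ ∣ ∑ j, C (φ j i) * Pool.Agent.Helper93.lsub φ (A j)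
    exact Finset.dvd_sum (fun j _ => Dvd.dvd.mul_left (map_dvd _ (hP j)) _)
  intro p hp
  have hne : ∃ i, A i ≠ 0 := by
    by_contra hcon
    push Not at hcon
    have h1 := hpb 0 (fun i => by rw [hcon i])
    rw [map_zero] at h1
    exact not_isUnit_zero h1
  obtain ⟨i0, hi0⟩ := hne
  have hp0 : p ≠ 0 := by
    rintro rfl
    exact hi0 (zero_dvd_iff.mp (hp i0))
  have hP : ∀ i, homogeneousComponent p.totalDegree p ∣ A i := by
    intro i
    by_cases hi : A i = 0
    · rw [hi]; exact dvd_zero _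
    · obtain ⟨q, hq⟩ := hp i
      rw [hq]
      exact top_dvd (m := d + 1) (by rw [← hq]; exact hA i) (by rw [← hq]; exact hi)
  have h1 := hpb _ hP
  by_cases hk : p.totalDegree = 0
  · have h2 := totalDegree_eq_zero_iff_eq_C.mp hk
    rw [h2]
    apply IsUnit.map
    rw [isUnit_iff_ne_zero]
    intro h3
    rw [h3, map_zero] at h2
    exact hp0 h2
  · exfalso
    have h2 := h1.map (eval (0 : Fin M → ℂ))
    rw [Pool.Agent.Helper93.eval_lsub, map_zero, MvPolynomial.eval_zero,
      MvPolynomial.constantCoeff_eq, coeff_homogeneousComponent] at h2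
    rw [if_neg (by simpa using Ne.symm hk)] at h2
    exact not_isUnit_zero h2

theorem cert_11111 {N : ℕ} (v : Fin 3 → Fin 5 → MvPolynomial (Fin 5) ℂ)
    {Φ0 : Fin 5 → MvPolynomial (Fin N) ℂ}
    (h0 : WH (k := 3) (fun _ => 1) (fun _ => 0) Φ0 v) (hcl : ClV (k := 3) v)
    (hβ : Cop (radC 3 (stdF (k := 3) Φ0 v))) {P : Fin 5 → MvPolynomial (Fin 3) ℂ}
    (hP : ∀ i, (P i).IsHomogeneous 1)
    (hT : Triv (mins (k := 3) (fun l i => aeval P (v l i)))) :
    ∃ Φ c eg ℓ el, Cert (N := 4) (k := 3) (fun _ => 1) (fun _ => 0) Φ v c eg ℓ el := by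
  classical
  have hv : ∀ l i, IsWeightedHomogeneous (fun _ => 1) (v l i) 1 := fun l i => h0.hv l i
  have hvh : ∀ l i, (v l i).IsHomogeneous 1 := fun l i => hv l i
  have hX : WH (k := 3) (fun _ => 1) (fun _ => 0)
      (fun i => (X i : MvPolynomial (Fin 5) ℂ)) v :=
    ⟨fun i => isHomogeneous_X ℂ i, h0.hv⟩
  set B : OF 5 := radC 3 (stdF (k := 3) (fun i => (X i : MvPolynomial (Fin 5) ℂ)) v) with hBdef
  have hBI : B ∈ IntS 5 3 := radC_mem (stdF_dec _ _) (stdF_closed _ _ hcl)
    (fun i j => stdF_hom (fun _ => Nat.one_pos) hX (by simp) i j)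
  have hBc : Cop B := by
    have h1 : ∀ i, ∃ c : Fin N → ℂ, Φ0 i = ∑ l, C (c l) * X l := fun i => hom_one (h0.hΦ i)
    choose c hc using h1
    have h2 : Φ0 = Lf c := by
      funext i
      exact hc i
    apply cop_hom hBI.1 c
    rw [hBdef, ← radC_pb, ← h2]
    exact hβ
  obtain ⟨h, hh0, hh⟩ := cop_restrict (N := 4) (d := 3) (by norm_num) hBI.1 hBI.2.1 hBc
  obtain ⟨z, hz1, hz2⟩ := f6_point v hvh hcl hBc hP hT
  obtain ⟨i0, h12⟩ := ex12 v hvh hz1 hz2
  have h3 := ex3 v hP hT
  have h4 : ∃ φ : Fin 5 → Fin 4 → ℂ, eval (fun q => φ q.1 q.2) h ≠ 0 := by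
    by_contra hcon
    push Not at hcon
    apply hh0
    apply MvPolynomial.funext
    intro x
    rw [map_zero]
    exact hcon (fun i l => x (i, l))
  have hpad : ∀ j : ℕ, LF (fun _ => pads 4 j) := fun j =>
    LF_const (pads 4 j) (fun _ => 1) (fun k => isHomogeneous_X ℂ _)
  have L1 : LO (fun φ => Triv (Sum.elim (Sum.elim (gg φ v)
      (fun _ : Fin 1 => (X i0 : MvPolynomial (Fin 4) ℂ))) (pads 4 4))) :=
    LF_LO (LF_sum (LF_sum (LF_gg hv) (LF_const _ (fun _ => 1)
      (fun _ => isHomogeneous_X ℂ i0))) (hpad 4))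
  have L2 : LO (fun φ => Triv (Sum.elim (Sum.elim (gg φ v) (mm φ v)) (pads 4 4))) :=
    LF_LO (LF_sum (LF_sum (LF_gg hv) (LF_mm hv)) (hpad 4))
  have L3 : LO (fun φ => Triv (Sum.elim (mm φ v) (pads 4 3))) :=
    LF_LO (LF_sum (LF_mm hv) (hpad 3))
  have L12 := LO_and L1 L2
  obtain ⟨φ, ⟨⟨⟨hq1, hq2⟩, hq3⟩, hq4⟩⟩ := LO_ex (LO_and L12 L3) (LO_h (h := h))
    (LO_ex L12 L3 h12 h3) h4
  have hsum : (fun i => ∑ J : Fin 5 → Fin 4 ⊕ Fin 3,
      (if J = JJ i then (1 : MvPolynomial (Fin 4) ℂ) else 0) *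
      mnr (k := 3) (fun a j => pderiv a (Lf φ j)) (fun l j => aeval (Lf φ) (v l j)) J) =
      gg φ v := by
    funext i
    rw [Finset.sum_eq_single (JJ i)]
    · rw [if_pos rfl, one_mul]
      rfl
    · intro J _ hJ
      rw [if_neg hJ, zero_mul]
    · intro h'; exact absurd (Finset.mem_univ _) h'
  refine ⟨Lf φ, fun i J => if J = JJ i then 1 else 0, fun _ => 1, X i0, 1, ?_⟩
  refine ⟨⟨fun i => Lf_hom φ i, h0.hv⟩, fun _ => Nat.one_pos, ?_, Nat.one_pos,
    isHomogeneous_X ℂ i0, ?_, ?_, ?_, ?_⟩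
  · intro i J
    by_cases hJ : J = JJ i
    · right
      refine ⟨0, ?_, ?_⟩
      · simp only [if_pos hJ]
        exact isHomogeneous_one _ _
      · rw [hJ, dg_JJ]
    · left
      simp only [if_neg hJ]
  · rw [hsum]
    exact hq1
  · rw [hsum]
    exact hq2
  · exact hq3
  · rw [radC_pb]
    exact hh φ hq4

end Pool.Agent.Helper1.FG
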