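import Pool.Agent.Helper1.FG.StdMove
import Pool.Agent.Helper1.FG.CopR

/-! FG-21, 22, 23: three linear vector fields on `ℂ^5` (`k = 3`, all weights 1), sections by hyperplanes (N = 4).
`β = i_R i_v1 i_v2 i_v3 vol` is coprime.  Proofs of helper35 (message 25142, (E1), (E2)).
FG-21 `f6_indep` (E2): for the general hyperplane `z` the linear forms `z, z v_1, z v_2, z v_3` are independent.
FG-22 `f6_point` (E1): and at their common zero `x_0(z)` (a line) `v_1, v_2, v_3` are independent.
Equivalent formulation used here: there is a linear injection `Φ : ℂ^4 → ℂ^5` (five linear forms in four variables, `z ∘ Φ = 0`) with these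
properties.  FG-23 `cert_11111`: recipes = minors of the columns `(0,1,2,3,v_l)`, `l = 1, 2, 3`; `t1`: the three linear forms `z(v_l) ∘ Φ` on
`ℂ^4` are independent, `ℓ` a fourth one; `t2`: at their common zero the `v_l` are independent; `t3`: after a linear change of coordinates
of `ℂ^4` the plane `{x_3 = 0}` avoids the zeros of `v_1 ∧ v_2 ∧ v_3` (general position; hypothesis `hT` gives one such 3-dimensional
space, the condition is open); `cop`: `cop_restrict`.

Proof of `f6_indep` used here (simplification of (E2), no classification): if the four forms are dependent for all `z`, take a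
homogeneous relation `∑ a_i(z) z Y_i = 0` (`Y_0 = 1`, `Y_l = v_l`) of minimal degree.  Differentiation gives
`M(z) = ∑ a_i(z) Y_i = - J^T N`; the polynomial `det (∑ A_i Y_i)` kills `a`, so `J` has a left kernel which kills `a` too; hence
`M(z)` has rank `≤ 2` for all `z`.  At a point with `a_0(z) = 0`, `a(z) ≠ 0` (Nullstellensatz, minimality) it is a nonzero
combination of the `v_l`; its kernel meets the 3-dimensional space given by `P`: contradiction. -/

set_option autoImplicit false

namespace Pool.Agent.Helper1.FG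

open MvPolynomial
open scoped BigOperators
open Pool.Agent.Helper93 (TT OF RE HomS IntS FolS Cop Comp PreIrr pb)
open Pool.Agent.Helper71.FL

/-- values of the composite of a linear form and the fields -/
noncomputable def zv (v : Fin 3 → Fin 5 → MvPolynomial (Fin 5) ℂ) (z : Fin 5 → ℂ) (l : Fin 3) :
    MvPolynomial (Fin 5) ℂ := ∑ i, C (z i) * v l i

section core

private theorem chain_rule {n m : ℕ} (a : Fin n → MvPolynomial (Fin m) ℂ)
    (p : MvPolynomial (Fin n) ℂ) (j : Fin m) :
    pderiv j (aeval a p) = ∑ i, aeval a (pderiv i p) * pderiv j (a i) := by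
  classical
  induction p using MvPolynomial.induction_on with
  | C c => simp
  | add p q hp hq => simp only [map_add, hp, hq, add_mul, Finset.sum_add_distrib]
  | mul_X p i hp =>
    have h1 : ∀ k : Fin n, aeval a (pderiv k (p * X i)) * pderiv j (a k) =
        aeval a (pderiv k p) * pderiv j (a k) * a i +
          (if k = i then aeval a p * pderiv j (a k) else 0) := by
      intro k
      rw [pderiv_mul, map_add, map_mul, map_mul, aeval_X]
      by_cases hk : k = i
      · subst hk
        rw [if_pos rfl, pderiv_X_self, map_one]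
        ring
      · rw [if_neg hk, pderiv_X_of_ne (Ne.symm hk), map_zero]
        ring
    rw [map_mul, aeval_X, pderiv_mul, hp, Finset.sum_congr rfl (fun k _ => h1 k),
      Finset.sum_add_distrib, Finset.sum_mul, Finset.sum_ite_eq' Finset.univ i,
      if_pos (Finset.mem_univ i)]

/-- the row vectors `z Y_i` -/
private noncomputable def NN (Y : Fin 4 → Fin 5 → Fin 5 → ℂ) (i : Fin 4) (c : Fin 5) :
    MvPolynomial (Fin 5) ℂ := ∑ k, X k * C (Y i k c)

private def Rel (Y : Fin 4 → Fin 5 → Fin 5 → ℂ) (a : Fin 4 → MvPolynomial (Fin 5) ℂ) : Prop :=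
  ∀ c, ∑ i, a i * NN Y i c = 0

private theorem eval_NN (Y : Fin 4 → Fin 5 → Fin 5 → ℂ) (i : Fin 4) (c : Fin 5) (z : Fin 5 → ℂ) :
    eval z (NN Y i c) = ∑ k, z k * Y i k c := by
  unfold NN
  simp

private theorem pderiv_NN (Y : Fin 4 → Fin 5 → Fin 5 → ℂ) (i : Fin 4) (c j : Fin 5) :
    pderiv j (NN Y i c) = C (Y i j c) := by
  classical
  unfold NN
  rw [map_sum, Finset.sum_eq_single j]
  · rw [pderiv_mul, pderiv_X_self, pderiv_C, mul_zero, add_zero, one_mul]
  · intro k _ hk
    rw [pderiv_mul, pderiv_X_of_ne hk, pderiv_C, mul_zero, add_zero, zero_mul]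
  · intro h'; exact absurd (Finset.mem_univ _) h'

private theorem NN_hom (Y : Fin 4 → Fin 5 → Fin 5 → ℂ) (i : Fin 4) (c : Fin 5) :
    (NN Y i c).IsHomogeneous 1 := by
  unfold NN
  apply IsHomogeneous.sum
  intro k _
  have := (isHomogeneous_X ℂ k).mul (isHomogeneous_C (Fin 5) (Y i k c))
  simpa using this

private theorem exists_rel (Y : Fin 4 → Fin 5 → Fin 5 → ℂ)
    (h : ∀ z : Fin 5 → ℂ, ¬ LinearIndependent ℂ
      ((fun i => (fun c => ∑ k, z k * Y i k c)) : Fin 4 → Fin 5 → ℂ)) :
    ∃ a, a ≠ 0 ∧ Rel Y a := by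
  classical
  by_contra hcon
  push Not at hcon
  have hdet : ∀ j : Fin 5, (Matrix.of (Fin.cons (Pi.single j 1) (NN Y) :
      Fin 5 → Fin 5 → MvPolynomial (Fin 5) ℂ)).det = 0 := by
    intro j
    apply MvPolynomial.funext
    intro z
    rw [map_zero, RingHom.map_det]
    obtain ⟨g, hg, i0, hi0⟩ := Fintype.not_linearIndependent_iff.mp (h z)
    apply Matrix.exists_vecMul_eq_zero_iff.mp
    refine ⟨(Fin.cons 0 g : Fin 5 → ℂ), ?_, ?_⟩
    · intro h0
      have := congrFun h0 i0.succ
      rw [Fin.cons_succ] at this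
      exact hi0 this
    · funext c
      have h1 := congrFun hg c
      rw [Finset.sum_apply] at h1
      simp only [Pi.smul_apply, smul_eq_mul, Pi.zero_apply] at h1
      simp only [Matrix.vecMul, dotProduct, RingHom.mapMatrix_apply, Matrix.map_apply,
        Matrix.of_apply, Fin.sum_univ_succ (n := 4), Fin.cons_zero, Fin.cons_succ, zero_mul, zero_add,
        Pi.zero_apply, eval_NN]
      exact h1
  have hμ : ∀ j : Fin 5, ∃ μ : Fin 5 → MvPolynomial (Fin 5) ℂ, μ 0 ≠ 0 ∧
      ∀ c, μ 0 * (Pi.single j 1 : Fin 5 → MvPolynomial (Fin 5) ℂ) c +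
        ∑ i : Fin 4, μ i.succ * NN Y i c = 0 := by
    intro j
    obtain ⟨μ, hμ0, hμ1⟩ := Matrix.exists_vecMul_eq_zero_iff.mpr (hdet j)
    have h2 : ∀ c, μ 0 * (Pi.single j 1 : Fin 5 → MvPolynomial (Fin 5) ℂ) c +
        ∑ i : Fin 4, μ i.succ * NN Y i c = 0 := by
      intro c
      have h1 := congrFun hμ1 c
      simp only [Matrix.vecMul, dotProduct, Matrix.of_apply, Fin.sum_univ_succ (n := 4),
        Fin.cons_zero, Fin.cons_succ, Pi.zero_apply] at h1
      exact h1
    refine ⟨μ, ?_, h2⟩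
    intro h0
    apply hcon (fun i => μ i.succ)
    · intro h3
      apply hμ0
      funext k
      refine Fin.cases ?_ ?_ k
      · exact h0
      · intro i; exact congrFun h3 i
    · intro c
      have h4 := h2 c
      rw [h0, zero_mul, zero_add] at h4
      exact h4
  choose μ hμ0 hμ1 using hμ
  let E : Matrix (Fin 5) (Fin 5) (MvPolynomial (Fin 5) ℂ) :=
    Matrix.of (fun j => (Fin.cons 0 (fun i : Fin 4 => μ j i.succ) : Fin 5 → MvPolynomial (Fin 5) ℂ))
  have hE : E.det = 0 := by
    apply Matrix.det_eq_zero_of_column_eq_zero 0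
    intro j
    show (Fin.cons 0 (fun i : Fin 4 => μ j i.succ) : Fin 5 → MvPolynomial (Fin 5) ℂ) 0 = 0
    rw [Fin.cons_zero]
  obtain ⟨w, hw0, hw1⟩ := Matrix.exists_vecMul_eq_zero_iff.mpr hE
  have hw2 : ∀ i : Fin 4, ∑ j, w j * μ j i.succ = 0 := by
    intro i
    have h1 := congrFun hw1 i.succ
    simp only [Matrix.vecMul, dotProduct, E, Matrix.of_apply, Fin.cons_succ, Pi.zero_apply] at h1
    exact h1
  apply hw0
  funext c
  have h3 : ∑ j, w j * (μ j 0 * (Pi.single j 1 : Fin 5 → MvPolynomial (Fin 5) ℂ) c +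
      ∑ i : Fin 4, μ j i.succ * NN Y i c) = 0 := by
    apply Finset.sum_eq_zero
    intro j _
    rw [hμ1 j c, mul_zero]
  have h4 : ∑ j, w j * (μ j 0 * (Pi.single j 1 : Fin 5 → MvPolynomial (Fin 5) ℂ) c +
      ∑ i : Fin 4, μ j i.succ * NN Y i c) = w c * μ c 0 := by
    simp only [mul_add, Finset.sum_add_distrib]
    have h5 : ∑ j, w j * (μ j 0 * (Pi.single j 1 : Fin 5 → MvPolynomial (Fin 5) ℂ) c) =
        w c * μ c 0 := by
      rw [Finset.sum_eq_single c]
      · rw [Pi.single_eq_same, mul_one]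
      · intro j _ hj
        rw [Pi.single_eq_of_ne (Ne.symm hj), mul_zero, mul_zero]
      · intro h'; exact absurd (Finset.mem_univ _) h'
    have h6 : ∑ j, w j * ∑ i : Fin 4, μ j i.succ * NN Y i c = 0 := by
      simp only [Finset.mul_sum]
      rw [Finset.sum_comm]
      apply Finset.sum_eq_zero
      intro i _
      calc ∑ j, w j * (μ j i.succ * NN Y i c) = (∑ j, w j * μ j i.succ) * NN Y i c := by
            rw [Finset.sum_mul]
            apply Finset.sum_congr rfl
            intro j _; ring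
        _ = 0 := by rw [hw2 i, zero_mul]
    rw [h5, h6, add_zero]
  rw [h4] at h3
  exact (mul_eq_zero.mp h3).resolve_right (hμ0 c)

private def Pm (Y : Fin 4 → Fin 5 → Fin 5 → ℂ) (m : ℕ) : Prop :=
  ∃ a : Fin 4 → MvPolynomial (Fin 5) ℂ, (∀ i, (a i).IsHomogeneous m) ∧ a ≠ 0 ∧ Rel Y a

private theorem rel_comp {Y : Fin 4 → Fin 5 → Fin 5 → ℂ} {a : Fin 4 → MvPolynomial (Fin 5) ℂ}
    (h : Rel Y a) (m : ℕ) : Rel Y (fun i => homogeneousComponent m (a i)) := by
  intro c
  have h1 := congrArg (homogeneousComponent (1 + m)) (h c)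
  rw [map_sum, map_zero] at h1
  rw [← h1]
  apply Finset.sum_congr rfl
  intro i _
  rw [mul_comm (a i), Pool.Agent.Helper93.homComp_mul (NN_hom Y i c), mul_comm]

private theorem Pm_of_rel {Y : Fin 4 → Fin 5 → Fin 5 → ℂ} {a : Fin 4 → MvPolynomial (Fin 5) ℂ}
    (h : Rel Y a) {i : Fin 4} (hi : a i ≠ 0) : ∃ m ≤ (a i).totalDegree, Pm Y m := by
  have h1 : ∃ m ∈ Finset.range ((a i).totalDegree + 1), homogeneousComponent m (a i) ≠ 0 := by
    by_contra hcon
    push Not at hcon
    apply hi
    rw [← sum_homogeneousComponent (a i)]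
    exact Finset.sum_eq_zero hcon
  obtain ⟨m, hm, hm0⟩ := h1
  refine ⟨m, Nat.lt_succ_iff.mp (Finset.mem_range.mp hm), fun i => homogeneousComponent m (a i),
    fun i => homogeneousComponent_isHomogeneous m (a i), ?_, rel_comp h m⟩
  intro h0
  exact hm0 (congrFun h0 i)

private theorem gcd_one {Y : Fin 4 → Fin 5 → Fin 5 → ℂ} {m : ℕ} (hmin : ∀ k, Pm Y k → m ≤ k)
    {a : Fin 4 → MvPolynomial (Fin 5) ℂ} (ha : ∀ i, (a i).IsHomogeneous m) (ha0 : a ≠ 0)
    (hr : Rel Y a) {p : MvPolynomial (Fin 5) ℂ} (hp : ∀ i, p ∣ a i) : IsUnit p := by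
  choose b hb using hp
  obtain ⟨i, hi⟩ := Function.ne_iff.mp ha0
  rw [Pi.zero_apply] at hi
  have hp0 : p ≠ 0 := by
    rintro rfl
    apply hi
    rw [hb i, zero_mul]
  have hrb : Rel Y b := by
    intro c
    have h1 := hr c
    have h2 : ∑ i, a i * NN Y i c = p * ∑ i, b i * NN Y i c := by
      rw [Finset.mul_sum]
      apply Finset.sum_congr rfl
      intro i _
      rw [hb i]; ring
    rw [h2] at h1
    exact (mul_eq_zero.mp h1).resolve_left hp0
  have hbi : b i ≠ 0 := by
    intro h0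
    apply hi
    rw [hb i, h0, mul_zero]
  obtain ⟨k, hk, hPk⟩ := Pm_of_rel hrb hbi
  have h3 := hmin k hPk
  have h4 : (a i).totalDegree = m := (ha i).totalDegree hi
  have h5 : (a i).totalDegree = p.totalDegree + (b i).totalDegree := by
    conv_lhs => rw [hb i]
    exact totalDegree_mul_of_isDomain hp0 hbi
  have h6 : p.totalDegree = 0 := by omega
  rw [totalDegree_eq_zero_iff_eq_C] at h6
  rw [h6]
  apply IsUnit.map
  rw [isUnit_iff_ne_zero]
  intro h7
  rw [h7, C_0] at h6
  exact hp0 h6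

/-- a zero of `a 0` which is not a zero of all `a i` -/
private theorem exists_pt {m : ℕ} (hm : m ≠ 0) {a : Fin 4 → MvPolynomial (Fin 5) ℂ}
    (ha : ∀ i, (a i).IsHomogeneous m) (ha0 : a ≠ 0)
    (hg : ∀ p : MvPolynomial (Fin 5) ℂ, (∀ i, p ∣ a i) → IsUnit p) :
    ∃ z : Fin 5 → ℂ, eval z (a 0) = 0 ∧ ∃ i, eval z (a i) ≠ 0 := by
  by_contra hcon
  push Not at hcon
  by_cases h0 : a 0 = 0
  · apply ha0
    funext i
    apply MvPolynomial.funext
    intro z
    rw [Pi.zero_apply, map_zero]
    exact hcon z (by rw [h0, map_zero]) i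
  · have hnu : ¬ IsUnit (a 0) := by
      intro hu
      have h1 : (a 0).totalDegree = m := (ha 0).totalDegree h0
      obtain ⟨q, hq⟩ := hu.exists_right_inv
      have hq0 : q ≠ 0 := by
        rintro rfl
        rw [mul_zero] at hq
        exact zero_ne_one hq
      have h2 := totalDegree_mul_of_isDomain h0 hq0
      rw [hq, totalDegree_one] at h2
      omega
    obtain ⟨p, hp, hpa⟩ := WfDvdMonoid.exists_irreducible_factor hnu h0
    have hprime : Prime p := hp.prime
    have hall : ∀ i, p ∣ a i := by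
      intro i
      have hI : (Ideal.span {p} : Ideal (MvPolynomial (Fin 5) ℂ)).IsPrime :=
        (Ideal.span_singleton_prime hprime.ne_zero).mpr hprime
      have h1 : a i ∈ vanishingIdeal ℂ (zeroLocus ℂ (Ideal.span {p} :
          Ideal (MvPolynomial (Fin 5) ℂ))) := by
        rw [mem_vanishingIdeal_iff]
        intro z hz
        rw [mem_zeroLocus_iff] at hz
        have h2 := hz (a 0) (Ideal.mem_span_singleton.mpr hpa)
        exact hcon z h2 i
      rw [vanishingIdeal_zeroLocus_eq_radical, hI.radical] at h1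
      exact Ideal.mem_span_singleton.mp h1
    exact hp.not_isUnit (hg p hall)

private theorem exists_normal {Y : Fin 4 → Fin 5 → Fin 5 → ℂ}
    (hY0 : Y 0 = fun i j => if i = j then 1 else 0)
    {a : Fin 4 → MvPolynomial (Fin 5) ℂ} (hr : Rel Y a) :
    ∃ n : Fin 4 → MvPolynomial (Fin 5) ℂ, n ≠ 0 ∧ (∑ i, a i * n i = 0) ∧
      ∀ j, ∑ i, pderiv j (a i) * n i = 0 := by
  classical
  let G : Matrix (Fin 5) (Fin 5) (MvPolynomial (Fin 4) ℂ) :=
    fun k c => ∑ i, X i * C (Y i k c)
  have hGhom : G.det.IsHomogeneous 5 := by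
    rw [Matrix.det_apply]
    apply IsHomogeneous.sum
    intro σ _
    have h1 : (∏ i, G (σ i) i).IsHomogeneous (∑ i : Fin 5, 1) := by
      apply IsHomogeneous.prod
      intro i _
      apply IsHomogeneous.sum
      intro k _
      have := (isHomogeneous_X ℂ k).mul (isHomogeneous_C (Fin 4) (Y k (σ i) i))
      simpa using this
    have h2 : (∑ i : Fin 5, 1) = 5 := by simp
    rw [h2] at h1
    rcases Int.units_eq_one_or (Equiv.Perm.sign σ) with h3 | h3
    · rw [h3, one_smul]; exact h1
    · rw [h3]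
      have : ((-1 : ℤˣ) • ∏ i, G (σ i) i) = - ∏ i, G (σ i) i := by
        rw [Units.smul_def]; simp
      rw [this]
      exact h1.neg
  have hG0 : G.det ≠ 0 := by
    intro h0
    have h1 := congrArg (eval (Pi.single 0 1 : Fin 4 → ℂ)) h0
    rw [map_zero, RingHom.map_det] at h1
    have h2 : (eval (Pi.single 0 1 : Fin 4 → ℂ)).mapMatrix G = 1 := by
      ext k c
      rw [RingHom.mapMatrix_apply, Matrix.map_apply]
      show eval (Pi.single 0 1 : Fin 4 → ℂ) (∑ i, X i * C (Y i k c)) = _
      rw [map_sum, Finset.sum_eq_single 0]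
      · rw [map_mul, eval_X, eval_C, Pi.single_eq_same, one_mul, hY0, Matrix.one_apply]
      · intro i _ hi
        rw [map_mul, eval_X, Pi.single_eq_of_ne hi, zero_mul]
      · intro h'; exact absurd (Finset.mem_univ _) h'
    rw [h2, Matrix.det_one] at h1
    exact one_ne_zero h1
  have hGa : aeval a G.det = 0 := by
    have h1 : aeval a G.det = ((aeval a : MvPolynomial (Fin 4) ℂ →ₐ[ℂ] _).toRingHom.mapMatrix
        G).det := by
      rw [← RingHom.map_det]; rfl
    rw [h1]
    apply Matrix.exists_vecMul_eq_zero_iff.mp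
    refine ⟨fun k => X k, ?_, ?_⟩
    · intro h2
      exact X_ne_zero (0 : Fin 5) (congrFun h2 0)
    · funext c
      have h3 := hr c
      unfold NN at h3
      simp only [Matrix.vecMul, dotProduct, Pi.zero_apply]
      rw [← h3]
      have h4 : ∀ k : Fin 5, ((aeval a : MvPolynomial (Fin 4) ℂ →ₐ[ℂ] _).toRingHom.mapMatrix G) k c
          = ∑ i, a i * C (Y i k c) := by
        intro k
        show aeval a (∑ i, X i * C (Y i k c)) = _
        rw [map_sum]
        apply Finset.sum_congr rfl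
        intro i _
        rw [map_mul, aeval_X]
        congr 1
        exact AlgHom.commutes _ _
      simp only [h4, Finset.mul_sum]
      rw [Finset.sum_comm]
      apply Finset.sum_congr rfl
      intro i _
      apply Finset.sum_congr rfl
      intro k _
      ring
  -- a polynomial of minimal degree
  have hex : ∃ k, ∃ p : MvPolynomial (Fin 4) ℂ, p ≠ 0 ∧ p.IsHomogeneous k ∧ aeval a p = 0 :=
    ⟨5, G.det, hG0, hGhom, hGa⟩
  obtain ⟨p, hp0, hph, hpa⟩ := Nat.find_spec hex
  have hmin : ∀ k, k < Nat.find hex → ∀ q : MvPolynomial (Fin 4) ℂ, q.IsHomogeneous k →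
      aeval a q = 0 → q = 0 := by
    intro k hk q hq hqa
    by_contra hq0
    exact Nat.find_min hex hk ⟨q, hq0, hq, hqa⟩
  have he := hph.sum_X_mul_pderiv
  have hk0 : Nat.find hex ≠ 0 := by
    intro hk
    rw [hk] at hph
    rw [← totalDegree_zero_iff_isHomogeneous, totalDegree_eq_zero_iff_eq_C] at hph
    rw [hph] at hpa
    have h1 : (aeval a) (C (coeff 0 p) : MvPolynomial (Fin 4) ℂ) = C (coeff 0 p) :=
      AlgHom.commutes _ _
    rw [h1] at hpa
    apply hp0
    rw [hph]
    have h2 : coeff 0 p = 0 := C_injective _ _ (by rw [hpa, C_0])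
    rw [h2, C_0]
  refine ⟨fun i => aeval a (pderiv i p), ?_, ?_, ?_⟩
  · intro h0
    have h1 : ∀ i, pderiv i p = 0 := by
      intro i
      exact hmin (Nat.find hex - 1) (by omega) _ hph.pderiv (congrFun h0 i)
    have h2 : (Nat.find hex) • p = 0 := by
      rw [← he]
      apply Finset.sum_eq_zero
      intro i _
      rw [h1 i, mul_zero]
    rw [nsmul_eq_mul] at h2
    rcases mul_eq_zero.mp h2 with h3 | h3
    · exact hk0 (by exact_mod_cast h3)
    · exact hp0 h3
  · have h1 := congrArg (aeval a) he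
    rw [map_sum, nsmul_eq_mul, map_mul, hpa, mul_zero] at h1
    rw [← h1]
    apply Finset.sum_congr rfl
    intro i _
    rw [map_mul, aeval_X]
  · intro j
    have h1 := chain_rule a p j
    rw [hpa, map_zero] at h1
    rw [h1]
    apply Finset.sum_congr rfl
    intro i _
    rw [mul_comm]

/-- the matrices `Q M(z) P` are singular -/
private theorem det_QMP {Y : Fin 4 → Fin 5 → Fin 5 → ℂ} {a : Fin 4 → MvPolynomial (Fin 5) ℂ}
    (ha0 : a ≠ 0) (hr : Rel Y a) {n : Fin 4 → MvPolynomial (Fin 5) ℂ} (hn : n ≠ 0)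
    (hn1 : ∑ i, a i * n i = 0) (hn2 : ∀ j, ∑ i, pderiv j (a i) * n i = 0)
    (Q : Fin 3 → Fin 5 → ℂ) (P : Fin 5 → Fin 3 → ℂ) :
    (Matrix.of (fun s t => ∑ j, ∑ c, C (Q s j) * (∑ i, a i * C (Y i j c)) * C (P c t)) :
      Matrix (Fin 3) (Fin 3) (MvPolynomial (Fin 5) ℂ)).det = 0 := by
  classical
  let r : Fin 3 → Fin 4 → MvPolynomial (Fin 5) ℂ := fun s i => ∑ j, C (Q s j) * pderiv j (a i)
  have hB : (Matrix.of (Fin.cons a r : Fin 4 → Fin 4 → MvPolynomial (Fin 5) ℂ)).det = 0 := by
    apply Matrix.exists_mulVec_eq_zero_iff.mp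
    refine ⟨n, hn, ?_⟩
    funext s
    refine Fin.cases ?_ ?_ s
    · simp only [Matrix.mulVec, dotProduct, Matrix.of_apply, Fin.cons_zero, Pi.zero_apply]
      exact hn1
    · intro s
      simp only [Matrix.mulVec, dotProduct, Matrix.of_apply, Fin.cons_succ, Pi.zero_apply, r,
        Finset.sum_mul]
      rw [Finset.sum_comm]
      apply Finset.sum_eq_zero
      intro j _
      calc ∑ i, C (Q s j) * pderiv j (a i) * n i = C (Q s j) * ∑ i, pderiv j (a i) * n i := by
            rw [Finset.mul_sum]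
            apply Finset.sum_congr rfl
            intro i _; ring
        _ = 0 := by rw [hn2 j, mul_zero]
  obtain ⟨μ, hμ0, hμ1⟩ := Matrix.exists_vecMul_eq_zero_iff.mpr hB
  have hμ2 : ∀ i, μ 0 * a i + ∑ s : Fin 3, μ s.succ * r s i = 0 := by
    intro i
    have h1 := congrFun hμ1 i
    simp only [Matrix.vecMul, dotProduct, Matrix.of_apply, Fin.sum_univ_succ (n := 3),
      Fin.cons_zero, Fin.cons_succ, Pi.zero_apply] at h1
    exact h1
  -- the derivative of the relation
  have hder : ∀ j c, ∑ i, a i * C (Y i j c) = - ∑ i, pderiv j (a i) * NN Y i c := by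
    intro j c
    have h1 := congrArg (pderiv j) (hr c)
    rw [map_sum, map_zero] at h1
    simp only [pderiv_mul, pderiv_NN, Finset.sum_add_distrib] at h1
    rw [eq_neg_iff_add_eq_zero, add_comm]
    exact h1
  apply Matrix.exists_vecMul_eq_zero_iff.mp
  refine ⟨fun s => μ s.succ, ?_, ?_⟩
  · intro h0
    apply ha0
    have h1 : μ 0 ≠ 0 := by
      intro h2
      apply hμ0
      funext k
      refine Fin.cases ?_ ?_ k
      · exact h2
      · intro i; exact congrFun h0 i
    funext i
    have h3 := hμ2 i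
    have h4 : ∑ s : Fin 3, μ s.succ * r s i = 0 := by
      apply Finset.sum_eq_zero
      intro s _
      have h5 : μ s.succ = 0 := congrFun h0 s
      rw [h5, zero_mul]
    rw [h4, add_zero] at h3
    exact (mul_eq_zero.mp h3).resolve_left h1
  · funext t
    simp only [Matrix.vecMul, dotProduct, Matrix.of_apply, Pi.zero_apply]
    have h1 : ∀ s : Fin 3, ∑ j, ∑ c, C (Q s j) * (∑ i, a i * C (Y i j c)) * C (P c t) =
        - ∑ c, ∑ i, r s i * NN Y i c * C (P c t) := by
      intro s
      rw [Finset.sum_comm, ← Finset.sum_neg_distrib]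
      apply Finset.sum_congr rfl
      intro c _
      simp only [r, Finset.sum_mul]
      rw [Finset.sum_comm, ← Finset.sum_neg_distrib]
      apply Finset.sum_congr rfl
      intro j _
      rw [hder j c, mul_neg, neg_mul, neg_inj, Finset.mul_sum, Finset.sum_mul]
      apply Finset.sum_congr rfl
      intro i _
      rw [← mul_assoc (C (Q s j)) (pderiv j (a i)) (NN Y i c)]
    have h1' : ∑ s : Fin 3, μ s.succ *
        ∑ j, ∑ c, C (Q s j) * (∑ i, a i * C (Y i j c)) * C (P c t) =
        - ∑ s : Fin 3, ∑ c, ∑ i, μ s.succ * (r s i * NN Y i c * C (P c t)) := by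
      rw [← Finset.sum_neg_distrib]
      apply Finset.sum_congr rfl
      intro s _
      rw [h1 s, mul_neg, neg_inj, Finset.mul_sum]
      apply Finset.sum_congr rfl
      intro c _
      rw [Finset.mul_sum]
    rw [h1', neg_eq_zero]
    rw [Finset.sum_comm]
    apply Finset.sum_eq_zero
    intro c _
    rw [Finset.sum_comm]
    have h2 : ∀ i : Fin 4, ∑ s : Fin 3, μ s.succ * (r s i * NN Y i c * C (P c t)) =
        - (μ 0 * (a i * NN Y i c) * C (P c t)) := by
      intro i
      have h3 : ∑ s : Fin 3, μ s.succ * (r s i * NN Y i c * C (P c t)) =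
          (∑ s : Fin 3, μ s.succ * r s i) * (NN Y i c * C (P c t)) := by
        rw [Finset.sum_mul]
        apply Finset.sum_congr rfl
        intro s _; ring
      rw [h3, eq_neg_of_add_eq_zero_right (hμ2 i)]
      ring
    simp only [h2, Finset.sum_neg_distrib]
    rw [neg_eq_zero]
    calc ∑ i, μ 0 * (a i * NN Y i c) * C (P c t) = μ 0 * (∑ i, a i * NN Y i c) * C (P c t) := by
          rw [Finset.mul_sum, Finset.sum_mul]
      _ = 0 := by rw [hr c, mul_zero, zero_mul]

/-- the linear algebra statement -/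
private theorem core_thm (Y : Fin 4 → Fin 5 → Fin 5 → ℂ)
    (hY0 : Y 0 = fun i j => if i = j then 1 else 0)
    (hdep : ∀ c : Fin 4 → ℂ, (∀ k j, ∑ i, c i * Y i k j = 0) → c = 0)
    (P : Fin 5 → Fin 3 → ℂ)
    (hP : ∀ c : Fin 3 → ℂ, c ≠ 0 → ∀ x : Fin 3 → ℂ,
      (∀ j, ∑ l : Fin 3, c l * ∑ k, Y l.succ j k * ∑ t, P k t * x t = 0) → x = 0) :
    ∃ z : Fin 5 → ℂ, LinearIndependent ℂ
      ((fun i => (fun c => ∑ k, z k * Y i k c)) : Fin 4 → Fin 5 → ℂ) := by
  classical
  by_contra hcon
  push Not at hcon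
  obtain ⟨a', ha'0, hr'⟩ := exists_rel Y hcon
  obtain ⟨i', hi'⟩ := Function.ne_iff.mp ha'0
  obtain ⟨m', _, hPm'⟩ := Pm_of_rel hr' hi'
  have hex : ∃ m, Pm Y m := ⟨m', hPm'⟩
  obtain ⟨a, hah, ha0, hr⟩ := Nat.find_spec hex
  have hmin : ∀ k, Pm Y k → Nat.find hex ≤ k := fun k hk => Nat.find_min' hex hk
  have hm0 : Nat.find hex ≠ 0 := by
    intro hm
    have hc : ∀ i, a i = C (coeff 0 (a i)) := by
      intro i
      have h1 := hah i
      rw [hm] at h1
      rw [← totalDegree_zero_iff_isHomogeneous, totalDegree_eq_zero_iff_eq_C] at h1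
      exact h1
    have h2 : (fun i => coeff 0 (a i)) = 0 := by
      apply hdep
      intro k j
      have h3 := congrArg (eval (Pi.single k 1 : Fin 5 → ℂ)) (hr j)
      rw [map_sum, map_zero] at h3
      rw [← h3]
      apply Finset.sum_congr rfl
      intro i _
      rw [map_mul, eval_NN, hc i, eval_C, coeff_C, if_pos rfl, Finset.sum_eq_single k]
      · rw [Pi.single_eq_same, one_mul]
      · intro l _ hl
        rw [Pi.single_eq_of_ne hl, zero_mul]
      · intro h'; exact absurd (Finset.mem_univ _) h'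
    apply ha0
    funext i
    rw [hc i]
    have h4 : coeff 0 (a i) = 0 := congrFun h2 i
    rw [h4, C_0]; rfl
  obtain ⟨z, hz0, hz1⟩ := exists_pt hm0 hah ha0
    (fun p hp => gcd_one hmin hah ha0 hr hp)
  obtain ⟨n, hn0, hn1, hn2⟩ := exists_normal hY0 hr
  -- the matrix at the point
  let M : Matrix (Fin 5) (Fin 5) ℂ := fun j c => ∑ i, eval z (a i) * Y i j c
  have hdetQ : ∀ Q : Matrix (Fin 3) (Fin 5) ℂ, (Q * (M * Matrix.of P)).det = 0 := by
    intro Q
    have h1 := congrArg (eval z) (det_QMP ha0 hr hn0 hn1 hn2 Q P)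
    rw [map_zero, RingHom.map_det] at h1
    rw [← h1]
    congr 1
    ext s t
    rw [RingHom.mapMatrix_apply, Matrix.map_apply, Matrix.of_apply, Matrix.mul_apply]
    rw [map_sum]
    apply Finset.sum_congr rfl
    intro j _
    rw [Matrix.mul_apply, map_sum, Finset.mul_sum]
    apply Finset.sum_congr rfl
    intro c _
    simp only [map_sum, map_mul, eval_C, M, Matrix.of_apply]
    ring
  have hker : ∃ x : Fin 3 → ℂ, x ≠ 0 ∧ (M * Matrix.of P).mulVec x = 0 := by
    by_contra hno
    push Not at hno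
    have hinj : LinearMap.ker (Matrix.toLin' (M * Matrix.of P)) = ⊥ := by
      rw [LinearMap.ker_eq_bot']
      intro x hx
      by_contra hx0
      exact hno x hx0 (by rw [← Matrix.toLin'_apply]; exact hx)
    obtain ⟨g, hg⟩ := (Matrix.toLin' (M * Matrix.of P)).exists_leftInverse_of_injective hinj
    have h1 := hdetQ (LinearMap.toMatrix' g)
    have h2 : LinearMap.toMatrix' g * (M * Matrix.of P) = 1 := by
      have h3 := congrArg LinearMap.toMatrix' hg
      rw [LinearMap.toMatrix'_comp, LinearMap.toMatrix'_toLin', LinearMap.toMatrix'_id] at h3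
      exact h3
    rw [h2, Matrix.det_one] at h1
    exact one_ne_zero h1
  obtain ⟨x, hx0, hx⟩ := hker
  apply hx0
  apply hP (fun l => eval z (a l.succ))
  · intro h0
    obtain ⟨i, hi⟩ := hz1
    apply hi
    refine Fin.cases ?_ ?_ i
    · exact hz0
    · intro l; exact congrFun h0 l
  · intro j
    have h1 := congrFun hx j
    rw [Pi.zero_apply] at h1
    rw [← h1, ← Matrix.mulVec_mulVec]
    simp only [Matrix.mulVec, dotProduct, M, Matrix.of_apply, Fin.sum_univ_succ (n := 3), hz0,
      zero_mul, zero_add]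
    simp only [Finset.mul_sum, Finset.sum_mul]
    rw [Finset.sum_comm]
    apply Finset.sum_congr rfl
    intro k _
    rw [Finset.sum_comm]
    apply Finset.sum_congr rfl
    intro t _
    apply Finset.sum_congr rfl
    intro l _
    ring

/-- the coefficients of a linear form -/
private noncomputable def cf {n : ℕ} (q : MvPolynomial (Fin n) ℂ) (k : Fin n) : ℂ :=
  coeff 0 (pderiv k q)

private theorem eq_cf {n : ℕ} {q : MvPolynomial (Fin n) ℂ} (hq : q.IsHomogeneous 1) :
    q = ∑ k, C (cf q k) * X k := by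
  have h1 := hq.sum_X_mul_pderiv
  rw [one_smul] at h1
  conv_lhs => rw [← h1]
  apply Finset.sum_congr rfl
  intro k _
  have h2 : (pderiv k q).IsHomogeneous 0 := hq.pderiv
  rw [← totalDegree_zero_iff_isHomogeneous, totalDegree_eq_zero_iff_eq_C] at h2
  rw [mul_comm]
  unfold cf
  rw [← h2]

private noncomputable def Lm : (Fin 5 → ℂ) →ₗ[ℂ] MvPolynomial (Fin 5) ℂ where
  toFun w := ∑ j, C (w j) * X j
  map_add' := by
    intro w w'
    simp only [Pi.add_apply, map_add, add_mul, Finset.sum_add_distrib]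
  map_smul' := by
    intro c w
    simp only [Pi.smul_apply, smul_eq_mul, map_mul, RingHom.id_apply, Finset.smul_sum, smul_eq_C_mul,
      mul_assoc]

private theorem Lm_apply (w : Fin 5 → ℂ) : Lm w = ∑ j, C (w j) * X j := rfl

private theorem Lm_ker : LinearMap.ker Lm = ⊥ := by
  classical
  rw [LinearMap.ker_eq_bot']
  intro w hw
  funext k
  have h1 := congrArg (eval (Pi.single k 1 : Fin 5 → ℂ)) hw
  rw [Lm_apply, map_sum, map_zero, Finset.sum_eq_single k] at h1
  · rw [map_mul, eval_C, eval_X, Pi.single_eq_same, mul_one] at h1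
    exact h1
  · intro j _ hj
    rw [map_mul, eval_X, Pi.single_eq_of_ne hj, mul_zero]
  · intro h'; exact absurd (Finset.mem_univ _) h'

private theorem form_sum {n : ℕ} (c : Fin n → ℂ) (W : Fin n → MvPolynomial (Fin 5) ℂ)
    (Z : Fin n → Fin 5 → ℂ) (hW : ∀ i, W i = ∑ j, C (Z i j) * X j) :
    ∑ i, C (c i) * W i = ∑ j, C (∑ i, c i * Z i j) * X j := by
  simp only [hW, Finset.mul_sum, map_sum, map_mul, Finset.sum_mul]
  rw [Finset.sum_comm]
  apply Finset.sum_congr rfl
  intro j _
  apply Finset.sum_congr rfl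
  intro i _
  ring

private noncomputable def YY (v : Fin 3 → Fin 5 → MvPolynomial (Fin 5) ℂ) :
    Fin 4 → Fin 5 → Fin 5 → ℂ :=
  Fin.cons (fun i j => if i = j then 1 else 0) (fun l i k => cf (v l i) k)

private noncomputable def FF (v : Fin 3 → Fin 5 → MvPolynomial (Fin 5) ℂ) (i : Fin 5) :
    Fin 4 → MvPolynomial (Fin 5) ℂ := Fin.cons (X i) (fun l => v l i)

private theorem FF_eq {v : Fin 3 → Fin 5 → MvPolynomial (Fin 5) ℂ}
    (h0 : ∀ l i, (v l i).IsHomogeneous 1) (i : Fin 5) (s : Fin 4) :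
    FF v i s = ∑ j, C (YY v s i j) * X j := by
  refine Fin.cases ?_ ?_ s
  · show (X i : MvPolynomial (Fin 5) ℂ) = ∑ j, C (if i = j then (1 : ℂ) else 0) * X j
    rw [Finset.sum_eq_single i]
    · rw [if_pos rfl, C_1, one_mul]
    · intro j _ hj
      rw [if_neg (Ne.symm hj), C_0, zero_mul]
    · intro h'; exact absurd (Finset.mem_univ _) h'
  · intro l
    exact eq_cf (h0 l i)

private theorem alp_zero {v : Fin 3 → Fin 5 → MvPolynomial (Fin 5) ℂ} {c : Fin 4 → ℂ}
    (hc0 : c ≠ 0) (h1 : ∀ k, ∑ s, C (c s) * FF v k s = 0) (y : Fin 5 → MvPolynomial (Fin 5) ℂ) :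
    alp (k := 3) v (fun i => X i) y = 0 := by
  unfold alp
  apply Matrix.exists_vecMul_eq_zero_iff.mp
  refine ⟨(Fin.cons (C (c 0)) (Fin.cons 0 (fun l : Fin 3 => C (c l.succ)) :
    Fin 4 → MvPolynomial (Fin 5) ℂ) : Fin 5 → MvPolynomial (Fin 5) ℂ), ?_, ?_⟩
  · intro h6
    apply hc0
    funext i
    refine Fin.cases ?_ ?_ i
    · have h7 := congrFun h6 0
      rw [Fin.cons_zero, Pi.zero_apply] at h7
      exact C_injective _ _ (by rw [h7, Pi.zero_apply, C_0])
    · intro l
      have h7 := congrFun h6 l.succ.succ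
      rw [Fin.cons_succ, Fin.cons_succ, Pi.zero_apply] at h7
      exact C_injective _ _ (by rw [h7, Pi.zero_apply, C_0])
  · funext i
    have h8 := h1 i
    rw [Fin.sum_univ_succ] at h8
    simp only [Matrix.vecMul, dotProduct, Matrix.of_apply, Fin.sum_univ_succ (n := 4),
      Fin.cons_zero, Fin.cons_succ, Pi.zero_apply]
    rw [Fin.sum_univ_succ (n := 3)]
    simp only [Fin.cons_zero, Fin.cons_succ, zero_mul, zero_add]
    exact h8

private theorem radC_zero {v : Fin 3 → Fin 5 → MvPolynomial (Fin 5) ℂ}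
    (h : ∀ y : Fin 5 → MvPolynomial (Fin 5) ℂ, alp (k := 3) v (fun i => X i) y = 0) :
    radC 3 (stdF (k := 3) (fun i => (X i : MvPolynomial (Fin 5) ℂ)) v) = 0 := by
  funext b
  unfold radC
  have h9 : (fun l i => aeval (fun i => (X i : MvPolynomial (Fin 5) ℂ)) (v l i)) = v := by
    funext l i
    exact aeval_X_left_apply _
  have h7 : ∑ i, (X i : MvPolynomial (Fin 5) ℂ) *
      stdF (k := 3) (fun i => (X i : MvPolynomial (Fin 5) ℂ)) v i b = 0 := by
    have h8 : (fun i => (X i : MvPolynomial (Fin 5) ℂ)) =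
        fun i => ∑ a, X a * pderiv a (X i : MvPolynomial (Fin 5) ℂ) := by
      funext i
      rw [Finset.sum_eq_single i]
      · rw [pderiv_X_self, mul_one]
      · intro j _ hj
        rw [pderiv_X_of_ne (Ne.symm hj), mul_zero]
      · intro h'; exact absurd (Finset.mem_univ _) h'
    have h10 := h (fun i => pderiv b (X i))
    rw [h8, alp_comb (k := 3) v X (fun a i => pderiv a (X i))] at h10
    rw [← h10]
    apply Finset.sum_congr rfl
    intro a _
    unfold stdF
    rw [h9]
  rw [h7, mul_zero]; rfl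

private theorem mins_dep {v : Fin 3 → Fin 5 → MvPolynomial (Fin 5) ℂ}
    {P : Fin 5 → MvPolynomial (Fin 3) ℂ} {c : Fin 3 → ℂ} (hc : c ≠ 0) {x : Fin 3 → ℂ}
    (h : ∀ i, ∑ l, c l * eval x (aeval P (v l i)) = 0) (q : Fin 5 × Fin 5) :
    eval x (mins (k := 3) (fun l i => aeval P (v l i)) q) = 0 := by
  unfold mins alp
  rw [RingHom.map_det]
  apply Matrix.exists_vecMul_eq_zero_iff.mp
  refine ⟨(Fin.cons 0 (Fin.cons 0 c : Fin 4 → ℂ) : Fin 5 → ℂ), ?_, ?_⟩
  · intro h6
    apply hc
    funext l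
    have h7 := congrFun h6 l.succ.succ
    rw [Fin.cons_succ, Fin.cons_succ, Pi.zero_apply] at h7
    rw [h7]; rfl
  · funext i
    simp only [Matrix.vecMul, dotProduct, RingHom.mapMatrix_apply, Matrix.map_apply,
      Matrix.of_apply, Fin.sum_univ_succ (n := 4), Fin.cons_zero, Fin.cons_succ, Pi.zero_apply]
    rw [Fin.sum_univ_succ (n := 3)]
    simp only [Fin.cons_zero, Fin.cons_succ, zero_mul, zero_add]
    exact h i

end core

/-- (E2) -/
theorem f6_indep (v : Fin 3 → Fin 5 → MvPolynomial (Fin 5) ℂ)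
    (h0 : ∀ l i, (v l i).IsHomogeneous 1) (hcl : ClV (k := 3) v)
    (hβ : Cop (radC 3 (stdF (k := 3) (fun i => (X i : MvPolynomial (Fin 5) ℂ)) v)))
    {P : Fin 5 → MvPolynomial (Fin 3) ℂ} (hP : ∀ i, (P i).IsHomogeneous 1)
    (hT : Triv (mins (k := 3) (fun l i => aeval P (v l i)))) :
    ∃ z : Fin 5 → ℂ, LinearIndependent ℂ
      (Fin.cons (∑ i, C (z i) * X i) (zv v z) : Fin 4 → MvPolynomial (Fin 5) ℂ) := by
  classical
  have hdep : ∀ c : Fin 4 → ℂ, (∀ k j, ∑ i, c i * YY v i k j = 0) → c = 0 := by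
    intro c hc
    by_contra hc0
    have h1 : ∀ k, ∑ s, C (c s) * FF v k s = 0 := by
      intro k
      rw [form_sum c (FF v k) (fun s j => YY v s k j) (FF_eq h0 k)]
      apply Finset.sum_eq_zero
      intro j _
      rw [hc k j, C_0, zero_mul]
    have h6 := radC_zero (fun y => alp_zero hc0 h1 y)
    have h10 := hβ (X 0) (fun i => by rw [h6]; exact dvd_zero _)
    have h11 := h10.map (eval (0 : Fin 5 → ℂ))
    simp at h11
  have hPP : ∀ c : Fin 3 → ℂ, c ≠ 0 → ∀ x : Fin 3 → ℂ,
      (∀ j, ∑ l : Fin 3, c l * ∑ k, YY v l.succ j k * ∑ t, cf (P k) t * x t = 0) → x = 0 := by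
    intro c hc x hx
    apply hT x
    apply mins_dep hc
    intro i
    rw [← hx i]
    apply Finset.sum_congr rfl
    intro l _
    congr 1
    have h1 : v l i = ∑ k, C (YY v l.succ i k) * X k := eq_cf (h0 l i)
    conv_lhs => rw [h1]
    rw [map_sum, map_sum]
    apply Finset.sum_congr rfl
    intro k _
    rw [map_mul, map_mul, aeval_X]
    have h2 : (aeval P) (C (YY v l.succ i k) : MvPolynomial (Fin 5) ℂ) = C (YY v l.succ i k) :=
      AlgHom.commutes _ _
    rw [h2, eval_C]
    congr 1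
    conv_lhs => rw [eq_cf (hP k)]
    rw [map_sum]
    apply Finset.sum_congr rfl
    intro t _
    rw [map_mul, eval_C, eval_X]
  obtain ⟨z, hz⟩ := core_thm (YY v) rfl hdep (fun k t => cf (P k) t) hPP
  refine ⟨z, ?_⟩
  have h1 := hz.map' Lm Lm_ker
  have h2 : (Fin.cons (∑ i, C (z i) * X i) (zv v z) : Fin 4 → MvPolynomial (Fin 5) ℂ) =
      Lm ∘ ((fun i => (fun c => ∑ k, z k * YY v i k c)) : Fin 4 → Fin 5 → ℂ) := by
    funext s
    rw [Function.comp, Lm_apply]
    have h3 : (Fin.cons (∑ i, C (z i) * X i) (zv v z) : Fin 4 → MvPolynomial (Fin 5) ℂ) s =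
        ∑ k, C (z k) * FF v k s := by
      refine Fin.cases ?_ ?_ s
      · rfl
      · intro l; rfl
    rw [h3]
    exact form_sum z (fun k => FF v k s) (fun k j => YY v s k j) (fun k => FF_eq h0 k s)
  rw [h2]
  exact h1

end Pool.Agent.Helper1.FG
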