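import Pool.Agent.Helper1.FG.F6a
import Pool.Agent.Helper23.FG22.Fin

/-! FG-22: `f6_point`; see the text in F6a. -/

set_option autoImplicit false

namespace Pool.Agent.Helper1.FG

open MvPolynomial
open scoped BigOperators
open Pool.Agent.Helper93 (TT OF RE HomS IntS FolS Cop Comp PreIrr pb)
open Pool.Agent.Helper71.FL

/-- (E1) -/
theorem f6_point (v : Fin 3 → Fin 5 → MvPolynomial (Fin 5) ℂ)
    (h0 : ∀ l i, (v l i).IsHomogeneous 1) (hcl : ClV (k := 3) v)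
    (hβ : Cop (radC 3 (stdF (k := 3) (fun i => (X i : MvPolynomial (Fin 5) ℂ)) v)))
    {P : Fin 5 → MvPolynomial (Fin 3) ℂ} (hP : ∀ i, (P i).IsHomogeneous 1)
    (hT : Triv (mins (k := 3) (fun l i => aeval P (v l i)))) :
    ∃ z : Fin 5 → ℂ, LinearIndependent ℂ
      (Fin.cons (∑ i, C (z i) * X i) (zv v z) : Fin 4 → MvPolynomial (Fin 5) ℂ) ∧
      Triv (Sum.elim (Fin.cons (∑ i, C (z i) * X i) (zv v z) : Fin 4 → MvPolynomial (Fin 5) ℂ)
        (mins (k := 3) v)) :=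
  Pool.Agent.Helper23.FG22.main h0 hcl hP hT (f6_indep v h0 hcl hβ hP hT)

end Pool.Agent.Helper1.FG
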