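import Pool.Agent.Helper1.FG.F5

/-! FG-24: the resonant forms, limits of logarithmic forms.
`om7 t` is, for `t ≠ 0`, `x ρ Q (λ_a da/a + λ_b db/b + λ_x dx/x + λ_Q dQ/Q)` with `ρ = a b`, `Q = ρ + t y`, `λ_a = κ_a + c/t`, `λ_b = κ_b + c/t`,
`λ_x = κ_x`, `λ_Q = κ_Q - c/t` (because `y dρ - ρ dy = (Q dρ - ρ dQ)/t`), so it is integrable and its differential is `stdF Φ v` with
`Φ = (a, b, x, Q)` and `v_1, v_2` diagonal fields `∑ μ_i y_i ∂_i` with `∑ μ_i = 0`, `∑ λ_i μ_i = 0` (suitably normalised).  For general `t` the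
`λ` are distinct, so `v_1 ∧ v_2` vanishes only where three of the `y_i` vanish: `P = (X_0, X_1, X_2, X_0^2 + X_1^2 + X_2^2)`.
`om7` is polynomial in `t`: `only_open` with `Ψ` = `om7`, then `cert_1112`, `std_move` for one general `t`. -/

set_option autoImplicit false

namespace Pool.Agent.Helper1.FG

open MvPolynomial
open scoped BigOperators
open Pool.Agent.Helper93 (TT OF RE HomS IntS FolS Cop Comp PreIrr pb)
open Pool.Agent.Helper71.FL

/-- the family -/
noncomputable def om7 {n : ℕ} {R : Type} [CommRing R] (a b x y : MvPolynomial (Fin n) R)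
    (c ka kb kx kQ t : R) (i : Fin n) : MvPolynomial (Fin n) R :=
  C c * x * (y * pderiv i (a * b) - a * b * pderiv i y) +
  (C ka * b * pderiv i a + C kb * a * pderiv i b) * x * (a * b + C t * y) +
  C kx * a * b * (a * b + C t * y) * pderiv i x +
  C kQ * a * b * x * pderiv i (a * b + C t * y)

private theorem h54_comm {σ : Type} {R : Type} [CommRing R] (i j : σ) (p : MvPolynomial σ R) :
    pderiv i (pderiv j p) = pderiv j (pderiv i p) := by
  classical
  have h : ⁅(pderiv i : Derivation R (MvPolynomial σ R) (MvPolynomial σ R)),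
      (pderiv j : Derivation R (MvPolynomial σ R) (MvPolynomial σ R))⁆ = 0 := by
    apply MvPolynomial.derivation_ext
    intro k
    rw [Derivation.commutator_apply, pderiv_X, pderiv_X, Derivation.zero_apply]
    rcases eq_or_ne j k with h1 | h1 <;> rcases eq_or_ne i k with h2 | h2 <;>
      simp [h1, h2]
  have h2 := congrArg (fun D => D p) h
  simp only [Derivation.commutator_apply, Derivation.zero_apply] at h2
  exact sub_eq_zero.mp h2

private theorem alp4 {S : Type} [CommRing S] (r : Fin 2 → Fin 4 → S) (x y : Fin 4 → S) :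
    alp (k := 2) r x y =
      (x 0 * y 1 - x 1 * y 0) * (r 0 2 * r 1 3 - r 0 3 * r 1 2) -
      (x 0 * y 2 - x 2 * y 0) * (r 0 1 * r 1 3 - r 0 3 * r 1 1) +
      (x 0 * y 3 - x 3 * y 0) * (r 0 1 * r 1 2 - r 0 2 * r 1 1) +
      (x 1 * y 2 - x 2 * y 1) * (r 0 0 * r 1 3 - r 0 3 * r 1 0) -
      (x 1 * y 3 - x 3 * y 1) * (r 0 0 * r 1 2 - r 0 2 * r 1 0) +
      (x 2 * y 3 - x 3 * y 2) * (r 0 0 * r 1 1 - r 0 1 * r 1 0) := by
  have h : alp (k := 2) r x y = Matrix.det (Matrix.of ![x, y, r 0, r 1]) := by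
    unfold alp
    congr 1
    ext i j
    fin_cases i <;> rfl
  rw [h, Matrix.det_succ_row_zero]
  simp only [Fin.sum_univ_four, Matrix.det_fin_three, Matrix.submatrix_apply, Matrix.of_apply]
  simp [Fin.succAbove, Fin.lt_def]
  ring

/-- closed formula for the differential -/
private theorem dd_om7 {n : ℕ} {R : Type} [CommRing R] (a b x y : MvPolynomial (Fin n) R)
    (c ka kb kx kQ t : R) (i j : Fin n) :
    dd (fun i => om7 a b x y c ka kb kx kQ t i) i j =
      (C kb - C ka) * x * (2 * (a * b) + C t * y) *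
        (pderiv i a * pderiv j b - pderiv j a * pderiv i b) +
      b * ((C kx - C ka) * (a * b + C t * y) + (C kx - C kQ) * (a * b) - C c * y) *
        (pderiv i a * pderiv j x - pderiv j a * pderiv i x) +
      b * x * (-2 * C c + (C kQ - C ka) * C t) *
        (pderiv i a * pderiv j y - pderiv j a * pderiv i y) +
      a * ((C kx - C kb) * (a * b + C t * y) + (C kx - C kQ) * (a * b) - C c * y) *
        (pderiv i b * pderiv j x - pderiv j b * pderiv i x) +
      a * x * (-2 * C c + (C kQ - C kb) * C t) *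
        (pderiv i b * pderiv j y - pderiv j b * pderiv i y) +
      a * b * (- C c + (C kQ - C kx) * C t) *
        (pderiv i x * pderiv j y - pderiv j x * pderiv i y) := by
  unfold dd om7
  simp only [map_add, map_sub, pderiv_mul, pderiv_C, map_zero]
  rw [h54_comm j i a, h54_comm j i b, h54_comm j i x, h54_comm j i y]
  ring

private theorem gg_om7 {n : ℕ} {R : Type} [CommRing R] (a b x y : MvPolynomial (Fin n) R)
    (c ka kb kx kQ t : R) (i j k : Fin n) :
    w12 (fun i => om7 a b x y c ka kb kx kQ t i)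
      (dd (fun i => om7 a b x y c ka kb kx kQ t i)) i j k = 0 := by
  unfold w12
  rw [dd_om7, dd_om7, dd_om7]
  unfold om7
  simp only [map_add, pderiv_mul, pderiv_C]
  ring

private theorem euler_om7 {n : ℕ} {p : MvPolynomial (Fin n) ℂ} {k : ℕ} (hp : p.IsHomogeneous k) :
    ∑ i, X i * pderiv i p = C (k : ℂ) * p := by
  rw [hp.sum_X_mul_pderiv, nsmul_eq_mul, map_natCast]

theorem om7_mem {n : ℕ} {a b x y : MvPolynomial (Fin n) ℂ} (ha : a.IsHomogeneous 1)
    (hb : b.IsHomogeneous 1) (hx : x.IsHomogeneous 1) (hy : y.IsHomogeneous 2)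
    {c ka kb kx kQ : ℂ} (hk : ka + kb + kx + 2 * kQ = 0) (t : ℂ) :
    (fun i => om7 a b x y c ka kb kx kQ t i) ∈ IntS n 3 := by
  have hρ : (a * b).IsHomogeneous 2 := ha.mul hb
  have hQ : (a * b + C t * y).IsHomogeneous 2 := hρ.add (hy.C_mul t)
  refine ⟨?_, ?_, ?_⟩
  · intro i
    have e1 : (C c * x * (y * pderiv i (a * b) - a * b * pderiv i y)).IsHomogeneous (3 + 1) :=
      (hx.C_mul c).mul ((hy.mul hρ.pderiv).sub (hρ.mul hy.pderiv))
    have e2 : ((C ka * b * pderiv i a + C kb * a * pderiv i b) * x *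
        (a * b + C t * y)).IsHomogeneous (3 + 1) :=
      ((((hb.C_mul ka).mul ha.pderiv).add ((ha.C_mul kb).mul hb.pderiv)).mul hx).mul hQ
    have e3 : (C kx * a * b * (a * b + C t * y) * pderiv i x).IsHomogeneous (3 + 1) :=
      (((ha.C_mul kx).mul hb).mul hQ).mul hx.pderiv
    have e4 : (C kQ * a * b * x * pderiv i (a * b + C t * y)).IsHomogeneous (3 + 1) :=
      (((ha.C_mul kQ).mul hb).mul hx).mul hQ.pderiv
    exact ((e1.add e2).add e3).add e4
  · have h1 : ∀ i : Fin n, X i * om7 a b x y c ka kb kx kQ t i =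
        C c * x * y * (X i * pderiv i (a * b)) - C c * x * (a * b) * (X i * pderiv i y) +
        C ka * b * x * (a * b + C t * y) * (X i * pderiv i a) +
        C kb * a * x * (a * b + C t * y) * (X i * pderiv i b) +
        C kx * a * b * (a * b + C t * y) * (X i * pderiv i x) +
        C kQ * a * b * x * (X i * pderiv i (a * b + C t * y)) := by
      intro i
      unfold om7
      ring
    have h2 : (∑ i, X i * om7 a b x y c ka kb kx kQ t i) =
        C c * x * y * (∑ i, X i * pderiv i (a * b)) -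
        C c * x * (a * b) * (∑ i, X i * pderiv i y) +
        C ka * b * x * (a * b + C t * y) * (∑ i, X i * pderiv i a) +
        C kb * a * x * (a * b + C t * y) * (∑ i, X i * pderiv i b) +
        C kx * a * b * (a * b + C t * y) * (∑ i, X i * pderiv i x) +
        C kQ * a * b * x * (∑ i, X i * pderiv i (a * b + C t * y)) := by
      simp only [Finset.mul_sum]
      rw [← Finset.sum_sub_distrib, ← Finset.sum_add_distrib, ← Finset.sum_add_distrib,
        ← Finset.sum_add_distrib, ← Finset.sum_add_distrib]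
      exact Finset.sum_congr rfl fun i _ => h1 i
    have h3 : (∑ i, X i * (fun i => om7 a b x y c ka kb kx kQ t i) i) =
        ∑ i, X i * om7 a b x y c ka kb kx kQ t i := rfl
    rw [h3, h2, euler_om7 hρ, euler_om7 hy, euler_om7 ha, euler_om7 hb, euler_om7 hx,
      euler_om7 hQ]
    have h4 : (C ka + C kb + C kx + 2 * C kQ : MvPolynomial (Fin n) ℂ) = 0 := by
      rw [show (2 : MvPolynomial (Fin n) ℂ) = C 2 by rw [map_ofNat], ← C_mul, ← C_add, ← C_add,
        ← C_add, hk, C_0]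
    have h5 : (C ((1 : ℕ) : ℂ) : MvPolynomial (Fin n) ℂ) = 1 := by
      rw [Nat.cast_one, C_1]
    have h6 : (C ((2 : ℕ) : ℂ) : MvPolynomial (Fin n) ℂ) = 2 := by
      rw [Nat.cast_ofNat, map_ofNat]
    rw [h5, h6]
    linear_combination (a * b * x * (a * b + C t * y)) * h4
  · intro i j k
    exact gg_om7 a b x y c ka kb kx kQ t i j k

/-- the two diagonal fields orthogonal to `1` and to `l` -/
private noncomputable def vv (l : Fin 4 → ℂ) : Fin 2 → Fin 4 → MvPolynomial (Fin 4) ℂ :=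
  ![![C (l 1 - l 2) * X 0, C (l 2 - l 0) * X 1, C (l 0 - l 1) * X 2, 0],
    ![C ((l 1 - l 3) / (l 1 - l 0)) * X 0, C ((l 3 - l 0) / (l 1 - l 0)) * X 1, 0,
      C (-1) * X 3]]

/-- minors of the two fields -/
private theorem vv_minors {l : Fin 4 → ℂ} (h : l 1 - l 0 ≠ 0) :
    (vv l 0 2 * vv l 1 3 - vv l 0 3 * vv l 1 2 = C (l 1 - l 0) * (X 2 * X 3)) ∧
    (vv l 0 1 * vv l 1 3 - vv l 0 3 * vv l 1 1 = - (C (l 2 - l 0) * (X 1 * X 3))) ∧
    (vv l 0 1 * vv l 1 2 - vv l 0 2 * vv l 1 1 = C (l 3 - l 0) * (X 1 * X 2)) ∧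
    (vv l 0 0 * vv l 1 3 - vv l 0 3 * vv l 1 0 = C (l 2 - l 1) * (X 0 * X 3)) ∧
    (vv l 0 0 * vv l 1 2 - vv l 0 2 * vv l 1 0 = - (C (l 3 - l 1) * (X 0 * X 2))) ∧
    (vv l 0 0 * vv l 1 1 - vv l 0 1 * vv l 1 0 = C (l 3 - l 2) * (X 0 * X 1)) := by
  have e1 : (C (l 0 - l 1) : MvPolynomial (Fin 4) ℂ) * C ((l 3 - l 0) / (l 1 - l 0)) =
      - C (l 3 - l 0) := by
    rw [← C_mul, ← C_neg]
    congr 1
    field_simp
    ring
  have e2 : (C (l 0 - l 1) : MvPolynomial (Fin 4) ℂ) * C ((l 1 - l 3) / (l 1 - l 0)) =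
      C (l 3 - l 1) := by
    rw [← C_mul]
    congr 1
    field_simp
    ring
  have e3 : (C (l 1 - l 2) : MvPolynomial (Fin 4) ℂ) * C ((l 3 - l 0) / (l 1 - l 0)) -
      C (l 2 - l 0) * C ((l 1 - l 3) / (l 1 - l 0)) = C (l 3 - l 2) := by
    rw [← C_mul, ← C_mul, ← C_sub]
    congr 1
    field_simp
    ring
  have e4 : (C (-1) : MvPolynomial (Fin 4) ℂ) = -1 := by rw [C_neg, C_1]
  refine ⟨?_, ?_, ?_, ?_, ?_, ?_⟩
  · simp only [vv, Matrix.cons_val]
    rw [e4]
    simp only [C_sub]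
    ring
  · simp only [vv, Matrix.cons_val]
    rw [e4]
    ring
  · simp only [vv, Matrix.cons_val]
    linear_combination (- (X 2 * X 1)) * e1
  · simp only [vv, Matrix.cons_val]
    rw [e4]
    simp only [C_sub]
    ring
  · simp only [vv, Matrix.cons_val]
    linear_combination (- (X 2 * X 0)) * e2
  · simp only [vv, Matrix.cons_val]
    linear_combination (X 0 * X 1) * e3


private theorem alp_vv {l : Fin 4 → ℂ} (h : l 1 - l 0 ≠ 0) {A : Type} [CommRing A] [Algebra ℂ A]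
    (Φ : Fin 4 → A) (x y : Fin 4 → A) :
    alp (k := 2) (fun m i => aeval Φ (vv l m i)) x y =
      (x 0 * y 1 - x 1 * y 0) * (algebraMap ℂ A (l 1 - l 0) * (Φ 2 * Φ 3)) +
      (x 0 * y 2 - x 2 * y 0) * (algebraMap ℂ A (l 2 - l 0) * (Φ 1 * Φ 3)) +
      (x 0 * y 3 - x 3 * y 0) * (algebraMap ℂ A (l 3 - l 0) * (Φ 1 * Φ 2)) +
      (x 1 * y 2 - x 2 * y 1) * (algebraMap ℂ A (l 2 - l 1) * (Φ 0 * Φ 3)) +
      (x 1 * y 3 - x 3 * y 1) * (algebraMap ℂ A (l 3 - l 1) * (Φ 0 * Φ 2)) +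
      (x 2 * y 3 - x 3 * y 2) * (algebraMap ℂ A (l 3 - l 2) * (Φ 0 * Φ 1)) := by
  obtain ⟨h1, h2, h3, h4, h5, h6⟩ := vv_minors h
  have g1 := congrArg (aeval Φ) h1
  have g2 := congrArg (aeval Φ) h2
  have g3 := congrArg (aeval Φ) h3
  have g4 := congrArg (aeval Φ) h4
  have g5 := congrArg (aeval Φ) h5
  have g6 := congrArg (aeval Φ) h6
  simp only [map_sub, map_mul, map_neg, aeval_X, algHom_C] at g1 g2 g3 g4 g5 g6
  rw [alp4]
  rw [g1, g2, g3, g4, g5, g6]
  simp only [map_sub]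
  ring

private theorem mins_vv {l : Fin 4 → ℂ} (h : l 1 - l 0 ≠ 0) (i j : Fin 4) :
    mins (k := 2) (vv l) (i, j) =
      (![![0, C (l 1 - l 0) * (X 2 * X 3), C (l 2 - l 0) * (X 1 * X 3),
            C (l 3 - l 0) * (X 1 * X 2)],
         ![- (C (l 1 - l 0) * (X 2 * X 3)), 0, C (l 2 - l 1) * (X 0 * X 3),
            C (l 3 - l 1) * (X 0 * X 2)],
         ![- (C (l 2 - l 0) * (X 1 * X 3)), - (C (l 2 - l 1) * (X 0 * X 3)), 0,
            C (l 3 - l 2) * (X 0 * X 1)],
         ![- (C (l 3 - l 0) * (X 1 * X 2)), - (C (l 3 - l 1) * (X 0 * X 2)),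
            - (C (l 3 - l 2) * (X 0 * X 1)), 0]] :
        Fin 4 → Fin 4 → MvPolynomial (Fin 4) ℂ) i j := by
  obtain ⟨h1, h2, h3, h4, h5, h6⟩ := vv_minors h
  unfold mins
  rw [alp4, h1, h2, h3, h4, h5, h6]
  fin_cases i <;> fin_cases j <;> simp

private theorem cl_vv {l : Fin 4 → ℂ} (h : l 1 - l 0 ≠ 0) : ClV (k := 2) (vv l) := by
  intro i j k
  simp only [mins_vv h]
  fin_cases i <;> fin_cases j <;> fin_cases k <;>
    simp [pderiv_X] <;> ring

private theorem wh_vv {n : ℕ} {Φ : Fin 4 → MvPolynomial (Fin n) ℂ}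
    (hΦ : ∀ i, (Φ i).IsHomogeneous ((![1, 1, 1, 2] : Fin 4 → ℕ) i)) (l : Fin 4 → ℂ) :
    WH (k := 2) ![1, 1, 1, 2] ![0, 0] Φ (vv l) := by
  refine ⟨hΦ, ?_⟩
  have hX : ∀ (i : Fin 4) (m : ℂ), IsWeightedHomogeneous (![1, 1, 1, 2] : Fin 4 → ℕ)
      (C m * X i : MvPolynomial (Fin 4) ℂ) ((![1, 1, 1, 2] : Fin 4 → ℕ) i + 0) := by
    intro i m
    have h1 := isWeightedHomogeneous_C (R := ℂ) (![1, 1, 1, 2] : Fin 4 → ℕ) m
    have h2 := isWeightedHomogeneous_X ℂ (![1, 1, 1, 2] : Fin 4 → ℕ) i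
    have h3 := h1.mul h2
    rw [zero_add] at h3
    exact h3
  have h0 : ∀ m : ℕ, IsWeightedHomogeneous (![1, 1, 1, 2] : Fin 4 → ℕ)
      (0 : MvPolynomial (Fin 4) ℂ) m := fun m => isWeightedHomogeneous_zero _ _ _
  intro m i
  fin_cases m <;> fin_cases i
  · exact hX 0 _
  · exact hX 1 _
  · exact hX 2 _
  · exact h0 _
  · exact hX 0 _
  · exact hX 1 _
  · exact h0 _
  · exact hX 3 _

private noncomputable def PP : Fin 4 → MvPolynomial (Fin 3) ℂ :=
  ![X 0, X 1, X 2, X 0 ^ 2 + X 1 ^ 2 + X 2 ^ 2]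

private theorem PP_hom (i : Fin 4) : (PP i).IsHomogeneous ((![1, 1, 1, 2] : Fin 4 → ℕ) i) := by
  fin_cases i
  · exact isHomogeneous_X _ _
  · exact isHomogeneous_X _ _
  · exact isHomogeneous_X _ _
  · exact ((isHomogeneous_X_pow _ _).add (isHomogeneous_X_pow _ _)).add (isHomogeneous_X_pow _ _)

private theorem triv_PP {l : Fin 4 → ℂ} (h10 : l 1 - l 0 ≠ 0) (h20 : l 2 - l 0 ≠ 0)
    (h30 : l 3 - l 0 ≠ 0) (h21 : l 2 - l 1 ≠ 0) (h31 : l 3 - l 1 ≠ 0) (h32 : l 3 - l 2 ≠ 0) :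
    Triv (mins (k := 2) (fun m i => aeval PP (vv l m i))) := by
  intro z hz
  have hm : ∀ i j : Fin 4, eval z (alp (k := 2) (fun m i => aeval PP (vv l m i))
      (Pi.single i 1) (Pi.single j 1)) = 0 := fun i j => hz (i, j)
  have e01 := hm 0 1
  have e02 := hm 0 2
  have e03 := hm 0 3
  have e12 := hm 1 2
  have e13 := hm 1 3
  have e23 := hm 2 3
  rw [alp_vv h10] at e01 e02 e03 e12 e13 e23
  simp [PP, h10, h20, h30, h21, h31, h32] at e01 e02 e03 e12 e13 e23
  have hq : z 0 ^ 2 + z 1 ^ 2 + z 2 ^ 2 = 0 := by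
    rcases e01 with h | h
    · rcases e02 with h' | h'
      · rcases e12 with h'' | h''
        · rw [h, h', h'']; norm_num
        · exact h''
      · exact h'
    · exact h
  have h3 : z 0 = 0 ∧ z 1 = 0 ∧ z 2 = 0 := by
    rcases e03 with h | h
    · rcases e13 with h' | h'
      · rw [h, h'] at hq
        refine ⟨h', h, ?_⟩
        simpa using hq
      · rw [h, h'] at hq
        refine ⟨?_, h, h'⟩
        simpa using hq
    · rcases e23 with h' | h'
      · rw [h, h'] at hq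
        refine ⟨h', ?_, h⟩
        simpa using hq
      · rw [h, h'] at hq
        refine ⟨?_, h', h⟩
        simpa using hq
  funext i
  fin_cases i
  · exact h3.1
  · exact h3.2.1
  · exact h3.2.2

private theorem fin_aff (α β : ℂ) (h : β ≠ 0) : {t : ℂ | α * t - β = 0}.Finite := by
  apply Set.Subsingleton.finite
  intro t1 h1 t2 h2
  simp only [Set.mem_ofPred_eq] at h1 h2
  have hα : α ≠ 0 := by
    rintro rfl
    apply h
    linear_combination - h1
  apply mul_left_cancel₀ hα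
  linear_combination h1 - h2

private theorem dd_om7_std {n : ℕ} {a b x y : MvPolynomial (Fin n) ℂ}
    {c ka kb kx kQ t : ℂ} (ht : t ≠ 0) (hab : kb - ka ≠ 0) {l : Fin 4 → ℂ}
    (hl : l = ![ka + c / t, kb + c / t, kx, kQ - c / t]) :
    dd (fun i => om7 a b x y c ka kb kx kQ t i) =
      stdF (k := 2) ![a, b, x, a * b + C t * y] (vv l) := by
  have h10 : l 1 - l 0 ≠ 0 := by
    rw [hl]
    simpa using hab
  have hc : (C c : MvPolynomial (Fin n) ℂ) = C (c / t) * C t := by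
    rw [← C_mul, div_mul_cancel₀ _ ht]
  have g0 : l 0 = ka + c / t := by rw [hl]; rfl
  have g1 : l 1 = kb + c / t := by rw [hl]; rfl
  have g2 : l 2 = kx := by rw [hl]; rfl
  have g3 : l 3 = kQ - c / t := by rw [hl]; rfl
  funext i j
  unfold stdF
  rw [dd_om7, alp_vv h10, g0, g1, g2, g3, hc]
  simp only [MvPolynomial.algebraMap_eq, Matrix.cons_val, map_add, map_sub, pderiv_mul, pderiv_C]
  ring

theorem om7_std {n : ℕ} {a b x y : MvPolynomial (Fin n) ℂ} (ha : a.IsHomogeneous 1)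
    (hb : b.IsHomogeneous 1) (hx : x.IsHomogeneous 1) (hy : y.IsHomogeneous 2)
    {c ka kb kx kQ : ℂ} (hk : ka + kb + kx + 2 * kQ = 0) (hc : c ≠ 0) (hab : ka ≠ kb) :
    {t : ℂ | ¬ ∃ (v : Fin 2 → Fin 4 → MvPolynomial (Fin 4) ℂ) (P : Fin 4 → MvPolynomial (Fin 3) ℂ),
      WH (k := 2) ![1, 1, 1, 2] ![0, 0] ![a, b, x, a * b + C t * y] v ∧ ClV (k := 2) v ∧
      (∀ i, (P i).IsHomogeneous (![1, 1, 1, 2] i)) ∧
      Triv (mins (k := 2) (fun l i => aeval P (v l i))) ∧
      dd (fun i => om7 a b x y c ka kb kx kQ t i) =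
        stdF (k := 2) ![a, b, x, a * b + C t * y] v}.Finite := by
  have hba : kb - ka ≠ 0 := sub_ne_zero.mpr (Ne.symm hab)
  have h2c : 2 * c ≠ 0 := mul_ne_zero two_ne_zero hc
  refine (((((((Set.finite_singleton (0 : ℂ)).union (fin_aff (kx - ka) c hc)).union
    (fin_aff (kx - kb) c hc)).union (fin_aff (kQ - ka) (2 * c) h2c)).union
    (fin_aff (kQ - kb) (2 * c) h2c)).union (fin_aff (kQ - kx) c hc))).subset ?_
  intro t ht
  by_contra hn
  apply ht
  simp only [Set.mem_union, Set.mem_singleton_iff, Set.mem_ofPred_eq, not_or] at hn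
  obtain ⟨⟨⟨⟨⟨ht0, n1⟩, n2⟩, n3⟩, n4⟩, n5⟩ := hn
  set l : Fin 4 → ℂ := ![ka + c / t, kb + c / t, kx, kQ - c / t] with hl
  have g0 : l 0 = ka + c / t := rfl
  have g1 : l 1 = kb + c / t := rfl
  have g2 : l 2 = kx := rfl
  have g3 : l 3 = kQ - c / t := rfl
  have h10 : l 1 - l 0 ≠ 0 := by
    rw [g0, g1]
    intro h
    apply hba
    linear_combination h
  have h20 : l 2 - l 0 ≠ 0 := by
    rw [g0, g2]
    intro h
    apply n1
    have h' := congrArg (fun z => z * t) h
    simp only [zero_mul, sub_mul, add_mul, div_mul_cancel₀ _ ht0] at h'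
    linear_combination h'
  have h30 : l 3 - l 0 ≠ 0 := by
    rw [g0, g3]
    intro h
    apply n3
    have h' := congrArg (fun z => z * t) h
    simp only [zero_mul, sub_mul, add_mul, div_mul_cancel₀ _ ht0] at h'
    linear_combination h'
  have h21 : l 2 - l 1 ≠ 0 := by
    rw [g1, g2]
    intro h
    apply n2
    have h' := congrArg (fun z => z * t) h
    simp only [zero_mul, sub_mul, add_mul, div_mul_cancel₀ _ ht0] at h'
    linear_combination h'
  have h31 : l 3 - l 1 ≠ 0 := by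
    rw [g1, g3]
    intro h
    apply n4
    have h' := congrArg (fun z => z * t) h
    simp only [zero_mul, sub_mul, add_mul, div_mul_cancel₀ _ ht0] at h'
    linear_combination h'
  have h32 : l 3 - l 2 ≠ 0 := by
    rw [g2, g3]
    intro h
    apply n5
    have h' := congrArg (fun z => z * t) h
    simp only [zero_mul, sub_mul, div_mul_cancel₀ _ ht0] at h'
    linear_combination h'
  refine ⟨vv l, PP, wh_vv ?_ l, cl_vv h10, PP_hom, triv_PP h10 h20 h30 h21 h31 h32,
    dd_om7_std ht0 hba hl⟩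
  intro i
  fin_cases i
  · exact ha
  · exact hb
  · exact hx
  · exact (ha.mul hb).add (hy.C_mul t)

private theorem om7_map {n : ℕ} {R R' : Type} [CommRing R] [CommRing R'] (φ : R →+* R')
    (a b x y : MvPolynomial (Fin n) R) (c ka kb kx kQ t : R) (i : Fin n) :
    MvPolynomial.map φ (om7 a b x y c ka kb kx kQ t i) =
      om7 (MvPolynomial.map φ a) (MvPolynomial.map φ b) (MvPolynomial.map φ x)
        (MvPolynomial.map φ y) (φ c) (φ ka) (φ kb) (φ kx) (φ kQ) (φ t) i := by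
  unfold om7
  simp only [map_add, map_sub, map_mul, MvPolynomial.map_C, ← pderiv_map]

private theorem ev_cn {n : ℕ} (t : ℂ) (p : MvPolynomial (Fin n) ℂ) :
    MvPolynomial.map (Polynomial.evalRingHom t) (cn (Fin n) p) = p := by
  unfold cn
  rw [MvPolynomial.map_map]
  have : (Polynomial.evalRingHom t).comp (Polynomial.C : ℂ →+* Polynomial ℂ) = RingHom.id ℂ := by
    ext z
    simp
  rw [this, MvPolynomial.map_id]

theorem alt_om7 {N : ℕ} (hN : 4 ≤ N) {a b x y : MvPolynomial (Fin (N + 1)) ℂ}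
    (ha : a.IsHomogeneous 1) (hb : b.IsHomogeneous 1) (hx : x.IsHomogeneous 1)
    (hy : y.IsHomogeneous 2) {c ka kb kx kQ : ℂ} (hk : ka + kb + kx + 2 * kQ = 0) (hc : c ≠ 0)
    (hab : ka ≠ kb) {S : Set (OF (N + 1))} (hS : S ∈ Comp (RE (N + 1)) (FolS (N + 1) 3))
    (h0 : Only 3 S (fun i => om7 a b x y c ka kb kx kQ 0 i)) : Alt2 N 3 S := by
  let Ψ : Fin (N + 1) → MvPolynomial (Fin (N + 1)) (Polynomial ℂ) := fun i =>
    om7 (cn _ a) (cn _ b) (cn _ x) (cn _ y) (Polynomial.C c) (Polynomial.C ka) (Polynomial.C kb)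
      (Polynomial.C kx) (Polynomial.C kQ) Polynomial.X i
  have hev : ∀ t : ℂ, (fun i => ev t (Fin (N + 1)) (Ψ i)) =
      fun i => om7 a b x y c ka kb kx kQ t i := by
    intro t
    funext i
    show MvPolynomial.map (Polynomial.evalRingHom t) _ = _
    rw [om7_map, ev_cn, ev_cn, ev_cn, ev_cn]
    simp
  have hfin1 := only_open (Nat.succ_pos N) hS Ψ
    (fun t => by rw [hev]; exact om7_mem ha hb hx hy hk t) (by rw [hev]; exact h0)
  simp only [hev] at hfin1
  have hfin2 := om7_std ha hb hx hy hk hc hab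
  obtain ⟨t, ht⟩ := (hfin1.union hfin2).exists_notMem
  rw [Set.mem_union, not_or, Set.mem_ofPred_eq, Set.mem_ofPred_eq, not_not, not_not] at ht
  obtain ⟨hO, v, P, hwh, hcl, hP, hT, hdd⟩ := ht
  have hint := om7_mem (n := N + 1) ha hb hx hy (c := c) hk t
  have hcop : Cop (radC 3 (stdF (k := 2) ![a, b, x, a * b + C t * y] v)) := by
    rw [← hdd, radC_dd hint]
    exact (hS.1.1 hO.1).2
  obtain ⟨Φ1, c1, eg, ℓ, el, hcert⟩ := cert_1112 (M := N) hN v hwh hcop hP hT
  refine std_move (k := 2) hN ![1, 1, 1, 2] (by decide) ![0, 0] (by decide) hwh ?_ hcert hS hO hdd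
  intro s
  have : (fun l i => C (1 - s) * v l i + C s * v l i) = v := by
    funext l i
    rw [← add_mul, ← C_add, sub_add_cancel, C_1, one_mul]
  rw [this]
  exact hcl

end Pool.Agent.Helper1.FG
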