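import Pool.Agent.Helper1.FG.GoodStd
import Pool.Agent.Helper1.FG.Desc
import Pool.Agent.Helper1.FG.Delta

/-! FG-9: the criterion along a family with parameter `t`, valid at `t = 1`.
`triv_open` for the three systems (all members homogeneous over `ℂ[t]`: `mins_hom`), then `exact_of_triv`, `delta`, `rseq_three`,
`good_std` for every `t` outside a finite set. -/

set_option autoImplicit false

namespace Pool.Agent.Helper1.FG

open MvPolynomial
open scoped BigOperators
open Pool.Agent.Helper71.FL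

private theorem ev_cn (t : ℂ) {σ : Type} (p : MvPolynomial σ ℂ) : ev t σ (cn σ p) = p := by
  have h : (Polynomial.evalRingHom t).comp (Polynomial.C : ℂ →+* Polynomial ℂ) = RingHom.id ℂ := by
    ext x
    simp
  unfold ev cn
  rw [MvPolynomial.map_map, h, MvPolynomial.map_id]

private theorem cn_hom {σ : Type} {p : MvPolynomial σ ℂ} {n : ℕ} (h : p.IsHomogeneous n) :
    (cn σ p).IsHomogeneous n := h.map _

private theorem ev_hom (t : ℂ) {σ : Type} {p : MvPolynomial σ (Polynomial ℂ)} {n : ℕ}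
    (h : p.IsHomogeneous n) : (ev t σ p).IsHomogeneous n := h.map _

private theorem single_map {S S' : Type} [CommRing S] [CommRing S'] (φ : S →+* S') {m : ℕ}
    (j : Fin m) : (fun i => φ ((Pi.single j 1 : Fin m → S) i)) = (Pi.single j 1 : Fin m → S') := by
  funext i
  by_cases h : i = j
  · subst h
    simp
  · rw [Pi.single_eq_of_ne h, Pi.single_eq_of_ne h, map_zero]

private theorem mins_map {S S' : Type} [CommRing S] [CommRing S'] (φ : S →+* S') {k : ℕ}
    (r : Fin k → Fin (k + 2) → S) (p : Fin (k + 2) × Fin (k + 2)) :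
    mins (fun l i => φ (r l i)) p = φ (mins r p) := by
  unfold mins
  rw [← alp_map r φ, single_map φ p.1, single_map φ p.2]

private theorem min_ne {N k : ℕ} (hN : 4 ≤ N)
    (r : Fin k → Fin (k + 2) → MvPolynomial (Fin N) ℂ)
    (h3 : Triv (Sum.elim (mins r) (pads N 3))) : ∃ ρ ∈ MinI r, ρ ≠ 0 := by
  by_contra hcon
  push Not at hcon
  have h0 : ∀ p, mins r p = 0 := fun p => hcon _ (Ideal.subset_span ⟨p, rfl⟩)
  have h1 := h3 (Pi.single (⟨0, by omega⟩ : Fin N) 1) (by
    rintro (p | i)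
    · show eval _ (mins r p) = 0
      rw [h0 p, map_zero]
    · show eval _ (pads N 3 i) = 0
      unfold pads
      rw [eval_X]
      refine Pi.single_eq_of_ne ?_ _
      intro h
      have h2 := i.2
      rw [h] at h2
      simp at h2)
  have h2 := congrFun h1 (⟨0, by omega⟩ : Fin N)
  rw [Pi.single_eq_same] at h2
  exact one_ne_zero h2

theorem good_family {N k : ℕ} (hN : 4 ≤ N) (w : Fin (k + 2) → ℕ) (s : Fin k → ℕ)
    (T : Fin N → Fin (k + 2) → MvPolynomial (Fin N) (Polynomial ℂ))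
    (r : Fin k → Fin (k + 2) → MvPolynomial (Fin N) (Polynomial ℂ))
    (hr : ∀ l i, (r l i).IsHomogeneous (w i + s l))
    (g : Fin 3 → MvPolynomial (Fin N) (Polynomial ℂ)) (eg : Fin 3 → ℕ) (heg : ∀ i, 0 < eg i)
    (hg : ∀ i, (g i).IsHomogeneous (eg i)) (hgL : ∀ i, LiftI T r (g i))
    (ℓ : MvPolynomial (Fin N) ℂ) (el : ℕ) (hel : 0 < el) (hℓ : ℓ.IsHomogeneous el)
    (h1 : Triv (Sum.elim (Sum.elim (fun i => ev 1 (Fin N) (g i)) (fun _ : Fin 1 => ℓ)) (pads N 4)))
    (h2 : Triv (Sum.elim (Sum.elim (fun i => ev 1 (Fin N) (g i))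
      (mins (fun l i => ev 1 (Fin N) (r l i)))) (pads N 4)))
    (h3 : Triv (Sum.elim (mins (fun l i => ev 1 (Fin N) (r l i))) (pads N 3))) :
    {t | ¬ Good (fun a b => alp (fun l i => ev t (Fin N) (r l i))
      (fun i => ev t (Fin N) (T a i)) (fun i => ev t (Fin N) (T b i)))}.Finite := by
  have hpad : ∀ (j : ℕ) (i : PI N j), (pads N j i).IsHomogeneous 1 := fun j i => isHomogeneous_X _ _
  -- the three systems over `ℂ[t]`
  have e1 : ∀ t : ℂ, (fun x => ev t (Fin N) (Sum.elim (Sum.elim g (fun _ : Fin 1 => cn (Fin N) ℓ))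
      (fun i => cn (Fin N) (pads N 4 i)) x)) =
      Sum.elim (Sum.elim (fun i => ev t (Fin N) (g i)) (fun _ : Fin 1 => ℓ)) (pads N 4) := by
    intro t
    funext x
    rcases x with ((i | i) | i)
    · rfl
    · exact ev_cn t ℓ
    · exact ev_cn t _
  have e2 : ∀ t : ℂ, (fun x => ev t (Fin N) (Sum.elim (Sum.elim g (mins r))
      (fun i => cn (Fin N) (pads N 4 i)) x)) =
      Sum.elim (Sum.elim (fun i => ev t (Fin N) (g i)) (mins (fun l i => ev t (Fin N) (r l i))))
        (pads N 4) := by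
    intro t
    funext x
    rcases x with ((i | i) | i)
    · rfl
    · exact (mins_map (ev t (Fin N)) r i).symm
    · exact ev_cn t _
  have e3 : ∀ t : ℂ, (fun x => ev t (Fin N) (Sum.elim (mins r)
      (fun i => cn (Fin N) (pads N 3 i)) x)) =
      Sum.elim (mins (fun l i => ev t (Fin N) (r l i))) (pads N 3) := by
    intro t
    funext x
    rcases x with (i | i)
    · exact (mins_map (ev t (Fin N)) r i).symm
    · exact ev_cn t _
  have f1 := triv_open (Sum.elim (Sum.elim g (fun _ : Fin 1 => cn (Fin N) ℓ))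
      (fun i => cn (Fin N) (pads N 4 i)))
    (Sum.elim (Sum.elim eg (fun _ => el)) (fun _ => 1)) (by
      rintro ((i | i) | i)
      · exact hg i
      · exact cn_hom hℓ
      · exact cn_hom (hpad 4 i)) 1 (by rw [e1 1]; exact h1)
  have f2 := triv_open (Sum.elim (Sum.elim g (mins r)) (fun i => cn (Fin N) (pads N 4 i)))
    (Sum.elim (Sum.elim eg (fun p => ∑ i, w i + ∑ l, s l - w p.1 - w p.2)) (fun _ => 1)) (by
      rintro ((i | p) | i)
      · exact hg i
      · exact mins_hom w s r hr p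
      · exact cn_hom (hpad 4 i)) 1 (by rw [e2 1]; exact h2)
  have f3 := triv_open (Sum.elim (mins r) (fun i => cn (Fin N) (pads N 3 i)))
    (Sum.elim (fun p => ∑ i, w i + ∑ l, s l - w p.1 - w p.2) (fun _ => 1)) (by
      rintro (p | i)
      · exact mins_hom w s r hr p
      · exact cn_hom (hpad 3 i)) 1 (by rw [e3 1]; exact h3)
  refine ((f1.union f2).union f3).subset ?_
  intro t ht
  by_contra hcon
  simp only [Set.mem_union, Set.mem_ofPred_eq, not_or, not_not] at hcon
  obtain ⟨⟨g1, g2⟩, g3⟩ := hcon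
  rw [e1 t] at g1
  rw [e2 t] at g2
  rw [e3 t] at g3
  apply ht
  have hr' : ∀ l i, (ev t (Fin N) (r l i)).IsHomogeneous (w i + s l) := fun l i => ev_hom t (hr l i)
  have hg' : ∀ i, (ev t (Fin N) (g i)).IsHomogeneous (eg i) := fun i => ev_hom t (hg i)
  obtain ⟨x1, x2, x3⟩ := exact_of_triv (by omega) w s (fun l i => ev t (Fin N) (r l i)) hr' g3
  exact good_std (fun a i => ev t (Fin N) (T a i)) (fun l i => ev t (Fin N) (r l i))
    (min_ne hN _ g3) x1 x2 x3 (fun i => ev t (Fin N) (g i))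
    (fun i => (hgL i).map (ev t (Fin N)))
    (fun n hn => rseq_three hN (fun i => ev t (Fin N) (g i)) eg heg hg' ℓ el hel hℓ g1 n hn)
    (fun n hn a ha => delta hN (fun i => ev t (Fin N) (g i)) eg heg hg' ℓ el hel hℓ
      (mins (fun l i => ev t (Fin N) (r l i))) _ (mins_hom w s _ hr') g1 g2 n hn a ha)

end Pool.Agent.Helper1.FG
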