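import Pool.Agent.Helper1.FG.Br

/-! FG-7: the criterion for `Good`, algebraic form.  Write `M f = ∑ f_l r_l`, `ι e = alp r · e`, `Xi e = (a ↦ alp r (T a) e)`.
* `ex_std`: let `ξ ∧ θ = 0`.  If `∑ u_a T a ∈ im M` then `ι_u θ = 0`, and contracting `ξ ∧ θ = 0` with `u` gives `ξ(u) θ = 0`, so
  `ξ(u) = 0` (`θ ≠ 0`, `S` is a domain).  Put `c_i = ∑_a w^i_a ξ_a` where `g e_i = ∑ w^i_a T a + M f^i`.
* `θ ≠ 0`: `g² alp r x y` is a combination of the `θ a b`.
* `ann_std`: `ξ ∧ θ = 0` implies `ξ = Xi e`: `ex_std` for `g 0` and `g 1` gives `c`, `c'`, `g 1 c = g 0 c'` (both functionals have the same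
  values on the `T a`, `r l`, hence on `g 0 S^(k+2)`), so `c = g 0 c''` and `BR` applies to `c''`.
* `AnnI θ (g i)`: `g e = ∑ w_a T a + M f`, so `g Xi e = - ct w θ`.
* Then the Koszul argument: `g_i^K b = c_i ∧ θ` (common `K ≥ 1`), `g_j^K c_i - g_i^K c_j = Xi e_ij`,
  `g_2^K e_01 - g_1^K e_02 + g_0^K e_12` is killed by `Xi`, hence (composite with `T`; kill by `g_0^..`: `Xi e = 0` implies `alp r x e = 0`
  for all `x` because `g 0 x` is in the span of `T`, `r`) is `M f` by `KerI`; for `x, y`, `cram2` gives `alp r x y f ∈ (g^K)`, so by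
  `hδ` `f ∈ (g^K)`, and so on as in `good_of_cech`. -/

set_option autoImplicit false

namespace Pool.Agent.Helper1.FG

open MvPolynomial
open scoped BigOperators
open Pool.Agent.Helper71.FL

section
variable {S : Type} [CommRing S] [IsDomain S] {k N : ℕ}

omit [IsDomain S] in
/-- `alp` of a combination of the `T a` and the `r l` -/
private theorem alp_lift {T : Fin N → Fin (k + 2) → S} {r : Fin k → Fin (k + 2) → S}
    {w : Fin N → S} {f : Fin k → S} {z : Fin (k + 2) → S}
    (h : ∀ i, z i = ∑ a, w a * T a i + ∑ l, f l * r l i) (y : Fin (k + 2) → S) :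
    alp r z y = ∑ a, w a * alp r (T a) y := by
  have h1 : z = fun i => (fun i => ∑ a, w a * T a i) i + (fun i => ∑ l, f l * r l i) i :=
    funext h
  rw [h1, alp_add, alp_comb, alp_comb]
  have h2 : ∑ l, f l * alp r (r l) y = 0 :=
    Finset.sum_eq_zero fun l _ => by rw [alp_r, mul_zero]
  rw [h2, add_zero]

omit [IsDomain S] in
private theorem alp_z (r : Fin k → Fin (k + 2) → S) (y : Fin (k + 2) → S) :
    alp r (fun _ => 0) y = 0 := by
  have h := alp_smul r 0 (fun _ => 0) y
  simpa using h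

private theorem th_ne {T : Fin N → Fin (k + 2) → S} {r : Fin k → Fin (k + 2) → S} {g : S}
    (hg0 : g ≠ 0) (hg : LiftI T r g) (hρ : ∃ ρ ∈ MinI r, ρ ≠ 0) :
    ∃ a b, alp r (T a) (T b) ≠ 0 := by
  by_contra hc
  push Not at hc
  obtain ⟨ρ, h1, h2⟩ := hρ
  apply h2
  have h3 : MinI r = ⊥ := by
    unfold MinI
    rw [Ideal.span_eq_bot]
    rintro _ ⟨p, rfl⟩
    obtain ⟨w, f, h4⟩ := hg p.1
    obtain ⟨w', f', h5⟩ := hg p.2
    have h6 : ∀ a, alp r (T a) (fun i => g * (Pi.single p.2 1 : Fin (k + 2) → S) i) = 0 := by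
      intro a
      rw [alp_swap, alp_lift h5]
      rw [Finset.sum_eq_zero fun b _ => by rw [hc b a, mul_zero], neg_zero]
    have h7 : alp r (fun i => g * (Pi.single p.1 1 : Fin (k + 2) → S) i)
        (fun i => g * (Pi.single p.2 1 : Fin (k + 2) → S) i) = 0 := by
      rw [alp_lift h4]
      exact Finset.sum_eq_zero fun a _ => by rw [h6, mul_zero]
    rw [alp_smul, alp_swap, alp_smul] at h7
    have h8 : g * g * alp r (Pi.single p.2 1) (Pi.single p.1 1) = 0 := by
      linear_combination -h7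
    have h9 : alp r (Pi.single p.2 1) (Pi.single p.1 1) = 0 := by
      rcases mul_eq_zero.1 h8 with h | h
      · exact absurd h (mul_ne_zero hg0 hg0)
      · exact h
    show alp r (Pi.single p.1 1) (Pi.single p.2 1) = 0
    rw [alp_swap, h9, neg_zero]
  rw [h3] at h1
  simpa using h1

/-- a relation between the `T a` and the `r l` gives a relation between the `ξ a` -/
private theorem rel_xi {T : Fin N → Fin (k + 2) → S} {r : Fin k → Fin (k + 2) → S}
    {ξ : Fin N → S} (hξ : ∀ i j k, w12 ξ (fun a b => alp r (T a) (T b)) i j k = 0)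
    {a0 b0 : Fin N} (hne : alp r (T a0) (T b0) ≠ 0) (u : Fin N → S) (f : Fin k → S)
    (h : ∀ i, ∑ a, u a * T a i + ∑ l, f l * r l i = 0) : ∑ a, u a * ξ a = 0 := by
  have h1 : ∀ y, ∑ a, u a * alp r (T a) y = 0 := by
    intro y
    rw [← alp_lift (z := fun _ => 0) (f := f) (fun i => (h i).symm), alp_z]
  have h2 : ∑ a, u a * w12 ξ (fun a b => alp r (T a) (T b)) a a0 b0 = 0 :=
    Finset.sum_eq_zero fun a _ => by rw [hξ, mul_zero]
  have h3 : ∑ a, u a * w12 ξ (fun a b => alp r (T a) (T b)) a a0 b0 =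
      (∑ a, u a * ξ a) * alp r (T a0) (T b0) - ξ a0 * (∑ a, u a * alp r (T a) (T b0)) +
      ξ b0 * (∑ a, u a * alp r (T a) (T a0)) := by
    rw [Finset.sum_mul, Finset.mul_sum, Finset.mul_sum, ← Finset.sum_sub_distrib,
      ← Finset.sum_add_distrib]
    refine Finset.sum_congr rfl fun a _ => ?_
    unfold w12
    simp only
    rw [alp_swap r (T b0) (T a)]
    ring
  rw [h3, h1, h1, mul_zero, mul_zero, sub_zero, add_zero] at h2
  rcases mul_eq_zero.1 h2 with h4 | h4
  · exact h4
  · exact absurd h4 hne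

theorem ex_std {T : Fin N → Fin (k + 2) → S} {r : Fin k → Fin (k + 2) → S} {g : S} (hg0 : g ≠ 0)
    (hg : LiftI T r g) (hρ : ∃ ρ ∈ MinI r, ρ ≠ 0) {ξ : Fin N → S}
    (hξ : ∀ i j k, w12 ξ (fun a b => alp r (T a) (T b)) i j k = 0) :
    ∃ c : Fin (k + 2) → S, (∀ a, ∑ i, c i * T a i = g * ξ a) ∧ ∀ l, ∑ i, c i * r l i = 0 := by
  obtain ⟨a0, b0, hne⟩ := th_ne hg0 hg hρ
  choose w f hwf using hg
  have key : ∀ (e : Fin (k + 2) → S) (u : Fin N → S) (v : Fin k → S),
      (∀ i, g * e i = ∑ a, u a * T a i + ∑ l, v l * r l i) →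
      ∑ i, (∑ a, w i a * ξ a) * e i = ∑ a, u a * ξ a := by
    intro e u v h
    have h1 := rel_xi hξ hne (fun a => ∑ i, e i * w i a - u a) (fun l => ∑ i, e i * f i l - v l)
      (by
        intro j
        have h2 : ∑ i, e i * (g * (Pi.single i 1 : Fin (k + 2) → S) j) = g * e j := by
          rw [Finset.sum_eq_single j]
          · rw [Pi.single_eq_same]; ring
          · intro b _ hb
            rw [Pi.single_eq_of_ne (Ne.symm hb)]; ring
          · intro hj; exact absurd (Finset.mem_univ j) hj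
        have h3 : ∑ i, e i * (g * (Pi.single i 1 : Fin (k + 2) → S) j) =
            ∑ a, (∑ i, e i * w i a) * T a j + ∑ l, (∑ i, e i * f i l) * r l j := by
          have h4 : ∀ i, e i * (g * (Pi.single i 1 : Fin (k + 2) → S) j) =
              ∑ a, e i * w i a * T a j + ∑ l, e i * f i l * r l j := by
            intro i
            rw [hwf i j, mul_add, Finset.mul_sum, Finset.mul_sum]
            congr 1
            · exact Finset.sum_congr rfl fun a _ => by ring
            · exact Finset.sum_congr rfl fun a _ => by ring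
          rw [Finset.sum_congr rfl fun i _ => h4 i, Finset.sum_add_distrib]
          congr 1
          · rw [Finset.sum_comm]
            exact Finset.sum_congr rfl fun a _ => by rw [Finset.sum_mul]
          · rw [Finset.sum_comm]
            exact Finset.sum_congr rfl fun a _ => by rw [Finset.sum_mul]
        simp only [sub_mul, Finset.sum_sub_distrib]
        have h5 := h j
        rw [← h2, h3] at h5
        linear_combination h5)
    simp only [sub_mul, Finset.sum_sub_distrib] at h1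
    have h6 : ∑ i, (∑ a, w i a * ξ a) * e i = ∑ a, (∑ i, e i * w i a) * ξ a := by
      have h7 : ∀ i, (∑ a, w i a * ξ a) * e i = ∑ a, e i * w i a * ξ a := by
        intro i
        rw [Finset.sum_mul]
        exact Finset.sum_congr rfl fun a _ => by ring
      rw [Finset.sum_congr rfl fun i _ => h7 i, Finset.sum_comm]
      exact Finset.sum_congr rfl fun a _ => by rw [Finset.sum_mul]
    rw [h6]
    exact sub_eq_zero.1 h1
  refine ⟨fun i => ∑ a, w i a * ξ a, ?_, ?_⟩
  · intro a
    rw [key (T a) (Pi.single a g) 0 ?_]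
    · rw [Finset.sum_eq_single a]
      · rw [Pi.single_eq_same]
      · intro b _ hb
        rw [Pi.single_eq_of_ne hb, zero_mul]
      · intro h; exact absurd (Finset.mem_univ a) h
    · intro i
      rw [Finset.sum_eq_single a]
      · rw [Pi.single_eq_same]; simp
      · intro b _ hb
        rw [Pi.single_eq_of_ne hb, zero_mul]
      · intro h; exact absurd (Finset.mem_univ a) h
  · intro l
    rw [key (r l) 0 (Pi.single l g) ?_]
    · simp
    · intro i
      rw [Finset.sum_eq_single (s := (Finset.univ : Finset (Fin k))) l]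
      · rw [Pi.single_eq_same]; simp
      · intro b _ hb
        rw [Pi.single_eq_of_ne hb, zero_mul]
      · intro h; exact absurd (Finset.mem_univ l) h

theorem ann_std {T : Fin N → Fin (k + 2) → S} {r : Fin k → Fin (k + 2) → S}
    (hρ : ∃ ρ ∈ MinI r, ρ ≠ 0) (hBR : BR r) {g : Fin 3 → S} (hg : ∀ i, LiftI T r (g i))
    (hreg : RSeq g) {ξ : Fin N → S}
    (hξ : ∀ i j k, w12 ξ (fun a b => alp r (T a) (T b)) i j k = 0) :
    ∃ e : Fin (k + 2) → S, ∀ a, ξ a = alp r (T a) e := by
  have hne : ∀ i, g i ≠ 0 := by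
    intro i h0
    have h1 := hreg ∅ i (by simp) 1 (by rw [h0, zero_mul]; exact Ideal.zero_mem _)
    simp at h1
  obtain ⟨c, hc1, hc2⟩ := ex_std (hne 0) (hg 0) hρ hξ
  obtain ⟨c', hc1', hc2'⟩ := ex_std (hne 1) (hg 1) hρ hξ
  have hd : ∀ j, g 1 * c j = g 0 * c' j := by
    intro j
    obtain ⟨w, f, h1⟩ := hg 0 j
    have hT : ∀ a, ∑ i, (g 1 * c i - g 0 * c' i) * T a i = 0 := by
      intro a
      have h2 : ∑ i, (g 1 * c i - g 0 * c' i) * T a i =
          g 1 * (∑ i, c i * T a i) - g 0 * (∑ i, c' i * T a i) := by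
        rw [Finset.mul_sum, Finset.mul_sum, ← Finset.sum_sub_distrib]
        exact Finset.sum_congr rfl fun i _ => by ring
      rw [h2, hc1, hc1']; ring
    have hR : ∀ l, ∑ i, (g 1 * c i - g 0 * c' i) * r l i = 0 := by
      intro l
      have h2 : ∑ i, (g 1 * c i - g 0 * c' i) * r l i =
          g 1 * (∑ i, c i * r l i) - g 0 * (∑ i, c' i * r l i) := by
        rw [Finset.mul_sum, Finset.mul_sum, ← Finset.sum_sub_distrib]
        exact Finset.sum_congr rfl fun i _ => by ring
      rw [h2, hc2, hc2']; ring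
    have h3 : ∑ i, (g 1 * c i - g 0 * c' i) * (g 0 * (Pi.single j 1 : Fin (k + 2) → S) i) =
        (g 1 * c j - g 0 * c' j) * g 0 := by
      rw [Finset.sum_eq_single j]
      · rw [Pi.single_eq_same, mul_one]
      · intro b _ hb
        rw [Pi.single_eq_of_ne hb]; ring
      · intro hj; exact absurd (Finset.mem_univ j) hj
    have h4 : ∑ i, (g 1 * c i - g 0 * c' i) * (g 0 * (Pi.single j 1 : Fin (k + 2) → S) i) = 0 := by
      have h5 : ∀ i, (g 1 * c i - g 0 * c' i) * (g 0 * (Pi.single j 1 : Fin (k + 2) → S) i) =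
          ∑ a, w a * ((g 1 * c i - g 0 * c' i) * T a i) +
          ∑ l, f l * ((g 1 * c i - g 0 * c' i) * r l i) := by
        intro i
        rw [h1 i, mul_add, Finset.mul_sum, Finset.mul_sum]
        congr 1
        · exact Finset.sum_congr rfl fun a _ => by ring
        · exact Finset.sum_congr rfl fun a _ => by ring
      rw [Finset.sum_congr rfl fun i _ => h5 i, Finset.sum_add_distrib, Finset.sum_comm,
        Finset.sum_comm (s := (Finset.univ : Finset (Fin (k + 2))))
          (t := (Finset.univ : Finset (Fin k)))]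
      rw [Finset.sum_eq_zero fun a _ => by rw [← Finset.mul_sum, hT, mul_zero],
        Finset.sum_eq_zero fun l _ => by rw [← Finset.mul_sum, hR, mul_zero], add_zero]
    rw [h3] at h4
    rcases mul_eq_zero.1 h4 with h | h
    · exact sub_eq_zero.1 h
    · exact absurd h (hne 0)
  have hq : ∀ j, ∃ q, c j = g 0 * q := by
    intro j
    have h1 := hreg {0} 1 (by simp) (c j) (by
      rw [hd j, Set.image_singleton]
      exact Ideal.mul_mem_right _ _ (Ideal.subset_span rfl))
    rw [Set.image_singleton] at h1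
    obtain ⟨q, hq⟩ := Ideal.mem_span_singleton'.1 h1
    exact ⟨q, by rw [← hq, mul_comm]⟩
  choose q hq using hq
  have hq1 : ∀ a, ∑ i, q i * T a i = ξ a := by
    intro a
    apply mul_left_cancel₀ (hne 0)
    rw [← hc1 a, Finset.mul_sum]
    exact Finset.sum_congr rfl fun i _ => by rw [hq i]; ring
  have hq2 : ∀ l, ∑ i, q i * r l i = 0 := by
    intro l
    apply mul_left_cancel₀ (hne 0)
    rw [mul_zero, ← hc2 l, Finset.mul_sum]
    exact Finset.sum_congr rfl fun i _ => by rw [hq i]; ring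
  obtain ⟨e, he⟩ := hBR q hq2
  refine ⟨e, fun a => ?_⟩
  rw [alp_std, ← hq1 a]
  exact Finset.sum_congr rfl fun i _ => by rw [he i]; ring

theorem good_std (T : Fin N → Fin (k + 2) → S) (r : Fin k → Fin (k + 2) → S)
    (hρ : ∃ ρ ∈ MinI r, ρ ≠ 0) (hI : MInj r) (hK : KerI r) (hBR : BR r) (g : Fin 3 → S)
    (hg : ∀ i, LiftI T r (g i)) (hreg : ∀ n : ℕ, 0 < n → RSeq (fun i => g i ^ n))
    (hδ : ∀ n : ℕ, 0 < n → ∀ a : S, (∀ p, mins r p * a ∈ Ideal.span (Set.range (fun i => g i ^ n))) →
      a ∈ Ideal.span (Set.range (fun i => g i ^ n))) :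
    Good (fun a b => alp r (T a) (T b)) := by
  set θ : Fin N → Fin N → S := fun a b => alp r (T a) (T b) with hθ
  have hreg1 : RSeq g := by
    have h := hreg 1 one_pos
    simpa using h
  have hne : ∀ i, g i ≠ 0 := by
    intro i h0
    have h1 := hreg1 ∅ i (by simp) 1 (by rw [h0, zero_mul]; exact Ideal.zero_mem _)
    simp at h1
  have hann : ∀ i, AnnI θ (g i) := by
    intro i ξ hξ
    obtain ⟨e, he⟩ := ann_std hρ hBR hg hreg1 hξ
    obtain ⟨w, f, h1⟩ := (hg i).apply e
    refine ⟨1, fun a => - w a, fun j => ?_⟩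
    have h2 : alp r (fun l => g i * e l) (T j) = ∑ a, w a * alp r (T a) (T j) := alp_lift h1 _
    rw [alp_smul] at h2
    rw [pow_one, he j, alp_swap]
    unfold ct
    rw [mul_neg, h2, ← Finset.sum_neg_distrib]
    exact Finset.sum_congr rfl fun a _ => by rw [hθ]; ring
  have alp_add' : ∀ (x y y' : Fin (k + 2) → S),
      alp r x (fun i => y i + y' i) = alp r x y + alp r x y' := by
    intro x y y'
    rw [alp_swap, alp_add, alp_swap r x y, alp_swap r x y']; ring
  have alp_smul' : ∀ (u : S) (x y : Fin (k + 2) → S),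
      alp r x (fun i => u * y i) = u * alp r x y := by
    intro u x y
    rw [alp_swap, alp_smul, alp_swap r x y]; ring
  let Xi : (Fin (k + 2) → S) →ₗ[S] (Fin N → S) :=
    { toFun := fun e a => alp r (T a) e
      map_add' := fun x y => funext fun a => alp_add' (T a) x y
      map_smul' := fun u x => funext fun a => alp_smul' u (T a) x }
  let M : (Fin k → S) →ₗ[S] (Fin (k + 2) → S) :=
    { toFun := fun f i => ∑ l, f l * r l i
      map_add' := fun x y => funext fun i => by
        simp only [Pi.add_apply, add_mul, Finset.sum_add_distrib]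
      map_smul' := fun u x => funext fun i => by
        simp only [Pi.smul_apply, smul_eq_mul, RingHom.id_apply, Finset.mul_sum, mul_assoc] }
  have hXi : ∀ e a, Xi e a = alp r (T a) e := fun _ _ => rfl
  have hM : ∀ f i, M f i = ∑ l, f l * r l i := fun _ _ => rfl
  have h1 : ∀ ξ : Fin N → S, (∀ i j k, w12 ξ θ i j k = 0) → ∃ e, Xi e = ξ := by
    intro ξ hξ
    obtain ⟨e, he⟩ := ann_std hρ hBR hg hreg1 hξ
    exact ⟨e, funext fun a => by rw [hXi, he a]⟩
  have h1' : ∀ e, ∀ i j l, w12 (Xi e) θ i j l = 0 := by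
    intro e i j l
    have h := alp_pf r e (T i) (T j) (T l)
    unfold w12
    simp only [hXi, hθ]
    rw [alp_swap r (T i) e, alp_swap r (T j) e, alp_swap r (T l) e, alp_swap r (T l) (T i)]
    linear_combination -h
  have h2 : ∀ e, Xi e = 0 → ∃ f, M f = e := by
    intro e he
    have h3 : ∀ a, alp r (T a) e = 0 := fun a => congrFun he a
    obtain ⟨f, hf⟩ := hK e (by
      intro j
      obtain ⟨w, f, h4⟩ := hg 0 j
      have h5 : alp r (fun i => g 0 * (Pi.single j 1 : Fin (k + 2) → S) i) e = 0 := by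
        rw [alp_lift h4]
        exact Finset.sum_eq_zero fun a _ => by rw [h3, mul_zero]
      rw [alp_smul] at h5
      rcases mul_eq_zero.1 h5 with h | h
      · exact absurd h (hne 0)
      · exact h)
    exact ⟨f, funext fun i => (hf i).symm⟩
  have h2' : ∀ f, Xi (M f) = 0 := by
    intro f
    funext a
    rw [hXi, alp_swap]
    have h : alp r (M f) (T a) = 0 := by
      have h3 : M f = fun i => ∑ l, f l * r l i := rfl
      rw [h3, alp_comb]
      exact Finset.sum_eq_zero fun l _ => by rw [alp_r, mul_zero]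
    rw [h, neg_zero]; rfl
  intro b hb
  obtain ⟨K0, c0, e0⟩ := hb (g 0) (hann 0)
  obtain ⟨K1, c1, e1⟩ := hb (g 1) (hann 1)
  obtain ⟨K2, c2, e2⟩ := hb (g 2) (hann 2)
  have hn : 0 < K0 + K1 + K2 + 1 := Nat.succ_pos _
  have hR := hreg _ hn
  have hD := hδ _ hn
  have hrange : ∀ a : S, a ∈ Ideal.span (Set.range (fun i => g i ^ (K0 + K1 + K2 + 1))) ↔
      ∃ u v w, a = g 0 ^ (K0 + K1 + K2 + 1) * u + g 1 ^ (K0 + K1 + K2 + 1) * v +
        g 2 ^ (K0 + K1 + K2 + 1) * w := by
    intro a
    rw [Ideal.mem_span_range_iff_exists_fun]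
    constructor
    · rintro ⟨c, hc⟩
      refine ⟨c 0, c 1, c 2, ?_⟩
      rw [← hc, Fin.sum_univ_three]; ring
    · rintro ⟨u, v, w, rfl⟩
      refine ⟨![u, v, w], ?_⟩
      rw [Fin.sum_univ_three]
      simp only [Matrix.cons_val_zero, Matrix.cons_val_one, Matrix.cons_val]
      ring
  obtain ⟨G0, G1, G2, c0, c1, c2, r1, r2, r3, r4, e0, e1, e2⟩ :
      ∃ (G0 G1 G2 : S) (c0 c1 c2 : Fin N → S),
      (∀ a, G0 * a = 0 → a = 0) ∧ (∀ a, (∃ u, G1 * a = G0 * u) → ∃ u, a = G0 * u) ∧
      (∀ a, (∃ u v, G2 * a = G0 * u + G1 * v) → ∃ u v, a = G0 * u + G1 * v) ∧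
      (∀ a, (∀ p, ∃ u v w, mins r p * a = G0 * u + G1 * v + G2 * w) →
        ∃ u v w, a = G0 * u + G1 * v + G2 * w) ∧
      (∀ i j k, G0 * b i j k = w12 c0 θ i j k) ∧
      (∀ i j k, G1 * b i j k = w12 c1 θ i j k) ∧ (∀ i j k, G2 * b i j k = w12 c2 θ i j k) := by
    refine ⟨g 0 ^ (K0 + K1 + K2 + 1), g 1 ^ (K0 + K1 + K2 + 1), g 2 ^ (K0 + K1 + K2 + 1),
      fun l => g 0 ^ (K1 + K2 + 1) * c0 l, fun l => g 1 ^ (K0 + K2 + 1) * c1 l,
      fun l => g 2 ^ (K0 + K1 + 1) * c2 l, ?_, ?_, ?_, ?_, ?_, ?_, ?_⟩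
    · intro a ha
      rcases mul_eq_zero.1 ha with h | h
      · exact absurd h (pow_ne_zero _ (hne 0))
      · exact h
    · rintro a ⟨u, hu⟩
      have h := hR {0} 1 (by simp) a (by
        rw [Set.image_singleton]
        show g 1 ^ (K0 + K1 + K2 + 1) * a ∈ _
        rw [hu]
        exact Ideal.mul_mem_right _ _ (Ideal.subset_span rfl))
      rw [Set.image_singleton] at h
      obtain ⟨q, hq⟩ := Ideal.mem_span_singleton'.1 h
      exact ⟨q, by rw [← hq, mul_comm]⟩
    · rintro a ⟨u, v, hu⟩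
      have h := hR {0, 1} 2 (by simp) a (by
        rw [Set.image_pair]
        show g 2 ^ (K0 + K1 + K2 + 1) * a ∈ _
        rw [hu, Ideal.mem_span_pair]
        exact ⟨u, v, by ring⟩)
      rw [Set.image_pair, Ideal.mem_span_pair] at h
      obtain ⟨x, y, hxy⟩ := h
      exact ⟨x, y, by rw [← hxy]; ring⟩
    · intro a ha
      exact (hrange a).1 (hD a fun p => (hrange _).2 (ha p))
    · intro i j k
      rw [w12_smul, ← e0 i j k]; ring
    · intro i j k
      rw [w12_smul, ← e1 i j k]; ring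
    · intro i j k
      rw [w12_smul, ← e2 i j k]; ring
  have key : ∀ (Ga Gb : S) (ca cb : Fin N → S), (∀ i j k, Ga * b i j k = w12 ca θ i j k) →
      (∀ i j k, Gb * b i j k = w12 cb θ i j k) → ∃ e, Xi e = fun l => Gb * ca l - Ga * cb l := by
    intro Ga Gb ca cb ha hb'
    refine h1 _ fun i j k => ?_
    rw [w12_sub (fun l => Gb * ca l) (fun l => Ga * cb l) θ i j k, w12_smul, w12_smul,
      ← ha, ← hb']
    ring
  obtain ⟨e01, x01⟩ := key G0 G1 c0 c1 e0 e1
  obtain ⟨e02, x02⟩ := key G0 G2 c0 c2 e0 e2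
  obtain ⟨e12, x12⟩ := key G1 G2 c1 c2 e1 e2
  have hx : Xi (G2 • e01 - G1 • e02 + G0 • e12) = 0 := by
    rw [map_add, map_sub, map_smul, map_smul, map_smul, x01, x02, x12]
    funext l
    simp only [Pi.add_apply, Pi.sub_apply, Pi.smul_apply, smul_eq_mul, Pi.zero_apply]
    ring
  obtain ⟨f, hf⟩ := h2 _ hx
  have hu : ∀ t, ∃ u v w, f t = G0 * u + G1 * v + G2 * w := fun t =>
    r4 (f t) fun p => by
      obtain ⟨adj, -, had⟩ := cram2 r (Pi.single p.1 1) (Pi.single p.2 1)
      refine ⟨adj e12 t, -(adj e02 t), adj e01 t, ?_⟩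
      have h5 : mins r p • f = G2 • adj e01 - G1 • adj e02 + G0 • adj e12 := by
        have h6 : adj (M f) = mins r p • f := had f
        rw [← h6, hf, map_add, map_sub, map_smul, map_smul, map_smul]
      have h7 := congrFun h5 t
      simp only [Pi.add_apply, Pi.sub_apply, Pi.smul_apply, smul_eq_mul] at h7
      rw [h7]; ring
  choose u v w hu using hu
  have hfu : f = G0 • u + G1 • v + G2 • w := by
    funext t
    simp only [Pi.add_apply, Pi.smul_apply, smul_eq_mul]
    exact hu t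
  have hMf : M f = G0 • M u + G1 • M v + G2 • M w := by
    rw [hfu, map_add, map_add, map_smul, map_smul, map_smul]
  have ha : ∀ s, ∃ u' v', e01 s - M w s = G0 * u' + G1 * v' := fun s =>
    r3 _ ⟨-(e12 s - M u s), e02 s + M v s, by
      have h5 := congrFun hf s
      have h6 := congrFun hMf s
      simp only [Pi.add_apply, Pi.sub_apply, Pi.smul_apply, smul_eq_mul] at h5 h6
      linear_combination h6 - h5⟩
  choose a1 a0 ha using ha
  have hea : e01 = M w + G0 • a1 + G1 • a0 := by
    funext s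
    simp only [Pi.add_apply, Pi.smul_apply, smul_eq_mul]
    linear_combination ha s
  have hXM : Xi (M w) = 0 := h2' w
  have hc : ∀ l, ∃ c, c0 l - Xi a0 l = G0 * c := fun l =>
    r2 _ ⟨c1 l + Xi a1 l, by
      have h5 := congrFun x01 l
      rw [hea, map_add, map_add, map_smul, map_smul, hXM] at h5
      simp only [Pi.add_apply, Pi.smul_apply, smul_eq_mul, Pi.zero_apply] at h5
      linear_combination -h5⟩
  choose c hc using hc
  refine ⟨c, fun i j k => ?_⟩
  refine sub_eq_zero.1 (r1 _ ?_)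
  have h5 : w12 (Xi a0) θ i j k = 0 := h1' a0 i j k
  have h6 : G0 * w12 c θ i j k = w12 c0 θ i j k - w12 (Xi a0) θ i j k := by
    rw [← w12_smul, ← w12_sub]
    congr 1
    funext l
    exact (hc l).symm
  rw [mul_sub, h6, h5, e0]
  ring

end
end Pool.Agent.Helper1.FG
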