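import Pool.Agent.Helper1.FG.F0
import Pool.Agent.Helper1.FG.F1
import Pool.Agent.Helper1.FG.F2b
import Pool.Agent.Helper1.FG.F2c
import Pool.Agent.Helper1.FG.F6
import Pool.Agent.Helper1.FG.F7
import Pool.Agent.Helper71.FC.CLof

/-! FG-25: the list of forms produced by the classification, and the second alternative of `CL`. -/

set_option autoImplicit false

namespace Pool.Agent.Helper1.FG

open MvPolynomial
open scoped BigOperators
open Pool.Agent.Helper93 (TT OF RE HomS IntS FolS Cop Comp PreIrr pb)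
open Pool.Agent.Helper71.FL

/-- the list -/
def OKForm (n : ℕ) (A : OF n) : Prop :=
  (∃ Φ v, WH (k := 0) ![1, 4] ![] Φ v ∧ dd A = stdF Φ v) ∨
  (∃ Φ v, WH (k := 0) ![2, 3] ![] Φ v ∧ dd A = stdF Φ v) ∨
  (∃ Φ v, WH (k := 1) ![1, 1, 2] ![1] Φ v ∧ ClV v ∧ dd A = stdF Φ v) ∨
  (∃ Φ v, WH (k := 1) ![1, 1, 3] ![0] Φ v ∧ ClV v ∧ dd A = stdF Φ v) ∨
  (∃ Φ v, WH (k := 1) ![1, 2, 2] ![0] Φ v ∧ ClV v ∧ dd A = stdF Φ v) ∨
  (∃ Φ v, WH (k := 2) ![1, 1, 1, 2] ![0, 0] Φ v ∧ ClV v ∧ dd A = stdF Φ v ∧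
    ∃ P : Fin 4 → MvPolynomial (Fin 3) ℂ, (∀ i, (P i).IsHomogeneous (![1, 1, 1, 2] i)) ∧
      Triv (mins (k := 2) (fun l i => aeval P (v l i)))) ∨
  (n = 5 ∧ ∃ Φ v, WH (k := 3) (fun _ => 1) (fun _ => 0) Φ v ∧ ClV v ∧ dd A = stdF Φ v ∧
    ∃ P : Fin 5 → MvPolynomial (Fin 3) ℂ, (∀ i, (P i).IsHomogeneous 1) ∧
      Triv (mins (k := 3) (fun l i => aeval P (v l i)))) ∨
  (∃ (a b x y : MvPolynomial (Fin n) ℂ) (c ka kb kx kQ : ℂ), a.IsHomogeneous 1 ∧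
    b.IsHomogeneous 1 ∧ x.IsHomogeneous 1 ∧ y.IsHomogeneous 2 ∧ ka + kb + kx + 2 * kQ = 0 ∧
    c ≠ 0 ∧ ka ≠ kb ∧ A = fun i => om7 a b x y c ka kb kx kQ 0 i)

theorem alt2_of_list {N : ℕ} (hN : 4 ≤ N) {S : Set (OF (N + 1))}
    (hS : S ∈ Comp (RE (N + 1)) (FolS (N + 1) 3)) {A' : OF (N + 1)} (hA : Only 3 S A')
    (h : OKForm (N + 1) A') : Alt2 N 3 S := by
  have hF : A' ∈ FolS (N + 1) 3 := hS.1.1 hA.1
  have hcop : ∀ θ : Fin (N + 1) → Fin (N + 1) → MvPolynomial (Fin (N + 1)) ℂ, dd A' = θ →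
      Cop (radC 3 θ) := by
    intro θ hθ
    rw [← hθ, radC_dd hF.1]
    exact hF.2
  have hline : ∀ {k : ℕ} (v : Fin k → Fin (k + 2) → MvPolynomial (Fin (k + 2)) ℂ), ClV v →
      ∀ t : ℂ, ClV (fun l i => C (1 - t) * v l i + C t * v l i) := by
    intro k v hv t
    have e : (fun (l : Fin k) (i : Fin (k + 2)) => C (1 - t) * v l i + C t * v l i) = v := by
      funext l i
      rw [← add_mul, ← C_add, sub_add_cancel, C_1, one_mul]
    rw [e]
    exact hv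
  rcases h with ⟨Φ, v, hW, hd⟩ | ⟨Φ, v, hW, hd⟩ | ⟨Φ, v, hW, hc, hd⟩ | ⟨Φ, v, hW, hc, hd⟩ |
    ⟨Φ, v, hW, hc, hd⟩ | ⟨Φ, v, hW, hc, hd, P, hP, hT⟩ | ⟨hn, Φ, v, hW, hc, hd, P, hP, hT⟩ |
    ⟨a, b, x, y, c, ka, kb, kx, kQ, ha, hb, hx, hy, hk, hc0, hab, rfl⟩
  · obtain ⟨Φ1, v1, c, eg, ℓ, el, h1⟩ := cert_14 hN
    exact std_move hN _ (by intro i; fin_cases i <;> simp) _ (by simp [Fin.sum_univ_succ]) hW
      (fun t => ClV_zero _) h1 hS hA hd
  · obtain ⟨Φ1, v1, c, eg, ℓ, el, h1⟩ := cert_23 hN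
    exact std_move hN _ (by intro i; fin_cases i <;> simp) _ (by simp [Fin.sum_univ_succ]) hW
      (fun t => ClV_zero _) h1 hS hA hd
  · obtain ⟨Φ1, v1, c, eg, ℓ, el, h1, h2⟩ := cert_112 hN
    exact std_move hN _ (by intro i; fin_cases i <;> simp) _ (by simp [Fin.sum_univ_succ]) hW
      (fun t => ClV_line hc h2 t) h1 hS hA hd
  · obtain ⟨Φ1, v1, c, eg, ℓ, el, h1, h2⟩ := cert_113 hN
    exact std_move hN _ (by intro i; fin_cases i <;> simp) _ (by simp [Fin.sum_univ_succ]) hW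
      (fun t => ClV_line hc h2 t) h1 hS hA hd
  · obtain ⟨Φ1, v1, c, eg, ℓ, el, h1, h2⟩ := cert_122 hN
    exact std_move hN _ (by intro i; fin_cases i <;> simp) _ (by simp [Fin.sum_univ_succ]) hW
      (fun t => ClV_line hc h2 t) h1 hS hA hd
  · obtain ⟨Φ1, c, eg, ℓ, el, h1⟩ := cert_1112 hN v hW (hcop _ hd) hP hT
    exact std_move hN _ (by intro i; fin_cases i <;> simp) _ (by simp [Fin.sum_univ_succ]) hW
      (hline v hc) h1 hS hA hd
  · obtain rfl : N = 4 := by omega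
    obtain ⟨Φ1, c, eg, ℓ, el, h1⟩ := cert_11111 v hW hc (hcop _ hd) hP hT
    exact std_move hN _ (fun i => Nat.one_pos) _ (by simp) hW
      (hline v hc) h1 hS hA hd
  · exact alt_om7 hN ha hb hx hy hk hc0 hab hS hA

/-- the form is a linear pullback from fewer variables -/
def IsPull (N : ℕ) (A' : OF (N + 1)) : Prop :=
  ∃ φ : Fin N → Fin (N + 1) → ℂ, ∃ A ∈ IntS N 3, A' = pb φ A

/-- The property of being a linear pullback is closed: it says that a non-zero constant vector field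
contracts `dd A'` to zero.  So a component having a member which is no pullback has such a member lying on no other component. -/
theorem CL_of_class {N : ℕ} (hN : 4 ≤ N)
    (h : ∀ A' ∈ FolS (N + 1) 3, IsPull N A' ∨ OKForm (N + 1) A') : CL N 3 := by
  classical
  intro S hS
  by_cases hall : ∀ A' ∈ S, ∃ φ : Fin N → Fin (N + 1) → ℂ, ∃ A ∈ IntS N 3, A' = pb φ A
  · exact Or.inl hall
  right
  push Not at hall
  obtain ⟨A0, hA0, hA0n⟩ := hall
  have hN1 : 0 < N + 1 := by omega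
  have hc0 : ¬ Pool.Agent.Helper71.FC.Cone (dd A0) := by
    intro hc
    obtain ⟨φ, A, hA, he⟩ := (Pool.Agent.Helper71.FC.cone_iff (hS.1.1 hA0).1).mp hc
    exact hA0n φ A hA he
  obtain ⟨F, hF, hF0, hF1⟩ := Pool.Agent.Helper71.FC.not_cone_open hc0
  have hfin := Pool.Agent.Helper93.comp_finite (d := 3) hN1
  have hsep : ∀ S2 : Set (OF (N + 1)), ∃ f ∈ RE (N + 1),
      (S2 ∈ Comp (RE (N + 1)) (FolS (N + 1) 3) → S2 ≠ S →
        (∀ q ∈ S2, f q = 0) ∧ ∃ p ∈ S, f p ≠ 0) := by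
    intro S2
    by_cases hS2 : S2 ∈ Comp (RE (N + 1)) (FolS (N + 1) 3) ∧ S2 ≠ S
    · have hnot : ¬ S ⊆ S2 := by
        intro hsub
        apply hS2.2
        exact (hS.2 hS2.1.1 hsub).antisymm hsub
      obtain ⟨p, hpS, hpS2⟩ := Set.not_subset.mp hnot
      by_contra hcon
      push Not at hcon
      apply hpS2
      apply Pool.Agent.Helper71.FL.comp_closed hS2.1 (hS.1.1 hpS)
      intro f hf hfz
      obtain ⟨_, _, h3⟩ := hcon f hf
      exact h3 hfz p hpS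
    · refine ⟨0, (RE (N + 1)).zero_mem, ?_⟩
      intro h1 h2
      exact absurd ⟨h1, h2⟩ hS2
  choose f hf hf2 using hsep
  let T : Finset (Set (OF (N + 1))) := hfin.toFinset.erase S
  have hprod : ∃ A2 ∈ S, F A2 ≠ 0 ∧ ∏ i ∈ T, f i A2 ≠ 0 := by
    by_contra hcon
    push Not at hcon
    have hP : (fun p => ∏ i ∈ T, f i p) ∈ RE (N + 1) := by
      have h1 : (∏ i ∈ T, f i) ∈ RE (N + 1) := (RE (N + 1)).prod_mem (fun i _ => hf i)
      convert h1 using 1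
      funext p
      rw [Finset.prod_apply]
    rcases hS.1.2.2 F hF _ hP (by
      intro p hp
      by_cases hFp : F p = 0
      · rw [hFp, zero_mul]
      · rw [hcon p hp hFp, mul_zero]) with h1 | h1
    · exact hF0 (h1 A0 hA0)
    · obtain ⟨i, hi, hi2⟩ := Pool.Agent.Helper93.PreIrr_prod_zero (RE (N + 1)) hS.1.2 T f
        (fun i _ => hf i) h1
      have hi' := Finset.mem_erase.mp hi
      obtain ⟨_, p, hp, hp2⟩ := hf2 i (hfin.mem_toFinset.mp hi'.2) hi'.1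
      exact hp2 (hi2 p hp)
  obtain ⟨A2, hA2, hFA2, hPA2⟩ := hprod
  rw [Finset.prod_ne_zero_iff] at hPA2
  have huniq : ∀ S2 ∈ Comp (RE (N + 1)) (FolS (N + 1) 3), A2 ∈ S2 → S2 = S := by
    intro S2 hS2 hAS
    by_contra hne
    have h1 := (hf2 S2 hS2 hne).1 A2 hAS
    exact hPA2 S2 (Finset.mem_erase.mpr ⟨hne, hfin.mem_toFinset.mpr hS2⟩) h1
  rcases h A2 (hS.1.1 hA2) with h1 | h1
  · exfalso
    exact hF1 A2 hFA2 ((Pool.Agent.Helper71.FC.cone_iff (hS.1.1 hA2).1).mpr h1)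
  · exact alt2_of_list hN hS ⟨hA2, huniq⟩ h1

end Pool.Agent.Helper1.FG
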