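import Pool.Agent.Helper1.FG.Defs

/-! FG-10: moving inside a component.
`only_open`: `exists_sep` gives `G` with `pt A0 G ≠ 0` and `pt A G ≠ 0`, `A ∈ IntS`, implies `A ∈ S`; `pt (Ψ t) G` is a polynomial in `t`, non
zero at `t = 0`.  If `A ∈ S2` and `pt A G ≠ 0` then `S2 = S`: `S2` is irreducible, so every regular function vanishing on
`S2 ∩ {G ≠ 0} ⊆ S` vanishes on `S2`, hence `S2 ⊆ S` by `comp_closed`, and equality by maximality.
`cop_fin`: `cop_open` (the coefficients are polynomials in `t`). -/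

set_option autoImplicit false

namespace Pool.Agent.Helper1.FG

open MvPolynomial
open Pool.Agent.Helper93 (TT OF RE HomS IntS FolS Cop Comp PreIrr pb)
open Pool.Agent.Helper71.FL

private theorem pt_ev {N d : ℕ} (Ψ : Fin N → MvPolynomial (Fin N) (Polynomial ℂ)) (G : PR N d)
    (t : ℂ) : pt d (fun i => ev t (Fin N) (Ψ i)) G = Polynomial.eval t (pt d Ψ G) := by
  have h1 := pt_map (d := d) (Polynomial.aeval t : Polynomial ℂ →ₐ[ℂ] ℂ) Ψ G
  have h2 : ((Polynomial.aeval t : Polynomial ℂ →ₐ[ℂ] ℂ) : Polynomial ℂ →+* ℂ) =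
      Polynomial.evalRingHom t := by
    ext x
    · simp
    · simp
  rw [h2] at h1
  rw [← Polynomial.coe_aeval_eq_eval]
  exact h1

private theorem pt_fin {N d : ℕ} (Ψ : Fin N → MvPolynomial (Fin N) (Polynomial ℂ)) (G : PR N d)
    (t0 : ℂ) (h : pt d (fun i => ev t0 (Fin N) (Ψ i)) G ≠ 0) :
    {t : ℂ | pt d (fun i => ev t (Fin N) (Ψ i)) G = 0}.Finite := by
  have h1 : pt d Ψ G ≠ 0 := by
    intro h2
    apply h
    rw [pt_ev, h2, Polynomial.eval_zero]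
  refine (Polynomial.finite_setOfPred_isRoot h1).subset ?_
  intro t ht
  rw [Set.mem_ofPred_eq, pt_ev] at ht
  exact ht

theorem only_open {N d : ℕ} (hN : 0 < N) {S : Set (OF N)} (hS : S ∈ Comp (RE N) (FolS N d))
    (Ψ : Fin N → MvPolynomial (Fin N) (Polynomial ℂ))
    (hΨ : ∀ t : ℂ, (fun i => ev t (Fin N) (Ψ i)) ∈ IntS N d)
    (h0 : Only d S (fun i => ev 0 (Fin N) (Ψ i))) :
    {t : ℂ | ¬ Only d S (fun i => ev t (Fin N) (Ψ i))}.Finite := by
  obtain ⟨G, hG1, hG2⟩ := exists_sep hN hS h0.1 h0.2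
  refine (pt_fin Ψ G 0 hG1).subset ?_
  intro t ht
  by_contra hne
  apply ht
  have hA : (fun i => ev t (Fin N) (Ψ i)) ∈ S := hG2 _ (hΨ t) hne
  refine ⟨hA, ?_⟩
  intro S2 hS2 hA2
  have hsub : S2 ⊆ S := by
    intro p hp
    apply comp_closed hS (hS2.1.1 hp)
    intro f hf hfS
    rcases hS2.1.2.2 f hf (fun A : OF N => pt d A G) (pt_mem_RE G) (by
      intro q hq
      by_cases hz : pt d q G = 0
      · show f q * pt d q G = 0
        rw [hz, mul_zero]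
      · show f q * pt d q G = 0
        rw [hfS q (hG2 q (hS2.1.1 hq).1 hz), zero_mul]) with h4 | h4
    · exact h4 p hp
    · exact absurd (h4 _ hA2) hne
  exact hsub.antisymm (hS2.2 hS.1 hsub)

theorem cop_fin {N d : ℕ} (hN : 0 < N) (Ψ : Fin N → MvPolynomial (Fin N) (Polynomial ℂ))
    (hΨ : ∀ t : ℂ, (fun i => ev t (Fin N) (Ψ i)) ∈ HomS N d) (t1 : ℂ)
    (h1 : Cop (fun i => ev t1 (Fin N) (Ψ i))) :
    {t : ℂ | ¬ Cop (fun i => ev t (Fin N) (Ψ i))}.Finite := by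
  obtain ⟨f, hf, hf1, hf2⟩ := Pool.Agent.Helper93.cop_open hN (hΨ t1) h1
  obtain ⟨F, hF⟩ := exists_PR_of_RE (d := d) hf
  rw [hF _ (hΨ t1)] at hf1
  refine (pt_fin Ψ F t1 hf1).subset ?_
  intro t ht
  by_contra hne
  apply ht
  apply hf2 _ (hΨ t)
  rw [hF _ (hΨ t)]
  exact hne

private theorem res_ev {N : ℕ} (Ψ : Fin (N + 1) → MvPolynomial (Fin (N + 1)) (Polynomial ℂ))
    (t : ℂ) : res (fun i => ev t (Fin (N + 1)) (Ψ i)) = fun i => ev t (Fin N) (res Ψ i) := by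
  funext i
  unfold ev
  rw [res_map (Polynomial.evalRingHom t) Ψ i]

theorem move {N d : ℕ} (hN : 0 < N) {S : Set (OF (N + 1))}
    (hS : S ∈ Comp (RE (N + 1)) (FolS (N + 1) d))
    (Ψ : Fin (N + 1) → MvPolynomial (Fin (N + 1)) (Polynomial ℂ))
    (hΨ : ∀ t : ℂ, (fun i => ev t (Fin (N + 1)) (Ψ i)) ∈ IntS (N + 1) d)
    (h0 : Only d S (fun i => ev 0 (Fin (N + 1)) (Ψ i)))
    (h1 : Cop (res (fun i => ev 1 (Fin (N + 1)) (Ψ i))))
    (h2 : {t : ℂ | ¬ Good (dd (res (fun i => ev t (Fin (N + 1)) (Ψ i))))}.Finite) : Alt2 N d S := by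
  have hres : ∀ t : ℂ, res (fun i => ev t (Fin (N + 1)) (Ψ i)) =
      fun i => ev t (Fin N) (res Ψ i) := res_ev Ψ
  have hI : ∀ t : ℂ, (fun i => ev t (Fin N) (res Ψ i)) ∈ HomS N d := by
    intro t
    rw [← hres t, res_eq_pb]
    exact (Pool.Agent.Helper93.pb_IntS _ (hΨ t)).1
  have hf1 := only_open (Nat.succ_pos N) hS Ψ hΨ h0
  have hf2 := cop_fin hN (res Ψ) hI 1 (by rw [← hres 1]; exact h1)
  obtain ⟨t, ht⟩ := ((hf1.union hf2).union h2).infinite_compl.nonempty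
  rw [Set.mem_compl_iff, Set.mem_union, Set.mem_union, Set.mem_ofPred_eq, Set.mem_ofPred_eq,
    Set.mem_ofPred_eq] at ht
  push Not at ht
  obtain ⟨⟨ht1, ht2⟩, ht3⟩ := ht
  refine ⟨_, ht1.1, ht1.2, ?_, ht3⟩
  rw [hres t]
  exact ht2

end Pool.Agent.Helper1.FG
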