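import Pool.Agent.Helper1.FG.AlpL

/-! FG-8: the 2-forms `stdF Φ v` and the 1-forms `radC`.
`stdF_closed`: chain rule: `stdF Φ v a b = ∑ i j, (mins v (i, j))(Φ) ∂_a Φ_i ∂_b Φ_j`, and `mins v` is closed and alternating.
`radC_mem`: Euler's identity and Cartan's formula `L_R θ = d i_R θ = (d + 2) θ`; integrability: `i_R (θ ∧ θ) = 0`. -/

set_option autoImplicit false

namespace Pool.Agent.Helper1.FG

open MvPolynomial
open scoped BigOperators
open Pool.Agent.Helper93 (TT OF RE HomS IntS FolS Cop Comp PreIrr pb)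
open Pool.Agent.Helper71.FL

section
variable {R : Type} [CommRing R] {k n : ℕ}

theorem stdF_dec (Φ : Fin (k + 2) → MvPolynomial (Fin n) R)
    (v : Fin k → Fin (k + 2) → MvPolynomial (Fin (k + 2)) R) : Dec (stdF Φ v) :=
  alp_dec _ (fun a i => pderiv a (Φ i))

private theorem mins_aeval (Φ : Fin (k + 2) → MvPolynomial (Fin n) R)
    (v : Fin k → Fin (k + 2) → MvPolynomial (Fin (k + 2)) R) (i j : Fin (k + 2)) :
    alp (fun l i => aeval Φ (v l i)) (Pi.single i 1) (Pi.single j 1) = aeval Φ (mins v (i, j)) := by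
  have h := alp_map v ((aeval Φ : MvPolynomial (Fin (k + 2)) R →ₐ[R] MvPolynomial (Fin n) R) :
    MvPolynomial (Fin (k + 2)) R →+* MvPolynomial (Fin n) R) (Pi.single i 1) (Pi.single j 1)
  have e : ∀ i : Fin (k + 2), (fun a => ((aeval Φ : MvPolynomial (Fin (k + 2)) R →ₐ[R] MvPolynomial (Fin n) R) :
    MvPolynomial (Fin (k + 2)) R →+* MvPolynomial (Fin n) R)
      ((Pi.single i 1 : Fin (k + 2) → MvPolynomial (Fin (k + 2)) R) a)) = Pi.single i 1 := by
    intro i
    funext a
    by_cases h : a = i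
    · subst h
      simp
    · rw [Pi.single_eq_of_ne h, Pi.single_eq_of_ne h, map_zero]
  rw [e, e] at h
  exact h

theorem stdF_expand (Φ : Fin (k + 2) → MvPolynomial (Fin n) R)
    (v : Fin k → Fin (k + 2) → MvPolynomial (Fin (k + 2)) R) (a b : Fin n) :
    stdF Φ v a b = ∑ i, ∑ j, aeval Φ (mins v (i, j)) * (pderiv a (Φ i) * pderiv b (Φ j)) := by
  unfold stdF
  rw [alp_std]
  refine Finset.sum_congr rfl fun i _ => ?_
  rw [alp_swap, alp_std, mul_neg, Finset.mul_sum, ← Finset.sum_neg_distrib]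
  refine Finset.sum_congr rfl fun j _ => ?_
  rw [← mins_aeval, alp_swap]
  ring

theorem stdF_map {R' : Type} [CommRing R'] (φ : R →+* R') (Φ : Fin (k + 2) → MvPolynomial (Fin n) R)
    (v : Fin k → Fin (k + 2) → MvPolynomial (Fin (k + 2)) R) (a b : Fin n) :
    stdF (fun i => MvPolynomial.map φ (Φ i)) (fun l i => MvPolynomial.map φ (v l i)) a b =
      MvPolynomial.map φ (stdF Φ v a b) := by
  unfold stdF
  rw [← alp_map]
  have e1 : ∀ a, (fun i => pderiv a (MvPolynomial.map φ (Φ i))) =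
      fun i => MvPolynomial.map φ (pderiv a (Φ i)) := by
    intro a
    funext i
    exact pderiv_map
  rw [e1, e1]
  congr 1
  funext l i
  rw [MvPolynomial.aeval_def, MvPolynomial.eval₂_map, MvPolynomial.aeval_def]
  rw [← RingHom.coe_coe (MvPolynomial.map φ), MvPolynomial.hom_eval₂]
  congr 1
  ext r
  simp

theorem aeval_hom {w : Fin (k + 2) → ℕ} {Φ : Fin (k + 2) → MvPolynomial (Fin n) R}
    (hΦ : ∀ i, (Φ i).IsHomogeneous (w i)) {p : MvPolynomial (Fin (k + 2)) R} {m : ℕ}
    (hp : IsWeightedHomogeneous w p m) : (aeval Φ p).IsHomogeneous m := by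
  classical
  rw [p.as_sum, map_sum]
  refine IsHomogeneous.sum _ _ _ fun s hs => ?_
  rw [aeval_monomial]
  have h1 : Finsupp.weight w s = m := hp (mem_support_iff.mp hs)
  have h2 : (s.prod fun i e => Φ i ^ e).IsHomogeneous m := by
    rw [← h1, Finsupp.weight_apply, Finsupp.prod, Finsupp.sum]
    refine IsHomogeneous.prod _ _ _ fun i _ => ?_
    have := (hΦ i).pow (s i)
    rw [smul_eq_mul, mul_comm]
    exact this
  have h3 := (isHomogeneous_C (Fin n) (coeff s p)).mul h2
  rw [zero_add] at h3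
  exact h3

theorem stdF_hom {w : Fin (k + 2) → ℕ} (hw : ∀ i, 0 < w i) {s : Fin k → ℕ}
    {Φ : Fin (k + 2) → MvPolynomial (Fin n) R}
    {v : Fin k → Fin (k + 2) → MvPolynomial (Fin (k + 2)) R} (h : WH w s Φ v) {d : ℕ}
    (hd : ∑ i, w i + ∑ l, s l = d + 2) (a b : Fin n) : (stdF Φ v a b).IsHomogeneous d := by
  unfold stdF
  rw [alp_std]
  refine IsHomogeneous.sum _ _ _ fun i _ => ?_
  rw [alp_swap, alp_std, mul_neg, Finset.mul_sum, ← Finset.sum_neg_distrib]
  refine IsHomogeneous.sum _ _ _ fun j _ => ?_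
  have h1 := mins_hom w s (fun l i => aeval Φ (v l i)) (fun l i => aeval_hom h.hΦ (h.hv l i)) (j, i)
  by_cases hij : j = i
  · subst hij
    have h0 : alp (fun l i => aeval Φ (v l i)) (Pi.single j 1)
      (Pi.single j 1) = 0 := alp_self _ _
    rw [h0, mul_zero, mul_zero, neg_zero]
    exact isHomogeneous_zero _ _ _
  · have h2 : w i + w j ≤ ∑ i, w i := by
      have h3 : ∑ x ∈ ({i, j} : Finset (Fin (k + 2))), w x ≤ ∑ x, w x :=
        Finset.sum_le_sum_of_subset (Finset.subset_univ _)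
      rwa [Finset.sum_pair (Ne.symm hij)] at h3
    have h4 : (pderiv a (Φ i)).IsHomogeneous (w i - 1) := (h.hΦ i).pderiv
    have h5 : (pderiv b (Φ j)).IsHomogeneous (w j - 1) := (h.hΦ j).pderiv
    have h6 := ((h4.mul (h5.mul h1)).neg)
    have h7 : w i - 1 + (w j - 1 + (∑ i, w i + ∑ l, s l - w (j, i).1 - w (j, i).2)) = d := by
      have := hw i
      have := hw j
      show w i - 1 + (w j - 1 + (∑ i, w i + ∑ l, s l - w j - w i)) = d
      omega
    rw [h7] at h6
    exact h6

private theorem pd_comm (i j : Fin n) (p : MvPolynomial (Fin n) R) :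
    pderiv i (pderiv j p) = pderiv j (pderiv i p) := by
  classical
  have h : ⁅(pderiv i : Derivation R (MvPolynomial (Fin n) R) (MvPolynomial (Fin n) R)),
      (pderiv j : Derivation R (MvPolynomial (Fin n) R) (MvPolynomial (Fin n) R))⁆ = 0 := by
    apply MvPolynomial.derivation_ext
    intro l
    rw [Derivation.commutator_apply, pderiv_X, pderiv_X, Pi.single_apply, Pi.single_apply]
    split_ifs <;> simp
  have h1 := congrArg (fun D => D p) h
  simp only [Derivation.commutator_apply] at h1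
  exact sub_eq_zero.mp h1

private theorem chain (Φ : Fin (k + 2) → MvPolynomial (Fin n) R)
    (p : MvPolynomial (Fin (k + 2)) R) (a : Fin n) :
    pderiv a (aeval Φ p) = ∑ i, aeval Φ (pderiv i p) * pderiv a (Φ i) := by
  induction p using MvPolynomial.induction_on with
  | C c => simp
  | add p q hp hq =>
    rw [map_add, map_add, hp, hq, ← Finset.sum_add_distrib]
    refine Finset.sum_congr rfl fun i _ => ?_
    rw [map_add, map_add, add_mul]
  | mul_X p i hp =>
    classical
    rw [map_mul, aeval_X, pderiv_mul, hp, Finset.sum_mul]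
    have h1 : ∀ j, aeval Φ (pderiv j (p * X i)) * pderiv a (Φ j) =
        aeval Φ (pderiv j p) * pderiv a (Φ j) * Φ i +
          (if j = i then aeval Φ p * pderiv a (Φ i) else 0) := by
      intro j
      rw [pderiv_mul, pderiv_X]
      by_cases h : j = i
      · subst h
        simp
        ring
      · rw [Pi.single_eq_of_ne (Ne.symm h), mul_zero, add_zero, map_mul, aeval_X, if_neg h]
        ring
    rw [Finset.sum_congr rfl fun j _ => h1 j, Finset.sum_add_distrib, Finset.sum_ite_eq' Finset.univ i]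
    simp

private theorem chain2 (Φ : Fin (k + 2) → MvPolynomial (Fin n) R)
    (p : MvPolynomial (Fin (k + 2)) R) (a : Fin n) (x y : MvPolynomial (Fin n) R) :
    pderiv a (aeval Φ p * (x * y)) = ∑ l, aeval Φ (pderiv l p) * (pderiv a (Φ l) * x * y) +
      aeval Φ p * (pderiv a x * y + x * pderiv a y) := by
  rw [pderiv_mul, pderiv_mul, chain, Finset.sum_mul]
  have h : ∀ l, aeval Φ (pderiv l p) * pderiv a (Φ l) * (x * y) =
      aeval Φ (pderiv l p) * (pderiv a (Φ l) * x * y) := fun l => by ring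
  rw [Finset.sum_congr rfl fun l _ => h l]

theorem stdF_closed (Φ : Fin (k + 2) → MvPolynomial (Fin n) R)
    (v : Fin k → Fin (k + 2) → MvPolynomial (Fin (k + 2)) R) (h : ClV v) : Closed (stdF Φ v) := by
  intro a b c
  have hM : ∀ i j, mins v (i, j) = - mins v (j, i) := fun i j => alp_swap _ _ _
  have hD : ∀ a b c : Fin n, pderiv a (stdF Φ v b c) =
      ∑ i, ∑ j, ∑ l, aeval Φ (pderiv l (mins v (i, j))) *
        (pderiv a (Φ l) * pderiv b (Φ i) * pderiv c (Φ j)) +
      ∑ i, ∑ j, aeval Φ (mins v (i, j)) * (pderiv a (pderiv b (Φ i)) * pderiv c (Φ j) +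
        pderiv b (Φ i) * pderiv a (pderiv c (Φ j))) := by
    intro a b c
    rw [stdF_expand, map_sum, ← Finset.sum_add_distrib]
    refine Finset.sum_congr rfl fun i _ => ?_
    rw [map_sum, ← Finset.sum_add_distrib]
    exact Finset.sum_congr rfl fun j _ => chain2 Φ _ a _ _
  have hS : ∀ a b c : Fin n, ∑ i, ∑ j, aeval Φ (mins v (i, j)) *
      (pderiv a (pderiv b (Φ i)) * pderiv c (Φ j)) =
      - ∑ i, ∑ j, aeval Φ (mins v (i, j)) * (pderiv c (Φ i) * pderiv a (pderiv b (Φ j))) := by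
    intro a b c
    rw [Finset.sum_comm, ← Finset.sum_neg_distrib]
    refine Finset.sum_congr rfl fun i _ => ?_
    rw [← Finset.sum_neg_distrib]
    refine Finset.sum_congr rfl fun j _ => ?_
    rw [hM j i, map_neg]
    ring
  have hS2 : ∀ a b c : Fin n, ∑ i, ∑ j, aeval Φ (mins v (i, j)) *
      (pderiv a (pderiv b (Φ i)) * pderiv c (Φ j) + pderiv b (Φ i) * pderiv a (pderiv c (Φ j))) =
      ∑ i, ∑ j, aeval Φ (mins v (i, j)) * (pderiv a (pderiv b (Φ i)) * pderiv c (Φ j)) -
      ∑ i, ∑ j, aeval Φ (mins v (i, j)) * (pderiv a (pderiv c (Φ i)) * pderiv b (Φ j)) := by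
    intro a b c
    have e : ∀ i j, aeval Φ (mins v (i, j)) *
      (pderiv a (pderiv b (Φ i)) * pderiv c (Φ j) + pderiv b (Φ i) * pderiv a (pderiv c (Φ j))) =
      aeval Φ (mins v (i, j)) * (pderiv a (pderiv b (Φ i)) * pderiv c (Φ j)) +
      aeval Φ (mins v (i, j)) * (pderiv b (Φ i) * pderiv a (pderiv c (Φ j))) := by
      intro i j
      ring
    rw [hS a c b, sub_neg_eq_add, ← Finset.sum_add_distrib]
    refine Finset.sum_congr rfl fun i _ => ?_
    rw [← Finset.sum_add_distrib]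
    exact Finset.sum_congr rfl fun j _ => e i j
  have hc : ∀ i j l, aeval Φ (pderiv l (mins v (i, j))) + aeval Φ (pderiv i (mins v (j, l))) +
      aeval Φ (pderiv j (mins v (l, i))) = 0 := by
    intro i j l
    have := congrArg (aeval Φ) (h l i j)
    rw [map_add, map_add, map_zero] at this
    exact this
  have h2 : ∑ i, ∑ j, ∑ l, aeval Φ (pderiv l (mins v (i, j))) *
        (pderiv b (Φ l) * pderiv c (Φ i) * pderiv a (Φ j)) =
      ∑ i, ∑ j, ∑ l, aeval Φ (pderiv i (mins v (j, l))) *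
        (pderiv a (Φ l) * pderiv b (Φ i) * pderiv c (Φ j)) := by
    rw [Finset.sum_congr rfl fun i _ => Finset.sum_comm]
    rw [Finset.sum_comm]
    refine Finset.sum_congr rfl fun i _ => Finset.sum_congr rfl fun j _ =>
      Finset.sum_congr rfl fun l _ => ?_
    ring
  have h3 : ∑ i, ∑ j, ∑ l, aeval Φ (pderiv l (mins v (i, j))) *
        (pderiv c (Φ l) * pderiv a (Φ i) * pderiv b (Φ j)) =
      ∑ i, ∑ j, ∑ l, aeval Φ (pderiv j (mins v (l, i))) *
        (pderiv a (Φ l) * pderiv b (Φ i) * pderiv c (Φ j)) := by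
    rw [Finset.sum_comm]
    rw [Finset.sum_congr rfl fun i _ => Finset.sum_comm]
    refine Finset.sum_congr rfl fun i _ => Finset.sum_congr rfl fun j _ =>
      Finset.sum_congr rfl fun l _ => ?_
    ring
  have h4 : ∑ i, ∑ j, ∑ l, aeval Φ (pderiv l (mins v (i, j))) *
        (pderiv a (Φ l) * pderiv b (Φ i) * pderiv c (Φ j)) +
      ∑ i, ∑ j, ∑ l, aeval Φ (pderiv i (mins v (j, l))) *
        (pderiv a (Φ l) * pderiv b (Φ i) * pderiv c (Φ j)) +
      ∑ i, ∑ j, ∑ l, aeval Φ (pderiv j (mins v (l, i))) *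
        (pderiv a (Φ l) * pderiv b (Φ i) * pderiv c (Φ j)) = 0 := by
    simp only [← Finset.sum_add_distrib]
    refine Finset.sum_eq_zero fun i _ => Finset.sum_eq_zero fun j _ =>
      Finset.sum_eq_zero fun l _ => ?_
    rw [← add_mul, ← add_mul, hc, zero_mul]
  have e1 : ∀ i, pderiv b (pderiv a (Φ i)) = pderiv a (pderiv b (Φ i)) := fun i => pd_comm _ _ _
  have e2 : ∀ i, pderiv c (pderiv a (Φ i)) = pderiv a (pderiv c (Φ i)) := fun i => pd_comm _ _ _
  have e3 : ∀ i, pderiv c (pderiv b (Φ i)) = pderiv b (pderiv c (Φ i)) := fun i => pd_comm _ _ _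
  have q1 := hD a b c
  have q2 := hD b c a
  have q3 := hD c a b
  rw [hS2] at q1 q2 q3
  rw [h2] at q2
  rw [h3] at q3
  have r1 : ∀ (f g : Fin (k + 2) → MvPolynomial (Fin n) R), (∀ i, f i = g i) → ∀ u : Fin (k + 2) → MvPolynomial (Fin n) R,
      ∑ i, ∑ j, aeval Φ (mins v (i, j)) * (f i * u j) =
      ∑ i, ∑ j, aeval Φ (mins v (i, j)) * (g i * u j) := by
    intro f g hfg u
    refine Finset.sum_congr rfl fun i _ => Finset.sum_congr rfl fun j _ => ?_
    rw [hfg]
  rw [r1 _ _ e1] at q2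
  rw [r1 _ _ e3, r1 _ _ e2] at q3
  rw [q1, q2, q3]
  generalize (∑ i, ∑ j, ∑ l, aeval Φ (pderiv l (mins v (i, j))) *
        (pderiv a (Φ l) * pderiv b (Φ i) * pderiv c (Φ j))) = T1 at h4 ⊢
  generalize (∑ i, ∑ j, ∑ l, aeval Φ (pderiv i (mins v (j, l))) *
        (pderiv a (Φ l) * pderiv b (Φ i) * pderiv c (Φ j))) = T2 at h4 ⊢
  generalize (∑ i, ∑ j, ∑ l, aeval Φ (pderiv j (mins v (l, i))) *
        (pderiv a (Φ l) * pderiv b (Φ i) * pderiv c (Φ j))) = T3 at h4 ⊢
  generalize (∑ i, ∑ j, aeval Φ (mins v (i, j)) * (pderiv a (pderiv b (Φ i)) * pderiv c (Φ j))) = U1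
  generalize (∑ i, ∑ j, aeval Φ (mins v (i, j)) * (pderiv a (pderiv c (Φ i)) * pderiv b (Φ j))) = U2
  generalize (∑ i, ∑ j, aeval Φ (mins v (i, j)) * (pderiv b (pderiv c (Φ i)) * pderiv a (Φ j))) = U3
  linear_combination h4

private theorem at0_pd (a : Fin n) (p : MvPolynomial (Fin (n + 1)) R) :
    at0 n R (pderiv a.succ p) = pderiv a (at0 n R p) := by
  classical
  induction p using MvPolynomial.induction_on with
  | C c => simp [at0]
  | add p q hp hq => rw [map_add, map_add, hp, hq, map_add, map_add]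
  | mul_X p i hp =>
    have hX : at0 n R (pderiv a.succ (X i)) = pderiv a (at0 n R (X i)) := by
      refine Fin.cases ?_ (fun i => ?_) i
      · rw [pderiv_X, Pi.single_eq_of_ne (Fin.succ_ne_zero a).symm, map_zero]
        unfold at0
        rw [aeval_X, Fin.cons_zero, map_zero]
      · unfold at0
        rw [aeval_X, Fin.cons_succ, pderiv_X, pderiv_X]
        by_cases h : i = a
        · subst h
          rw [Pi.single_eq_same, Pi.single_eq_same, map_one]
        · rw [Pi.single_eq_of_ne h, Pi.single_eq_of_ne (fun h1 => h (Fin.succ_injective _ h1)), map_zero]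
    rw [pderiv_mul, map_add, map_mul, map_mul, hp, hX, map_mul, pderiv_mul]

/-- restriction to `x_0 = 0` -/
theorem stdF_at0 (Φ : Fin (k + 2) → MvPolynomial (Fin (n + 1)) R)
    (v : Fin k → Fin (k + 2) → MvPolynomial (Fin (k + 2)) R) (a b : Fin n) :
    at0 n R (stdF Φ v a.succ b.succ) = stdF (fun i => at0 n R (Φ i)) v a b := by
  unfold stdF
  have h := alp_map (fun l i => aeval Φ (v l i)) (at0 n R : MvPolynomial (Fin (n + 1)) R →+*
    MvPolynomial (Fin n) R) (fun i => pderiv a.succ (Φ i)) (fun i => pderiv b.succ (Φ i))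
  rw [RingHom.coe_coe] at h
  rw [← h]
  congr 1
  · funext l i
    rw [← MvPolynomial.comp_aeval_apply]
  · funext i
    exact at0_pd a (Φ i)
  · funext i
    exact at0_pd b (Φ i)

end

private theorem radC_eq {n d : ℕ} (θ : Fin n → Fin n → MvPolynomial (Fin n) ℂ) :
    radC d θ = (fun j => C (algebraMap ℂ ℂ (1 / ((d : ℂ) + 2))) * ct X θ j) := by
  funext j
  unfold radC ct
  rw [one_div]
  rfl

theorem radC_mem {n d : ℕ} {θ : Fin n → Fin n → MvPolynomial (Fin n) ℂ} (hd : Dec θ)
    (hc : Closed θ) (hh : ∀ i j, (θ i j).IsHomogeneous d) : radC d θ ∈ IntS n d := by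
  rw [← IntB_eq, radC_eq]
  exact (IntB_of_closed hc hd hh).1

theorem dd_radC {n d : ℕ} {θ : Fin n → Fin n → MvPolynomial (Fin n) ℂ} (hd : Dec θ)
    (hc : Closed θ) (hh : ∀ i j, (θ i j).IsHomogeneous d) (i j : Fin n) :
    dd (radC d θ) i j = θ i j := by
  rw [radC_eq]
  exact (IntB_of_closed hc hd hh).2 i j

theorem radC_dd {n d : ℕ} {A : OF n} (hA : A ∈ IntS n d) : radC d (dd A) = A := by
  rw [radC_eq]
  funext j
  rw [← IntB_eq] at hA
  rw [euler_dd hA, ← mul_assoc, ← C_mul]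
  have h : ((d : ℂ) + 2) ≠ 0 := by
    have : ((d : ℂ) + 2) = ((d + 2 : ℕ) : ℂ) := by push_cast; ring
    rw [this]
    exact Nat.cast_ne_zero.mpr (by omega)
  simp [h]

theorem res_radC {n d : ℕ} (θ : Fin (n + 1) → Fin (n + 1) → MvPolynomial (Fin (n + 1)) ℂ) :
    res (radC d θ) = radC d (fun a b => at0 n ℂ (θ a.succ b.succ)) := by
  funext j
  unfold res radC
  rw [map_mul, Fin.sum_univ_succ, map_add, map_mul, at0_X0, zero_mul, zero_add, map_sum]
  congr 1
  · unfold at0
    rw [MvPolynomial.algHom_C]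
    rfl
  · refine Finset.sum_congr rfl fun i _ => ?_
    rw [map_mul]
    congr 1
    unfold at0
    rw [aeval_X, Fin.cons_succ]

theorem dd_res {n : ℕ} (A' : OF (n + 1)) (a b : Fin n) :
    dd (res A') a b = at0 n ℂ (dd A' a.succ b.succ) := by
  unfold dd res
  rw [map_sub, at0_pderiv_succ, at0_pderiv_succ]

end Pool.Agent.Helper1.FG
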