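import Pool.Agent.Helper1.FG.Fam
import Pool.Agent.Helper1.FG.MoveL
import Pool.Agent.Helper1.FG.StdF

/-! FG-11: from a form of standard type to a certified one.
`Φ_t = (1 - t) Φ0 + t emb(Φ1)`, `v_t = (1 - t) v0 + t v1`, `Ψ t = radC 3 (stdF Φ_t v_t)`; `Ψ 0 = A'` by `radC_dd`; the restriction of
`Ψ t` is `radC 3 (stdF (at0 Φ_t) v_t)` (`res_radC`, `stdF_at0`), `dd` of it is `stdF (at0 Φ_t) v_t` (`dd_radC`), to which `good_family`
applies with `T a i = pderiv a (at0 Φ_t i)`, `r l i = (v_t l i)(at0 Φ_t)`, `g i = ∑ J, cn (c i J) * mnr T r J` (`LiftI_mnr`, `mnr_hom`).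
At `t = 1`: `at0 (emb Φ1) = Φ1`. -/

set_option autoImplicit false

namespace Pool.Agent.Helper1.FG

open MvPolynomial
open scoped BigOperators
open Pool.Agent.Helper93 (TT OF RE HomS IntS FolS Cop Comp PreIrr pb)
open Pool.Agent.Helper71.FL

private theorem h15_mnr_map {S S' : Type} [CommRing S] [CommRing S'] (φ : S →+* S') {k N : ℕ}
    (T : Fin N → Fin (k + 2) → S) (r : Fin k → Fin (k + 2) → S)
    (J : Fin (k + 2) → Fin N ⊕ Fin k) :
    φ (mnr T r J) = mnr (fun a i => φ (T a i)) (fun l i => φ (r l i)) J := by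
  unfold mnr
  rw [RingHom.map_det]
  congr 1
  ext a b
  simp only [RingHom.mapMatrix_apply, Matrix.map_apply, Matrix.of_apply]
  rcases J a with x | x <;> rfl

private theorem h15_ev_cn (t : ℂ) (σ : Type) (p : MvPolynomial σ ℂ) : ev t σ (cn σ p) = p := by
  unfold ev cn
  rw [MvPolynomial.map_map]
  have h : (Polynomial.evalRingHom t).comp (Polynomial.C : ℂ →+* Polynomial ℂ) = RingHom.id ℂ := by
    ext a
    simp
  rw [h, MvPolynomial.map_id]

/-- the segment between two polynomials, over `ℂ[t]` -/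
private noncomputable def seg (σ : Type) (p q : MvPolynomial σ ℂ) : MvPolynomial σ (Polynomial ℂ) :=
  C (1 - Polynomial.X) * cn σ p + C Polynomial.X * cn σ q

private theorem h15_ev_seg (t : ℂ) (σ : Type) (p q : MvPolynomial σ ℂ) :
    ev t σ (seg σ p q) = C (1 - t) * p + C t * q := by
  unfold seg
  rw [map_add, map_mul, map_mul, h15_ev_cn, h15_ev_cn]
  unfold ev
  rw [MvPolynomial.map_C, MvPolynomial.map_C]
  simp

private theorem h15_seg_hom {σ : Type} {p q : MvPolynomial σ ℂ} {n : ℕ} (hp : p.IsHomogeneous n)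
    (hq : q.IsHomogeneous n) : (seg σ p q).IsHomogeneous n :=
  ((hp.map _).C_mul _).add ((hq.map _).C_mul _)

private theorem h15_wC {σ R : Type} [CommRing R] {w : σ → ℕ} {p : MvPolynomial σ R} {n : ℕ}
    (hp : IsWeightedHomogeneous w p n) (a : R) : IsWeightedHomogeneous w (C a * p) n := by
  have h := (weightedHomogeneousSubmodule R w n).smul_mem a hp
  rw [MvPolynomial.smul_eq_C_mul] at h
  exact h

private theorem h15_wadd {σ R : Type} [CommRing R] {w : σ → ℕ} {p q : MvPolynomial σ R} {n : ℕ}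
    (hp : IsWeightedHomogeneous w p n) (hq : IsWeightedHomogeneous w q n) :
    IsWeightedHomogeneous w (p + q) n :=
  (weightedHomogeneousSubmodule R w n).add_mem hp hq

private theorem h15_wmap {σ R R' : Type} [CommRing R] [CommRing R'] (φ : R →+* R') {w : σ → ℕ}
    {p : MvPolynomial σ R} {n : ℕ} (hp : IsWeightedHomogeneous w p n) :
    IsWeightedHomogeneous w (MvPolynomial.map φ p) n := by
  intro d hd
  apply hp
  intro h
  apply hd
  rw [MvPolynomial.coeff_map, h, map_zero]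

private theorem h15_seg_whom {σ : Type} {w : σ → ℕ} {p q : MvPolynomial σ ℂ} {n : ℕ}
    (hp : IsWeightedHomogeneous w p n) (hq : IsWeightedHomogeneous w q n) :
    IsWeightedHomogeneous w (seg σ p q) n :=
  h15_wadd (h15_wC (h15_wmap _ hp) _) (h15_wC (h15_wmap _ hq) _)

private theorem h15_ev_aeval {σ τ : Type} (t : ℂ) (Φ : σ → MvPolynomial τ (Polynomial ℂ))
    (p : MvPolynomial σ (Polynomial ℂ)) :
    ev t τ (aeval Φ p) = aeval (fun i => ev t τ (Φ i)) (ev t σ p) := by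
  induction p using MvPolynomial.induction_on with
  | C a =>
    rw [MvPolynomial.aeval_C, MvPolynomial.algebraMap_eq]
    unfold ev
    rw [MvPolynomial.map_C, MvPolynomial.map_C, MvPolynomial.aeval_C, MvPolynomial.algebraMap_eq]
  | add p q hp hq => rw [map_add, map_add, hp, hq, map_add, map_add]
  | mul_X p i hp =>
    rw [map_mul, map_mul, hp, MvPolynomial.aeval_X, map_mul, map_mul]
    congr 1
    unfold ev
    rw [MvPolynomial.map_X, MvPolynomial.aeval_X]

private theorem h15_LiftI_sum {S : Type} [CommRing S] {k N : ℕ} {κ : Type} (A : Finset κ)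
    (T : Fin N → Fin (k + 2) → S) (r : Fin k → Fin (k + 2) → S) (g : κ → S)
    (h : ∀ x ∈ A, LiftI T r (g x)) : LiftI T r (∑ x ∈ A, g x) := by
  classical
  induction A using Finset.induction_on with
  | empty =>
    rw [Finset.sum_empty]
    exact LiftI.zero r T
  | insert a A ha ih =>
    rw [Finset.sum_insert ha]
    exact (h a (Finset.mem_insert_self a A)).add
      (ih fun x hx => h x (Finset.mem_insert_of_mem hx))

theorem std_move {N k : ℕ} (hN : 4 ≤ N) (w : Fin (k + 2) → ℕ) (hw : ∀ i, 0 < w i) (s : Fin k → ℕ)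
    (hws : ∑ i, w i + ∑ l, s l = 5)
    {Φ0 : Fin (k + 2) → MvPolynomial (Fin (N + 1)) ℂ} {Φ1 : Fin (k + 2) → MvPolynomial (Fin N) ℂ}
    {v0 v1 : Fin k → Fin (k + 2) → MvPolynomial (Fin (k + 2)) ℂ} (h0 : WH w s Φ0 v0)
    (hcl : ∀ t : ℂ, ClV (fun l i => C (1 - t) * v0 l i + C t * v1 l i))
    {c : Fin 3 → (Fin (k + 2) → Fin N ⊕ Fin k) → MvPolynomial (Fin N) ℂ} {eg : Fin 3 → ℕ}
    {ℓ : MvPolynomial (Fin N) ℂ} {el : ℕ} (h1 : Cert w s Φ1 v1 c eg ℓ el)
    {S : Set (OF (N + 1))} (hS : S ∈ Comp (RE (N + 1)) (FolS (N + 1) 3)) {A' : OF (N + 1)}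
    (hA : Only 3 S A') (hdd : dd A' = stdF Φ0 v0) : Alt2 N 3 S := by
  -- the data over `ℂ[t]`
  obtain ⟨Φp, hΦp⟩ : ∃ Φp : Fin (k + 2) → MvPolynomial (Fin (N + 1)) (Polynomial ℂ),
    Φp = fun i => seg _ (Φ0 i) (emb N ℂ (Φ1 i)) := ⟨_, rfl⟩
  obtain ⟨vp, hvp⟩ : ∃ vp : Fin k → Fin (k + 2) → MvPolynomial (Fin (k + 2)) (Polynomial ℂ),
    vp = fun l i => seg _ (v0 l i) (v1 l i) := ⟨_, rfl⟩
  obtain ⟨Φt, hΦt⟩ : ∃ Φt : ℂ → Fin (k + 2) → MvPolynomial (Fin (N + 1)) ℂ,
    Φt = fun t i => C (1 - t) * Φ0 i + C t * emb N ℂ (Φ1 i) := ⟨_, rfl⟩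
  obtain ⟨vt, hvt⟩ : ∃ vt : ℂ → Fin k → Fin (k + 2) → MvPolynomial (Fin (k + 2)) ℂ,
    vt = fun t l i => C (1 - t) * v0 l i + C t * v1 l i := ⟨_, rfl⟩
  have eΦ : ∀ t i, ev t (Fin (N + 1)) (Φp i) = Φt t i := by
    intro t i
    rw [hΦp, hΦt]
    exact h15_ev_seg t _ _ _
  have evv : ∀ t l i, ev t (Fin (k + 2)) (vp l i) = vt t l i := by
    intro t l i
    rw [hvp, hvt]
    exact h15_ev_seg t _ _ _
  have hembh : ∀ i, (emb N ℂ (Φ1 i)).IsHomogeneous (w i) := fun i =>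
    (h1.wh.hΦ i).rename_isHomogeneous
  have hWHt : ∀ t, WH w s (Φt t) (vt t) := by
    intro t
    refine ⟨fun i => ?_, fun l i => ?_⟩
    · rw [hΦt]
      exact ((h0.hΦ i).C_mul _).add ((hembh i).C_mul _)
    · rw [hvt]
      exact h15_wadd (h15_wC (h0.hv l i) _) (h15_wC (h1.wh.hv l i) _)
  have hclt : ∀ t, ClV (vt t) := by
    intro t
    rw [hvt]
    exact hcl t
  have hdec : ∀ t, Dec (stdF (Φt t) (vt t)) := fun t => stdF_dec _ _
  have hclo : ∀ t, Closed (stdF (Φt t) (vt t)) := fun t => stdF_closed _ _ (hclt t)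
  have hhom : ∀ t i j, (stdF (Φt t) (vt t) i j).IsHomogeneous 3 := fun t i j =>
    stdF_hom hw (hWHt t) hws i j
  -- the path
  obtain ⟨Ψ, hΨ⟩ : ∃ Ψ : Fin (N + 1) → MvPolynomial (Fin (N + 1)) (Polynomial ℂ),
    Ψ = fun j => C (Polynomial.C (((3 : ℕ) : ℂ) + 2)⁻¹) * ∑ i, X i * stdF Φp vp i j := ⟨_, rfl⟩
  have eΨ : ∀ t, (fun i => ev t (Fin (N + 1)) (Ψ i)) = radC 3 (stdF (Φt t) (vt t)) := by
    intro t
    funext j
    have hst : ∀ i, ev t (Fin (N + 1)) (stdF Φp vp i j) = stdF (Φt t) (vt t) i j := by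
      intro i
      have h2 := stdF_map (Polynomial.evalRingHom t) Φp vp i j
      have h3 : (fun i => MvPolynomial.map (Polynomial.evalRingHom t) (Φp i)) = Φt t :=
        funext fun i => eΦ t i
      have h4 : (fun l i => MvPolynomial.map (Polynomial.evalRingHom t) (vp l i)) = vt t :=
        funext fun l => funext fun i => evv t l i
      rw [h3, h4] at h2
      exact h2.symm
    rw [hΨ]
    show ev t (Fin (N + 1)) (C (Polynomial.C (((3 : ℕ) : ℂ) + 2)⁻¹) * ∑ i, X i * stdF Φp vp i j) = _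
    rw [map_mul, map_sum]
    unfold radC
    congr 1
    · unfold ev
      rw [MvPolynomial.map_C]
      simp
    · refine Finset.sum_congr rfl fun i _ => ?_
      rw [map_mul, hst]
      congr 1
      unfold ev
      rw [MvPolynomial.map_X]
  -- at `t = 0`
  have hSF : S ⊆ FolS (N + 1) 3 := by
    obtain ⟨⟨h2, _⟩, _⟩ := hS
    exact h2
  have hA0 : A' ∈ IntS (N + 1) 3 := (hSF hA.1).1
  have e0 : Φt 0 = Φ0 := by
    rw [hΦt]
    funext i
    simp
  have e0v : vt 0 = v0 := by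
    rw [hvt]
    funext l i
    simp
  have eΨ0 : (fun i => ev 0 (Fin (N + 1)) (Ψ i)) = A' := by
    rw [eΨ 0, e0, e0v, ← hdd]
    exact radC_dd hA0
  -- restriction
  have hres : ∀ t, res (radC 3 (stdF (Φt t) (vt t))) =
      radC 3 (stdF (fun i => at0 N ℂ (Φt t i)) (vt t)) := by
    intro t
    rw [res_radC]
    congr 1
    funext a b
    exact stdF_at0 _ _ a b
  have e1 : (fun i => at0 N ℂ (Φt 1 i)) = Φ1 := by
    funext i
    rw [hΦt]
    simp only [sub_self, map_zero, zero_mul, zero_add, map_one, one_mul]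
    exact at0_emb (Φ1 i)
  have e1v : vt 1 = v1 := by
    rw [hvt]
    funext l i
    simp
  have hWHq : ∀ t, WH w s (fun i => at0 N ℂ (Φt t i)) (vt t) := fun t =>
    ⟨fun i => at0_hom ((hWHt t).hΦ i), (hWHt t).hv⟩
  have hddres : ∀ t, dd (res (fun i => ev t (Fin (N + 1)) (Ψ i))) =
      stdF (fun i => at0 N ℂ (Φt t i)) (vt t) := by
    intro t
    rw [eΨ t, hres t]
    funext a b
    exact dd_radC (stdF_dec _ _) (stdF_closed _ _ (hclt t))
      (fun i j => stdF_hom hw (hWHq t) hws i j) a b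
  refine move (by omega) hS Ψ (fun t => ?_) ?_ ?_ ?_
  · rw [eΨ t]
    exact radC_mem (hdec t) (hclo t) (hhom t)
  · rw [eΨ0]
    exact hA
  · rw [eΨ 1, hres 1, e1, e1v]
    exact h1.cop
  -- the criterion
  obtain ⟨Φq, hΦq⟩ : ∃ Φq : Fin (k + 2) → MvPolynomial (Fin N) (Polynomial ℂ),
    Φq = fun i => at0 N (Polynomial ℂ) (Φp i) := ⟨_, rfl⟩
  have eΦq : ∀ t i, ev t (Fin N) (Φq i) = at0 N ℂ (Φt t i) := by
    intro t i
    rw [hΦq, ← eΦ t i]
    exact at0_map (Polynomial.evalRingHom t) (Φp i)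
  have hΦph : ∀ i, (Φp i).IsHomogeneous (w i) := by
    intro i
    rw [hΦp]
    exact h15_seg_hom (h0.hΦ i) (hembh i)
  have hΦqh : ∀ i, (Φq i).IsHomogeneous (w i) := by
    intro i
    rw [hΦq]
    exact at0_hom (hΦph i)
  have hvph : ∀ l i, IsWeightedHomogeneous w (vp l i) (w i + s l) := by
    intro l i
    rw [hvp]
    exact h15_seg_whom (h0.hv l i) (h1.wh.hv l i)
  obtain ⟨T, hT⟩ : ∃ T : Fin N → Fin (k + 2) → MvPolynomial (Fin N) (Polynomial ℂ),
    T = fun a i => pderiv a (Φq i) := ⟨_, rfl⟩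
  obtain ⟨r, hr⟩ : ∃ r : Fin k → Fin (k + 2) → MvPolynomial (Fin N) (Polynomial ℂ),
    r = fun l i => aeval Φq (vp l i) := ⟨_, rfl⟩
  have eT : ∀ t a i, ev t (Fin N) (T a i) = pderiv a (at0 N ℂ (Φt t i)) := by
    intro t a i
    rw [hT, ← eΦq t i]
    unfold ev
    exact (MvPolynomial.pderiv_map).symm
  have er : ∀ t l i, ev t (Fin N) (r l i) = aeval (fun i => at0 N ℂ (Φt t i)) (vt t l i) := by
    intro t l i
    rw [hr, ← evv t l i]
    have h2 : (fun i => at0 N ℂ (Φt t i)) = fun i => ev t (Fin N) (Φq i) := by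
      funext i
      rw [eΦq t i]
    rw [h2]
    exact h15_ev_aeval t Φq (vp l i)
  have hrh : ∀ l i, (r l i).IsHomogeneous (w i + s l) := by
    intro l i
    rw [hr]
    exact aeval_hom hΦqh (hvph l i)
  have hTh : ∀ a i, (T a i).IsHomogeneous (w i - 1) := by
    intro a i
    rw [hT]
    exact (hΦqh i).pderiv
  obtain ⟨g, hg⟩ : ∃ g : Fin 3 → MvPolynomial (Fin N) (Polynomial ℂ),
    g = fun i => ∑ J, cn (Fin N) (c i J) * mnr T r J := ⟨_, rfl⟩
  have hgh : ∀ i, (g i).IsHomogeneous (eg i) := by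
    intro i
    rw [hg]
    refine MvPolynomial.IsHomogeneous.sum _ _ _ fun J _ => ?_
    rcases h1.hc i J with h2 | ⟨a, h2, h3⟩
    · rw [h2, map_zero, zero_mul]
      exact MvPolynomial.isHomogeneous_zero _ _ _
    · have h4 : (cn (Fin N) (c i J)).IsHomogeneous a := h2.map _
      have h5 : (mnr T r J).IsHomogeneous (dg w s J) := mnr_hom w hw s T r hTh hrh J
      have h6 := h4.mul h5
      rw [h3] at h6
      exact h6
  have hgL : ∀ i, LiftI T r (g i) := by
    intro i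
    rw [hg]
    exact h15_LiftI_sum _ T r _ fun J _ => (LiftI_mnr r T J).mul _
  have eg1 : ∀ i, ev 1 (Fin N) (g i) = ∑ J, c i J *
      mnr (fun a i => pderiv a (Φ1 i)) (fun l i => aeval Φ1 (v1 l i)) J := by
    intro i
    rw [hg]
    show ev 1 (Fin N) (∑ J, cn (Fin N) (c i J) * mnr T r J) = _
    rw [map_sum]
    refine Finset.sum_congr rfl fun J _ => ?_
    rw [map_mul, h15_ev_cn, h15_mnr_map]
    congr 2
    · funext a i
      rw [eT, congrFun e1 i]
    · funext l i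
      rw [er, e1, e1v]
  have er1 : (fun l i => ev 1 (Fin N) (r l i)) = fun l i => aeval Φ1 (v1 l i) := by
    funext l i
    rw [er, e1, e1v]
  have hfin := good_family hN w s T r hrh g eg h1.heg hgh hgL ℓ el h1.hel h1.hℓ
    (by simp only [eg1]; exact h1.t1) (by simp only [eg1]; rw [er1]; exact h1.t2)
    (by rw [er1]; exact h1.t3)
  refine hfin.subset fun t ht => ?_
  intro hgood
  apply ht
  rw [hddres t]
  have h5 : stdF (fun i => at0 N ℂ (Φt t i)) (vt t) = fun a b =>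
      alp (fun l i => ev t (Fin N) (r l i)) (fun i => ev t (Fin N) (T a i))
        (fun i => ev t (Fin N) (T b i)) := by
    funext a b
    simp only [eT, er]
    rfl
  rw [h5]
  exact hgood

end Pool.Agent.Helper1.FG
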